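import Mathlib

/-!
# Definitions for MP_917a41_gt : Borel complexity of `AC_6`

The definitions needed for the statement: arcs, graphs, `n`-arc connectedness, the hyperspace
`C(I^N)`, the classes `Pi_3`, `Sigma_3`, and `D_2(Sigma_3)`-hardness.
-/

namespace Pool.Agent.H742.AC6

open Set Topology TopologicalSpace

universe u

section arcs

variable {Y : Type*} [TopologicalSpace Y]

/-- `S` is an arc with endpoints `a` and `b`: the image of an injective continuous map of
`[0,1]` which maps `0` to `a` and `1` to `b`. -/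
def IsArc (S : Set Y) (a b : Y) : Prop :=
  ∃ f : unitInterval → Y, Continuous f ∧ Function.Injective f ∧ f 0 = a ∧ f 1 = b ∧ range f = S

/-- `K` is a graph: it is connected, and the union of finitely many arcs which meet only in
endpoints. -/
def IsGraph (K : Set Y) : Prop :=
  IsConnected K ∧ ∃ (m : ℕ) (f : Fin m → unitInterval → Y),
    (∀ i, Continuous (f i)) ∧ (∀ i, Function.Injective (f i)) ∧ K = (⋃ i, range (f i)) ∧
    ∀ i j, i ≠ j → ∀ s t, f i s = f j t → (s = 0 ∨ s = 1) ∧ (t = 0 ∨ t = 1)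

/-- `K` is `n`-arc connected: any `n` points of `K` lie on an arc contained in `K`. -/
def NAC (n : ℕ) (K : Set Y) : Prop :=
  ∀ x : Fin n → Y, (∀ i, x i ∈ K) → ∃ A a b, IsArc A a b ∧ A ⊆ K ∧ ∀ i, x i ∈ A

end arcs

/-- The hyperspace `C(I^N)` of all subcontinua of the cube `[0,1]^N`, with the Vietoris topology
(the subspace topology from Mathlib's Vietoris topology on the nonempty compact subsets). -/
abbrev Cont (N : ℕ) : Type :=
  {K : NonemptyCompacts (Fin N → unitInterval) // IsConnected (K : Set (Fin N → unitInterval))}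

/-- The set `AC_n` of the subcontinua of `I^N` which are graphs, `n`-ac, and not `(n+1)`-ac. -/
def AC (N n : ℕ) : Set (Cont N) :=
  {K | IsGraph (K.1 : Set (Fin N → unitInterval)) ∧ NAC n (K.1 : Set (Fin N → unitInterval)) ∧
    ¬ NAC (n + 1) (K.1 : Set (Fin N → unitInterval))}

section classes

variable {Z : Type u} [TopologicalSpace Z]

/-- `F_σ` sets. -/
def IsSigma2 (s : Set Z) : Prop := ∃ F : ℕ → Set Z, (∀ n, IsClosed (F n)) ∧ s = ⋃ n, F n

/-- `G_δ` sets. -/
def IsPi2 (s : Set Z) : Prop := ∃ U : ℕ → Set Z, (∀ n, IsOpen (U n)) ∧ s = ⋂ n, U n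

/-- `F_σδ` sets. -/
def IsPi3 (s : Set Z) : Prop := ∃ F : ℕ → Set Z, (∀ n, IsSigma2 (F n)) ∧ s = ⋂ n, F n

/-- `G_δσ` sets. -/
def IsSigma3 (s : Set Z) : Prop := ∃ F : ℕ → Set Z, (∀ n, IsPi2 (F n)) ∧ s = ⋃ n, F n

end classes

/-- `C` is `D_2(Sigma_3)`-hard: every set `A ∩ B`, `A` a `Pi_3` set and `B` a `Sigma_3` set of a
zero-dimensional Polish space `Z`, is the preimage of `C` under a continuous map. -/
def D2Sigma3Hard {X : Type*} [TopologicalSpace X] (C : Set X) : Prop :=
  ∀ (Z : Type u) [TopologicalSpace Z] [PolishSpace Z],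
    IsTopologicalBasis {s : Set Z | IsClopen s} →
    ∀ A B : Set Z, IsPi3 A → IsSigma3 B → ∃ f : Z → X, Continuous f ∧ f ⁻¹' C = A ∩ B

end Pool.Agent.H742.AC6
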