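import Pool.Agent.H742.AC6.Gad

/-!
# Entries: path systems in a gadget, and their realisation
-/

namespace Pool.Agent.H742.AC6

open Set

/-- An entry: inner pattern `p`, outer pattern `q`, and a path system. -/
structure Entry where
  p : ℕ
  q : ℕ
  paths : List (List (Item × Bool))

namespace Gad

def first (G : Gad) (p : ℕ) : List (Item × Bool) → Vx
  | [] => .g 0
  | d :: _ => G.ds p d

def last (G : Gad) (p : ℕ) : List (Item × Bool) → Vx
  | [] => .g 0
  | d :: l => G.fin p d l

instance decVal (G : Gad) (p : ℕ) : ∀ x, Decidable (G.val p x)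
  | .full k => inferInstanceAs (Decidable (k < G.ne))
  | .lo k => inferInstanceAs (Decidable (k < G.ne))
  | .hi k => inferInstanceAs (Decidable (k < G.ne))
  | .str r => inferInstanceAs (Decidable (r < (strands p).length))

instance decChain (G : Gad) (p : ℕ) : ∀ l, Decidable (G.chain p l)
  | [] => isTrue trivial
  | [_] => isTrue trivial
  | d :: e :: l =>
    have := decChain G p (e :: l)
    inferInstanceAs (Decidable (G.dt p d = G.ds p e ∧ G.chain p (e :: l)))

/-- the ends of the path `l` are as prescribed by `o` -/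
def endsOK (G : Gad) (p : ℕ) (l : List (Item × Bool)) (o : End × End) : Prop :=
  (∀ i, o.1 = some i → G.first p l = .g (G.out i)) ∧
  (∀ i, o.2 = some i → G.last p l = .g (G.out i)) ∧
  ∀ i, Vx.g (G.out i) ∈ G.verts p l → o.1 = some i ∨ o.2 = some i

instance (G : Gad) (p : ℕ) (l : List (Item × Bool)) (o : End × End) :
    Decidable (G.endsOK p l o) := by
  unfold endsOK
  infer_instance

end Gad

/-- a valid entry -/
structure Entry.OK (G : Gad) (e : Entry) : Prop where
  len : e.paths.length = (strands e.q).length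
  path : ∀ l ∈ e.paths, l ≠ [] ∧ (∀ d ∈ l, G.val e.p d.1) ∧ G.chain e.p l
  vnd : (e.paths.flatMap (G.verts e.p)).Nodup
  knd : (e.paths.flatMap (fun l => l.map (fun d => d.1.key))).Nodup
  used : ∀ r < (strands e.p).length, ∃ l ∈ e.paths, ∃ d ∈ l, d.1 = Item.str r
  ends : ∀ r < (strands e.q).length,
    G.endsOK e.p (e.paths.getD r []) ((strands e.q).getD r (none, none))

instance (G : Gad) (e : Entry) : Decidable (e.OK G) :=
  decidable_of_iff (e.paths.length = (strands e.q).length ∧
    (∀ l ∈ e.paths, l ≠ [] ∧ (∀ d ∈ l, G.val e.p d.1) ∧ G.chain e.p l) ∧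
    (e.paths.flatMap (G.verts e.p)).Nodup ∧
    (e.paths.flatMap (fun l => l.map (fun d => d.1.key))).Nodup ∧
    (∀ r < (strands e.p).length, ∃ l ∈ e.paths, ∃ d ∈ l, d.1 = Item.str r) ∧
    (∀ r < (strands e.q).length,
      G.endsOK e.p (e.paths.getD r []) ((strands e.q).getD r (none, none))))
    ⟨fun ⟨a, b, c, d, e, f⟩ => ⟨a, b, c, d, e, f⟩, fun h => ⟨h.1, h.2, h.3, h.4, h.5, h.6⟩⟩

/-- subarcs -/
def S_SUB : Prop := ∀ (Y : Type) [TopologicalSpace Y] (f : unitInterval → Y) (s t : unitInterval),
  Continuous f → Function.Injective f → s < t → IsArc (f '' Set.Icc s t) (f s) (f t)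

section topo

variable {Y : Type} [TopologicalSpace Y] [T2Space Y]

/-- realisation of items -/
def itA (f : ℕ → unitInterval → Y) (B : ℕ → Set Y) (c c' : ℕ → unitInterval) : Item → Set Y
  | .full k => range (f k)
  | .lo k => f k '' Icc 0 (c k)
  | .hi k => f k '' Icc (c' k) 1
  | .str r => B r

/-- positions of vertices -/
def vps (pos : ℕ → Y) (f : ℕ → unitInterval → Y) (c c' : ℕ → unitInterval) (aa bb : ℕ → Y) :
    Vx → Y
  | .g v => pos v
  | .l k => f k (c k)
  | .u k => f k (c' k)
  | .a r => aa r
  | .b r => bb r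

/-- the index of an edge item -/
def Item.ix : Item → Option ℕ
  | .full k => some k
  | .lo k => some k
  | .hi k => some k
  | .str _ => none

variable {G : Gad} {pos : ℕ → Y} {f : ℕ → unitInterval → Y} {T : Set Y} {B : ℕ → Set Y}
  {c c' : ℕ → unitInterval} {aa bb : ℕ → Y} {p : ℕ}

omit [T2Space Y] in
theorem edge_side (hG : Glue G pos f T) (hc : ∀ k, c k < 1) (hc' : ∀ k, 0 < c' k)
    (x : Item) (k : ℕ) (hx : x.ix = some k) (hk : k < G.ne) (y : Y)
    (hy : y ∈ itA f B c c' x) : ∃ s, y = f k s ∧
      ∀ v, y = pos v → (v = G.src k ∨ v = G.tgt k) → (Vx.g v = G.e1 p x ∨ Vx.g v = G.e2 p x) := by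
  cases x with
  | full j =>
    simp only [Item.ix, Option.some.injEq] at hx
    subst hx
    obtain ⟨s, rfl⟩ := hy
    refine ⟨s, rfl, ?_⟩
    rintro v - (h | h)
    · left; rw [h]; rfl
    · right; rw [h]; rfl
  | lo j =>
    simp only [Item.ix, Option.some.injEq] at hx
    subst hx
    obtain ⟨s, hs, rfl⟩ := hy
    refine ⟨s, rfl, ?_⟩
    rintro v hv (h | h)
    · left; rw [h]; rfl
    · exfalso
      rw [h, ← hG.f1 j hk] at hv
      have := hG.fi j hk hv
      have h2 := hs.2
      rw [this] at h2
      exact absurd (hc j) (not_lt.2 h2)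
  | hi j =>
    simp only [Item.ix, Option.some.injEq] at hx
    subst hx
    obtain ⟨s, hs, rfl⟩ := hy
    refine ⟨s, rfl, ?_⟩
    rintro v hv (h | h)
    · exfalso
      rw [h, ← hG.f0 j hk] at hv
      have := hG.fi j hk hv
      have h2 := hs.1
      rw [this] at h2
      exact absurd (hc' j) (not_lt.2 h2)
    · right; rw [h]; rfl
  | str r => simp [Item.ix] at hx

omit [T2Space Y] in
theorem strand_side (hB : ∀ r < (strands p).length,
      Strand T (fun i => pos (G.inn i)) ((strands p).getD r (none, none)) (B r))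
    (r : ℕ) (hr : r < (strands p).length) (i : Fin 3) (hi : pos (G.inn i) ∈ B r) :
    Vx.g (G.inn i) = G.e1 p (.str r) ∨ Vx.g (G.inn i) = G.e2 p (.str r) := by
  obtain ⟨a, b, -, -, -, -, h⟩ := hB r hr
  rcases h i hi with h | h
  · left; simp only [Gad.e1]; rw [h]
  · right; simp only [Gad.e2]; rw [h]

omit [T2Space Y] in
theorem val_ix {x : Item} {k : ℕ} (hx : x.ix = some k) (hv : G.val p x) : k < G.ne := by
  cases x <;> simp only [Item.ix, Option.some.injEq, reduceCtorEq] at hx <;> subst hx <;> exact hv

omit [T2Space Y] in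
theorem realises (hsub : S_SUB) (hG : Glue G pos f T) (hc : ∀ k, c k < 1) (hc' : ∀ k, 0 < c' k)
    (hcc : ∀ k, c' k ≤ c k)
    (hB : ∀ r < (strands p).length,
      Strand T (fun i => pos (G.inn i)) ((strands p).getD r (none, none)) (B r))
    (hBe : ∀ r < (strands p).length, IsArc (B r) (aa r) (bb r) ∧
      (∀ i, ((strands p).getD r (none, none)).1 = some i → aa r = pos (G.inn i)) ∧
      (∀ i, ((strands p).getD r (none, none)).2 = some i → bb r = pos (G.inn i)))
    (hBT : ∀ r < (strands p).length, B r ⊆ T)
    (hBd : ∀ r < (strands p).length, ∀ r' < (strands p).length, r ≠ r' → Disjoint (B r) (B r')) :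
    Realises G p (itA f B c c') (vps pos f c c' aa bb) := by
  constructor
  · intro x hx
    cases x with
    | full k =>
      exact ⟨f k, hG.fc k hx, hG.fi k hx, hG.f0 k hx, hG.f1 k hx, rfl⟩
    | lo k =>
      have := hsub Y (f k) 0 (c k) (hG.fc k hx) (hG.fi k hx) (lt_of_lt_of_le (hc' k) (hcc k))
      rw [hG.f0 k hx] at this
      exact this
    | hi k =>
      have := hsub Y (f k) (c' k) 1 (hG.fc k hx) (hG.fi k hx) (lt_of_le_of_lt (hcc k) (hc k))
      rw [hG.f1 k hx] at this
      exact this
    | str r =>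
      obtain ⟨h1, h2, h3⟩ := hBe r hx
      have e1 : vps pos f c c' aa bb (G.e1 p (.str r)) = aa r := by
        unfold Gad.e1
        rcases h : ((strands p).getD r (none, none)).1 with _ | i
        · simp only [h]; rfl
        · simp only [h]; exact (h2 i h).symm
      have e2 : vps pos f c c' aa bb (G.e2 p (.str r)) = bb r := by
        unfold Gad.e2
        rcases h : ((strands p).getD r (none, none)).2 with _ | i
        · simp only [h]; rfl
        · simp only [h]; exact (h3 i h).symm
      rw [e1, e2]
      exact h1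
  · intro x y hx hy hxy d hdx hdy
    rcases hix : x.ix with _ | k
    · -- x is a strand
      cases x with
      | full k => simp [Item.ix] at hix
      | lo k => simp [Item.ix] at hix
      | hi k => simp [Item.ix] at hix
      | str r =>
        rcases hiy : y.ix with _ | l
        · cases y with
          | full k => simp [Item.ix] at hiy
          | lo k => simp [Item.ix] at hiy
          | hi k => simp [Item.ix] at hiy
          | str r' =>
            exfalso
            have hrr : r ≠ r' := by rintro rfl; exact hxy rfl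
            exact Set.disjoint_left.1 (hBd r hx r' hy hrr) hdx hdy
        · have hl := val_ix hiy hy
          obtain ⟨s, hs, hv⟩ := edge_side (p := p) hG hc hc' y l hiy hl d hdy
          have hdT : f l s ∈ T := by rw [← hs]; exact hBT r hx hdx
          obtain ⟨i, hi1, hi2⟩ := hG.fT l hl s hdT
          refine ⟨.g (G.inn i), by rw [hs]; exact hi1, ?_, ?_⟩
          · apply strand_side hB r hx i
            rw [← hi1, ← hs]
            exact hdx
          · exact hv _ (by rw [hs]; exact hi1) hi2
    · have hk := val_ix hix hx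
      obtain ⟨s, hs, hv⟩ := edge_side (p := p) hG hc hc' x k hix hk d hdx
      rcases hiy : y.ix with _ | l
      · cases y with
        | full k => simp [Item.ix] at hiy
        | lo k => simp [Item.ix] at hiy
        | hi k => simp [Item.ix] at hiy
        | str r =>
          have hdT : f k s ∈ T := by rw [← hs]; exact hBT r hy hdy
          obtain ⟨i, hi1, hi2⟩ := hG.fT k hk s hdT
          refine ⟨.g (G.inn i), by rw [hs]; exact hi1, ?_, ?_⟩
          · exact hv _ (by rw [hs]; exact hi1) hi2
          · apply strand_side hB r hy i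
            rw [← hi1, ← hs]
            exact hdy
      · have hl := val_ix hiy hy
        obtain ⟨t, ht, hw⟩ := edge_side (p := p) hG hc hc' y l hiy hl d hdy
        have hkl : k ≠ l := by
          rintro rfl
          apply hxy
          cases x <;> cases y <;> simp_all [Item.ix, Item.key]
        obtain ⟨v, hv1, hv2, hv3⟩ := hG.fmeet k hk l hl hkl s t (by rw [← hs, ← ht])
        exact ⟨.g v, by rw [hs]; exact hv1, hv v (by rw [hs]; exact hv1) hv2,
          hw v (by rw [hs]; exact hv1) hv3⟩

omit [T2Space Y] in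
/-- a gadget vertex on an item is one of its ends -/
theorem vertex_item (hG : Glue G pos f T) (hc : ∀ k, c k < 1) (hc' : ∀ k, 0 < c' k)
    (hB : ∀ r < (strands p).length,
      Strand T (fun i => pos (G.inn i)) ((strands p).getD r (none, none)) (B r))
    (hBT : ∀ r < (strands p).length, B r ⊆ T)
    (x : Item) (hx : G.val p x) (v : ℕ) (hv : v < G.nv) (hy : pos v ∈ itA f B c c' x) :
    Vx.g v = G.e1 p x ∨ Vx.g v = G.e2 p x := by
  rcases hix : x.ix with _ | k
  · cases x with
    | full k => simp [Item.ix] at hix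
    | lo k => simp [Item.ix] at hix
    | hi k => simp [Item.ix] at hix
    | str r =>
      obtain ⟨i, rfl⟩ := hG.pT v hv (hBT r hx hy)
      exact strand_side hB r hx i hy
  · have hk := val_ix hix hx
    obtain ⟨s, hs, h⟩ := edge_side (p := p) hG hc hc' x k hix hk _ hy
    exact h v rfl (hG.pf v hv k hk s hs.symm)

omit [T2Space Y] in
theorem verts_sub (l : List (Item × Bool)) (hc : G.chain p l) :
    ∀ w ∈ G.verts p l, ∃ d ∈ l, w = G.e1 p d.1 ∨ w = G.e2 p d.1 := by
  induction l with
  | nil => intro w hw; simp [Gad.verts] at hw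
  | cons d l ih =>
    cases l with
    | nil =>
      intro w hw
      refine ⟨d, by simp, ?_⟩
      simp only [Gad.verts, Gad.ds, Gad.dt, List.mem_cons, List.not_mem_nil, or_false] at hw
      rcases hd : d.2 <;> rw [hd] at hw <;> simp at hw <;> tauto
    | cons e l =>
      intro w hw
      simp only [Gad.verts, List.mem_cons] at hw
      rcases hw with hw | hw
      · refine ⟨d, by simp, ?_⟩
        simp only [Gad.ds] at hw
        rcases hd : d.2 <;> rw [hd] at hw <;> simp at hw <;> tauto
      · obtain ⟨x, hx, h⟩ := ih hc.2 w hw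
        exact ⟨x, List.mem_cons_of_mem _ hx, h⟩

/-- realisation of an entry -/
theorem entry_sound (hcat : S_CONCAT) (hsub : S_SUB) (hG : Glue G pos f T)
    (hout : ∀ i, G.out i < G.nv)
    (e : Entry) (he : e.OK G) (hc : ∀ k, c k < 1) (hc' : ∀ k, 0 < c' k) (hcc : ∀ k, c' k ≤ c k)
    (hB : ∀ r < (strands e.p).length,
      Strand T (fun i => pos (G.inn i)) ((strands e.p).getD r (none, none)) (B r))
    (hBd : ∀ r < (strands e.p).length, ∀ r' < (strands e.p).length, r ≠ r' →
      Disjoint (B r) (B r')) (S : Set Y)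
    (hS : ∀ y ∈ S, (∃ r < (strands e.p).length, y ∈ B r) ∨
      (∃ l ∈ e.paths, y ∈ US (itA f B c c') l) ∨
      (∃ v, y = pos v ∧ ∃ l ∈ e.paths, Vx.g v ∈ G.verts e.p l)) :
    Rlz (T ∪ edges G f) (fun i => pos (G.out i)) (strands e.q) S := by
  classical
  have : Nonempty Y := ⟨pos 0⟩
  choose! aa bb hab using hB
  have hB' : ∀ r < (strands e.p).length,
      Strand T (fun i => pos (G.inn i)) ((strands e.p).getD r (none, none)) (B r) :=
    fun r hr => ⟨aa r, bb r, hab r hr⟩
  have hBT : ∀ r < (strands e.p).length, B r ⊆ T := fun r hr => (hab r hr).2.1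
  have hR := realises (aa := aa) (bb := bb) hsub hG hc hc' hcc hB'
    (fun r hr => ⟨(hab r hr).1, (hab r hr).2.2.1, (hab r hr).2.2.2.1⟩) hBT hBd
  have hmem : ∀ r < (strands e.q).length, e.paths.getD r [] ∈ e.paths := by
    intro r hr
    rw [← he.len] at hr
    rw [List.getD_eq_getElem _ _ hr]
    exact List.getElem_mem hr
  refine ⟨fun r => US (itA f B c c') (e.paths.getD r []), ?_, ?_, ?_⟩
  · intro r hr
    obtain ⟨hne, hval, hch⟩ := he.path _ (hmem r hr)
    obtain ⟨he1, he2, he3⟩ := he.ends r hr
    have hvn : (G.verts e.p (e.paths.getD r [])).Nodup :=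
      (List.nodup_flatMap.1 he.vnd).1 _ (hmem r hr)
    have hkn : ((e.paths.getD r []).map (fun d => d.1.key)).Nodup :=
      (List.nodup_flatMap.1 he.knd).1 _ (hmem r hr)
    have hmem' := hmem r hr
    beta_reduce
    generalize e.paths.getD r [] = l at *
    cases l with
    | nil => exact absurd rfl hne
    | cons d l =>
      refine ⟨_, _, path_arc hcat hR l d hval hch hvn hkn, ?_, ?_, ?_, ?_⟩
      · rintro y ⟨x, hx, hy⟩
        have hv := hval x hx
        rcases hx' : x.1 with k | k | k | k <;> rw [hx'] at hy hv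
        · exact Or.inr ⟨k, hv, hy⟩
        · obtain ⟨s, -, rfl⟩ := hy
          exact Or.inr ⟨k, hv, ⟨s, rfl⟩⟩
        · obtain ⟨s, -, rfl⟩ := hy
          exact Or.inr ⟨k, hv, ⟨s, rfl⟩⟩
        · exact Or.inl (hBT k hv hy)
      · intro i hi
        have := he1 i hi
        simp only [Gad.first] at this
        rw [this]
        rfl
      · intro i hi
        have := he2 i hi
        simp only [Gad.last] at this
        rw [this]
        rfl
      · intro i hi
        obtain ⟨x, hx, hy⟩ := hi
        apply he3 i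
        have h1 := vertex_item (p := e.p) hG hc hc' hB' hBT x.1 (hval x hx) _ (hout i) hy
        have h2 := verts_mem (d :: l) hch x hx
        rcases h1 with h | h
        · rw [h]; exact h2.1
        · rw [h]; exact h2.2
  · intro r hr r' hr' hrr
    obtain ⟨hne, hval, hch⟩ := he.path _ (hmem r hr)
    obtain ⟨hne', hval', hch'⟩ := he.path _ (hmem r' hr')
    rw [← he.len] at hr hr'
    have hpv := (List.nodup_flatMap.1 he.vnd).2
    have hpk := (List.nodup_flatMap.1 he.knd).2
    have key : ∀ {α : Type} (F : List (Item × Bool) → List α),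
        List.Pairwise (Function.onFun List.Disjoint F) e.paths →
        List.Disjoint (F (e.paths.getD r [])) (F (e.paths.getD r' [])) := by
      intro α F hF
      rw [List.getD_eq_getElem _ _ hr, List.getD_eq_getElem _ _ hr']
      rcases lt_or_gt_of_ne hrr with h | h
      · exact List.pairwise_iff_getElem.1 hF r r' hr hr' h
      · exact (List.pairwise_iff_getElem.1 hF r' r hr' hr h).symm
    apply path_disj hR _ _ hval hval' hch hch' (key _ hpv)
    intro d hd d' hd' heq
    have := key _ hpk
    exact this (List.mem_map_of_mem hd) (by rw [heq]; exact List.mem_map_of_mem hd')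
  · intro y hy
    have hfin : ∀ l ∈ e.paths, y ∈ US (itA f B c c') l →
        ∃ r < (strands e.q).length, y ∈ US (itA f B c c') (e.paths.getD r []) := by
      intro l hl hyl
      obtain ⟨r, hr, rfl⟩ := List.getElem_of_mem hl
      refine ⟨r, by rw [← he.len]; exact hr, ?_⟩
      rw [List.getD_eq_getElem _ _ hr]
      exact hyl
    rcases hS y hy with ⟨r, hr, hyr⟩ | ⟨l, hl, hyl⟩ | ⟨v, hv, l, hl, hvl⟩
    · obtain ⟨l, hl, d, hd, hdr⟩ := he.used r hr
      exact hfin l hl ⟨d, hd, by rw [hdr]; exact hyr⟩
    · exact hfin l hl hyl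
    · obtain ⟨-, hval, hch⟩ := he.path l hl
      obtain ⟨d, hd, h⟩ := verts_sub l hch _ hvl
      refine hfin l hl ⟨d, hd, ?_⟩
      obtain ⟨φ, -, -, h0, h1, hr⟩ := hR.arc d.1 (hval d hd)
      rw [hv, ← hr]
      rcases h with h | h
      · exact ⟨0, by rw [h0, ← h]; rfl⟩
      · exact ⟨1, by rw [h1, ← h]; rfl⟩

end topo

end Pool.Agent.H742.AC6
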