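import Pool.Agent.H742.AC6.Stm2

/-!
# `S_BADPI` of MP_917a41_gt: infinitely many bumps in a block: not a graph
-/

namespace Pool.Agent.H742.AC6

open Set Topology TopologicalSpace

namespace BADPI

noncomputable section

/-- the parametrization of bump `n` of block `M` -/
def cur (M n : ℕ) (t : ℝ) : Fin 3 → ℝ :=
  W (xx M (n + 1) + t * (xx M n - xx M (n + 1))) (bv true * ((1 / 2) ^ M / 8) * (1 - |2 * t - 1|))

theorem cur_one (M n : ℕ) (t : ℝ) :
    cur M n t 1 = 1 + (xx M (n + 1) + t * (xx M n - xx M (n + 1))) := by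
  simp [cur, W]

theorem cur_zero (M n : ℕ) (t : ℝ) :
    cur M n t 0 = (1 / 2) ^ M / 8 * (1 - |2 * t - 1|) := by
  simp [cur, W, bv]

theorem cont_W {f g : ℝ → ℝ} (hf : Continuous f) (hg : Continuous g) :
    Continuous fun t => W (f t) (g t) := by
  refine continuous_pi fun k => ?_
  unfold W
  by_cases h1 : k = 1
  · simp only [if_pos h1]
    exact continuous_const.add hf
  · simp only [if_neg h1]
    by_cases h0 : k = 0
    · simp only [if_pos h0]
      exact hg
    · simp only [if_neg h0]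
      exact continuous_const

theorem cont_cur (M n : ℕ) : Continuous (cur M n) := by
  refine cont_W ?_ ?_
  · fun_prop
  · fun_prop

theorem xx_sub (M n : ℕ) : xx M n - xx M (n + 1) = (1 / 2) ^ M / 8 * (1 / 2) ^ n := by
  unfold xx
  rw [pow_succ]
  ring

theorem xx_sub_pos (M n : ℕ) : 0 < xx M n - xx M (n + 1) := by
  rw [xx_sub]
  positivity

theorem xx_anti (M : ℕ) : Antitone (xx M) :=
  antitone_nat_of_succ_le fun n => by linarith [xx_sub_pos M n]

/-- the upper part of the bump -/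
def CC (M n : ℕ) : Set (Fin 3 → ℝ) := cur M n '' Icc (1 / 4) (1 / 2)

theorem CC_coord {M n : ℕ} {y : Fin 3 → ℝ} (hy : y ∈ CC M n) :
    1 + xx M (n + 1) < y 1 ∧ y 1 < 1 + xx M n := by
  obtain ⟨t, ht, rfl⟩ := hy
  rw [cur_one]
  have h1 := xx_sub_pos M n
  have h2 := ht.1
  have h3 := ht.2
  constructor <;> nlinarith

theorem CC_disj {M n m : ℕ} (h : n < m) : Disjoint (CC M n) (CC M m) := by
  rw [Set.disjoint_left]
  intro y h1 h2
  have h3 := (CC_coord h1).1
  have h4 := (CC_coord h2).2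
  have h5 : xx M m ≤ xx M (n + 1) := xx_anti M h
  linarith

theorem CC_conn (M n : ℕ) : IsConnected (CC M n) :=
  (isConnected_Icc (by norm_num)).image _ (cont_cur M n).continuousOn

theorem CC_sub (g : ℕ → ℝ) (b : ℕ → ℕ → Bool) {M n : ℕ} (h : b M n = true) :
    CC M n ⊆ KK g b := by
  rintro y ⟨t, ht, rfl⟩
  refine Or.inr (Or.inr (mem_iUnion.2 ⟨M, Or.inr (mem_iUnion.2 ⟨n, ?_⟩)⟩))
  rw [h]
  exact ⟨t, ⟨by linarith [ht.1], by linarith [ht.2]⟩, rfl⟩

theorem CC_dist (M n : ℕ) : (1 / 2) ^ M / 16 ≤ dist (cur M n (1 / 4)) (cur M n (1 / 2)) := by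
  refine le_trans ?_ (dist_le_pi_dist (cur M n (1 / 4)) (cur M n (1 / 2)) 0)
  rw [cur_zero, cur_zero, Real.dist_eq]
  have h1 : |2 * (1 / 4 : ℝ) - 1| = 1 / 2 := by
    rw [abs_of_nonpos (by norm_num)]
    norm_num
  have h2 : |2 * (1 / 2 : ℝ) - 1| = 0 := by norm_num
  rw [h1, h2]
  have h3 : (1 / 2 : ℝ) ^ M / 8 * (1 - 1 / 2) - (1 / 2) ^ M / 8 * (1 - 0) =
      -((1 / 2) ^ M / 16) := by ring
  rw [h3, abs_neg]
  exact le_abs_self _

end

end BADPI

open BADPI in
theorem t_BADPI : S_NG2 → S_BADPI := by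
  intro hNG g b _ hM hK
  obtain ⟨M, hM⟩ := hM
  refine hNG _ _ ((1 / 2) ^ M / 16) (by positivity) hK
    ⟨fun j => CC M (hM.natEmbedding _ j), fun j => CC_sub g b (hM.natEmbedding _ j).2, ?_, ?_⟩
  · intro i j hij
    have h1 : ((hM.natEmbedding _ i : {n | b M n = true}) : ℕ) ≠
        (hM.natEmbedding _ j : {n | b M n = true}) := by
      intro h
      exact hij ((hM.natEmbedding _).injective (Subtype.ext h))
    rcases lt_or_gt_of_ne h1 with h | h
    · exact CC_disj h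
    · exact (CC_disj h).symm
  · intro j
    exact ⟨CC_conn _ _, cur M _ (1 / 4), ⟨1 / 4, by norm_num, rfl⟩, cur M _ (1 / 2),
      ⟨1 / 2, by norm_num, rfl⟩, CC_dist _ _⟩

end Pool.Agent.H742.AC6
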