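import Pool.Agent.H742.AC6.Stm2

/-!
# Infinitely many full layers: not a graph
-/

namespace Pool.Agent.H742.AC6

open Set Topology TopologicalSpace

namespace BADSIGMA

noncomputable section

theorem P0_0 (r t : ℝ) : P 0 r t 0 = r * (1 - t) := by simp [P]

theorem P0_1 (r t : ℝ) : P 0 r t 1 = r * (3 / 2) * t := by simp [P]

theorem P0_2 (r t : ℝ) : P 0 r t 2 = 0 := by simp [P]

theorem size_P (r t : ℝ) : size (P 0 r t) = r * (1 + t / 2) := by
  rw [size, P0_0, P0_1, P0_2]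
  ring

/-- the three arms of the triod -/
def arm (s : ℝ) (j : Fin 3) : Set (Fin 3 → ℝ) :=
  if j = 0 then Ax 0 (s * (9 / 16)) (s * (5 / 8))
  else if j = 1 then Ax 0 (s * (5 / 8)) (s * (11 / 16))
  else (fun t => P 0 (s * (5 / 8)) t) '' Icc 0 (1 / 2)

/-- the three ends of the triod -/
def tip (s : ℝ) (j : Fin 3) : Fin 3 → ℝ :=
  if j = 0 then P 0 (s * (9 / 16)) 0
  else if j = 1 then P 0 (s * (11 / 16)) 0
  else P 0 (s * (5 / 8)) (1 / 2)

theorem arm0 (s : ℝ) : arm s 0 = Ax 0 (s * (9 / 16)) (s * (5 / 8)) := if_pos rfl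

theorem arm1 (s : ℝ) : arm s 1 = Ax 0 (s * (5 / 8)) (s * (11 / 16)) := by
  rw [arm, if_neg (by decide), if_pos rfl]

theorem arm2 (s : ℝ) : arm s 2 = (fun t => P 0 (s * (5 / 8)) t) '' Icc 0 (1 / 2) := by
  rw [arm, if_neg (by decide), if_neg (by decide)]

theorem tip0 (s : ℝ) : tip s 0 = P 0 (s * (9 / 16)) 0 := if_pos rfl

theorem tip1 (s : ℝ) : tip s 1 = P 0 (s * (11 / 16)) 0 := by
  rw [tip, if_neg (by decide), if_pos rfl]

theorem tip2 (s : ℝ) : tip s 2 = P 0 (s * (5 / 8)) (1 / 2) := by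
  rw [tip, if_neg (by decide), if_neg (by decide)]

theorem fin3 {p : Fin 3 → Prop} (h0 : p 0) (h1 : p 1) (h2 : p 2) (j : Fin 3) : p j := by
  fin_cases j
  · exact h0
  · exact h1
  · exact h2

theorem cont_r : Continuous fun r : ℝ => P 0 r 0 := by
  refine continuous_pi fun k => ?_
  unfold P
  split_ifs <;> fun_prop

theorem cont_t (r : ℝ) : Continuous fun t : ℝ => P 0 r t := by
  refine continuous_pi fun k => ?_
  unfold P
  split_ifs <;> fun_prop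

theorem conn_Ax {a b : ℝ} (h : a ≤ b) : IsConnected (Ax 0 a b) :=
  (isConnected_Icc h).image _ cont_r.continuousOn

theorem arm_conn {s : ℝ} (hs : 0 < s) : ∀ j, IsConnected (arm s j) := by
  refine fin3 ?_ ?_ ?_
  · rw [arm0]
    exact conn_Ax (by linarith)
  · rw [arm1]
    exact conn_Ax (by linarith)
  · rw [arm2]
    exact (isConnected_Icc (by norm_num)).image _ (cont_t _).continuousOn

theorem o_mem {s : ℝ} (hs : 0 < s) : ∀ j, P 0 (s * (5 / 8)) 0 ∈ arm s j := by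
  refine fin3 ?_ ?_ ?_
  · rw [arm0]
    exact ⟨_, ⟨by linarith, le_rfl⟩, rfl⟩
  · rw [arm1]
    exact ⟨_, ⟨le_rfl, by linarith⟩, rfl⟩
  · rw [arm2]
    exact ⟨0, ⟨le_rfl, by norm_num⟩, rfl⟩

theorem tip_mem {s : ℝ} (hs : 0 < s) : ∀ j, tip s j ∈ arm s j := by
  refine fin3 ?_ ?_ ?_
  · rw [arm0, tip0]
    exact ⟨_, ⟨le_rfl, by linarith⟩, rfl⟩
  · rw [arm1, tip1]
    exact ⟨_, ⟨by linarith, le_rfl⟩, rfl⟩
  · rw [arm2, tip2]
    exact ⟨1 / 2, ⟨by norm_num, le_rfl⟩, rfl⟩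

theorem tip_not {s : ℝ} (hs : 0 < s) : ∀ i j, j ≠ i → tip s i ∉ arm s j := by
  refine fin3 (fin3 ?_ ?_ ?_) (fin3 ?_ ?_ ?_) (fin3 ?_ ?_ ?_)
  · intro h
    exact absurd rfl h
  · rintro - h
    rw [arm1, tip0] at h
    obtain ⟨r, ⟨h1, h2⟩, h3⟩ := h
    have h4 := congrFun h3 0
    simp only [P0_0] at h4
    linarith
  · rintro - h
    rw [arm2, tip0] at h
    obtain ⟨t, ⟨h1, h2⟩, h3⟩ := h
    have h4 := congrFun h3 0
    have h5 := congrFun h3 1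
    simp only [P0_0] at h4
    simp only [P0_1] at h5
    nlinarith
  · rintro - h
    rw [arm0, tip1] at h
    obtain ⟨r, ⟨h1, h2⟩, h3⟩ := h
    have h4 := congrFun h3 0
    simp only [P0_0] at h4
    linarith
  · intro h
    exact absurd rfl h
  · rintro - h
    rw [arm2, tip1] at h
    obtain ⟨t, ⟨h1, h2⟩, h3⟩ := h
    have h4 := congrFun h3 0
    simp only [P0_0] at h4
    nlinarith [mul_nonneg hs.le h1]
  · rintro - h
    rw [arm0, tip2] at h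
    obtain ⟨r, ⟨h1, h2⟩, h3⟩ := h
    have h4 := congrFun h3 1
    simp only [P0_1] at h4
    linarith
  · rintro - h
    rw [arm1, tip2] at h
    obtain ⟨r, ⟨h1, h2⟩, h3⟩ := h
    have h4 := congrFun h3 1
    simp only [P0_1] at h4
    linarith
  · intro h
    exact absurd rfl h

/-- the triod -/
def Tri (s : ℝ) : Set (Fin 3 → ℝ) := ⋃ j, arm s j

theorem hasTriod {s : ℝ} (hs : 0 < s) : HasTriod (Tri s) := by
  refine ⟨⟨⟨P 0 (s * (5 / 8)) 0, mem_iUnion.2 ⟨0, o_mem hs 0⟩⟩, ?_⟩, tip s, ?_, ?_⟩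
  · exact isPreconnected_iUnion ⟨P 0 (s * (5 / 8)) 0, mem_iInter.2 (o_mem hs)⟩ fun j =>
      (arm_conn hs j).isPreconnected
  · intro i
    exact mem_iUnion.2 ⟨i, tip_mem hs i⟩
  · intro i
    refine ⟨⋃ j : {j : Fin 3 // j ≠ i}, arm s j, ?_, ⟨?_, ?_⟩, ?_, ?_⟩
    · intro y hy
      obtain ⟨j, hj⟩ := mem_iUnion.1 hy
      exact mem_iUnion.2 ⟨j, hj⟩
    · obtain ⟨j, hj⟩ : ∃ j : Fin 3, j ≠ i := exists_ne i
      exact ⟨P 0 (s * (5 / 8)) 0, mem_iUnion.2 ⟨⟨j, hj⟩, o_mem hs j⟩⟩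
    · exact isPreconnected_iUnion ⟨P 0 (s * (5 / 8)) 0, mem_iInter.2 fun j => o_mem hs j⟩
        fun j => (arm_conn hs j).isPreconnected
    · intro h
      obtain ⟨j, hj⟩ := mem_iUnion.1 h
      exact tip_not hs i j j.2 hj
    · intro j hj
      exact mem_iUnion.2 ⟨⟨j, hj⟩, tip_mem hs j⟩

theorem size_Tri {s : ℝ} (hs : 0 < s) {y : Fin 3 → ℝ} (hy : y ∈ Tri s) :
    s / 2 < size y ∧ size y < s := by
  obtain ⟨j, hj⟩ := mem_iUnion.1 hy
  revert j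
  refine fin3 ?_ ?_ ?_
  · intro hj
    rw [arm0] at hj
    obtain ⟨r, ⟨h1, h2⟩, rfl⟩ := hj
    change s / 2 < size (P 0 r 0) ∧ size (P 0 r 0) < s
    rw [size_P]
    constructor <;> linarith
  · intro hj
    rw [arm1] at hj
    obtain ⟨r, ⟨h1, h2⟩, rfl⟩ := hj
    change s / 2 < size (P 0 r 0) ∧ size (P 0 r 0) < s
    rw [size_P]
    constructor <;> linarith
  · intro hj
    rw [arm2] at hj
    obtain ⟨t, ⟨h1, h2⟩, rfl⟩ := hj
    change s / 2 < size (P 0 (s * (5 / 8)) t) ∧ size (P 0 (s * (5 / 8)) t) < s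
    rw [size_P]
    have h3 : 0 ≤ s * t := mul_nonneg hs.le h1
    have h4 : s * t ≤ s * (1 / 2) := mul_le_mul_of_nonneg_left h2 hs.le
    constructor <;> nlinarith

theorem sg_pos (n : ℕ) : 0 < sg n := by
  unfold sg
  positivity

theorem sg_le {n m : ℕ} (h : n < m) : sg m ≤ sg n / 2 := by
  have h1 : sg m ≤ sg (n + 1) := pow_le_pow_of_le_one (by norm_num) (by norm_num) h
  have h2 : sg (n + 1) = sg n / 2 := by
    unfold sg
    rw [pow_succ]
    ring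
  rwa [h2] at h1

theorem disj {n m : ℕ} (h : n ≠ m) : Disjoint (Tri (sg n)) (Tri (sg m)) := by
  rw [Set.disjoint_left]
  intro y hy hy'
  have h1 := size_Tri (sg_pos n) hy
  have h2 := size_Tri (sg_pos m) hy'
  rcases lt_or_gt_of_ne h with h | h
  · have := sg_le h
    linarith
  · have := sg_le h
    linarith

theorem sub_Layer (n : ℕ) : Tri (sg n) ⊆ Layer 0 n 0 := by
  have hs := sg_pos n
  intro y hy
  obtain ⟨j, hj⟩ := mem_iUnion.1 hy
  revert j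
  refine fin3 ?_ ?_ ?_
  · intro hj
    rw [arm0] at hj
    obtain ⟨r, ⟨h1, h2⟩, rfl⟩ := hj
    refine Or.inl (Or.inl ⟨r, ⟨by linarith, ?_⟩, rfl⟩)
    linarith
  · intro hj
    rw [arm1] at hj
    obtain ⟨r, ⟨h1, h2⟩, rfl⟩ := hj
    refine Or.inr ⟨r, ⟨?_, by linarith⟩, rfl⟩
    linarith
  · intro hj
    rw [arm2] at hj
    obtain ⟨t, ⟨h1, h2⟩, rfl⟩ := hj
    refine Or.inl (Or.inr ⟨1 - t, ⟨by linarith, by linarith⟩, ?_⟩)
    change P 0 (sg n * (5 / 8 + 0 * (1 - t) / 16)) ((1 - 0) * (1 - |1 - t|)) =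
      P 0 (sg n * (5 / 8)) t
    rw [abs_of_nonneg (by linarith)]
    congr 1 <;> ring

theorem sub_KK {g : ℕ → ℝ} {b : ℕ → ℕ → Bool} {n : ℕ} (hn : g n = 0) :
    Tri (sg n) ⊆ KK g b := by
  intro y hy
  refine Or.inl (Or.inl (Or.inl (Or.inr ?_)))
  refine mem_iUnion.2 ⟨0, mem_iUnion.2 ⟨⟨n, Nat.zero_le n⟩, ?_⟩⟩
  change y ∈ Layer 0 n (g n)
  rw [hn]
  exact sub_Layer n hy

end

end BADSIGMA

theorem t_BADSIGMA : S_NG1 → S_BADSIGMA := by
  intro hNG g b _ hinf hK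
  refine hNG (Fin 3 → ℝ) (KK g b) hK
    ⟨fun k => BADSIGMA.Tri (sg (hinf.natEmbedding _ k : ℕ)), fun k => ?_, fun k l hkl => ?_,
      fun k => BADSIGMA.hasTriod (BADSIGMA.sg_pos _)⟩
  · exact BADSIGMA.sub_KK (hinf.natEmbedding _ k).2
  · refine BADSIGMA.disj fun h => hkl ?_
    exact (hinf.natEmbedding _).injective (Subtype.ext h)

end Pool.Agent.H742.AC6
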