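import Pool.Agent.H742.AC6.Stm2

/-!
# Elementary operations on arcs

Reparametrisation over a real interval, reversal, subarcs and concatenation of arcs.
-/

namespace Pool.Agent.H742.AC6

open Set Topology TopologicalSpace

/-- Arcs parametrised over a real interval `[c,d]`. -/
theorem t_REAL : ∀ (Y : Type) [TopologicalSpace Y] (f : ℝ → Y) (c d : ℝ), c < d →
    ContinuousOn f (Icc c d) → InjOn f (Icc c d) → IsArc (f '' Icc c d) (f c) (f d) := by
  intro Y _ f c d hcd hf hi
  have hdc : 0 < d - c := sub_pos.mpr hcd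
  have hmem : ∀ t : unitInterval, c + (t : ℝ) * (d - c) ∈ Icc c d := by
    intro t
    have h0 := t.2.1
    have h1 := t.2.2
    constructor
    · nlinarith
    · nlinarith
  refine ⟨fun t => f (c + (t : ℝ) * (d - c)), ?_, ?_, ?_, ?_, ?_⟩
  · exact hf.comp_continuous (by fun_prop) hmem
  · intro s t hst
    have h := hi (hmem s) (hmem t) hst
    have h2 : (s : ℝ) * (d - c) = (t : ℝ) * (d - c) := by linarith
    exact Subtype.ext (mul_right_cancel₀ hdc.ne' h2)
  · simp
  · simp
  · ext y
    constructor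
    · rintro ⟨t, rfl⟩
      exact ⟨_, hmem t, rfl⟩
    · rintro ⟨x, hx, rfl⟩
      refine ⟨⟨(x - c) / (d - c), div_nonneg (by linarith [hx.1]) hdc.le,
        (div_le_one hdc).mpr (by linarith [hx.2])⟩, ?_⟩
      have : c + (x - c) / (d - c) * (d - c) = x := by
        rw [div_mul_cancel₀ _ hdc.ne']; ring
      simp only [this]

/-- Reversal of an arc. -/
theorem t_SYMM : ∀ (Y : Type) [TopologicalSpace Y] (A : Set Y) (a b : Y),
    IsArc A a b → IsArc A b a := by
  rintro Y _ A a b ⟨f, hc, hi, h0, h1, hr⟩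
  refine ⟨fun t => f (unitInterval.symm t), hc.comp unitInterval.continuous_symm,
    hi.comp unitInterval.symm_bijective.1, ?_, ?_, ?_⟩
  · simpa using h1
  · simpa using h0
  · rw [← hr]
    exact unitInterval.symm_bijective.2.range_comp f

/-- Subarcs. -/
theorem t_SUB : ∀ (Y : Type) [TopologicalSpace Y] (f : unitInterval → Y) (s t : unitInterval),
    Continuous f → Function.Injective f → s < t → IsArc (f '' Icc s t) (f s) (f t) := by
  intro Y _ f s t hc hi hst
  have h := t_REAL Y (fun x => f (projIcc 0 1 zero_le_one x)) s t hst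
    (hc.comp continuous_projIcc).continuousOn (by
      intro x hx y hy hxy
      have hx' : x ∈ Icc (0 : ℝ) 1 := ⟨s.2.1.trans hx.1, hx.2.trans t.2.2⟩
      have hy' : y ∈ Icc (0 : ℝ) 1 := ⟨s.2.1.trans hy.1, hy.2.trans t.2.2⟩
      have h2 := hi hxy
      rw [projIcc_of_mem zero_le_one hx', projIcc_of_mem zero_le_one hy'] at h2
      exact congrArg Subtype.val h2)
  have e : (fun x : ℝ => f (projIcc 0 1 zero_le_one x)) '' Icc (s : ℝ) t = f '' Icc s t := by
    ext y
    constructor
    · rintro ⟨x, hx, rfl⟩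
      have hx' : x ∈ Icc (0 : ℝ) 1 := ⟨s.2.1.trans hx.1, hx.2.trans t.2.2⟩
      refine ⟨⟨x, hx'⟩, ⟨hx.1, hx.2⟩, ?_⟩
      simp only [projIcc_of_mem zero_le_one hx']
    · rintro ⟨x, hx, rfl⟩
      exact ⟨x, ⟨hx.1, hx.2⟩, by simp only [projIcc_val]⟩
  rw [e] at h
  simpa only [projIcc_val] using h

namespace CONCAT

/-- The gluing of two maps of the unit interval. -/
noncomputable def glueMap {Y : Type} (f g : unitInterval → Y) (x : ℝ) : Y :=
  if x ≤ 1 then f (projIcc 0 1 zero_le_one x) else g (projIcc 0 1 zero_le_one (x - 1))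

theorem glue_left {Y : Type} (f g : unitInterval → Y) {x : ℝ} (h0 : 0 ≤ x) (h1 : x ≤ 1) :
    glueMap f g x = f ⟨x, h0, h1⟩ := by
  rw [glueMap, if_pos h1, projIcc_of_mem zero_le_one ⟨h0, h1⟩]

theorem glue_right {Y : Type} (f g : unitInterval → Y) (hfg : f 1 = g 0) {x : ℝ} (h0 : 1 ≤ x)
    (h1 : x ≤ 2) : glueMap f g x = g ⟨x - 1, by linarith, by linarith⟩ := by
  rcases h0.eq_or_lt with h | h
  · subst h
    rw [glue_left f g zero_le_one le_rfl]
    have e : (⟨(1 : ℝ) - 1, by norm_num, by norm_num⟩ : unitInterval) = 0 :=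
      Subtype.ext (by simp)
    rw [e, ← hfg]
    rfl
  · rw [glueMap, if_neg (not_le.mpr h), projIcc_of_mem zero_le_one
      (⟨by linarith, by linarith⟩ : x - 1 ∈ Icc (0 : ℝ) 1)]

theorem glue_cont {Y : Type} [TopologicalSpace Y] (f g : unitInterval → Y) (hf : Continuous f)
    (hg : Continuous g) (hfg : f 1 = g 0) : Continuous (glueMap f g) := by
  unfold glueMap
  refine Continuous.if_le (hf.comp continuous_projIcc)
    (hg.comp (continuous_projIcc.comp (continuous_id.sub continuous_const))) continuous_id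
    continuous_const ?_
  intro x hx
  subst hx
  have e1 : projIcc (0 : ℝ) 1 zero_le_one 1 = 1 := projIcc_right (h := zero_le_one)
  have e0 : projIcc (0 : ℝ) 1 zero_le_one (1 - 1) = 0 := by
    rw [sub_self]; exact projIcc_left (h := zero_le_one)
  change f (projIcc (0 : ℝ) 1 zero_le_one 1) = g (projIcc (0 : ℝ) 1 zero_le_one (1 - 1))
  rw [e1, e0, hfg]

end CONCAT

open CONCAT in
/-- Concatenation of two arcs. -/
theorem t_CONCAT : S_CONCAT := by
  rintro Y _ _ A B a b c ⟨f, hfc, hfi, hf0, hf1, hfr⟩ ⟨g, hgc, hgi, hg0, hg1, hgr⟩ hAB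
  have hfg : f 1 = g 0 := by rw [hf1, hg0]
  -- the only common value
  have key : ∀ s t : unitInterval, f s = g t → s = 1 ∧ t = 0 := by
    intro s t hst
    have h1 : f s ∈ A ∩ B := ⟨hfr ▸ mem_range_self s, hgr ▸ hst ▸ mem_range_self t⟩
    rw [hAB, mem_singleton_iff] at h1
    exact ⟨hfi (h1.trans hf1.symm), hgi ((hst.symm.trans h1).trans hg0.symm)⟩
  have h := t_REAL Y (glueMap f g) 0 2 (by norm_num) (glue_cont f g hfc hgc hfg).continuousOn (by
    intro x hx y hy hxy
    rcases le_total x 1 with h1 | h1 <;> rcases le_total y 1 with h2 | h2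
    · rw [glue_left f g hx.1 h1, glue_left f g hy.1 h2] at hxy
      exact congrArg Subtype.val (hfi hxy)
    · rw [glue_left f g hx.1 h1, glue_right f g hfg h2 hy.2] at hxy
      obtain ⟨e1, e2⟩ := key _ _ hxy
      have e1' : x = 1 := congrArg Subtype.val e1
      have e2' : y - 1 = 0 := congrArg Subtype.val e2
      linarith
    · rw [glue_left f g hy.1 h2, glue_right f g hfg h1 hx.2] at hxy
      obtain ⟨e1, e2⟩ := key _ _ hxy.symm
      have e1' : y = 1 := congrArg Subtype.val e1
      have e2' : x - 1 = 0 := congrArg Subtype.val e2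
      linarith
    · rw [glue_right f g hfg h1 hx.2, glue_right f g hfg h2 hy.2] at hxy
      have e : x - 1 = y - 1 := congrArg Subtype.val (hgi hxy)
      linarith)
  have e0 : glueMap f g 0 = a := by
    rw [glue_left f g le_rfl zero_le_one, ← hf0]; rfl
  have e2 : glueMap f g 2 = c := by
    rw [glue_right f g hfg (by norm_num) le_rfl, ← hg1]
    congr 1
    exact Subtype.ext (by norm_num)
  have er : glueMap f g '' Icc 0 2 = A ∪ B := by
    rw [← hfr, ← hgr]
    ext y
    constructor
    · rintro ⟨x, hx, rfl⟩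
      rcases le_total x 1 with h1 | h1
      · left; rw [glue_left f g hx.1 h1]; exact mem_range_self _
      · right; rw [glue_right f g hfg h1 hx.2]; exact mem_range_self _
    · rintro (⟨t, rfl⟩ | ⟨t, rfl⟩)
      · exact ⟨t, ⟨t.2.1, t.2.2.trans (by norm_num)⟩, glue_left f g t.2.1 t.2.2⟩
      · refine ⟨t + 1, ⟨by linarith [t.2.1], by linarith [t.2.2]⟩, ?_⟩
        rw [glue_right f g hfg (by linarith [t.2.1]) (by linarith [t.2.2])]
        congr 1
        exact Subtype.ext (by simp)
  rw [e0, e2, er] at h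
  exact h

end Pool.Agent.H742.AC6
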