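import Pool.Agent.H742.AC6.Stm2

/-!
# The continua are connected
-/

namespace Pool.Agent.H742.AC6

open Set Topology TopologicalSpace Filter

namespace CONN

theorem P_cont (i : Fin 3) {f h : ℝ → ℝ} (hf : Continuous f) (hh : Continuous h) :
    Continuous (fun t => P i (f t) (h t)) := by
  refine continuous_pi fun k => ?_
  unfold P
  by_cases h1 : k = i
  · simp only [if_pos h1]
    fun_prop
  · by_cases h2 : k = i + 1
    · simp only [if_neg h1, if_pos h2]
      fun_prop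
    · simp only [if_neg h1, if_neg h2]
      fun_prop

theorem W_cont {f h : ℝ → ℝ} (hf : Continuous f) (hh : Continuous h) :
    Continuous (fun t => W (f t) (h t)) := by
  refine continuous_pi fun k => ?_
  unfold W
  by_cases h1 : k = 1
  · simp only [if_pos h1]
    fun_prop
  · by_cases h2 : k = 0
    · simp only [if_neg h1, if_pos h2]
      fun_prop
    · simp only [if_neg h1, if_neg h2]
      fun_prop

theorem Ax_pre (i : Fin 3) (a b : ℝ) : IsPreconnected (Ax i a b) :=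
  isPreconnected_Icc.image _ (P_cont i continuous_id continuous_const).continuousOn

theorem Ax_l (i : Fin 3) {a b : ℝ} (h : a ≤ b) : P i a 0 ∈ Ax i a b :=
  ⟨a, left_mem_Icc.2 h, rfl⟩

theorem Ax_r (i : Fin 3) {a b : ℝ} (h : a ≤ b) : P i b 0 ∈ Ax i a b :=
  ⟨b, right_mem_Icc.2 h, rfl⟩

theorem Tent_pre (i : Fin 3) (n : ℕ) (g : ℝ) : IsPreconnected (Tent i n g) :=
  isPreconnected_Icc.image _ (P_cont i (by fun_prop) (by fun_prop)).continuousOn

theorem Tent_l (i : Fin 3) (n : ℕ) (g : ℝ) : P i (sg n * (5 / 8 - g / 16)) 0 ∈ Tent i n g := by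
  refine ⟨-1, by norm_num, ?_⟩
  exact congrArg₂ (P i) (by ring) (by norm_num)

theorem Tent_r (i : Fin 3) (n : ℕ) (g : ℝ) : P i (sg n * (5 / 8 + g / 16)) 0 ∈ Tent i n g := by
  refine ⟨1, by norm_num, ?_⟩
  exact congrArg₂ (P i) (by ring) (by norm_num)

theorem sg_pos (n : ℕ) : 0 < sg n := by
  unfold sg
  positivity

theorem sg_succ (n : ℕ) : sg (n + 1) = sg n / 2 := by
  unfold sg
  rw [pow_succ]
  ring

theorem sg_zero : sg 0 = 1 := by
  unfold sg
  simp

theorem len1 (n : ℕ) {g : ℝ} (h1 : g ≤ 1) : sg n / 2 ≤ sg n * (5 / 8 - g / 16) := by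
  have := sg_pos n
  nlinarith

theorem len2 (n : ℕ) {g : ℝ} (h1 : g ≤ 1) : sg n * (5 / 8 + g / 16) ≤ sg n := by
  have := sg_pos n
  nlinarith

theorem Layer_pre (i : Fin 3) (n : ℕ) {g : ℝ} (h1 : g ≤ 1) : IsPreconnected (Layer i n g) :=
  IsPreconnected.union _ (Or.inr (Tent_r i n g)) (Ax_l i (len2 n h1))
    (IsPreconnected.union _ (Ax_r i (len1 n h1)) (Tent_l i n g) (Ax_pre _ _ _) (Tent_pre _ _ _))
    (Ax_pre _ _ _)

theorem Layer_l (i : Fin 3) (n : ℕ) {g : ℝ} (h1 : g ≤ 1) : P i (sg n / 2) 0 ∈ Layer i n g :=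
  Or.inl (Or.inl (Ax_l i (len1 n h1)))

theorem Layer_r (i : Fin 3) (n : ℕ) {g : ℝ} (h1 : g ≤ 1) : P i (sg n) 0 ∈ Layer i n g :=
  Or.inr (Ax_r i (len2 n h1))

theorem half_tendsto : Tendsto (fun n : ℕ => ((1 : ℝ) / 2) ^ n) atTop (𝓝 0) :=
  tendsto_pow_atTop_nhds_zero_of_lt_one (by norm_num) (by norm_num)

theorem Leg_pre (i : Fin 3) (g : ℕ → ℝ) (hg : ∀ n, g n ∈ Icc (0 : ℝ) 1) :
    IsPreconnected ({0} ∪ ⋃ m, Layer i m (g m)) := by
  have h1 : IsPreconnected (⋃ m, Layer i m (g m)) := by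
    refine IsPreconnected.iUnion_of_chain (fun n => Layer_pre i n (hg n).2) fun n => ?_
    refine ⟨P i (sg n / 2) 0, Layer_l i n (hg n).2, ?_⟩
    rw [← sg_succ]
    exact Layer_r i _ (hg _).2
  refine h1.subset_closure subset_union_right (union_subset ?_ subset_closure)
  rw [singleton_subset_iff]
  have h2 : Tendsto (fun n => P i (sg n) 0) atTop (𝓝 (P i 0 0)) :=
    ((P_cont i continuous_id continuous_const).tendsto 0).comp half_tendsto
  have h3 : P i 0 0 = 0 := by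
    ext k
    unfold P
    split_ifs <;> simp
  rw [h3] at h2
  exact mem_closure_of_tendsto h2 (Eventually.of_forall fun n =>
    mem_iUnion.2 ⟨n, Layer_r i n (hg n).2⟩)

theorem TT_eq (g : ℕ → ℝ) : TT g 0 = ⋃ i : Fin 3, ({0} ∪ ⋃ m, Layer i m (g m)) := by
  ext y
  unfold TT
  simp only [mem_union, mem_iUnion, mem_singleton_iff]
  constructor
  · rintro (h | ⟨i, m, h⟩)
    · exact ⟨0, Or.inl h⟩
    · exact ⟨i, Or.inr ⟨m.1, h⟩⟩
  · rintro ⟨i, h | ⟨m, h⟩⟩
    · exact Or.inl h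
    · exact Or.inr ⟨i, ⟨m, Nat.zero_le _⟩, h⟩

theorem TT_pre (g : ℕ → ℝ) (hg : ∀ n, g n ∈ Icc (0 : ℝ) 1) : IsPreconnected (TT g 0) := by
  rw [TT_eq]
  exact isPreconnected_iUnion ⟨0, mem_iInter.2 fun i => Or.inl rfl⟩ fun i => Leg_pre i g hg

theorem TT_end (g : ℕ → ℝ) (hg : ∀ n, g n ∈ Icc (0 : ℝ) 1) (i : Fin 3) : P i 1 0 ∈ TT g 0 := by
  have h := Layer_r i 0 (hg 0).2
  rw [sg_zero] at h
  exact Or.inr (mem_iUnion.2 ⟨i, mem_iUnion.2 ⟨⟨0, le_rfl⟩, h⟩⟩)

theorem C0_pre : IsPreconnected C0 := by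
  refine isPreconnected_Icc.image _ (Continuous.continuousOn ?_)
  refine continuous_pi fun k => ?_
  by_cases h1 : k = 0
  · simp only [if_pos h1]
    fun_prop
  · by_cases h2 : k = 1
    · simp only [if_neg h1, if_pos h2]
      fun_prop
    · simp only [if_neg h1, if_neg h2]
      fun_prop

theorem C2_pre : IsPreconnected C2 := by
  refine isPreconnected_Icc.image _ (Continuous.continuousOn ?_)
  refine continuous_pi fun k => ?_
  by_cases h1 : k = 2
  · simp only [if_pos h1]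
    fun_prop
  · by_cases h2 : k = 1
    · simp only [if_neg h1, if_pos h2]
      fun_prop
    · simp only [if_neg h1, if_neg h2]
      fun_prop

theorem C0_mem : P 0 1 0 ∈ C0 := by
  refine ⟨0, by norm_num, ?_⟩
  funext k
  fin_cases k <;> simp [P]

theorem C2_mem : P 2 1 0 ∈ C2 := by
  refine ⟨0, by norm_num, ?_⟩
  funext k
  fin_cases k <;> simp [P]

theorem Rise_pre (M : ℕ) : IsPreconnected (Rise M) :=
  isPreconnected_Icc.image _ (W_cont (by fun_prop) (by fun_prop)).continuousOn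

theorem Wall_pre (M : ℕ) : IsPreconnected (Wall M) :=
  isPreconnected_Icc.image _ (W_cont (by fun_prop) (by fun_prop)).continuousOn

theorem Bump_pre (M n : ℕ) (β : Bool) : IsPreconnected (Bump M n β) :=
  isPreconnected_Icc.image _ (W_cont (by fun_prop) (by fun_prop)).continuousOn

theorem Rise_l (M : ℕ) : W (uu M) 0 ∈ Rise M :=
  ⟨0, by norm_num, congrArg₂ W (by ring) (by ring)⟩

theorem Rise_r (M : ℕ) : W (cc M) ((1 / 2) ^ M / 8) ∈ Rise M :=
  ⟨1, by norm_num, congrArg₂ W (by unfold cc; ring) (by ring)⟩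

theorem Wall_r (M : ℕ) : W (cc M) ((1 / 2) ^ M / 8) ∈ Wall M :=
  ⟨1, by norm_num, congrArg₂ W rfl (by ring)⟩

theorem Wall_l (M : ℕ) : W (cc M) 0 ∈ Wall M :=
  ⟨0, by norm_num, congrArg₂ W rfl (by ring)⟩

theorem Bump_l (M n : ℕ) (β : Bool) : W (xx M (n + 1)) 0 ∈ Bump M n β :=
  ⟨0, by norm_num, congrArg₂ W (by ring) (by norm_num)⟩

theorem Bump_r (M n : ℕ) (β : Bool) : W (xx M n) 0 ∈ Bump M n β :=
  ⟨1, by norm_num, congrArg₂ W (by ring) (by norm_num)⟩

theorem Bumps_pre (b : ℕ → ℕ → Bool) (M : ℕ) :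
    IsPreconnected ({W (cc M) 0} ∪ ⋃ n, Bump M n (b M n)) := by
  have h1 : IsPreconnected (⋃ n, Bump M n (b M n)) := by
    refine IsPreconnected.iUnion_of_chain (fun n => Bump_pre M n _) fun n => ?_
    exact ⟨W (xx M (n + 1)) 0, Bump_l M n _, Bump_r M (n + 1) _⟩
  refine h1.subset_closure subset_union_right (union_subset ?_ subset_closure)
  rw [singleton_subset_iff]
  have h4 : Tendsto (fun n => xx M n) atTop (𝓝 (cc M)) := by
    have h5 : Tendsto (fun n : ℕ => cc M + (1 / 2 : ℝ) ^ M / 4 * (1 / 2) ^ n) atTop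
        (𝓝 (cc M + (1 / 2) ^ M / 4 * 0)) :=
      tendsto_const_nhds.add (tendsto_const_nhds.mul half_tendsto)
    rw [mul_zero, add_zero] at h5
    exact h5
  have h2 : Tendsto (fun n => W (xx M n) 0) atTop (𝓝 (W (cc M) 0)) :=
    ((W_cont continuous_id continuous_const).tendsto (cc M)).comp h4
  exact mem_closure_of_tendsto h2 (Eventually.of_forall fun n =>
    mem_iUnion.2 ⟨n, Bump_r M n _⟩)

theorem Block_pre (b : ℕ → ℕ → Bool) (M : ℕ) : IsPreconnected (Block b M) := by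
  have h1 : IsPreconnected (Rise M ∪ Wall M) :=
    IsPreconnected.union _ (Rise_r M) (Wall_r M) (Rise_pre M) (Wall_pre M)
  have h2 : IsPreconnected ((Rise M ∪ Wall M) ∪ ({W (cc M) 0} ∪ ⋃ n, Bump M n (b M n))) :=
    IsPreconnected.union (W (cc M) 0) (Or.inr (Wall_l M)) (Or.inl rfl) h1 (Bumps_pre b M)
  have h3 : Block b M = (Rise M ∪ Wall M) ∪ ({W (cc M) 0} ∪ ⋃ n, Bump M n (b M n)) := by
    ext y
    constructor
    · rintro (h | h)
      · exact Or.inl h
      · exact Or.inr (Or.inr h)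
    · rintro (h | h | h)
      · exact Or.inl h
      · rw [mem_singleton_iff.1 h]
        exact Or.inl (Or.inr (Wall_l M))
      · exact Or.inr h
  rw [h3]
  exact h2

theorem Block_l (b : ℕ → ℕ → Bool) (M : ℕ) : W (uu M) 0 ∈ Block b M :=
  Or.inl (Or.inl (Rise_l M))

theorem Block_r (b : ℕ → ℕ → Bool) (M : ℕ) : W (uu (M + 1)) 0 ∈ Block b M := by
  have e : uu (M + 1) = xx M 0 := by
    unfold xx cc uu
    rw [pow_succ, pow_zero]
    ring
  rw [e]
  exact Or.inr (mem_iUnion.2 ⟨0, Bump_r M 0 _⟩)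

theorem GG_pre (b : ℕ → ℕ → Bool) : IsPreconnected (GG b) := by
  have h1 : IsPreconnected (⋃ M, Block b M) := by
    refine IsPreconnected.iUnion_of_chain (fun n => Block_pre b n) fun n => ?_
    exact ⟨W (uu (n + 1)) 0, Block_r b n, Block_l b (n + 1)⟩
  unfold GG
  refine h1.subset_closure subset_union_right (union_subset ?_ subset_closure)
  rw [singleton_subset_iff]
  have h4 : Tendsto (fun n => uu n) atTop (𝓝 1) := by
    have h5 : Tendsto (fun n : ℕ => (1 : ℝ) - (1 / 2) ^ n) atTop (𝓝 (1 - 0)) :=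
      tendsto_const_nhds.sub half_tendsto
    rw [sub_zero] at h5
    exact h5
  have h2 : Tendsto (fun n => W (uu n) 0) atTop (𝓝 (W 1 0)) :=
    ((W_cont continuous_id continuous_const).tendsto 1).comp h4
  exact mem_closure_of_tendsto h2 (Eventually.of_forall fun n =>
    mem_iUnion.2 ⟨n, Block_l b n⟩)

theorem GG_mem (b : ℕ → ℕ → Bool) : P 1 1 0 ∈ GG b := by
  have e : P 1 1 0 = W (uu 0) 0 := by
    funext k
    fin_cases k <;> simp [P, W, uu]
  rw [e]
  exact Or.inr (mem_iUnion.2 ⟨0, Block_l b 0⟩)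

end CONN

open CONN in
/-- the continua are connected -/
theorem t_CONN : S_CONN := by
  intro g b hg
  refine ⟨⟨0, Or.inl (Or.inl (Or.inl (Or.inl rfl)))⟩, ?_⟩
  have h1 : IsPreconnected (TT g 0 ∪ C0) :=
    IsPreconnected.union (P 0 1 0) (TT_end g hg 0) C0_mem (TT_pre g hg) C0_pre
  have h2 : IsPreconnected (TT g 0 ∪ C0 ∪ C2) :=
    IsPreconnected.union (P 2 1 0) (Or.inl (TT_end g hg 2)) C2_mem h1 C2_pre
  exact IsPreconnected.union (P 1 1 0) (Or.inl (Or.inl (TT_end g hg 1))) (GG_mem b) h2 (GG_pre b)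

end Pool.Agent.H742.AC6
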