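import Pool.Agent.H742.AC6.Stm2

set_option autoImplicit false

namespace Pool.Agent.H742.AC6

open Set Topology TopologicalSpace

universe u

namespace P_CONT

/-! ### compactness of the limit of a sequence of compact sets -/

theorem seq_compact {E : Type} [MetricSpace E] [ProperSpace E] (B : Set E) (A : ℕ → Set E)
    (r : ℕ → ℝ) (hB : IsCompact B) (hA : ∀ m, IsCompact (A m)) (hr : Antitone r)
    (hr0 : Filter.Tendsto r Filter.atTop (𝓝 0)) (hrn : ∀ m, 0 ≤ r m)
    (h : ∀ m, ∀ y ∈ A m, ∃ b ∈ B, dist y b ≤ r m) : IsCompact (B ∪ ⋃ m, A m) := by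
  have hsub : ∀ k, B ∪ ⋃ m, A m ⊆ Metric.cthickening (r k) B ∪ ⋃ m ∈ Finset.range k, A m := by
    intro k y hy
    rcases hy with hy | hy
    · exact Or.inl (Metric.self_subset_cthickening B hy)
    · obtain ⟨m, hm⟩ := Set.mem_iUnion.mp hy
      by_cases hmk : m < k
      · right
        simp only [Set.mem_iUnion]
        exact ⟨m, Finset.mem_range.mpr hmk, hm⟩
      · left
        obtain ⟨b, hb, hd⟩ := h m y hm
        rw [hB.cthickening_eq_biUnion_closedBall (hrn k)]
        simp only [Set.mem_iUnion, Metric.mem_closedBall]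
        exact ⟨b, hb, hd.trans (hr (not_lt.mp hmk))⟩
  have heq : B ∪ ⋃ m, A m = ⋂ k, (Metric.cthickening (r k) B ∪ ⋃ m ∈ Finset.range k, A m) := by
    apply Set.Subset.antisymm
    · exact Set.subset_iInter hsub
    · intro y hy
      by_cases hy' : ∃ m, y ∈ A m
      · exact Or.inr (Set.mem_iUnion.mpr hy')
      · left
        have hcl : y ∈ closure B := by
          rw [Metric.mem_closure_iff]
          intro ε hε
          obtain ⟨k, hk⟩ := (hr0.eventually (gt_mem_nhds hε)).exists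
          have h1 := Set.mem_iInter.mp hy k
          rcases h1 with h1 | h1
          · rw [hB.cthickening_eq_biUnion_closedBall (hrn k)] at h1
            simp only [Set.mem_iUnion, Metric.mem_closedBall] at h1
            obtain ⟨b, hb, hd⟩ := h1
            exact ⟨b, hb, hd.trans_lt hk⟩
          · simp only [Set.mem_iUnion] at h1
            obtain ⟨m, -, hm⟩ := h1
            exact absurd ⟨m, hm⟩ hy'
        rwa [hB.isClosed.closure_eq] at hcl
  have hclosed : IsClosed (B ∪ ⋃ m, A m) := by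
    rw [heq]
    refine isClosed_iInter fun k => Metric.isClosed_cthickening.union ?_
    exact isClosed_biUnion_finset fun m _ => (hA m).isClosed
  refine (IsCompact.cthickening hB (r := r 0)).of_isClosed_subset hclosed ?_
  intro y hy
  have h1 := hsub 0 hy
  simpa using h1

/-! ### distances -/

theorem dist_P {i : Fin 3} {r t r' t' e : ℝ} (he : 0 ≤ e) (h1 : |r * (1 - t) - r' * (1 - t')| ≤ e)
    (h2 : |r * (3 / 2) * t - r' * (3 / 2) * t'| ≤ e) : dist (P i r t) (P i r' t') ≤ e := by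
  rw [dist_pi_le_iff he]
  intro k
  rw [Real.dist_eq]
  unfold P
  by_cases hk : k = i
  · simp only [if_pos hk]
    exact h1
  · by_cases hk' : k = i + 1
    · simp only [if_neg hk, if_pos hk']
      exact h2
    · simp only [if_neg hk, if_neg hk', sub_zero, abs_zero]
      exact he

theorem dist_W {x v x' v' e : ℝ} (he : 0 ≤ e) (h1 : |x - x'| ≤ e) (h2 : |v - v'| ≤ e) :
    dist (W x v) (W x' v') ≤ e := by
  rw [dist_pi_le_iff he]
  intro k
  rw [Real.dist_eq]
  unfold W
  by_cases hk : k = 1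
  · simp only [if_pos hk]
    rwa [add_sub_add_left_eq_sub]
  · by_cases hk' : k = 0
    · simp only [if_neg hk, if_pos hk']
      exact h2
    · simp only [if_neg hk, if_neg hk', sub_zero, abs_zero]
      exact he

theorem P_zero (i : Fin 3) (t : ℝ) : P i 0 t = 0 := by
  funext k
  unfold P
  split_ifs <;> simp

theorem sg_pos (n : ℕ) : 0 < sg n := by unfold sg; positivity

theorem sg_le (n : ℕ) : sg n ≤ 1 := pow_le_one₀ (by norm_num) (by norm_num)

theorem sg_anti : Antitone sg := by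
  intro a b h
  exact pow_le_pow_of_le_one (by norm_num) (by norm_num) h

theorem sg_lim : Filter.Tendsto sg Filter.atTop (𝓝 0) :=
  tendsto_pow_atTop_nhds_zero_of_lt_one (by norm_num) (by norm_num)

/-! ### continuity of the parametrisations -/

theorem cont_P (i : Fin 3) {X : Type} [TopologicalSpace X] {r t : X → ℝ} (hr : Continuous r)
    (ht : Continuous t) : Continuous (fun x => P i (r x) (t x)) := by
  refine continuous_pi fun k => ?_
  unfold P
  by_cases hk : k = i
  · simp only [if_pos hk]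
    exact hr.mul (continuous_const.sub ht)
  · by_cases hk' : k = i + 1
    · simp only [if_neg hk, if_pos hk']
      exact (hr.mul continuous_const).mul ht
    · simp only [if_neg hk, if_neg hk']
      exact continuous_const

theorem cont_W {X : Type} [TopologicalSpace X] {r t : X → ℝ} (hr : Continuous r)
    (ht : Continuous t) : Continuous (fun x => W (r x) (t x)) := by
  refine continuous_pi fun k => ?_
  unfold W
  by_cases hk : k = 1
  · simp only [if_pos hk]
    exact continuous_const.add hr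
  · by_cases hk' : k = 0
    · simp only [if_neg hk, if_pos hk']
      exact ht
    · simp only [if_neg hk, if_neg hk']
      exact continuous_const

theorem comp_Ax (i : Fin 3) (a b : ℝ) : IsCompact (Ax i a b) :=
  isCompact_Icc.image (cont_P i continuous_id continuous_const)

theorem comp_Tent (i : Fin 3) (n : ℕ) (g : ℝ) : IsCompact (Tent i n g) := by
  refine isCompact_Icc.image (cont_P i ?_ ?_)
  · fun_prop
  · fun_prop

theorem comp_Layer (i : Fin 3) (n : ℕ) (g : ℝ) : IsCompact (Layer i n g) :=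
  ((comp_Ax i _ _).union (comp_Tent i n g)).union (comp_Ax i _ _)

theorem comp_C0 : IsCompact C0 := by
  refine isCompact_Icc.image (continuous_pi fun k => ?_)
  by_cases hk : k = 0
  · simp only [if_pos hk]
    fun_prop
  · by_cases hk' : k = 1
    · simp only [if_neg hk, if_pos hk']
      fun_prop
    · simp only [if_neg hk, if_neg hk']
      exact continuous_const

theorem comp_C2 : IsCompact C2 := by
  refine isCompact_Icc.image (continuous_pi fun k => ?_)
  by_cases hk : k = 2
  · simp only [if_pos hk]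
    fun_prop
  · by_cases hk' : k = 1
    · simp only [if_neg hk, if_pos hk']
      fun_prop
    · simp only [if_neg hk, if_neg hk']
      exact continuous_const

theorem comp_Rise (M : ℕ) : IsCompact (Rise M) := by
  refine isCompact_Icc.image (cont_W ?_ ?_)
  · fun_prop
  · fun_prop

theorem comp_Wall (M : ℕ) : IsCompact (Wall M) := by
  refine isCompact_Icc.image (cont_W ?_ ?_)
  · fun_prop
  · fun_prop

theorem comp_Bump (M n : ℕ) (β : Bool) : IsCompact (Bump M n β) := by
  refine isCompact_Icc.image (cont_W ?_ ?_)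
  · fun_prop
  · fun_prop

/-! ### layers -/

theorem layer_zero {i : Fin 3} {n : ℕ} {g : ℝ} (hg : g ∈ Icc (0 : ℝ) 1) {y : Fin 3 → ℝ}
    (hy : y ∈ Layer i n g) : dist y 0 ≤ 2 * sg n := by
  have hs := sg_pos n
  have key : ∀ r t : ℝ, 0 ≤ r → r ≤ sg n → 0 ≤ t → t ≤ 1 → dist (P i r t) 0 ≤ 2 * sg n := by
    intro r t h1 h2 h3 h4
    rw [← P_zero i t]
    refine dist_P (by positivity) ?_ ?_
    · rw [zero_mul, sub_zero, abs_of_nonneg (mul_nonneg h1 (by linarith))]
      nlinarith
    · rw [zero_mul, zero_mul, sub_zero, abs_of_nonneg (by positivity)]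
      nlinarith
  obtain ⟨hg0, hg1⟩ := hg
  rcases hy with (hy | hy) | hy
  · obtain ⟨r, ⟨h1, h2⟩, rfl⟩ := hy
    refine key r 0 (by linarith) ?_ le_rfl (by norm_num)
    nlinarith
  · obtain ⟨t, ⟨h1, h2⟩, rfl⟩ := hy
    have h3 : |t| ≤ 1 := abs_le.mpr ⟨h1, h2⟩
    have h4 := abs_nonneg t
    have h5 : -1 ≤ g * t := by nlinarith
    have h6 : g * t ≤ 1 := by nlinarith
    refine key _ _ ?_ ?_ ?_ ?_
    · exact mul_nonneg hs.le (by linarith)
    · nlinarith
    · exact mul_nonneg (by linarith) (by linarith)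
    · nlinarith
  · obtain ⟨r, ⟨h1, h2⟩, rfl⟩ := hy
    refine key r 0 ?_ h2 le_rfl (by norm_num)
    have : 0 ≤ sg n * (5 / 8 + g / 16) := by positivity
    linarith

theorem layer_lip {i : Fin 3} {n : ℕ} {g g' : ℝ} (hg : g ∈ Icc (0 : ℝ) 1)
    (hg' : g' ∈ Icc (0 : ℝ) 1) {y : Fin 3 → ℝ} (hy : y ∈ Layer i n g) :
    ∃ y' ∈ Layer i n g', dist y y' ≤ 2 * |g - g'| := by
  have hs := sg_pos n
  have hs1 := sg_le n
  obtain ⟨hg0, hg1⟩ := hg
  obtain ⟨hg0', hg1'⟩ := hg'
  have hd := abs_nonneg (g - g')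
  have hd1 := le_abs_self (g - g')
  have hd2 := neg_abs_le (g - g')
  have keyr : ∀ r r' : ℝ, |r - r'| ≤ 2 * |g - g'| → dist (P i r 0) (P i r' 0) ≤ 2 * |g - g'| := by
    intro r r' h
    refine dist_P (by positivity) ?_ ?_
    · simpa using h
    · simp only [mul_zero, sub_zero, abs_zero]
      positivity
  rcases hy with (hy | hy) | hy
  · obtain ⟨r, ⟨h1, h2⟩, rfl⟩ := hy
    refine ⟨P i (min r (sg n * (5 / 8 - g' / 16))) 0, Or.inl (Or.inl ⟨_, ⟨?_, ?_⟩, rfl⟩), keyr _ _ ?_⟩
    · refine le_min h1 ?_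
      nlinarith
    · exact min_le_right _ _
    · rcases le_total r (sg n * (5 / 8 - g' / 16)) with h3 | h3
      · rw [min_eq_left h3, sub_self, abs_zero]
        positivity
      · rw [min_eq_right h3, abs_of_nonneg (by linarith)]
        nlinarith
  · obtain ⟨t, ⟨h1, h2⟩, rfl⟩ := hy
    refine ⟨P i (sg n * (5 / 8 + g' * t / 16)) ((1 - g') * (1 - |t|)),
      Or.inl (Or.inr ⟨t, ⟨h1, h2⟩, rfl⟩), ?_⟩
    have h3 : |t| ≤ 1 := abs_le.mpr ⟨h1, h2⟩
    have h4 := abs_nonneg t
    obtain ⟨D, hD⟩ : ∃ D, D = |g - g'| := ⟨_, rfl⟩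
    rw [← hD] at hd hd1 hd2 ⊢
    obtain ⟨w, hw⟩ : ∃ w, w = 1 - |t| := ⟨_, rfl⟩
    have hw0 : 0 ≤ w := by linarith
    have hw1 : w ≤ 1 := by linarith
    beta_reduce
    rw [← hw]
    have hgt : |(g - g') * t| ≤ D := by
      rw [abs_mul, ← hD]
      nlinarith
    have hgw : |(g - g') * w| ≤ D := by
      rw [abs_mul, ← hD, abs_of_nonneg hw0]
      nlinarith
    have ha : |g * t| ≤ 1 := by
      rw [abs_mul, abs_of_nonneg hg0]
      nlinarith
    rw [abs_le] at hgt hgw ha
    have e1 : |5 / 8 + g * t / 16| ≤ 1 := by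
      rw [abs_le]; constructor <;> linarith
    have e2 : |(1 - g') * w| ≤ 1 := by
      rw [abs_of_nonneg (mul_nonneg (by linarith) hw0)]
      nlinarith
    have e3 : |1 - (1 - g') * w| ≤ 1 := by
      rw [abs_le]
      have := mul_nonneg (by linarith : 0 ≤ 1 - g') hw0
      constructor <;> nlinarith
    refine dist_P (by positivity) ?_ ?_
    · have e : sg n * (5 / 8 + g * t / 16) * (1 - (1 - g) * w) -
          sg n * (5 / 8 + g' * t / 16) * (1 - (1 - g') * w) =
          sg n * ((5 / 8 + g * t / 16) * ((g - g') * w) + ((g - g') * t / 16) * (1 - (1 - g') * w)) := by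
        ring
      rw [e, abs_mul, abs_of_pos hs]
      have e4 : |(5 / 8 + g * t / 16) * ((g - g') * w) +
          ((g - g') * t / 16) * (1 - (1 - g') * w)| ≤ 2 * D := by
        refine (abs_add_le _ _).trans ?_
        rw [abs_mul (5 / 8 + g * t / 16), abs_mul ((g - g') * t / 16)]
        have f1 : |(g - g') * w| ≤ D := abs_le.mpr hgw
        have f2 : |(g - g') * t / 16| ≤ D := by
          rw [abs_le]; constructor <;> linarith
        have f3 := mul_le_mul e1 f1 (abs_nonneg _) (by norm_num : (0 : ℝ) ≤ 1)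
        have f4 := mul_le_mul f2 e3 (abs_nonneg _) hd
        linarith
      calc sg n * |(5 / 8 + g * t / 16) * ((g - g') * w) +
          ((g - g') * t / 16) * (1 - (1 - g') * w)| ≤ 1 * (2 * D) :=
            mul_le_mul hs1 e4 (abs_nonneg _) (by norm_num)
        _ = 2 * D := one_mul _
    · have e : sg n * (5 / 8 + g * t / 16) * (3 / 2) * ((1 - g) * w) -
          sg n * (5 / 8 + g' * t / 16) * (3 / 2) * ((1 - g') * w) =
          sg n * (3 / 2 * (-((5 / 8 + g * t / 16) * ((g - g') * w)) +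
            ((g - g') * t / 16) * ((1 - g') * w))) := by
        ring
      rw [e, abs_mul, abs_of_pos hs]
      have e4 : |3 / 2 * (-((5 / 8 + g * t / 16) * ((g - g') * w)) +
            ((g - g') * t / 16) * ((1 - g') * w))| ≤ 2 * D := by
        rw [abs_mul]
        have f0 : |(3 / 2 : ℝ)| = 3 / 2 := abs_of_pos (by norm_num)
        rw [f0]
        have f5 : |-((5 / 8 + g * t / 16) * ((g - g') * w)) +
            ((g - g') * t / 16) * ((1 - g') * w)| ≤ 11 / 16 * D + 1 / 16 * D := by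
          refine (abs_add_le _ _).trans ?_
          rw [abs_neg, abs_mul (5 / 8 + g * t / 16), abs_mul ((g - g') * t / 16)]
          have f1 : |(g - g') * w| ≤ D := abs_le.mpr hgw
          have f2 : |(g - g') * t / 16| ≤ 1 / 16 * D := by
            rw [abs_le]; constructor <;> linarith
          have f3 : |5 / 8 + g * t / 16| ≤ 11 / 16 := by
            rw [abs_le]; constructor <;> linarith
          have f4 := mul_le_mul f3 f1 (abs_nonneg _) (by norm_num : (0 : ℝ) ≤ 11 / 16)
          have f6 := mul_le_mul f2 e2 (abs_nonneg _) (by positivity)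
          linarith
        linarith
      calc sg n * |3 / 2 * (-((5 / 8 + g * t / 16) * ((g - g') * w)) +
            ((g - g') * t / 16) * ((1 - g') * w))| ≤ 1 * (2 * D) :=
            mul_le_mul hs1 e4 (abs_nonneg _) (by norm_num)
        _ = 2 * D := one_mul _
  · obtain ⟨r, ⟨h1, h2⟩, rfl⟩ := hy
    refine ⟨P i (max r (sg n * (5 / 8 + g' / 16))) 0, Or.inr ⟨_, ⟨?_, ?_⟩, rfl⟩, keyr _ _ ?_⟩
    · exact le_max_right _ _
    · refine max_le h2 ?_
      nlinarith
    · rcases le_total (sg n * (5 / 8 + g' / 16)) r with h3 | h3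
      · rw [max_eq_left h3, sub_self, abs_zero]
        positivity
      · rw [max_eq_right h3, abs_sub_comm, abs_of_nonneg (by linarith)]
        nlinarith

/-! ### blocks -/

theorem half_pos (M : ℕ) : (0 : ℝ) < (1 / 2) ^ M := by positivity

theorem half_le (M : ℕ) : ((1 : ℝ) / 2) ^ M ≤ 1 := pow_le_one₀ (by norm_num) (by norm_num)

theorem bv_mem (β : Bool) : 0 ≤ bv β ∧ bv β ≤ 1 := by
  unfold bv
  split_ifs <;> norm_num

theorem bump_param (M n : ℕ) (β : Bool) {y : Fin 3 → ℝ} (hy : y ∈ Bump M n β) :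
    ∃ x s : ℝ, cc M ≤ x ∧ x ≤ cc M + (1 / 2) ^ M / 4 * (1 / 2) ^ n ∧ 0 ≤ s ∧ s ≤ 1 ∧
      y = W x (s * (1 / 2) ^ M / 8) := by
  obtain ⟨t, ⟨h1, h2⟩, rfl⟩ := hy
  have hM := half_pos M
  have hn := half_pos n
  have hb := bv_mem β
  have h3 : |2 * t - 1| ≤ 1 := abs_le.mpr ⟨by linarith, by linarith⟩
  have h4 := abs_nonneg (2 * t - 1)
  have h5 : xx M (n + 1) ≤ xx M n := by
    unfold xx
    rw [pow_succ]
    have : (0 : ℝ) < (1 / 2) ^ M / 4 * (1 / 2) ^ n := by positivity
    nlinarith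
  have h6 : cc M ≤ xx M (n + 1) := by
    unfold xx
    have : (0 : ℝ) < (1 / 2) ^ M / 4 * (1 / 2) ^ (n + 1) := by positivity
    linarith
  refine ⟨xx M (n + 1) + t * (xx M n - xx M (n + 1)), bv β * (1 - |2 * t - 1|), ?_, ?_, ?_, ?_, ?_⟩
  · nlinarith
  · have h7 : xx M (n + 1) + t * (xx M n - xx M (n + 1)) ≤ xx M n := by nlinarith
    exact h7
  · exact mul_nonneg hb.1 (by linarith)
  · nlinarith [mul_nonneg hb.1 h4]
  · beta_reduce
    congr 1
    ring

theorem bump_wall {M n : ℕ} {β : Bool} {y : Fin 3 → ℝ} (hy : y ∈ Bump M n β) :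
    ∃ y' ∈ Wall M, dist y y' ≤ (1 / 2) ^ n := by
  obtain ⟨x, s, h1, h2, h3, h4, rfl⟩ := bump_param M n β hy
  refine ⟨W (cc M) (s * (1 / 2) ^ M / 8), ⟨s, ⟨h3, h4⟩, rfl⟩, dist_W (half_pos n).le ?_ ?_⟩
  · rw [abs_of_nonneg (by linarith)]
    have := half_le M
    have := half_pos n
    have : (1 / 2 : ℝ) ^ M / 4 * (1 / 2) ^ n ≤ 1 * (1 / 2) ^ n :=
      mul_le_mul_of_nonneg_right (by linarith) (half_pos n).le
    linarith
  · rw [sub_self, abs_zero]
    exact (half_pos n).le

theorem near_W (M : ℕ) {x s : ℝ} (h1 : uu M ≤ x) (h2 : x ≤ 1) (h3 : 0 ≤ s) (h4 : s ≤ 1) :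
    dist (W x (s * (1 / 2) ^ M / 8)) (W 1 0) ≤ (1 / 2) ^ M := by
  have hM := half_pos M
  refine dist_W hM.le ?_ ?_
  · unfold uu at h1
    rw [abs_le]
    constructor <;> linarith
  · rw [sub_zero, abs_of_nonneg (by positivity)]
    nlinarith

theorem block_W {b : ℕ → ℕ → Bool} {M : ℕ} {y : Fin 3 → ℝ} (hy : y ∈ Block b M) :
    dist y (W 1 0) ≤ (1 / 2) ^ M := by
  have hM := half_pos M
  rcases hy with (hy | hy) | hy
  · obtain ⟨t, ⟨h1, h2⟩, rfl⟩ := hy
    refine near_W M ?_ ?_ h1 h2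
    · have : 0 ≤ t * (1 / 2) ^ M / 4 := by positivity
      linarith
    · unfold uu
      nlinarith
  · obtain ⟨t, ⟨h1, h2⟩, rfl⟩ := hy
    refine near_W M ?_ ?_ h1 h2
    · unfold cc
      linarith
    · unfold cc uu
      linarith
  · obtain ⟨n, hn⟩ := Set.mem_iUnion.mp hy
    obtain ⟨x, s, h1, h2, h3, h4, rfl⟩ := bump_param M n _ hn
    refine near_W M ?_ ?_ h3 h4
    · unfold cc at h1
      linarith
    · have h5 : (1 / 2 : ℝ) ^ M / 4 * (1 / 2) ^ n ≤ (1 / 2) ^ M / 4 * 1 :=
        mul_le_mul_of_nonneg_left (half_le n) (by positivity)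
      unfold cc uu at h2
      linarith

/-! ### compactness -/

theorem comp_Block (b : ℕ → ℕ → Bool) (M : ℕ) : IsCompact (Block b M) := by
  have h : Block b M = (Rise M ∪ Wall M) ∪ ⋃ n, Bump M n (b M n) := rfl
  rw [h]
  refine seq_compact _ _ sg ((comp_Rise M).union (comp_Wall M)) (fun n => comp_Bump M n _) sg_anti
    sg_lim (fun n => (sg_pos n).le) fun n y hy => ?_
  obtain ⟨y', h1, h2⟩ := bump_wall hy
  exact ⟨y', Or.inr h1, h2⟩

theorem comp_GG (b : ℕ → ℕ → Bool) : IsCompact (GG b) := by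
  refine seq_compact _ _ sg isCompact_singleton (fun M => comp_Block b M) sg_anti sg_lim
    (fun n => (sg_pos n).le) fun M y hy => ?_
  exact ⟨W 1 0, rfl, block_W hy⟩

theorem TT_eq (g : ℕ → ℝ) : TT g 0 = {0} ∪ ⋃ m : ℕ, ⋃ i : Fin 3, Layer i m (g m) := by
  unfold TT
  congr 1
  ext y
  simp only [Set.mem_iUnion, Subtype.exists, Nat.zero_le, exists_prop, true_and]
  exact exists_comm

theorem comp_TT (g : ℕ → ℝ) (hg : ∀ n, g n ∈ Icc (0 : ℝ) 1) : IsCompact (TT g 0) := by
  rw [TT_eq]
  refine seq_compact _ _ (fun n => 2 * sg n) isCompact_singleton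
    (fun m => isCompact_iUnion fun i => comp_Layer i m _) ?_ ?_ ?_ fun m y hy => ?_
  · intro a b h
    have := sg_anti h
    show 2 * sg b ≤ 2 * sg a
    linarith
  · have := sg_lim.const_mul 2
    simpa using this
  · intro m
    have := sg_pos m
    positivity
  · obtain ⟨i, hi⟩ := Set.mem_iUnion.mp hy
    exact ⟨0, rfl, layer_zero (hg m) hi⟩

theorem comp_KK (g : ℕ → ℝ) (b : ℕ → ℕ → Bool) (hg : ∀ n, g n ∈ Icc (0 : ℝ) 1) :
    IsCompact (KK g b) :=
  (((comp_TT g hg).union comp_C0).union comp_C2).union (comp_GG b)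

/-! ### the Lipschitz estimate -/

theorem lip (N : ℕ) (δ : ℝ) (hδ : 0 ≤ δ) (g g' : ℕ → ℝ) (b b' : ℕ → ℕ → Bool)
    (hg : ∀ n, g n ∈ Icc (0 : ℝ) 1) (hg' : ∀ n, g' n ∈ Icc (0 : ℝ) 1)
    (h1 : ∀ n < N, |g n - g' n| ≤ δ) (h2 : ∀ M < N, ∀ n < N, b M n = b' M n) :
    ∀ y ∈ KK g b, ∃ y' ∈ KK g' b', dist y y' ≤ 2 * sg N + 2 * δ := by
  have hs := sg_pos N
  intro y hy
  rcases hy with ((hy | hy) | hy) | hy
  · rw [TT_eq] at hy
    rcases hy with hy | hy
    · refine ⟨y, Or.inl (Or.inl (Or.inl ?_)), by rw [dist_self]; positivity⟩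
      rw [TT_eq]
      exact Or.inl hy
    · obtain ⟨m, hm⟩ := Set.mem_iUnion.mp hy
      obtain ⟨i, hi⟩ := Set.mem_iUnion.mp hm
      by_cases hmN : m < N
      · obtain ⟨y', h3, h4⟩ := layer_lip (hg m) (hg' m) hi
        refine ⟨y', Or.inl (Or.inl (Or.inl ?_)), ?_⟩
        · rw [TT_eq]
          exact Or.inr (Set.mem_iUnion.mpr ⟨m, Set.mem_iUnion.mpr ⟨i, h3⟩⟩)
        · have := h1 m hmN
          linarith
      · refine ⟨0, Or.inl (Or.inl (Or.inl ?_)), ?_⟩
        · rw [TT_eq]
          exact Or.inl rfl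
        · have h3 := layer_zero (hg m) hi
          have h4 := sg_anti (not_lt.mp hmN)
          linarith
  · exact ⟨y, Or.inl (Or.inl (Or.inr hy)), by rw [dist_self]; positivity⟩
  · exact ⟨y, Or.inl (Or.inr hy), by rw [dist_self]; positivity⟩
  · rcases hy with hy | hy
    · exact ⟨y, Or.inr (Or.inl hy), by rw [dist_self]; positivity⟩
    · obtain ⟨M, hM⟩ := Set.mem_iUnion.mp hy
      by_cases hMN : M < N
      · have hin : ∀ y', y' ∈ Block b' M → y' ∈ KK g' b' := fun y' h =>
          Or.inr (Or.inr (Set.mem_iUnion.mpr ⟨M, h⟩))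
        rcases hM with hM | hM
        · exact ⟨y, hin y (Or.inl hM), by rw [dist_self]; positivity⟩
        · obtain ⟨n, hn⟩ := Set.mem_iUnion.mp hM
          by_cases hnN : n < N
          · refine ⟨y, hin y (Or.inr (Set.mem_iUnion.mpr ⟨n, ?_⟩)), by rw [dist_self]; positivity⟩
            rw [← h2 M hMN n hnN]
            exact hn
          · obtain ⟨y', h3, h4⟩ := bump_wall hn
            refine ⟨y', hin y' (Or.inl (Or.inr h3)), ?_⟩
            have h5 : sg n ≤ sg N := sg_anti (not_lt.mp hnN)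
            have h6 : dist y y' ≤ sg n := h4
            linarith
      · refine ⟨W 1 0, Or.inr (Or.inl rfl), ?_⟩
        have h3 : dist y (W 1 0) ≤ sg M := block_W hM
        have h4 := sg_anti (not_lt.mp hMN)
        linarith

end P_CONT

open P_CONT in
theorem t_CONT : S_CONT.{u} := by
  intro Z _ g b hgc hg hbc
  have hne : ∀ z, (KK (fun n => g n z) (fun M n => b M n z)).Nonempty := fun z =>
    ⟨0, Or.inl (Or.inl (Or.inl (Or.inl rfl)))⟩
  refine ⟨fun z => ⟨⟨KK (fun n => g n z) (fun M n => b M n z),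
    comp_KK _ _ fun n => hg n z⟩, hne z⟩, ?_, fun z => rfl⟩
  rw [Metric.continuous_iff']
  intro z ε hε
  obtain ⟨N, hN⟩ := (sg_lim.eventually (gt_mem_nhds (by positivity : 0 < ε / 8))).exists
  have e1 : ∀ᶠ x in 𝓝 z, ∀ n ∈ Finset.range N, |g n x - g n z| ≤ ε / 8 := by
    rw [Filter.eventually_all_finset]
    intro n _
    have h1 := Metric.continuous_iff'.mp (hgc n) z (ε / 8) (by positivity)
    filter_upwards [h1] with x hx
    rw [Real.dist_eq] at hx
    exact hx.le
  have e2 : ∀ᶠ x in 𝓝 z, ∀ M ∈ Finset.range N, ∀ n ∈ Finset.range N, b M n x = b M n z := by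
    rw [Filter.eventually_all_finset]
    intro M _
    rw [Filter.eventually_all_finset]
    intro n _
    exact (hbc M n).continuousAt.eventually (by
      rw [nhds_discrete]
      exact Filter.eventually_pure.mpr rfl : ∀ᶠ w in 𝓝 (b M n z), w = b M n z)
  filter_upwards [e1, e2] with x h1 h2
  rw [Metric.NonemptyCompacts.dist_eq]
  have h3 : Metric.hausdorffDist (KK (fun n => g n x) (fun M n => b M n x))
      (KK (fun n => g n z) (fun M n => b M n z)) ≤ 2 * sg N + 2 * (ε / 8) := by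
    refine Metric.hausdorffDist_le_of_mem_dist ?_ ?_ ?_
    · have := sg_pos N
      positivity
    · exact lip N (ε / 8) (by positivity) _ _ _ _ (fun n => hg n x) (fun n => hg n z)
        (fun n hn => h1 n (Finset.mem_range.mpr hn))
        (fun M hM n hn => h2 M (Finset.mem_range.mpr hM) n (Finset.mem_range.mpr hn))
    · exact lip N (ε / 8) (by positivity) _ _ _ _ (fun n => hg n z) (fun n => hg n x)
        (fun n hn => by rw [abs_sub_comm]; exact h1 n (Finset.mem_range.mpr hn))
        (fun M hM n hn => (h2 M (Finset.mem_range.mpr hM) n (Finset.mem_range.mpr hn)).symm)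
  refine lt_of_le_of_lt h3 ?_
  linarith

end Pool.Agent.H742.AC6
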