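import Pool.Agent.H742.AC6.Stm2

/-!
# EMBED and REGION for MP_917a41_gt : the octant boundary embeds in the cube, and the continua lie in it
-/

namespace Pool.Agent.H742.AC6

open Set Topology TopologicalSpace

namespace EMBED

/-- the region -/
def Reg : Set (Fin 3 → ℝ) := {y | (∀ k, y k ∈ Icc (0 : ℝ) 2) ∧ ∃ k, y k = 0}

theorem mem_P (i : Fin 3) {r t : ℝ} (hr0 : 0 ≤ r) (hr1 : r ≤ 1) (ht0 : 0 ≤ t) (ht1 : t ≤ 1) :
    P i r t ∈ Reg := by
  have hrt : 0 ≤ r * t := mul_nonneg hr0 ht0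
  have hrt1 : r * t ≤ 1 := mul_le_one₀ hr1 ht0 ht1
  refine ⟨fun k => ?_, i + 2, ?_⟩
  · unfold P
    split_ifs
    · constructor <;> nlinarith
    · constructor <;> nlinarith
    · constructor <;> norm_num
  · unfold P
    fin_cases i <;> simp

theorem mem_W {u v : ℝ} (hu0 : 0 ≤ u) (hu1 : u ≤ 1) (hv0 : 0 ≤ v) (hv1 : v ≤ 2) : W u v ∈ Reg := by
  refine ⟨fun k => ?_, 2, ?_⟩
  · unfold W
    split_ifs
    · constructor <;> linarith
    · exact ⟨hv0, hv1⟩
    · constructor <;> norm_num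
  · unfold W
    simp

theorem sg_pos (n : ℕ) : 0 < sg n := by unfold sg; positivity

theorem sg_le (n : ℕ) : sg n ≤ 1 := by
  unfold sg; exact pow_le_one₀ (by norm_num) (by norm_num)

theorem mem_Ax (i : Fin 3) {a b : ℝ} (ha : 0 ≤ a) (hb : b ≤ 1) : Ax i a b ⊆ Reg := by
  rintro _ ⟨r, ⟨hr1, hr2⟩, rfl⟩
  exact mem_P i (ha.trans hr1) (hr2.trans hb) le_rfl zero_le_one

theorem mem_Tent (i : Fin 3) (n : ℕ) {g : ℝ} (hg0 : 0 ≤ g) (hg1 : g ≤ 1) : Tent i n g ⊆ Reg := by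
  rintro _ ⟨t, ⟨ht1, ht2⟩, rfl⟩
  have h1 := sg_pos n
  have h2 := sg_le n
  have h3 : -1 ≤ g * t := by nlinarith
  have h4 : g * t ≤ 1 := by nlinarith
  have h5 : |t| ≤ 1 := abs_le.2 ⟨ht1, ht2⟩
  have h6 := abs_nonneg t
  refine mem_P i ?_ ?_ ?_ ?_
  · exact mul_nonneg h1.le (by linarith)
  · exact mul_le_one₀ h2 (by linarith) (by linarith)
  · exact mul_nonneg (by linarith) (by linarith)
  · exact mul_le_one₀ (by linarith) (by linarith) (by linarith)

theorem mem_Layer (i : Fin 3) (n : ℕ) {g : ℝ} (hg0 : 0 ≤ g) (hg1 : g ≤ 1) : Layer i n g ⊆ Reg := by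
  have h1 := sg_pos n
  have h2 := sg_le n
  rintro y ((hy | hy) | hy)
  · exact mem_Ax i (by linarith) (mul_le_one₀ h2 (by linarith) (by linarith)) hy
  · exact mem_Tent i n hg0 hg1 hy
  · exact mem_Ax i (mul_nonneg h1.le (by linarith)) h2 hy

theorem zero_mem : (0 : Fin 3 → ℝ) ∈ Reg :=
  ⟨fun _ => ⟨le_rfl, by norm_num⟩, 0, rfl⟩

theorem mem_TT {g : ℕ → ℝ} (hg : ∀ n, g n ∈ Icc (0 : ℝ) 1) : TT g 0 ⊆ Reg := by
  rintro y (hy | hy)
  · rw [mem_singleton_iff.1 hy]; exact zero_mem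
  · obtain ⟨i, hi⟩ := mem_iUnion.1 hy
    obtain ⟨m, hm⟩ := mem_iUnion.1 hi
    exact mem_Layer i m (hg m).1 (hg m).2 hm

theorem mem_C0 : C0 ⊆ Reg := by
  rintro _ ⟨u, ⟨hu0, hu1⟩, rfl⟩
  refine ⟨fun k => ?_, 2, ?_⟩
  · beta_reduce
    split_ifs
    · constructor <;> linarith
    · constructor <;> linarith
    · constructor <;> norm_num
  · simp

theorem mem_C2 : C2 ⊆ Reg := by
  rintro _ ⟨u, ⟨hu0, hu1⟩, rfl⟩
  refine ⟨fun k => ?_, 0, ?_⟩
  · beta_reduce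
    split_ifs
    · constructor <;> linarith
    · constructor <;> linarith
    · constructor <;> norm_num
  · simp

theorem mem_GG (b : ℕ → ℕ → Bool) : GG b ⊆ Reg := by
  rintro y (hy | hy)
  · rw [mem_singleton_iff.1 hy]
    exact mem_W zero_le_one le_rfl le_rfl (by norm_num)
  · obtain ⟨M, hM⟩ := mem_iUnion.1 hy
    have h1 : (0 : ℝ) < (1 / 2) ^ M := by positivity
    have h2 : ((1 : ℝ) / 2) ^ M ≤ 1 := pow_le_one₀ (by norm_num) (by norm_num)
    obtain ⟨q, hq⟩ : ∃ q : ℝ, q = (1 / 2) ^ M := ⟨_, rfl⟩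
    rcases hM with (hM | hM) | hM
    · obtain ⟨t, ⟨ht0, ht1⟩, rfl⟩ := hM
      unfold uu
      rw [← hq] at h1 h2 ⊢
      refine mem_W ?_ ?_ ?_ ?_ <;> nlinarith
    · obtain ⟨t, ⟨ht0, ht1⟩, rfl⟩ := hM
      unfold cc uu
      rw [← hq] at h1 h2 ⊢
      refine mem_W ?_ ?_ ?_ ?_ <;> nlinarith
    · obtain ⟨n, t, ⟨ht0, ht1⟩, rfl⟩ := mem_iUnion.1 hM
      have h3 : (0 : ℝ) < (1 / 2) ^ n := by positivity
      have h4 : ((1 : ℝ) / 2) ^ n ≤ 1 := pow_le_one₀ (by norm_num) (by norm_num)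
      obtain ⟨s, hs⟩ : ∃ s : ℝ, s = (1 / 2) ^ n := ⟨_, rfl⟩
      have h5 : xx M (n + 1) + t * (xx M n - xx M (n + 1)) =
          1 - q + q / 4 + q / 4 * (s * (1 / 2 + t / 2)) := by
        unfold xx cc uu
        rw [hq, hs, pow_succ]
        ring
      have h6 : 0 ≤ s * (1 / 2 + t / 2) := by
        rw [hs]; exact mul_nonneg h3.le (by linarith)
      have h7 : s * (1 / 2 + t / 2) ≤ 1 := by
        rw [hs]; exact mul_le_one₀ h4 (by linarith) (by linarith)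
      have h8 : |2 * t - 1| ≤ 1 := abs_le.2 ⟨by linarith, by linarith⟩
      have h9 := abs_nonneg (2 * t - 1)
      have h10 : 0 ≤ bv (b M n) := by unfold bv; split_ifs <;> norm_num
      have h11 : bv (b M n) ≤ 1 := by unfold bv; split_ifs <;> norm_num
      have h12 : 0 ≤ (1 / 2) ^ M / 8 * (1 - |2 * t - 1|) :=
        mul_nonneg (by positivity) (by linarith)
      have h13 : (1 / 2) ^ M / 8 * (1 - |2 * t - 1|) ≤ 1 :=
        mul_le_one₀ (by linarith) (by linarith) (by linarith)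
      beta_reduce
      rw [h5, mul_assoc]
      rw [← hq] at h1 h2 h12 h13 ⊢
      have h14 : 0 ≤ q / 4 * (s * (1 / 2 + t / 2)) := mul_nonneg (by linarith) h6
      have h15 : q / 4 * (s * (1 / 2 + t / 2)) ≤ q / 4 :=
        mul_le_of_le_one_right (by linarith) h7
      refine mem_W ?_ ?_ ?_ ?_
      · linarith
      · linarith
      · exact mul_nonneg h10 h12
      · exact (mul_le_one₀ h11 h12 h13).trans (by norm_num)

/-- the embedding -/
noncomputable def phi (N : ℕ) (y : Fin 3 → ℝ) : Fin N → unitInterval := fun k =>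
  if (k : ℕ) = 0 then projIcc 0 1 zero_le_one ((y 0 - y 2) / 4 + 1 / 2)
  else if (k : ℕ) = 1 then projIcc 0 1 zero_le_one ((y 1 - y 2) / 4 + 1 / 2) else 0

theorem phi_cont (N : ℕ) : Continuous (phi N) := by
  refine continuous_pi fun k => ?_
  unfold phi
  split_ifs
  · exact continuous_projIcc.comp (by fun_prop)
  · exact continuous_projIcc.comp (by fun_prop)
  · exact continuous_const

theorem proj_inj {a b : ℝ} (ha : a ∈ Icc (0 : ℝ) 1) (hb : b ∈ Icc (0 : ℝ) 1)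
    (h : projIcc (0 : ℝ) 1 zero_le_one a = projIcc 0 1 zero_le_one b) : a = b := by
  rw [projIcc_of_mem zero_le_one ha, projIcc_of_mem zero_le_one hb] at h
  exact Subtype.mk.inj h

theorem diff_mem {y : Fin 3 → ℝ} (hy : ∀ k, y k ∈ Icc (0 : ℝ) 2) (k : Fin 3) :
    (y k - y 2) / 4 + 1 / 2 ∈ Icc (0 : ℝ) 1 := by
  have h1 := hy k
  have h2 := hy 2
  constructor <;> linarith [h1.1, h1.2, h2.1, h2.2]

theorem phi_zero {N : ℕ} (h : 0 < N) (y : Fin 3 → ℝ) : phi N y ⟨0, h⟩ =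
    projIcc 0 1 zero_le_one ((y 0 - y 2) / 4 + 1 / 2) := by
  unfold phi
  exact if_pos rfl

theorem phi_one {N : ℕ} (h : 1 < N) (y : Fin 3 → ℝ) : phi N y ⟨1, h⟩ =
    projIcc 0 1 zero_le_one ((y 1 - y 2) / 4 + 1 / 2) := by
  unfold phi
  exact (if_neg one_ne_zero).trans (if_pos rfl)

theorem phi_inj {N : ℕ} (hN : 2 ≤ N) : InjOn (phi N) Reg := by
  rintro y ⟨hy, i, hi⟩ z ⟨hz, j, hj⟩ h
  have e0 := congrFun h ⟨0, by omega⟩
  have e1 := congrFun h ⟨1, by omega⟩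
  rw [phi_zero, phi_zero] at e0
  rw [phi_one, phi_one] at e1
  have f0 := proj_inj (diff_mem hy 0) (diff_mem hz 0) e0
  have f1 := proj_inj (diff_mem hy 1) (diff_mem hz 1) e1
  have g : ∀ k : Fin 3, y k - z k = y 2 - z 2 := by
    intro k
    match k with
    | 0 => linarith
    | 1 => linarith
    | 2 => rfl
  have g1 : y 2 - z 2 ≤ 0 := by
    have := g i
    linarith [(hz i).1]
  have g2 : 0 ≤ y 2 - z 2 := by
    have := g j
    linarith [(hy j).1]
  funext k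
  have := g k
  linarith

end EMBED

theorem t_REGION : S_REGION := by
  intro g b hg y hy
  rcases hy with ((hy | hy) | hy) | hy
  · exact EMBED.mem_TT hg hy
  · exact EMBED.mem_C0 hy
  · exact EMBED.mem_C2 hy
  · exact EMBED.mem_GG b hy

theorem t_EMBED : S_EMBED := fun N hN => ⟨EMBED.phi N, EMBED.phi_cont N, EMBED.phi_inj hN⟩

end Pool.Agent.H742.AC6
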