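import Pool.Agent.H742.AC6.Stm2

/-! Glueing of a layer with positive gap. -/

namespace Pool.Agent.H742.AC6

open Set Topology TopologicalSpace

namespace EXTGLUE

theorem P_apply (i k : Fin 3) (r : ℝ) : P i r 0 k = if k = i then r else 0 := by
  unfold P
  by_cases h : k = i
  · simp [h]
  · simp [h]

theorem P_inj {i j : Fin 3} {r s : ℝ} (hr : 0 < r) (h : P i r 0 = P j s 0) : i = j ∧ r = s := by
  have h1 := congrFun h i
  rw [P_apply, P_apply, if_pos rfl] at h1
  by_cases hij : i = j
  · rw [if_pos hij] at h1
    exact ⟨hij, h1⟩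
  · rw [if_neg hij] at h1
    exact absurd h1 hr.ne'

theorem size_P (i : Fin 3) (r : ℝ) : size (P i r 0) = r := by
  unfold size
  rw [P_apply, P_apply, P_apply]
  fin_cases i <;> simp

theorem size_zero : size (0 : Fin 3 → ℝ) = 0 := by
  unfold size
  simp

theorem sg_pos (n : ℕ) : 0 < sg n := by
  unfold sg
  positivity

theorem sg_succ (n : ℕ) : sg (n + 1) = sg n / 2 := by
  unfold sg
  rw [pow_succ]
  ring

theorem sg_anti {m n : ℕ} (h : n ≤ m) : sg m ≤ sg n := by
  unfold sg
  exact pow_le_pow_of_le_one (by norm_num) (by norm_num) h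

/-- the residue of a natural number -/
def md (v : ℕ) : Fin 3 := ⟨v % 3, Nat.mod_lt _ (by norm_num)⟩

theorem md_coe (i : Fin 3) : md (i : ℕ) = i := by
  apply Fin.ext
  exact Nat.mod_eq_of_lt i.2

theorem md_add (i : Fin 3) : md (3 + (i : ℕ)) = i := by
  apply Fin.ext
  show (3 + (i : ℕ)) % 3 = i
  rw [Nat.add_mod_left]
  exact Nat.mod_eq_of_lt i.2

end EXTGLUE

open EXTGLUE in
theorem t_EXTGLUE : S_LAYERARC → S_SIZE → S_LAYERDISJ → S_EXTGLUE := by
  intro hA hS hD g n hg hn
  have hgn := (hg n).2
  choose F hFc hFi hF0 hF1 hFr using fun i => hA i n (g n) hn hgn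
  have hT : ∀ y ∈ TT g (n + 1), size y ≤ sg n / 2 := by
    intro y hy
    rcases hy with hy | hy
    · rw [mem_singleton_iff] at hy
      rw [hy, size_zero]
      have := sg_pos n
      linarith
    · rw [mem_iUnion] at hy
      obtain ⟨i, hy⟩ := hy
      rw [mem_iUnion] at hy
      obtain ⟨⟨m, hm⟩, hy⟩ := hy
      have h1 := (hS i m (g m) (hg m).1 (hg m).2 y hy).2.1
      have h2 := sg_anti hm
      rw [sg_succ] at h2
      exact h1.trans h2
  have hL0 : ∀ i : Fin 3, P i (sg n / 2) 0 ∈ Layer i n (g n) := by
    intro i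
    rw [← hFr i, ← hF0 i]
    exact mem_range_self _
  have hL1 : ∀ i : Fin 3, P i (sg n) 0 ∈ Layer i n (g n) := by
    intro i
    rw [← hFr i, ← hF1 i]
    exact mem_range_self _
  have hdis : ∀ (i j : Fin 3) (y : Fin 3 → ℝ), y ∈ Layer i n (g n) → y ∈ Layer j n (g n) →
      i = j := by
    intro i j y h1 h2
    by_contra hij
    exact (Set.disjoint_left.1 (hD i j n (g n) hn hgn hij)) h1 h2
  let pos : ℕ → (Fin 3 → ℝ) := fun v => if v < 3 then P (md v) (sg n / 2) 0 else P (md v) (sg n) 0
  have hposL : ∀ v, pos v ∈ Layer (md v) n (g n) := by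
    intro v
    by_cases hv : v < 3
    · have : pos v = P (md v) (sg n / 2) 0 := if_pos hv
      rw [this]; exact hL0 _
    · have : pos v = P (md v) (sg n) 0 := if_neg hv
      rw [this]; exact hL1 _
  have hpos0 : ∀ i : Fin 3, pos (i : ℕ) = P i (sg n / 2) 0 := by
    intro i
    have : pos (i : ℕ) = P (md (i : ℕ)) (sg n / 2) 0 := if_pos i.2
    rw [this, md_coe]
  have hpos1 : ∀ i : Fin 3, pos (3 + (i : ℕ)) = P i (sg n) 0 := by
    intro i
    have : pos (3 + (i : ℕ)) = P (md (3 + (i : ℕ))) (sg n) 0 := if_neg (by omega)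
    rw [this, md_add]
  have hsgp := sg_pos n
  let f : ℕ → unitInterval → (Fin 3 → ℝ) := fun k => F (md k)
  have hfL : ∀ k s, f k s ∈ Layer (md k) n (g n) := by
    intro k s
    rw [← hFr (md k)]
    exact mem_range_self _
  refine ⟨pos, f, ?_, ?_, ?_, ?_⟩
  · refine ⟨?_, ?_, ?_, ?_, ?_, ?_, ?_, ?_, ?_⟩
    · intro v hv w hw h
      change v < 6 at hv
      change w < 6 at hw
      by_cases h1 : v < 3 <;> by_cases h2 : w < 3
      · have e1 : pos v = P (md v) (sg n / 2) 0 := if_pos h1
        have e2 : pos w = P (md w) (sg n / 2) 0 := if_pos h2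
        rw [e1, e2] at h
        have h3 := congrArg Fin.val (P_inj (by linarith) h).1
        change v % 3 = w % 3 at h3
        omega
      · have e1 : pos v = P (md v) (sg n / 2) 0 := if_pos h1
        have e2 : pos w = P (md w) (sg n) 0 := if_neg h2
        rw [e1, e2] at h
        have h3 := (P_inj (by linarith) h).2
        linarith
      · have e1 : pos v = P (md v) (sg n) 0 := if_neg h1
        have e2 : pos w = P (md w) (sg n / 2) 0 := if_pos h2
        rw [e1, e2] at h
        have h3 := (P_inj (by linarith) h).2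
        linarith
      · have e1 : pos v = P (md v) (sg n) 0 := if_neg h1
        have e2 : pos w = P (md w) (sg n) 0 := if_neg h2
        rw [e1, e2] at h
        have h3 := congrArg Fin.val (P_inj (by linarith) h).1
        change v % 3 = w % 3 at h3
        omega
    · intro k _
      exact hFc _
    · intro k _
      exact hFi _
    · intro k hk
      change k < 3 at hk
      have e1 : pos k = P (md k) (sg n / 2) 0 := if_pos hk
      change F (md k) 0 = pos k
      rw [e1]
      exact hF0 _
    · intro k hk
      change k < 3 at hk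
      have e1 : pos (3 + k) = P (md k) (sg n) 0 := by
        have h1 := hpos1 ⟨k, hk⟩
        change pos (3 + k) = P ⟨k, hk⟩ (sg n) 0 at h1
        rw [h1]
        have h2 : md k = ⟨k, hk⟩ := Fin.ext (Nat.mod_eq_of_lt hk)
        rw [h2]
      change F (md k) 1 = pos (3 + k)
      rw [e1]
      exact hF1 _
    · intro k hk l hl hkl s t h
      exfalso
      change k < 3 at hk
      change l < 3 at hl
      have h1 := hfL k s
      have h2 := hfL l t
      rw [← h] at h2
      have h3 := congrArg Fin.val (hdis _ _ _ h1 h2)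
      change k % 3 = l % 3 at h3
      omega
    · intro k hk s h
      change k < 3 at hk
      have h1 := hfL k s
      have h2 := hS (md k) n (g n) (hg n).1 hgn _ h1
      have h3 := hT _ h
      have h4 := h2.2.2.1 (le_antisymm h3 h2.1)
      refine ⟨md k, ?_, Or.inl ?_⟩
      · rw [h4]
        exact (hpos0 _).symm
      · exact Nat.mod_eq_of_lt hk
    · intro v hv k hk s h
      change v < 6 at hv
      change k < 3 at hk
      have h1 := hfL k s
      rw [h] at h1
      have h2 := congrArg Fin.val (hdis _ _ _ h1 (hposL v))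
      change k % 3 = v % 3 at h2
      change v = k ∨ v = 3 + k
      omega
    · intro v hv h
      change v < 6 at hv
      by_cases h1 : v < 3
      · exact ⟨⟨v, h1⟩, rfl⟩
      · exfalso
        have e1 : pos v = P (md v) (sg n) 0 := if_neg h1
        have h2 := hT _ h
        rw [e1, size_P] at h2
        linarith
  · intro i
    rw [sg_succ]
    exact hpos0 i
  · intro i
    exact hpos1 i
  · ext y
    constructor
    · rintro (hy | hy)
      · exact Or.inl (Or.inl hy)
      · rw [mem_iUnion] at hy
        obtain ⟨i, hy⟩ := hy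
        rw [mem_iUnion] at hy
        obtain ⟨⟨m, hm⟩, hy⟩ := hy
        by_cases hmn : m = n
        · right
          subst hmn
          refine ⟨(i : ℕ), i.2, ?_⟩
          change y ∈ range (F (md (i : ℕ)))
          rw [md_coe, hFr]
          exact hy
        · left
          right
          rw [mem_iUnion]
          refine ⟨i, ?_⟩
          rw [mem_iUnion]
          exact ⟨⟨m, by omega⟩, hy⟩
    · rintro (hy | ⟨k, hk, hy⟩)
      · rcases hy with hy | hy
        · exact Or.inl hy
        · right
          rw [mem_iUnion] at hy ⊢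
          obtain ⟨i, hy⟩ := hy
          refine ⟨i, ?_⟩
          rw [mem_iUnion] at hy ⊢
          obtain ⟨⟨m, hm⟩, hy⟩ := hy
          exact ⟨⟨m, by omega⟩, hy⟩
      · right
        rw [mem_iUnion]
        refine ⟨md k, ?_⟩
        rw [mem_iUnion]
        refine ⟨⟨n, le_refl n⟩, ?_⟩
        change y ∈ range (F (md k)) at hy
        rw [hFr] at hy
        exact hy

end Pool.Agent.H742.AC6
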