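import Pool.Agent.H742.AC6.Stm2

/-!
# MP_917a41_gt: the closing piece is an arc
-/

set_option autoImplicit false

namespace Pool.Agent.H742.AC6

open Set Topology TopologicalSpace

namespace GARC

theorem arc_of {Y : Type} [TopologicalSpace Y] (f : ℝ → Y) (hf : Continuous f)
    (hi : ∀ s ∈ Icc (0 : ℝ) 1, ∀ t ∈ Icc (0 : ℝ) 1, f s = f t → s = t) :
    IsArc (f '' Icc 0 1) (f 0) (f 1) := by
  refine ⟨fun t => f t, hf.comp continuous_subtype_val, ?_, rfl, rfl, ?_⟩
  · intro s t h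
    exact Subtype.ext (hi s.1 s.2 t.1 t.2 h)
  · ext y
    constructor
    · rintro ⟨t, rfl⟩
      exact ⟨t.1, t.2, rfl⟩
    · rintro ⟨t, ht, rfl⟩
      exact ⟨⟨t, ht⟩, rfl⟩

theorem arc_symm {Y : Type} [TopologicalSpace Y] {S : Set Y} {a b : Y} (h : IsArc S a b) :
    IsArc S b a := by
  obtain ⟨f, hf, hi, h0, h1, hr⟩ := h
  refine ⟨fun t => f (unitInterval.symm t), hf.comp unitInterval.continuous_symm, ?_, ?_, ?_, ?_⟩
  · intro s t hst
    exact unitInterval.symm_bijective.1 (hi hst)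
  · change f (unitInterval.symm 0) = b
    rw [unitInterval.symm_zero, h1]
  · change f (unitInterval.symm 1) = a
    rw [unitInterval.symm_one, h0]
  · rw [← hr]
    ext y
    constructor
    · rintro ⟨t, rfl⟩
      exact ⟨_, rfl⟩
    · rintro ⟨t, rfl⟩
      exact ⟨unitInterval.symm t, by
        change f (unitInterval.symm (unitInterval.symm t)) = f t
        rw [unitInterval.symm_symm]⟩

theorem W_inj {u v u' v' : ℝ} (h : W u v = W u' v') : u = u' ∧ v = v' := by
  have h1 := congrFun h 1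
  have h0 := congrFun h 0
  have e1 : W u v 1 = 1 + u := rfl
  have e1' : W u' v' 1 = 1 + u' := rfl
  have e0 : W u v 0 = v := rfl
  have e0' : W u' v' 0 = v' := rfl
  rw [e1, e1'] at h1
  rw [e0, e0'] at h0
  exact ⟨by linarith, h0⟩

theorem W_cont {f g : ℝ → ℝ} (hf : Continuous f) (hg : Continuous g) :
    Continuous (fun t => W (f t) (g t)) := by
  refine continuous_pi fun k => ?_
  unfold W
  split_ifs
  · exact continuous_const.add hf
  · exact hg
  · exact continuous_const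

theorem W_dist {u v u' v' ε : ℝ} (hε : 0 < ε) (h1 : |u - u'| < ε) (h2 : |v - v'| < ε) :
    dist (W u v) (W u' v') < ε := by
  rw [dist_pi_lt_iff hε]
  intro k
  unfold W
  split_ifs
  · rw [Real.dist_eq]
    have : (1 + u) - (1 + u') = u - u' := by ring
    rw [this]
    exact h1
  · rw [Real.dist_eq]
    exact h2
  · rw [dist_self]
    exact hε

theorem hpow (M : ℕ) : (0 : ℝ) < (1 / 2) ^ M := by positivity

theorem uu_succ (M : ℕ) : uu (M + 1) = uu M + (1 / 2) ^ M / 2 := by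
  unfold uu
  rw [pow_succ]
  ring

theorem xx_zero (M : ℕ) : xx M 0 = uu (M + 1) := by
  rw [uu_succ]
  unfold xx cc
  ring

theorem xx_succ (M n : ℕ) : xx M (n + 1) < xx M n := by
  unfold xx
  rw [pow_succ]
  have h1 := hpow M
  have h2 := hpow n
  nlinarith [mul_pos h1 h2]

theorem xx_anti (M : ℕ) : StrictAnti (xx M) := strictAnti_nat_of_succ_lt (xx_succ M)

theorem cc_lt (M n : ℕ) : cc M < xx M n := by
  unfold xx
  have h1 := hpow M
  have h2 := hpow n
  nlinarith [mul_pos h1 h2]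

theorem uu_lt_cc (M : ℕ) : uu M < cc M := by
  unfold cc
  have h1 := hpow M
  linarith

theorem uu_mono : StrictMono uu := strictMono_nat_of_lt_succ fun M => by
  rw [uu_succ]
  have h1 := hpow M
  linarith

theorem uu_lt_one (M : ℕ) : uu M < 1 := by
  unfold uu
  have h1 := hpow M
  linarith

theorem xx_le (M n : ℕ) : xx M n ≤ uu (M + 1) := by
  rw [← xx_zero]
  exact (xx_anti M).antitone (Nat.zero_le n)

/-- points of a bump -/
theorem mem_bump {M n : ℕ} {β : Bool} {y : Fin 3 → ℝ} (hy : y ∈ Bump M n β) :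
    ∃ u v, y = W u v ∧ xx M (n + 1) ≤ u ∧ u ≤ xx M n ∧ |v| ≤ (1 / 2) ^ M / 8 ∧
      (β = false → v = 0) ∧ (u = xx M (n + 1) → v = 0) ∧ (u = xx M n → v = 0) := by
  obtain ⟨t, ⟨h0, h1⟩, rfl⟩ := hy
  have hx := xx_succ M n
  have ha : |2 * t - 1| ≤ 1 := abs_le.2 ⟨by linarith, by linarith⟩
  have ha0 := abs_nonneg (2 * t - 1)
  have hM := hpow M
  refine ⟨_, _, rfl, ?_, ?_, ?_, ?_, ?_, ?_⟩
  · nlinarith
  · nlinarith
  · rw [abs_mul, abs_mul]
    have e1 : |bv β| ≤ 1 := by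
      unfold bv
      split_ifs <;> norm_num
    obtain ⟨w, hw⟩ : ∃ w, w = |2 * t - 1| := ⟨_, rfl⟩
    rw [← hw] at ha ha0 ⊢
    have e2 : |(1 : ℝ) - w| ≤ 1 := abs_le.2 ⟨by linarith, by linarith⟩
    have e3 : |((1 : ℝ) / 2) ^ M / 8| = (1 / 2) ^ M / 8 := abs_of_pos (by positivity)
    rw [e3]
    have e4 : |bv β| * ((1 / 2) ^ M / 8) ≤ 1 * ((1 / 2) ^ M / 8) :=
      mul_le_mul_of_nonneg_right e1 (by positivity)
    calc |bv β| * ((1 / 2) ^ M / 8) * |(1 : ℝ) - w|
        ≤ 1 * ((1 / 2) ^ M / 8) * 1 := mul_le_mul e4 e2 (abs_nonneg _) (by positivity)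
      _ = (1 / 2) ^ M / 8 := by ring
  · rintro rfl
    simp [bv]
  · intro h
    have ht : t = 0 := by
      have h3 : t * (xx M n - xx M (n + 1)) = 0 := by linarith
      rcases mul_eq_zero.1 h3 with h4 | h4
      · exact h4
      · linarith
    rw [ht]
    norm_num
  · intro h
    have ht : t = 1 := by
      have h3 : (1 - t) * (xx M n - xx M (n + 1)) = 0 := by linarith
      rcases mul_eq_zero.1 h3 with h4 | h4
      · linarith
      · linarith
    rw [ht]
    norm_num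

theorem bump_arc (M n : ℕ) (β : Bool) :
    IsArc (Bump M n β) (W (xx M (n + 1)) 0) (W (xx M n) 0) := by
  have h := arc_of (fun t : ℝ => W (xx M (n + 1) + t * (xx M n - xx M (n + 1)))
    (bv β * ((1 / 2) ^ M / 8) * (1 - |2 * t - 1|)))
    (W_cont (by fun_prop) (by fun_prop)) (by
      intro s _ t _ hst
      have h1 := (W_inj hst).1
      have hx := xx_succ M n
      have h2 : (s - t) * (xx M n - xx M (n + 1)) = 0 := by linarith
      rcases mul_eq_zero.1 h2 with h3 | h3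
      · linarith
      · linarith)
  have e0 : W (xx M (n + 1) + 0 * (xx M n - xx M (n + 1)))
      (bv β * ((1 / 2) ^ M / 8) * (1 - |2 * 0 - 1|)) = W (xx M (n + 1)) 0 := by
    norm_num
  have e1 : W (xx M (n + 1) + 1 * (xx M n - xx M (n + 1)))
      (bv β * ((1 / 2) ^ M / 8) * (1 - |2 * 1 - 1|)) = W (xx M n) 0 := by
    norm_num
  rw [e0, e1] at h
  exact h

theorem rise_arc (M : ℕ) : IsArc (Rise M) (W (uu M) 0) (W (cc M) ((1 / 2) ^ M / 8)) := by
  have hM := hpow M
  have h := arc_of (fun t : ℝ => W (uu M + t * (1 / 2) ^ M / 4) (t * (1 / 2) ^ M / 8))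
    (W_cont (by fun_prop) (by fun_prop)) (by
      intro s _ t _ hst
      have h1 := (W_inj hst).1
      have h2 : (s - t) * (1 / 2) ^ M = 0 := by linarith
      rcases mul_eq_zero.1 h2 with h3 | h3
      · linarith
      · linarith)
  have e0 : W (uu M + 0 * (1 / 2) ^ M / 4) (0 * (1 / 2) ^ M / 8) = W (uu M) 0 := by
    norm_num
  have e1 : W (uu M + 1 * (1 / 2) ^ M / 4) (1 * (1 / 2) ^ M / 8) =
      W (cc M) ((1 / 2) ^ M / 8) := by
    rw [one_mul]
    rfl
  rw [e0, e1] at h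
  exact h

theorem wall_arc (M : ℕ) : IsArc (Wall M) (W (cc M) 0) (W (cc M) ((1 / 2) ^ M / 8)) := by
  have hM := hpow M
  have h := arc_of (fun t : ℝ => W (cc M) (t * (1 / 2) ^ M / 8))
    (W_cont (by fun_prop) (by fun_prop)) (by
      intro s _ t _ hst
      have h1 := (W_inj hst).2
      have h2 : (s - t) * (1 / 2) ^ M = 0 := by linarith
      rcases mul_eq_zero.1 h2 with h3 | h3
      · linarith
      · linarith)
  have e0 : W (cc M) (0 * (1 / 2) ^ M / 8) = W (cc M) 0 := by norm_num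
  have e1 : W (cc M) (1 * (1 / 2) ^ M / 8) = W (cc M) ((1 / 2) ^ M / 8) := by rw [one_mul]
  rw [e0, e1] at h
  exact h

theorem mem_rise {M : ℕ} {y : Fin 3 → ℝ} (hy : y ∈ Rise M) :
    ∃ u v, y = W u v ∧ uu M ≤ u ∧ u ≤ cc M ∧ |v| ≤ (1 / 2) ^ M / 8 ∧ (u = uu M → v = 0) ∧
      (u = cc M → v = (1 / 2) ^ M / 8) := by
  obtain ⟨t, ⟨h0, h1⟩, rfl⟩ := hy
  have hM := hpow M
  refine ⟨_, _, rfl, ?_, ?_, ?_, ?_, ?_⟩
  · have : 0 ≤ t * (1 / 2) ^ M / 4 := by positivity
    linarith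
  · unfold cc
    nlinarith
  · rw [abs_of_nonneg (by positivity)]
    nlinarith
  · intro h
    have : t * (1 / 2) ^ M = 0 := by linarith
    rw [this]
    norm_num
  · intro h
    unfold cc at h
    have h3 : (1 - t) * (1 / 2) ^ M = 0 := by linarith
    rcases mul_eq_zero.1 h3 with h4 | h4
    · have : t = 1 := by linarith
      rw [this, one_mul]
    · linarith

theorem mem_wall {M : ℕ} {y : Fin 3 → ℝ} (hy : y ∈ Wall M) :
    ∃ v, y = W (cc M) v ∧ |v| ≤ (1 / 2) ^ M / 8 := by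
  obtain ⟨t, ⟨h0, h1⟩, rfl⟩ := hy
  have hM := hpow M
  refine ⟨_, rfl, ?_⟩
  rw [abs_of_nonneg (by positivity)]
  nlinarith

theorem arc_ends {Y : Type} [TopologicalSpace Y] {S : Set Y} {a b : Y} (h : IsArc S a b) :
    a ∈ S ∧ b ∈ S := by
  obtain ⟨f, hf, hi, h0, h1, hr⟩ := h
  exact ⟨by rw [← hr, ← h0]; exact mem_range_self _, by rw [← hr, ← h1]; exact mem_range_self _⟩

theorem small (ε : ℝ) (hε : 0 < ε) : ∃ N : ℕ, ∀ n ≥ N, ((1 : ℝ) / 2) ^ n < ε := by
  obtain ⟨N, hN⟩ := exists_pow_lt_of_lt_one hε (by norm_num : (1 : ℝ) / 2 < 1)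
  refine ⟨N, fun n hn => lt_of_le_of_lt ?_ hN⟩
  exact pow_le_pow_of_le_one (by norm_num) (by norm_num) hn

theorem bumps_arc (hinf : S_INF) (b : ℕ → ℕ → Bool) (M : ℕ) (hb : {n | b M n = true}.Finite) :
    IsArc ({W (cc M) 0} ∪ ⋃ n, Bump M n (b M n)) (W (cc M) 0) (W (uu (M + 1)) 0) := by
  rw [← xx_zero]
  refine hinf (Fin 3 → ℝ) (fun n => Bump M n (b M n)) (fun n => W (xx M n) 0) (W (cc M) 0)
    (fun n => bump_arc M n _) ?_ ?_ ?_ ?_
  · intro n
    ext y
    rw [mem_singleton_iff]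
    constructor
    · rintro ⟨h1, h2⟩
      obtain ⟨u, v, rfl, a1, a2, -, -, a3, -⟩ := mem_bump h1
      obtain ⟨u', v', e, b1, b2, -⟩ := mem_bump h2
      obtain ⟨e1, -⟩ := W_inj e
      have hu : u = xx M (n + 1) := by linarith
      rw [a3 hu, hu]
    · rintro rfl
      exact ⟨(arc_ends (bump_arc M n _)).1, (arc_ends (bump_arc M (n + 1) _)).2⟩
  · intro n m hnm
    rw [Set.disjoint_left]
    intro y h1 h2
    obtain ⟨u, v, rfl, a1, a2, -⟩ := mem_bump h1
    obtain ⟨u', v', e, b1, b2, -⟩ := mem_bump h2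
    obtain ⟨e1, -⟩ := W_inj e
    have := (xx_anti M) hnm
    linarith
  · intro n h1
    obtain ⟨u, v, e, a1, a2, -⟩ := mem_bump h1
    obtain ⟨e1, -⟩ := W_inj e
    have := cc_lt M (n + 1)
    linarith
  · intro ε hε
    obtain ⟨N₁, hN₁⟩ := small ε hε
    obtain ⟨N₂, hN₂⟩ := hb.bddAbove
    refine ⟨max N₁ (N₂ + 1), fun n hn y hy => ?_⟩
    have hbn : b M n = false := by
      by_contra h
      have h1 : b M n = true := by simpa using h
      have h2 : n ≤ N₂ := hN₂ h1
      have h3 : N₂ + 1 ≤ n := le_trans (le_max_right _ _) hn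
      omega
    obtain ⟨u, v, rfl, a1, a2, -, a3, -⟩ := mem_bump hy
    rw [a3 hbn, Metric.mem_ball]
    refine W_dist hε ?_ (by simpa using hε)
    have h1 := cc_lt M (n + 1)
    rw [abs_of_nonneg (by linarith)]
    have h2 : xx M n - cc M < ε := by
      have h3 := hN₁ n (le_trans (le_max_left _ _) hn)
      have h4 : (1 / 2 : ℝ) ^ M ≤ 1 := pow_le_one₀ (by norm_num) (by norm_num)
      have h5 := hpow n
      unfold xx
      nlinarith
    linarith

theorem block_arc (hcon : S_CONCAT) (hinf : S_INF) (b : ℕ → ℕ → Bool) (M : ℕ)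
    (hb : {n | b M n = true}.Finite) :
    IsArc (Block b M) (W (uu M) 0) (W (uu (M + 1)) 0) := by
  have hM := hpow M
  have h1 : IsArc (Rise M ∪ Wall M) (W (uu M) 0) (W (cc M) 0) := by
    refine hcon _ _ _ _ _ _ (rise_arc M) (arc_symm (wall_arc M)) ?_
    ext y
    rw [mem_singleton_iff]
    constructor
    · rintro ⟨h1, h2⟩
      obtain ⟨u, v, rfl, a1, a2, -, -, a3⟩ := mem_rise h1
      obtain ⟨v', e, -⟩ := mem_wall h2
      obtain ⟨e1, -⟩ := W_inj e
      rw [a3 e1, e1]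
    · rintro rfl
      exact ⟨(arc_ends (rise_arc M)).2, (arc_ends (wall_arc M)).2⟩
  have h2 := hcon _ _ _ _ _ _ h1 (bumps_arc hinf b M hb) (by
    ext y
    rw [mem_singleton_iff]
    constructor
    · rintro ⟨h3, h4⟩
      rcases h4 with h4 | h4
      · exact h4
      · exfalso
        obtain ⟨n, hn⟩ := mem_iUnion.1 h4
        obtain ⟨u, v, rfl, a1, -⟩ := mem_bump hn
        have h5 := cc_lt M (n + 1)
        rcases h3 with h3 | h3
        · obtain ⟨u', v', e, -, a2, -⟩ := mem_rise h3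
          obtain ⟨e1, -⟩ := W_inj e
          linarith
        · obtain ⟨v', e, -⟩ := mem_wall h3
          obtain ⟨e1, -⟩ := W_inj e
          linarith
    · rintro rfl
      exact ⟨Or.inr (arc_ends (wall_arc M)).1, Or.inl rfl⟩)
  have h3 : Rise M ∪ Wall M ∪ ({W (cc M) 0} ∪ ⋃ n, Bump M n (b M n)) = Block b M := by
    unfold Block
    ext y
    constructor
    · rintro (h | h | h)
      · exact Or.inl h
      · rw [mem_singleton_iff] at h
        rw [h]
        exact Or.inl (Or.inr (arc_ends (wall_arc M)).1)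
      · exact Or.inr h
    · rintro (h | h)
      · exact Or.inl h
      · exact Or.inr (Or.inr h)
  rw [h3] at h2
  exact h2

theorem mem_block {b : ℕ → ℕ → Bool} {M : ℕ} {y : Fin 3 → ℝ} (hy : y ∈ Block b M) :
    ∃ u v, y = W u v ∧ uu M ≤ u ∧ u ≤ uu (M + 1) ∧ |v| ≤ (1 / 2) ^ M / 8 ∧
      (u = uu M → v = 0) := by
  have h1 := uu_lt_cc M
  have h2 : cc M ≤ uu (M + 1) := by
    have := cc_lt M 0
    rw [xx_zero] at this
    exact this.le
  rcases hy with (h | h) | h
  · obtain ⟨u, v, rfl, a1, a2, a3, a4, -⟩ := mem_rise h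
    exact ⟨u, v, rfl, a1, a2.trans h2, a3, a4⟩
  · obtain ⟨v, rfl, a1⟩ := mem_wall h
    exact ⟨cc M, v, rfl, h1.le, h2, a1, fun h => by linarith⟩
  · obtain ⟨n, hn⟩ := mem_iUnion.1 h
    obtain ⟨u, v, rfl, a1, a2, a3, -⟩ := mem_bump hn
    have h3 := cc_lt M (n + 1)
    exact ⟨u, v, rfl, by linarith, a2.trans (xx_le M n), a3, fun h => by linarith⟩

end GARC

open GARC in
theorem t_GARC : S_CONCAT → S_INF → S_GARC := by
  intro hcon hinf b hb
  have harc := fun M => block_arc hcon hinf b M (hb M)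
  have h := hinf (Fin 3 → ℝ) (fun M => Block b M) (fun M => W (uu M) 0) (W 1 0)
    (fun M => arc_symm (harc M)) ?_ ?_ ?_ ?_
  · have e0 : uu 0 = 0 := by
      unfold uu
      norm_num
    rw [e0] at h
    exact arc_symm h
  · intro M
    ext y
    rw [mem_singleton_iff]
    constructor
    · rintro ⟨h1, h2⟩
      obtain ⟨u, v, rfl, a1, a2, -⟩ := mem_block h1
      obtain ⟨u', v', e, b1, b2, -, b3⟩ := mem_block h2
      obtain ⟨e1, e2⟩ := W_inj e
      have hu : u' = uu (M + 1) := by linarith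
      rw [e2, b3 hu, e1, hu]
    · rintro rfl
      exact ⟨(arc_ends (harc M)).2, (arc_ends (harc (M + 1))).1⟩
  · intro n m hnm
    rw [Set.disjoint_left]
    intro y h1 h2
    obtain ⟨u, v, rfl, a1, a2, -⟩ := mem_block h1
    obtain ⟨u', v', e, b1, b2, -⟩ := mem_block h2
    obtain ⟨e1, -⟩ := W_inj e
    have := uu_mono hnm
    linarith
  · intro n h1
    obtain ⟨u, v, e, a1, a2, -⟩ := mem_block h1
    obtain ⟨e1, -⟩ := W_inj e
    have := uu_lt_one (n + 1)
    linarith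
  · intro ε hε
    obtain ⟨N, hN⟩ := small ε hε
    refine ⟨N, fun n hn y hy => ?_⟩
    obtain ⟨u, v, rfl, a1, a2, a3, -⟩ := mem_block hy
    have h1 := hN n hn
    have h2 := uu_lt_one (n + 1)
    have h3 := hpow n
    rw [Metric.mem_ball]
    refine W_dist hε ?_ ?_
    · rw [abs_of_nonpos (by linarith)]
      unfold uu at a1
      linarith
    · rw [sub_zero]
      linarith

end Pool.Agent.H742.AC6
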