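import Pool.Agent.H742.AC6.Stm2

/-!
# Position of the closing pieces
-/

namespace Pool.Agent.H742.AC6

open Set Topology TopologicalSpace

namespace GPOS

theorem W0 (u v : ℝ) : W u v 0 = v := by simp [W]

theorem W1 (u v : ℝ) : W u v 1 = 1 + u := by simp [W]

theorem W2 (u v : ℝ) : W u v 2 = 0 := by
  have h1 : (2 : Fin 3) ≠ 1 := by decide
  have h2 : (2 : Fin 3) ≠ 0 := by decide
  simp [W, h1, h2]

theorem ext3 {y z : Fin 3 → ℝ} (h0 : y 0 = z 0) (h1 : y 1 = z 1) (h2 : y 2 = z 2) : y = z := by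
  funext k
  fin_cases k
  · exact h0
  · exact h1
  · exact h2

/-- the region of the closing piece -/
def Reg (y : Fin 3 → ℝ) : Prop := ∃ u v : ℝ, y = W u v ∧ 0 ≤ u ∧ u ≤ 1 ∧ 0 ≤ v ∧ v ≤ (1 - u) / 4

theorem half_pow (n : ℕ) : 0 < ((1 : ℝ) / 2) ^ n ∧ ((1 : ℝ) / 2) ^ n ≤ 1 :=
  ⟨by positivity, pow_le_one₀ (by norm_num) (by norm_num)⟩

theorem reg_rise {M : ℕ} {y : Fin 3 → ℝ} (h : y ∈ Rise M) : Reg y := by
  obtain ⟨t, ⟨ht0, ht1⟩, rfl⟩ := h
  obtain ⟨he0, he1⟩ := half_pow M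
  refine ⟨_, _, rfl, ?_, ?_, ?_, ?_⟩ <;> (try simp only [uu]) <;>
    generalize ((1 : ℝ) / 2) ^ M = e at * <;>
    nlinarith [mul_nonneg ht0 he0.le, mul_nonneg (sub_nonneg.2 ht1) he0.le]

theorem reg_wall {M : ℕ} {y : Fin 3 → ℝ} (h : y ∈ Wall M) : Reg y := by
  obtain ⟨t, ⟨ht0, ht1⟩, rfl⟩ := h
  obtain ⟨he0, he1⟩ := half_pow M
  refine ⟨_, _, rfl, ?_, ?_, ?_, ?_⟩ <;> (try simp only [cc, uu]) <;>
    generalize ((1 : ℝ) / 2) ^ M = e at * <;>
    nlinarith [mul_nonneg ht0 he0.le, mul_nonneg (sub_nonneg.2 ht1) he0.le]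

theorem bv_mem (β : Bool) : 0 ≤ bv β ∧ bv β ≤ 1 := by
  cases β <;> simp [bv]

theorem reg_bump {M n : ℕ} {β : Bool} {y : Fin 3 → ℝ} (h : y ∈ Bump M n β) : Reg y := by
  obtain ⟨t, ⟨ht0, ht1⟩, rfl⟩ := h
  obtain ⟨he0, he1⟩ := half_pow M
  obtain ⟨hf0, hf1⟩ := half_pow n
  obtain ⟨hb0, hb1⟩ := bv_mem β
  have ha0 : 0 ≤ 1 - |2 * t - 1| := by
    have : |2 * t - 1| ≤ 1 := abs_le.2 ⟨by linarith, by linarith⟩
    linarith
  have ha1 : 1 - |2 * t - 1| ≤ 1 := by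
    have := abs_nonneg (2 * t - 1)
    linarith
  have hu : xx M (n + 1) + t * (xx M n - xx M (n + 1)) =
      1 - 3 / 4 * (1 / 2) ^ M + (1 / 2) ^ M * (1 / 2) ^ n * (1 + t) / 8 := by
    unfold xx cc uu
    rw [pow_succ]
    ring
  refine ⟨_, _, rfl, ?_, ?_, ?_, ?_⟩
  · rw [hu]
    have h1 : 0 ≤ ((1 : ℝ) / 2) ^ M * (1 / 2) ^ n * (1 + t) / 8 := by positivity
    linarith
  · rw [hu]
    generalize ((1 : ℝ) / 2) ^ M = e at *
    generalize ((1 : ℝ) / 2) ^ n = f at *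
    have h1 : e * f * (1 + t) ≤ e * 1 * 2 := by
      gcongr
      linarith
    linarith
  · exact mul_nonneg (by positivity) ha0
  · rw [hu]
    generalize 1 - |2 * t - 1| = a at *
    generalize ((1 : ℝ) / 2) ^ M = e at *
    generalize ((1 : ℝ) / 2) ^ n = f at *
    have h1 : e * f * (1 + t) ≤ e * 1 * 2 := by
      gcongr
      linarith
    have h2 : bv β * (e / 8) * a ≤ 1 * (e / 8) * 1 := by
      gcongr
    linarith

theorem reg_GG {b : ℕ → ℕ → Bool} {y : Fin 3 → ℝ} (h : y ∈ GG b) : Reg y := by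
  rcases h with h | h
  · rw [mem_singleton_iff.1 h]
    exact ⟨1, 0, rfl, by norm_num, le_rfl, le_rfl, by norm_num⟩
  · obtain ⟨M, hM⟩ := mem_iUnion.1 h
    rcases hM with (hM | hM) | hM
    · exact reg_rise hM
    · exact reg_wall hM
    · obtain ⟨n, hn⟩ := mem_iUnion.1 hM
      exact reg_bump hn

theorem C0_iff {y : Fin 3 → ℝ} (h : y ∈ C0) :
    ∃ u : ℝ, 0 ≤ u ∧ u ≤ 1 ∧ y 0 = 1 - u ∧ y 1 = 2 * u ∧ y 2 = 0 := by
  obtain ⟨u, ⟨hu0, hu1⟩, rfl⟩ := h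
  have h1 : (2 : Fin 3) ≠ 1 := by decide
  have h2 : (2 : Fin 3) ≠ 0 := by decide
  exact ⟨u, hu0, hu1, by simp, by simp, by simp [h1, h2]⟩

theorem C2_iff {y : Fin 3 → ℝ} (h : y ∈ C2) :
    ∃ u : ℝ, 0 ≤ u ∧ u ≤ 1 ∧ y 0 = 0 ∧ y 1 = 2 * u ∧ y 2 = 1 - u := by
  obtain ⟨u, ⟨hu0, hu1⟩, rfl⟩ := h
  have h1 : (1 : Fin 3) ≠ 2 := by decide
  have h2 : (0 : Fin 3) ≠ 2 := by decide
  exact ⟨u, hu0, hu1, by simp [h2], by simp [h1], by simp⟩

theorem P0 : P 0 1 0 = fun k : Fin 3 => if k = 0 then (1 : ℝ) else 0 := by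
  funext k
  simp [P]

theorem P2 : P 2 1 0 = fun k : Fin 3 => if k = 2 then (1 : ℝ) else 0 := by
  funext k
  simp [P]

theorem arc0 : IsArc C0 (P 0 1 0) (W 1 0) := by
  refine ⟨fun t => fun k : Fin 3 => if k = 0 then 1 - (t : ℝ) else if k = 1 then 2 * (t : ℝ) else 0,
    ?_, ?_, ?_, ?_, ?_⟩
  · refine continuous_pi fun k => ?_
    split_ifs
    · exact continuous_const.sub continuous_subtype_val
    · exact continuous_const.mul continuous_subtype_val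
    · exact continuous_const
  · intro s t hst
    have h := congrFun hst 0
    simp only [if_true] at h
    exact Subtype.ext (by linarith)
  · rw [P0]
    funext k
    simp
  · refine ext3 ?_ ?_ ?_
    · rw [W0]; simp
    · rw [W1]; simp; norm_num
    · rw [W2]; simp
  · ext y
    constructor
    · rintro ⟨t, rfl⟩
      exact ⟨t, t.2, rfl⟩
    · rintro ⟨t, ht, rfl⟩
      exact ⟨⟨t, ht⟩, rfl⟩

theorem arc2 : IsArc C2 (P 2 1 0) (W 1 0) := by
  refine ⟨fun t => fun k : Fin 3 => if k = 2 then 1 - (t : ℝ) else if k = 1 then 2 * (t : ℝ) else 0,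
    ?_, ?_, ?_, ?_, ?_⟩
  · refine continuous_pi fun k => ?_
    split_ifs
    · exact continuous_const.sub continuous_subtype_val
    · exact continuous_const.mul continuous_subtype_val
    · exact continuous_const
  · intro s t hst
    have h := congrFun hst 2
    simp only [if_true] at h
    exact Subtype.ext (by linarith)
  · rw [P2]
    funext k
    simp
  · have h1 : (1 : Fin 3) ≠ 2 := by decide
    have h2 : (0 : Fin 3) ≠ 2 := by decide
    refine ext3 ?_ ?_ ?_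
    · rw [W0]; simp [h2]
    · rw [W1]; simp [h1]; norm_num
    · rw [W2]; simp
  · ext y
    constructor
    · rintro ⟨t, rfl⟩
      exact ⟨t, t.2, rfl⟩
    · rintro ⟨t, ht, rfl⟩
      exact ⟨⟨t, ht⟩, rfl⟩

end GPOS

open GPOS in
theorem t_GPOS : S_GPOS := by
  intro b
  refine ⟨fun y hy => ?_, fun y hy => ?_, fun y hy => ?_, ?_, ?_, ?_, arc0, arc2⟩
  · obtain ⟨u, v, rfl, hu0, hu1, hv0, hv1⟩ := reg_GG hy
    unfold size
    rw [W0, W1, W2]
    refine ⟨by linarith, fun h => ?_⟩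
    have h1 : u = 0 := by linarith
    have h2 : v = 0 := by linarith
    rw [h1, h2]
  · obtain ⟨u, hu0, hu1, h0, h1, h2⟩ := C0_iff hy
    unfold size
    rw [h0, h1, h2]
    refine ⟨by linarith, fun h => ?_⟩
    have hu : u = 0 := by linarith
    rw [P0]
    refine ext3 ?_ ?_ ?_
    · rw [h0, hu]; simp
    · rw [h1, hu]; simp
    · rw [h2]; simp
  · obtain ⟨u, hu0, hu1, h0, h1, h2⟩ := C2_iff hy
    unfold size
    rw [h0, h1, h2]
    refine ⟨by linarith, fun h => ?_⟩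
    have hu : u = 0 := by linarith
    have d1 : (1 : Fin 3) ≠ 2 := by decide
    have d2 : (0 : Fin 3) ≠ 2 := by decide
    rw [P2]
    refine ext3 ?_ ?_ ?_
    · rw [h0]; simp [d2]
    · rw [h1, hu]; simp [d1]
    · rw [h2, hu]; simp
  · rintro y ⟨hy, hy'⟩
    obtain ⟨u, v, rfl, hu0, hu1, hv0, hv1⟩ := reg_GG hy
    obtain ⟨s, hs0, hs1, h0, h1, h2⟩ := C0_iff hy'
    rw [W0] at h0
    rw [W1] at h1
    have e1 : u = 1 := by linarith
    have e2 : v = 0 := by linarith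
    rw [e1, e2]
    rfl
  · rintro y ⟨hy, hy'⟩
    obtain ⟨u, v, rfl, hu0, hu1, hv0, hv1⟩ := reg_GG hy
    obtain ⟨s, hs0, hs1, h0, h1, h2⟩ := C2_iff hy'
    rw [W0] at h0
    rw [W1] at h1
    rw [W2] at h2
    have e1 : u = 1 := by linarith
    rw [e1, h0]
    rfl
  · rintro y ⟨hy, hy'⟩
    obtain ⟨u, hu0, hu1, h0, h1, h2⟩ := C0_iff hy
    obtain ⟨s, hs0, hs1, h0', h1', h2'⟩ := C2_iff hy'
    refine ext3 ?_ ?_ ?_
    · rw [W0, h0']
    · rw [W1, h1]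
      linarith
    · rw [W2, h2]

end Pool.Agent.H742.AC6
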