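import Pool.Agent.H742.AC6.Stm2

set_option autoImplicit false

/-!
# Glueing a gadget to a graph gives a graph
-/

namespace Pool.Agent.H742.AC6

open Set Topology TopologicalSpace

namespace GRSTEP

variable {Y : Type} [TopologicalSpace Y] {G : Gad} {pos : ℕ → Y} {f : ℕ → unitInterval → Y}
  {T : Set Y}

lemma endpt (h : Glue G pos f T) {k : ℕ} (hk : k < G.ne) {s : unitInterval} {v : ℕ}
    (hv : f k s = pos v) (hv2 : v = G.src k ∨ v = G.tgt k) : s = 0 ∨ s = 1 := by
  rcases hv2 with h1 | h1
  · left
    apply h.fi k hk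
    rw [hv, h.f0 k hk, h1]
  · right
    apply h.fi k hk
    rw [hv, h.f1 k hk, h1]

end GRSTEP

theorem t_GRSTEP : S_GRSTEP := by
  intro Y _ G pos f T hG hinn hout hT
  obtain ⟨m, g, gc, gi, gT, gmeet, gz⟩ := hT
  have hmem : ∀ (i : Fin m) (s : unitInterval), g i s ∈ T := by
    intro i s
    rw [gT]
    exact mem_iUnion.mpr ⟨i, mem_range_self s⟩
  -- an edge and an arc of `T`
  have hmix : ∀ (i : Fin m) (k : Fin G.ne) (s t : unitInterval), g i s = f k t →
      (s = 0 ∨ s = 1) ∧ (t = 0 ∨ t = 1) := by
    intro i k s t hst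
    have h1 : f k t ∈ T := hst ▸ hmem i s
    obtain ⟨j, hj, hj2⟩ := hG.fT k k.2 t h1
    exact ⟨gz j i s (hst.trans hj), GRSTEP.endpt hG k.2 hj hj2⟩
  let F : Fin (m + G.ne) → unitInterval → Y := Fin.addCases g (fun k => f k)
  have Fl : ∀ i : Fin m, F (Fin.castAdd G.ne i) = g i := fun i => Fin.addCases_left i
  have Fr : ∀ k : Fin G.ne, F (Fin.natAdd m k) = f k := fun k => Fin.addCases_right k
  refine ⟨m + G.ne, F, ?_, ?_, ?_, ?_, ?_⟩
  · intro i
    induction i using Fin.addCases with
    | left i => rw [Fl]; exact gc i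
    | right k => rw [Fr]; exact hG.fc k k.2
  · intro i
    induction i using Fin.addCases with
    | left i => rw [Fl]; exact gi i
    | right k => rw [Fr]; exact hG.fi k k.2
  · ext y
    constructor
    · rintro (hy | ⟨k, hk, hy⟩)
      · rw [gT] at hy
        obtain ⟨i, hi⟩ := mem_iUnion.mp hy
        refine mem_iUnion.mpr ⟨Fin.castAdd G.ne i, ?_⟩
        rw [Fl]
        exact hi
      · refine mem_iUnion.mpr ⟨Fin.natAdd m ⟨k, hk⟩, ?_⟩
        rw [Fr]
        exact hy
    · intro hy
      obtain ⟨i, hi⟩ := mem_iUnion.mp hy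
      induction i using Fin.addCases with
      | left i =>
        rw [Fl] at hi
        obtain ⟨s, rfl⟩ := hi
        exact Or.inl (hmem i s)
      | right k =>
        rw [Fr] at hi
        exact Or.inr ⟨k, k.2, hi⟩
  · intro i j hij s t hst
    induction i using Fin.addCases with
    | left i =>
      rw [Fl] at hst
      induction j using Fin.addCases with
      | left j =>
        rw [Fl] at hst
        exact gmeet i j (fun h => hij (by rw [h])) s t hst
      | right k =>
        rw [Fr] at hst
        exact hmix i k s t hst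
    | right k =>
      rw [Fr] at hst
      induction j using Fin.addCases with
      | left j =>
        rw [Fl] at hst
        exact (hmix j k t s hst.symm).symm
      | right l =>
        rw [Fr] at hst
        have hkl : (k : ℕ) ≠ l := fun h => hij (by rw [Fin.ext h])
        obtain ⟨v, hv, hv1, hv2⟩ := hG.fmeet k k.2 l l.2 hkl s t hst
        exact ⟨GRSTEP.endpt hG k.2 hv hv1, GRSTEP.endpt hG l.2 (hst.symm.trans hv) hv2⟩
  · intro i j s hs
    induction j using Fin.addCases with
    | left j =>
      rw [Fl] at hs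
      have h1 : pos (G.out i) ∈ T := by
        have := hmem j s
        rwa [hs] at this
      obtain ⟨l, hl⟩ := hG.pT (G.out i) (hout i) h1
      refine gz l j s ?_
      exact hs.trans (congrArg pos hl)
    | right k =>
      rw [Fr] at hs
      exact GRSTEP.endpt hG k.2 hs (hG.pf (G.out i) (hout i) k k.2 s hs)

end Pool.Agent.H742.AC6
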