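import Pool.Agent.H742.AC6.Stm2

/-!
# Infinite concatenation of arcs converging to a point
-/

namespace Pool.Agent.H742.AC6

open Set Topology TopologicalSpace

namespace INFaux

variable {Y : Type} [MetricSpace Y]

/-- the point of `[0,1]` given by a real number, by clamping -/
noncomputable def cl (s : ℝ) : unitInterval := projIcc (0 : ℝ) 1 zero_le_one s

theorem cl_cont : Continuous cl := continuous_projIcc (h := zero_le_one)

theorem cl_zero : cl 0 = 0 := by
  apply Subtype.ext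
  simp [cl, projIcc]

theorem cl_one : cl 1 = 1 := by
  apply Subtype.ext
  simp [cl, projIcc]

theorem cl_coe (u : unitInterval) : cl (u : ℝ) = u := projIcc_val _ u

theorem cl_ge {s : ℝ} (h : 1 ≤ s) : cl s = 1 := by
  apply Subtype.ext
  simp [cl, projIcc, h]

theorem cl_of_mem {s : ℝ} (h0 : 0 ≤ s) (h1 : s ≤ 1) : ((cl s : unitInterval) : ℝ) = s := by
  simp [cl, projIcc, h0, h1]

/-- the infinite concatenation, parametrised by the half line -/
noncomputable def H (f : ℕ → unitInterval → Y) (s : ℝ) : Y := f ⌊s⌋₊ (cl (1 - (s - ⌊s⌋₊)))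

theorem H_of_mem (f : ℕ → unitInterval → Y) (hj : ∀ n, f (n + 1) 1 = f n 0) (n : ℕ) (s : ℝ)
    (h0 : (n : ℝ) ≤ s) (h1 : s ≤ n + 1) : H f s = f n (cl (1 - (s - n))) := by
  rcases lt_or_eq_of_le h1 with h | h
  · have : ⌊s⌋₊ = n := (Nat.floor_eq_iff ((Nat.cast_nonneg n).trans h0)).mpr ⟨h0, h⟩
    rw [H, this]
  · have : ⌊s⌋₊ = n + 1 := by
      rw [h]
      exact_mod_cast Nat.floor_natCast (n + 1)
    rw [H, this, h]
    have e1 : (1 : ℝ) - ((n : ℝ) + 1 - ((n + 1 : ℕ) : ℝ)) = 1 := by push_cast; ring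
    have e2 : (1 : ℝ) - ((n : ℝ) + 1 - n) = 0 := by ring
    rw [e1, e2, cl_one, cl_zero, hj]

theorem H_zero (f : ℕ → unitInterval → Y) (hj : ∀ n, f (n + 1) 1 = f n 0) (s : ℝ) (h1 : s ≤ 1) :
    H f s = f 0 (cl (1 - s)) := by
  rcases le_or_gt 0 s with h | h
  · have := H_of_mem f hj 0 s (by simpa using h) (by simpa using h1)
    simpa using this
  · have : ⌊s⌋₊ = 0 := Nat.floor_of_nonpos h.le
    rw [H, this]
    simp

theorem H_contOn (f : ℕ → unitInterval → Y) (hf : ∀ n, Continuous (f n))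
    (hj : ∀ n, f (n + 1) 1 = f n 0) (n : ℕ) : ContinuousOn (H f) (Iic ((n : ℝ) + 1)) := by
  induction n with
  | zero =>
    have h : EqOn (H f) (fun s => f 0 (cl (1 - s))) (Iic (((0 : ℕ) : ℝ) + 1)) := by
      intro s hs
      have hs' : s ≤ 1 := by simpa using hs
      exact H_zero f hj s hs'
    refine ContinuousOn.congr ?_ h
    exact ((hf 0).comp (cl_cont.comp (continuous_const.sub continuous_id))).continuousOn
  | succ n ih =>
    have e : Iic (((n + 1 : ℕ) : ℝ) + 1) =
        Iic ((n : ℝ) + 1) ∪ Icc ((n : ℝ) + 1) (((n + 1 : ℕ) : ℝ) + 1) := by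
      rw [Iic_union_Icc_eq_Iic]
      push_cast
      linarith
    rw [e]
    refine ContinuousOn.union_of_isClosed ih ?_ isClosed_Iic isClosed_Icc
    have h : EqOn (H f) (fun s => f (n + 1) (cl (1 - (s - ((n + 1 : ℕ) : ℝ)))))
        (Icc ((n : ℝ) + 1) (((n + 1 : ℕ) : ℝ) + 1)) := by
      intro s hs
      exact H_of_mem f hj (n + 1) s (by have := hs.1; push_cast; exact this) hs.2
    refine ContinuousOn.congr ?_ h
    exact ((hf (n + 1)).comp (cl_cont.comp
      (continuous_const.sub (continuous_id.sub continuous_const)))).continuousOn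

theorem H_cont (f : ℕ → unitInterval → Y) (hf : ∀ n, Continuous (f n))
    (hj : ∀ n, f (n + 1) 1 = f n 0) : Continuous (H f) := by
  rw [continuous_iff_continuousAt]
  intro s
  obtain ⟨n, hn⟩ := exists_nat_gt s
  exact (H_contOn f hf hj n).continuousAt (Iic_mem_nhds (by linarith))

theorem floor_spec {s : ℝ} (h : 0 ≤ s) : (⌊s⌋₊ : ℝ) ≤ s ∧ s < ⌊s⌋₊ + 1 :=
  ⟨Nat.floor_le h, Nat.lt_floor_add_one s⟩

theorem H_inj (f : ℕ → unitInterval → Y) (hi : ∀ n, Function.Injective (f n))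
    (h1 : ∀ n, range (f n) ∩ range (f (n + 1)) = {f n 0})
    (h2 : ∀ n m, n + 1 < m → Disjoint (range (f n)) (range (f m)))
    {s s' : ℝ} (hs : 0 ≤ s) (hs' : 0 ≤ s') (h : H f s = H f s') : s = s' := by
  have key : ∀ {s s' : ℝ}, 0 ≤ s → 0 ≤ s' → H f s = H f s' → ¬ ⌊s⌋₊ < ⌊s'⌋₊ := by
    intro s s' hs hs' h hlt
    have m1 : H f s ∈ range (f ⌊s⌋₊) := ⟨_, rfl⟩
    have m2 : H f s ∈ range (f ⌊s'⌋₊) := h ▸ ⟨_, rfl⟩
    rcases Nat.lt_or_ge (⌊s⌋₊ + 1) ⌊s'⌋₊ with h3 | h3
    · exact disjoint_left.mp (h2 _ _ h3) m1 m2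
    · have e : ⌊s'⌋₊ = ⌊s⌋₊ + 1 := by omega
      rw [e] at m2
      have m3 : H f s ∈ ({f ⌊s⌋₊ 0} : Set Y) := h1 ⌊s⌋₊ ▸ ⟨m1, m2⟩
      have m4 : cl (1 - (s - ⌊s⌋₊)) = 0 := hi _ m3
      obtain ⟨b1, b2⟩ := floor_spec hs
      have m5 := cl_of_mem (s := 1 - (s - ⌊s⌋₊)) (by linarith) (by linarith)
      rw [m4] at m5
      simp at m5
      linarith
  have e : ⌊s⌋₊ = ⌊s'⌋₊ := by
    rcases lt_trichotomy ⌊s⌋₊ ⌊s'⌋₊ with h3 | h3 | h3
    · exact absurd h3 (key hs hs' h)
    · exact h3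
    · exact absurd h3 (key hs' hs h.symm)
  have h4 : f ⌊s⌋₊ (cl (1 - (s - ⌊s⌋₊))) = f ⌊s⌋₊ (cl (1 - (s' - ⌊s⌋₊))) := by
    have h5 := h
    rw [H, H, ← e] at h5
    exact h5
  have h6 := congrArg Subtype.val (hi _ h4)
  obtain ⟨b1, b2⟩ := floor_spec hs
  obtain ⟨b3, b4⟩ := floor_spec hs'
  rw [← e] at b3 b4
  rw [cl_of_mem (by linarith) (by linarith), cl_of_mem (by linarith) (by linarith)] at h6
  linarith

theorem H_surj (f : ℕ → unitInterval → Y) (hj : ∀ n, f (n + 1) 1 = f n 0) (n : ℕ)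
    (u : unitInterval) : ∃ s : ℝ, 0 ≤ s ∧ H f s = f n u := by
  refine ⟨n + (1 - u), ?_, ?_⟩
  · have := u.2.2
    have : (0 : ℝ) ≤ n := Nat.cast_nonneg n
    linarith
  · rw [H_of_mem f hj n _ (by linarith [u.2.2]) (by linarith [u.2.1])]
    have : (1 : ℝ) - (n + (1 - u) - n) = u := by ring
    rw [this, cl_coe]

end INFaux

open INFaux in
theorem t_INF : S_INF := by
  classical
  intro Y _ A a p hA hadj hdis hp hconv
  choose f hfc hfi hf0 hf1 hfr using hA
  have hj : ∀ n, f (n + 1) 1 = f n 0 := fun n => by rw [hf1, hf0]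
  have h1 : ∀ n, range (f n) ∩ range (f (n + 1)) = {f n 0} := fun n => by
    rw [hfr, hfr, hadj, hf0]
  have h2 : ∀ n m, n + 1 < m → Disjoint (range (f n)) (range (f m)) := fun n m h => by
    rw [hfr, hfr]
    exact hdis n m h
  have hHA : ∀ s, H f s ∈ A ⌊s⌋₊ := fun s => by
    rw [← hfr]
    exact ⟨_, rfl⟩
  set F : unitInterval → Y := fun t => if (t : ℝ) = 0 then p else H f (1 / (t : ℝ) - 1) with hF
  have hs0 : ∀ t : unitInterval, (t : ℝ) ≠ 0 → 0 ≤ 1 / (t : ℝ) - 1 := by
    intro t ht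
    have : 0 < (t : ℝ) := lt_of_le_of_ne t.2.1 (Ne.symm ht)
    rw [sub_nonneg, le_div_iff₀ this, one_mul]
    exact t.2.2
  refine ⟨F, ?_, ?_, ?_, ?_, ?_⟩
  · rw [continuous_iff_continuousAt]
    intro t
    by_cases ht : (t : ℝ) = 0
    · rw [Metric.continuousAt_iff]
      intro ε hε
      obtain ⟨N, hN⟩ := hconv ε hε
      refine ⟨1 / ((N : ℝ) + 1), by positivity, ?_⟩
      intro t' ht'
      have hFt : F t = p := if_pos ht
      rw [hFt]
      by_cases h0 : (t' : ℝ) = 0
      · have : F t' = p := if_pos h0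
        rw [this, dist_self]
        exact hε
      · have hFt' : F t' = H f (1 / (t' : ℝ) - 1) := if_neg h0
        rw [hFt']
        refine hN ⌊1 / (t' : ℝ) - 1⌋₊ ?_ (hHA _)
        have hpos : 0 < (t' : ℝ) := lt_of_le_of_ne t'.2.1 (Ne.symm h0)
        have hlt : (t' : ℝ) < 1 / ((N : ℝ) + 1) := by
          have h3 : dist t' t = |(t' : ℝ) - t| := rfl
          rw [h3, ht, sub_zero, abs_of_pos hpos] at ht'
          exact ht'
        apply Nat.le_floor
        rw [lt_div_iff₀ (by positivity)] at hlt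
        have : (N : ℝ) + 1 ≤ 1 / (t' : ℝ) := by
          rw [le_div_iff₀ hpos]
          linarith
        linarith
    · have hev : F =ᶠ[𝓝 t] fun t : unitInterval => H f (1 / (t : ℝ) - 1) := by
        have : ∀ᶠ t' : unitInterval in 𝓝 t, (t' : ℝ) ≠ 0 :=
          continuous_subtype_val.continuousAt.eventually_ne ht
        filter_upwards [this] with t' ht'
        exact if_neg ht'
      rw [continuousAt_congr hev]
      refine ContinuousAt.comp (g := H f) (H_cont f hfc hj).continuousAt ?_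
      exact (continuousAt_const.div continuous_subtype_val.continuousAt ht).sub continuousAt_const
  · intro t t' h
    by_cases ht : (t : ℝ) = 0
    · by_cases ht' : (t' : ℝ) = 0
      · exact Subtype.ext (ht.trans ht'.symm)
      · exfalso
        have e1 : F t = p := if_pos ht
        have e2 : F t' = H f (1 / (t' : ℝ) - 1) := if_neg ht'
        rw [e1, e2] at h
        exact hp _ (h ▸ hHA _)
    · by_cases ht' : (t' : ℝ) = 0
      · exfalso
        have e1 : F t' = p := if_pos ht'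
        have e2 : F t = H f (1 / (t : ℝ) - 1) := if_neg ht
        rw [e1, e2] at h
        exact hp _ (h ▸ hHA _)
      · have e1 : F t = H f (1 / (t : ℝ) - 1) := if_neg ht
        have e2 : F t' = H f (1 / (t' : ℝ) - 1) := if_neg ht'
        rw [e1, e2] at h
        have h3 := H_inj f hfi h1 h2 (hs0 t ht) (hs0 t' ht') h
        have h4 : 1 / (t : ℝ) = 1 / (t' : ℝ) := by linarith
        have h5 : (t : ℝ) = t' := by
          field_simp at h4
          linarith
        exact Subtype.ext h5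
  · exact if_pos rfl
  · have : F 1 = H f (1 / ((1 : unitInterval) : ℝ) - 1) := if_neg (by simp)
    rw [this]
    have e : (1 : ℝ) / ((1 : unitInterval) : ℝ) - 1 = 0 := by simp
    rw [e, H_zero f hj 0 zero_le_one, sub_zero, cl_one, hf1]
  · apply Set.Subset.antisymm
    · rintro y ⟨t, rfl⟩
      by_cases ht : (t : ℝ) = 0
      · have : F t = p := if_pos ht
        rw [this]
        exact Or.inl rfl
      · have : F t = H f (1 / (t : ℝ) - 1) := if_neg ht
        rw [this]
        exact Or.inr (mem_iUnion.mpr ⟨_, hHA _⟩)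
    · rintro y (hy | hy)
      · exact ⟨0, by rw [hy]; exact if_pos rfl⟩
      · obtain ⟨n, hn⟩ := mem_iUnion.mp hy
        rw [← hfr] at hn
        obtain ⟨u, rfl⟩ := hn
        obtain ⟨s, hs, hsu⟩ := H_surj f hj n u
        have hpos : (0 : ℝ) < s + 1 := by linarith
        refine ⟨⟨1 / (s + 1), by positivity, ?_⟩, ?_⟩
        · rw [div_le_iff₀ hpos]
          linarith
        · rw [← hsu]
          have hne : (1 : ℝ) / (s + 1) ≠ 0 := by positivity
          have : F ⟨1 / (s + 1), by positivity, by rw [div_le_iff₀ hpos]; linarith⟩ =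
              H f (1 / (1 / (s + 1)) - 1) := if_neg hne
          rw [this]
          congr 1
          field_simp
          ring

end Pool.Agent.H742.AC6
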