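import Pool.Agent.H742.AC6.Stm2

/-!
# Layers of the legs: arcs, size, disjointness
-/

namespace Pool.Agent.H742.AC6

open Set Topology TopologicalSpace

namespace LAYERARC

theorem sg_pos (n : ℕ) : 0 < sg n := by
  unfold sg; positivity

theorem P_self (i : Fin 3) (r t : ℝ) : P i r t i = r * (1 - t) := by
  simp [P]

theorem P_succ (i : Fin 3) (r t : ℝ) : P i r t (i + 1) = r * (3 / 2) * t := by
  have h : i + 1 ≠ i := by fin_cases i <;> decide
  simp [P, h]

theorem P_two (i : Fin 3) (r t : ℝ) : P i r t (i + 2) = 0 := by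
  have h : i + 2 ≠ i := by fin_cases i <;> decide
  have h' : i + 2 ≠ i + 1 := by fin_cases i <;> decide
  simp [P, h, h']

theorem P_rad (i : Fin 3) (r t : ℝ) : P i r t i + 2 / 3 * P i r t (i + 1) = r := by
  rw [P_self, P_succ]; ring

theorem P_size (i : Fin 3) (r t : ℝ) : size (P i r t) = r * (1 + t / 2) := by
  have h : size (P i r t) = P i r t i + P i r t (i + 1) + P i r t (i + 2) := by
    unfold size
    fin_cases i
    · rfl
    · change _ = P 1 r t 1 + P 1 r t 2 + P 1 r t 0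
      change P 1 r t 0 + P 1 r t 1 + P 1 r t 2 = _
      ring
    · change _ = P 2 r t 2 + P 2 r t 0 + P 2 r t 1
      change P 2 r t 0 + P 2 r t 1 + P 2 r t 2 = _
      ring
  rw [h, P_self, P_succ, P_two]; ring

theorem P_cont (i : Fin 3) {X : Type*} [TopologicalSpace X] {r t : X → ℝ}
    (hr : Continuous r) (ht : Continuous t) : Continuous (fun x => P i (r x) (t x)) := by
  refine continuous_pi fun k => ?_
  by_cases h : k = i
  · have e : (fun x => P i (r x) (t x) k) = fun x => r x * (1 - t x) := by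
      funext x; subst h; exact P_self k _ _
    rw [e]; fun_prop
  · by_cases h' : k = i + 1
    · have e : (fun x => P i (r x) (t x) k) = fun x => r x * (3 / 2) * t x := by
        funext x; subst h'; exact P_succ i _ _
      rw [e]; fun_prop
    · have e : (fun x => P i (r x) (t x) k) = fun _ => 0 := by
        funext x; simp [P, h, h']
      rw [e]; exact continuous_const

/-- height profile over the relative radius -/
noncomputable def hp (g ρ : ℝ) : ℝ := (1 - g) * max 0 (1 - |16 / g * (ρ - 5 / 8)|)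

theorem hp_cont (g : ℝ) : Continuous (hp g) := by
  unfold hp; fun_prop

theorem hp_out {g ρ : ℝ} (h : 1 ≤ |16 / g * (ρ - 5 / 8)|) : hp g ρ = 0 := by
  unfold hp; rw [max_eq_left (by linarith)]; ring

theorem hp_in {g ρ : ℝ} (h : |16 / g * (ρ - 5 / 8)| ≤ 1) :
    hp g ρ = (1 - g) * (1 - |16 / g * (ρ - 5 / 8)|) := by
  unfold hp; rw [max_eq_right (by linarith)]

theorem hp_left {g ρ : ℝ} (hg : 0 < g) (h : ρ ≤ 5 / 8 - g / 16) : hp g ρ = 0 := by
  apply hp_out
  have h1 : 16 / g * (ρ - 5 / 8) ≤ -1 := by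
    rw [div_mul_eq_mul_div, div_le_iff₀ hg]; linarith
  rw [abs_of_neg (by linarith)]; linarith

theorem hp_right {g ρ : ℝ} (hg : 0 < g) (h : 5 / 8 + g / 16 ≤ ρ) : hp g ρ = 0 := by
  apply hp_out
  have h1 : 1 ≤ 16 / g * (ρ - 5 / 8) := by
    rw [div_mul_eq_mul_div, le_div_iff₀ hg]; linarith
  rw [abs_of_pos (by linarith)]; exact h1

/-- the leg as a graph over the radius -/
theorem layer_eq (i : Fin 3) (n : ℕ) (g : ℝ) (hg : 0 < g) (hg1 : g ≤ 1) :
    Layer i n g = (fun ρ => P i (sg n * ρ) (hp g ρ)) '' Icc (1 / 2) 1 := by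
  have hs := sg_pos n
  ext y
  constructor
  · rintro ((⟨r, ⟨h1, h2⟩, rfl⟩ | ⟨t, ⟨h1, h2⟩, rfl⟩) | ⟨r, ⟨h1, h2⟩, rfl⟩)
    · refine ⟨r / sg n, ⟨?_, ?_⟩, ?_⟩
      · rw [le_div_iff₀ hs]; linarith
      · rw [div_le_iff₀ hs]; nlinarith
      · have e : r / sg n ≤ 5 / 8 - g / 16 := by rw [div_le_iff₀ hs]; linarith
        simp only
        rw [hp_left hg e, mul_div_cancel₀ _ hs.ne']
    · refine ⟨5 / 8 + g * t / 16, ⟨?_, ?_⟩, ?_⟩
      · nlinarith
      · nlinarith
      · have e : 16 / g * (5 / 8 + g * t / 16 - 5 / 8) = t := by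
          field_simp; ring
        have e2 : |16 / g * (5 / 8 + g * t / 16 - 5 / 8)| ≤ 1 := by
          rw [e]; exact abs_le.2 ⟨h1, h2⟩
        simp only
        rw [hp_in e2, e]
    · refine ⟨r / sg n, ⟨?_, ?_⟩, ?_⟩
      · rw [le_div_iff₀ hs]; nlinarith
      · rw [div_le_iff₀ hs]; linarith
      · have e : 5 / 8 + g / 16 ≤ r / sg n := by rw [le_div_iff₀ hs]; linarith
        simp only
        rw [hp_right hg e, mul_div_cancel₀ _ hs.ne']
  · rintro ⟨ρ, ⟨h1, h2⟩, rfl⟩
    simp only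
    by_cases hl : ρ ≤ 5 / 8 - g / 16
    · left; left
      refine ⟨sg n * ρ, ⟨by nlinarith, by nlinarith⟩, ?_⟩
      simp only
      rw [hp_left hg hl]
    · by_cases hr : 5 / 8 + g / 16 ≤ ρ
      · right
        refine ⟨sg n * ρ, ⟨by nlinarith, by nlinarith⟩, ?_⟩
        simp only
        rw [hp_right hg hr]
      · left; right
        push Not at hl hr
        have e1 : 16 / g * (ρ - 5 / 8) ≤ 1 := by
          rw [div_mul_eq_mul_div, div_le_iff₀ hg]; linarith
        have e2 : -1 ≤ 16 / g * (ρ - 5 / 8) := by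
          rw [div_mul_eq_mul_div, le_div_iff₀ hg]; linarith
        refine ⟨16 / g * (ρ - 5 / 8), ⟨e2, e1⟩, ?_⟩
        have e3 : 5 / 8 + g * (16 / g * (ρ - 5 / 8)) / 16 = ρ := by
          field_simp; ring
        simp only
        rw [hp_in (abs_le.2 ⟨e2, e1⟩), e3]

theorem pos_coord (i : Fin 3) (n : ℕ) (g : ℝ) (hg : 0 < g) (hg1 : g ≤ 1) (y : Fin 3 → ℝ)
    (hy : y ∈ Layer i n g) : 0 < y i ∧ y (i + 2) = 0 := by
  rw [layer_eq i n g hg hg1] at hy
  obtain ⟨ρ, ⟨h1, h2⟩, rfl⟩ := hy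
  have hs := sg_pos n
  refine ⟨?_, P_two i _ _⟩
  change 0 < P i (sg n * ρ) (hp g ρ) i
  rw [P_self]
  have h3 : hp g ρ ≤ 1 - g := by
    unfold hp
    have h4 : max 0 (1 - |16 / g * (ρ - 5 / 8)|) ≤ 1 :=
      max_le (by norm_num) (by linarith [abs_nonneg (16 / g * (ρ - 5 / 8))])
    nlinarith
  have h5 : 0 < 1 - hp g ρ := by linarith
  have h6 : 0 < ρ := by linarith
  positivity

end LAYERARC

open LAYERARC in
theorem t_LAYERARC : S_CONCAT → S_LAYERARC := by
  intro _ i n g hg hg1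
  have hs := sg_pos n
  refine ⟨fun s => P i (sg n * (1 / 2 + (s : ℝ) / 2)) (hp g (1 / 2 + (s : ℝ) / 2)), ?_, ?_, ?_,
    ?_, ?_⟩
  · exact P_cont i (by fun_prop) ((hp_cont g).comp (by fun_prop))
  · intro s s' h
    have h1 := congrArg (fun y : Fin 3 → ℝ => y i + 2 / 3 * y (i + 1)) h
    simp only [P_rad] at h1
    have h2 := mul_left_cancel₀ hs.ne' h1
    apply Subtype.ext
    linarith
  · simp only [Set.Icc.coe_zero]
    rw [hp_left hg (by linarith)]
    ring_nf
  · simp only [Set.Icc.coe_one]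
    rw [hp_right hg (by linarith)]
    ring_nf
  · rw [layer_eq i n g hg hg1]
    ext y
    constructor
    · rintro ⟨s, rfl⟩
      exact ⟨1 / 2 + (s : ℝ) / 2, ⟨by linarith [s.2.1], by linarith [s.2.2]⟩, rfl⟩
    · rintro ⟨ρ, ⟨h1, h2⟩, rfl⟩
      refine ⟨⟨2 * ρ - 1, by linarith, by linarith⟩, ?_⟩
      have e : 1 / 2 + (2 * ρ - 1) / 2 = ρ := by ring
      simp only [e]

open LAYERARC in
theorem t_SIZE : S_SIZE := by
  intro i n g hg hg1 y hy
  have hs := sg_pos n
  rcases hy with (⟨r, ⟨h1, h2⟩, rfl⟩ | ⟨t, ⟨h1, h2⟩, rfl⟩) | ⟨r, ⟨h1, h2⟩, rfl⟩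
  · have e : size (P i r 0) = r := by rw [P_size]; ring
    simp only [e]
    refine ⟨h1, by nlinarith, fun h => by rw [h], fun h => by rw [h]⟩
  · have ht : |t| ≤ 1 := abs_le.2 ⟨h1, h2⟩
    have ht0 := abs_nonneg t
    have hg0 : 0 ≤ 1 - g := by linarith
    have a0 : 0 ≤ (1 - g) * (1 - |t|) := mul_nonneg hg0 (by linarith)
    have a1 : (1 - g) * (1 - |t|) ≤ 1 - g := by nlinarith
    have b0 : 9 / 16 ≤ 5 / 8 + g * t / 16 := by nlinarith
    have b1 : 5 / 8 + g * t / 16 ≤ 5 / 8 + g / 16 := by nlinarith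
    have c0 : 9 / 16 ≤ (5 / 8 + g * t / 16) * (1 + (1 - g) * (1 - |t|) / 2) := by nlinarith
    have c1 : (5 / 8 + g * t / 16) * (1 + (1 - g) * (1 - |t|) / 2) ≤ 15 / 16 := by
      have d1 : (5 / 8 + g * t / 16) * (1 + (1 - g) * (1 - |t|) / 2) ≤
          (5 / 8 + g / 16) * (1 + (1 - g) / 2) :=
        mul_le_mul b1 (by linarith) (by linarith) (by linarith)
      nlinarith
    have e : size (P i (sg n * (5 / 8 + g * t / 16)) ((1 - g) * (1 - |t|))) =
        sg n * ((5 / 8 + g * t / 16) * (1 + (1 - g) * (1 - |t|) / 2)) := by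
      rw [P_size]; ring
    simp only [e]
    refine ⟨by nlinarith, by nlinarith, fun h => ?_, fun h => ?_⟩
    · exfalso; nlinarith
    · exfalso; nlinarith
  · have e : size (P i r 0) = r := by rw [P_size]; ring
    simp only [e]
    refine ⟨by nlinarith, h2, fun h => by rw [h], fun h => by rw [h]⟩

open LAYERARC in
theorem t_LAYERDISJ : S_LAYERDISJ := by
  intro i j n g hg hg1 hij
  rw [Set.disjoint_left]
  intro y hi hj
  have h1 := pos_coord i n g hg hg1 y hi
  have h2 := pos_coord j n g hg hg1 y hj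
  have h3 : j = i + 2 ∨ i = j + 2 := by
    fin_cases i <;> fin_cases j <;> first | (exact absurd rfl hij) | (left; rfl) | (right; rfl)
  rcases h3 with h3 | h3
  · rw [← h3] at h1
    exact absurd h1.2 h2.1.ne'
  · rw [← h3] at h2
    exact absurd h2.2 h1.1.ne'

end Pool.Agent.H742.AC6
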