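import Pool.Agent.H742.AC6.Stm2

set_option autoImplicit false

/-!
# Seven marks around a path of three cubic vertices are not on an arc (helper30)
-/

namespace Pool.Agent.H742.AC6

open Set Topology TopologicalSpace

namespace N7

/-- an arc as the image of a real interval -/
theorem arc_real {Y : Type} [TopologicalSpace Y] {S : Set Y} {a b : Y} (h : IsArc S a b) :
    ∃ G : ℝ → Y, Continuous G ∧ InjOn G (Icc 0 1) ∧ G 0 = a ∧ G 1 = b ∧ G '' Icc 0 1 = S := by
  obtain ⟨f, hf, hinj, h0, h1, hr⟩ := h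
  have hG : ∀ x : unitInterval, IccExtend (zero_le_one (α := ℝ)) f (x : ℝ) = f x := fun x => by
    rw [IccExtend_val]
  refine ⟨IccExtend (zero_le_one (α := ℝ)) f, hf.Icc_extend', ?_, ?_, ?_, ?_⟩
  · intro x hx y hy hxy
    have h2 := hG ⟨x, hx⟩
    have h3 := hG ⟨y, hy⟩
    have h4 : f ⟨x, hx⟩ = f ⟨y, hy⟩ := by
      rw [← h2, ← h3]
      exact hxy
    exact congrArg Subtype.val (hinj h4)
  · rw [← h0]
    exact hG 0
  · rw [← h1]
    exact hG 1
  · rw [← hr]
    ext y
    constructor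
    · rintro ⟨x, hx, rfl⟩
      exact ⟨⟨x, hx⟩, (hG ⟨x, hx⟩).symm⟩
    · rintro ⟨x, rfl⟩
      exact ⟨x, x.2, hG x⟩

theorem arc_closed {Y : Type} [TopologicalSpace Y] [T2Space Y] {S : Set Y} {a b : Y}
    (h : IsArc S a b) : IsClosed S := by
  obtain ⟨G, hG, -, -, -, hS⟩ := arc_real h
  rw [← hS]
  exact (isCompact_Icc.image hG).isClosed

theorem arc_left {Y : Type} [TopologicalSpace Y] {S : Set Y} {a b : Y}
    (h : IsArc S a b) : a ∈ S := by
  obtain ⟨f, hf, hinj, h0, h1, hr⟩ := h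
  rw [← hr, ← h0]
  exact mem_range_self _

theorem arc_right {Y : Type} [TopologicalSpace Y] {S : Set Y} {a b : Y}
    (h : IsArc S a b) : b ∈ S := by
  obtain ⟨f, hf, hinj, h0, h1, hr⟩ := h
  rw [← hr, ← h1]
  exact mem_range_self _

/-- a path through the end of an arc cannot be in the arc on both sides -/
theorem no_pass {Y : Type} [TopologicalSpace Y] [T2Space Y] {S : Set Y} {a b : Y}
    (h : IsArc S a b) {G : ℝ → Y} (hG : Continuous G) {c p d : ℝ} (hcp : c < p) (hpd : p < d)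
    (hinj : InjOn G (Icc c d)) (hp : G p = a) (hS : ∀ x ∈ Icc c d, G x ∈ S) : False := by
  obtain ⟨f, hf, hfi, h0, h1, hr⟩ := h
  have hex : ∀ x : ℝ, ∃ u : unitInterval, x ∈ Icc c d → f u = G x := by
    intro x
    by_cases hx : x ∈ Icc c d
    · have h2 := hS x hx
      rw [← hr] at h2
      obtain ⟨u, hu⟩ := h2
      exact ⟨u, fun _ => hu⟩
    · exact ⟨0, fun h2 => absurd h2 hx⟩
  choose g hg using hex
  have hemb := hf.isClosedEmbedding hfi
  have hgc : ContinuousOn g (Icc c d) := by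
    rw [hemb.isInducing.continuousOn_iff]
    exact hG.continuousOn.congr fun x hx => hg x hx
  have hgc' : ContinuousOn (fun x => (g x : ℝ)) (Icc c d) :=
    continuous_subtype_val.comp_continuousOn hgc
  have hgi : ∀ x ∈ Icc c d, ∀ y ∈ Icc c d, (g x : ℝ) = g y → x = y := by
    intro x hx y hy hxy
    apply hinj hx hy
    rw [← hg x hx, ← hg y hy, Subtype.ext hxy]
  have hpI : p ∈ Icc c d := ⟨hcp.le, hpd.le⟩
  have hcI : c ∈ Icc c d := ⟨le_rfl, (hcp.trans hpd).le⟩
  have hdI : d ∈ Icc c d := ⟨(hcp.trans hpd).le, le_rfl⟩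
  have hgp : (g p : ℝ) = 0 := by
    have h2 : g p = 0 := by
      apply hfi
      rw [hg p hpI, hp, h0]
    rw [h2]
    rfl
  have hgc0 : 0 < (g c : ℝ) := by
    refine lt_of_le_of_ne (g c).2.1 fun h2 => ?_
    have := hgi c hcI p hpI (by rw [hgp]; exact h2.symm)
    linarith
  have hgd0 : 0 < (g d : ℝ) := by
    refine lt_of_le_of_ne (g d).2.1 fun h2 => ?_
    have := hgi d hdI p hpI (by rw [hgp]; exact h2.symm)
    linarith
  have hy : 0 < min (g c : ℝ) (g d) := lt_min hgc0 hgd0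
  obtain ⟨x1, hx1, e1⟩ := intermediate_value_Icc' hcp.le
    (hgc'.mono (Icc_subset_Icc_right hpd.le)) (show min (g c : ℝ) (g d) ∈ Icc (g p : ℝ) (g c) from
      ⟨by rw [hgp]; exact hy.le, min_le_left _ _⟩)
  obtain ⟨x2, hx2, e2⟩ := intermediate_value_Icc hpd.le
    (hgc'.mono (Icc_subset_Icc_left hcp.le)) (show min (g c : ℝ) (g d) ∈ Icc (g p : ℝ) (g d) from
      ⟨by rw [hgp]; exact hy.le, min_le_right _ _⟩)
  have h2 := hgi x1 ⟨hx1.1, hx1.2.trans hpd.le⟩ x2 ⟨hcp.le.trans hx2.1, hx2.2⟩ (e1.trans e2.symm)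
  have h3 : x1 = p := le_antisymm hx1.2 (by rw [h2]; exact hx2.1)
  rw [h3] at e1
  simp only at e1
  rw [hgp] at e1
  linarith

theorem mk_ne (r : Fin 3) {s s' : Fin 3} (h : mk r s = mk r s') : s = s' := by
  revert h
  revert r s s'
  decide

end N7

open N7 in
theorem t_N7 : S_N7 := by
  classical
  intro Y _ K v m h e w hm harc hhK hstar hdis hmark hopen hgerm hnear
  rintro ⟨A, a, b, hA, hAK, hmA⟩
  obtain ⟨G, hG, hGi, -, -, hGA⟩ := arc_real hA
  have hGK : ∀ x ∈ Icc (0 : ℝ) 1, G x ∈ K := fun x hx => hAK (by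
    rw [← hGA]
    exact mem_image_of_mem _ hx)
  have hpar : ∀ i, ∃ x ∈ Icc (0 : ℝ) 1, G x = m i := by
    intro i
    have h1 := hmA i
    rw [← hGA] at h1
    exact h1
  choose t ht htm using hpar
  have hti : Function.Injective t := fun i j hij => hm (by rw [← htm, ← htm, hij])
  -- the sorted parameters
  have hcard : (Finset.univ.image t).card = 7 := by
    rw [Finset.card_image_of_injective _ hti, Finset.card_univ, Fintype.card_fin]
  obtain ⟨σ, hσ⟩ : ∃ σ : Fin 7 ↪o ℝ, range σ = ↑(Finset.univ.image t) :=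
    ⟨(Finset.univ.image t).orderEmbOfFin hcard, Finset.range_orderEmbOfFin _ hcard⟩
  have hπ : ∀ k, ∃ i, t i = σ k := by
    intro k
    have h1 : σ k ∈ range σ := mem_range_self k
    rw [hσ, Finset.mem_coe, Finset.mem_image] at h1
    obtain ⟨i, -, hi⟩ := h1
    exact ⟨i, hi⟩
  choose π hπ using hπ
  have hπi : Function.Injective π := fun k l hkl => σ.injective (by rw [← hπ, ← hπ, hkl])
  have hσI : ∀ k, σ k ∈ Icc (0 : ℝ) 1 := fun k => by
    rw [← hπ]
    exact ht _
  have hσm : ∀ k, G (σ k) = m (π k) := fun k => by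
    rw [← hπ]
    exact htm _
  -- the links
  have hlt : ∀ k : Fin 6, σ k.castSucc < σ k.succ := fun k =>
    σ.strictMono (Fin.castSucc_lt_succ)
  have hLI : ∀ k : Fin 6, ∀ x ∈ Ioo (σ k.castSucc) (σ k.succ), x ∈ Icc (0 : ℝ) 1 := fun k x hx =>
    ⟨(hσI _).1.trans hx.1.le, hx.2.le.trans (hσI _).2⟩
  have hLm : ∀ k : Fin 6, ∀ x ∈ Ioo (σ k.castSucc) (σ k.succ), G x ∉ range m := by
    rintro k x hx ⟨i, hi⟩
    have h1 : x = t i := hGi (hLI k x hx) (ht i) (by rw [htm, hi])
    have h2 : t i ∈ range σ := by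
      rw [hσ, Finset.mem_coe, Finset.mem_image]
      exact ⟨i, Finset.mem_univ _, rfl⟩
    obtain ⟨l, hl⟩ := h2
    rw [h1, ← hl] at hx
    have h3 := σ.lt_iff_lt.1 hx.1
    have h4 := σ.lt_iff_lt.1 hx.2
    rw [Fin.lt_def] at h3 h4
    simp only [Fin.val_castSucc, Fin.val_succ] at h3 h4
    omega
  obtain ⟨H, hH⟩ : ∃ H : Fin 3 → Set Y, ∀ r, H r = ⋃ s, h r s := ⟨_, fun _ => rfl⟩
  have hHc : ∀ r, IsClosed (H r) := by
    intro r
    rw [hH]
    exact isClosed_iUnion_of_finite fun s => arc_closed (harc r s)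
  have hpart : ∀ k : Fin 6, ∀ r, G '' Ioo (σ k.castSucc) (σ k.succ) ⊆ H r ∨
      G '' Ioo (σ k.castSucc) (σ k.succ) ⊆ (H r)ᶜ := by
    intro k r
    obtain ⟨U, hU, hUK⟩ := hopen r
    rw [← hH] at hUK
    have hpc : IsPreconnected (G '' Ioo (σ k.castSucc) (σ k.succ)) :=
      isPreconnected_Ioo.image _ hG.continuousOn
    rw [isPreconnected_iff_subset_of_disjoint] at hpc
    have hcov : G '' Ioo (σ k.castSucc) (σ k.succ) ⊆ U ∪ (H r)ᶜ := by
      rintro y ⟨x, hx, rfl⟩
      by_cases h2 : G x ∈ H r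
      · left
        have h3 : G x ∈ H r \ range m := ⟨h2, hLm k x hx⟩
        rw [← hUK] at h3
        exact h3.1
      · exact Or.inr h2
    have hemp : G '' Ioo (σ k.castSucc) (σ k.succ) ∩ (U ∩ (H r)ᶜ) = ∅ := by
      rw [eq_empty_iff_forall_notMem]
      rintro y ⟨⟨x, hx, rfl⟩, h2, h3⟩
      have h4 : G x ∈ U ∩ K := ⟨h2, hGK x (hLI k x hx)⟩
      rw [hUK] at h4
      exact h3 h4.1
    rcases hpc U (H r)ᶜ hU (hHc r).isOpen_compl hcov hemp with h1 | h1
    · left
      rintro y ⟨x, hx, rfl⟩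
      have h2 : G x ∈ U ∩ K := ⟨h1 (mem_image_of_mem _ hx), hGK x (hLI k x hx)⟩
      rw [hUK] at h2
      exact h2.1
    · exact Or.inr h1
  obtain ⟨B, hB⟩ : ∃ B : Finset (Fin 6), B = Finset.univ.filter (fun k => ∀ r,
    G '' Ioo (σ k.castSucc) (σ k.succ) ⊆ (H r)ᶜ) := ⟨_, rfl⟩
  have hBm : ∀ k, k ∈ B ↔ ∀ r, G '' Ioo (σ k.castSucc) (σ k.succ) ⊆ (H r)ᶜ := by
    intro k
    rw [hB, Finset.mem_filter]
    exact ⟨fun h1 => h1.2, fun h1 => ⟨Finset.mem_univ _, h1⟩⟩
  -- the vertices are not marks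
  have hvm : ∀ r i, v r ≠ m i := by
    intro r i hvi
    have h1 := hmark r 0 i (by rw [← hvi]; exact arc_left (harc r 0))
    have h2 := hmark r 1 i (by rw [← hvi]; exact arc_left (harc r 1))
    have h3 := mk_ne r (h1.symm.trans h2)
    exact absurd h3 (by decide)
  -- a link in a star passes the vertex
  have hvert : ∀ k : Fin 6, ∀ r, G '' Ioo (σ k.castSucc) (σ k.succ) ⊆ H r →
      ∃ x ∈ Ioo (σ k.castSucc) (σ k.succ), G x = v r := by
    intro k r hk
    have hQ : G '' Icc (σ k.castSucc) (σ k.succ) ⊆ H r := by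
      rw [← closure_Ioo (hlt k).ne]
      exact (image_closure_subset_closure_image hG).trans (closure_minimal hk (hHc r))
    have ha := hQ (mem_image_of_mem _ (left_mem_Icc.2 (hlt k).le))
    have hb := hQ (mem_image_of_mem _ (right_mem_Icc.2 (hlt k).le))
    rw [hσm, hH, mem_iUnion] at ha hb
    obtain ⟨s, hs⟩ := ha
    obtain ⟨s', hs'⟩ := hb
    have h1 := hmark r s _ hs
    have h2 := hmark r s' _ hs'
    have hss : s ≠ s' := by
      rintro rfl
      have h3 := hπi (h1.trans h2.symm)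
      exact absurd h3 (Fin.castSucc_lt_succ).ne
    by_contra hcon
    push Not at hcon
    have hnot : v r ∉ G '' Icc (σ k.castSucc) (σ k.succ) := by
      rintro ⟨x, hx, hxv⟩
      rcases eq_or_lt_of_le hx.1 with h3 | h3
      · rw [← h3, hσm] at hxv
        exact hvm r _ hxv.symm
      · rcases eq_or_lt_of_le hx.2 with h4 | h4
        · rw [h4, hσm] at hxv
          exact hvm r _ hxv.symm
        · exact hcon x ⟨h3, h4⟩ hxv
    have hpc : IsPreconnected (G '' Icc (σ k.castSucc) (σ k.succ)) :=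
      isPreconnected_Icc.image _ hG.continuousOn
    rw [isPreconnected_closed_iff] at hpc
    obtain ⟨y, hy1, hy2, hy3⟩ := hpc (h r s) (⋃ s'' : {s'' : Fin 3 // s'' ≠ s}, h r s'')
      (arc_closed (harc r s)) (isClosed_iUnion_of_finite fun s'' => arc_closed (harc r s''))
      (by
        intro y hy
        have h3 := hQ hy
        rw [hH, mem_iUnion] at h3
        obtain ⟨s'', hs''⟩ := h3
        by_cases h4 : s'' = s
        · left
          rw [← h4]
          exact hs''
        · right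
          exact mem_iUnion.2 ⟨⟨s'', h4⟩, hs''⟩)
      ⟨m (π k.castSucc), by
        rw [← hσm]
        exact mem_image_of_mem _ (left_mem_Icc.2 (hlt k).le), hs⟩
      ⟨m (π k.succ), by
        rw [← hσm]
        exact mem_image_of_mem _ (right_mem_Icc.2 (hlt k).le),
        mem_iUnion.2 ⟨⟨s', hss.symm⟩, hs'⟩⟩
    rw [mem_iUnion] at hy3
    obtain ⟨⟨s'', h4⟩, hs''⟩ := hy3
    have h5 : y ∈ h r s ∩ h r s'' := ⟨hy2, hs''⟩
    rw [hstar r s s'' (Ne.symm h4), mem_singleton_iff] at h5
    rw [h5] at hy1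
    exact hnot hy1
  -- at most three links in the stars
  have hBc : (Bᶜ).card ≤ 3 := by
    have hex : ∀ k : Fin 6, ∃ r, k ∈ Bᶜ → G '' Ioo (σ k.castSucc) (σ k.succ) ⊆ H r := by
      intro k
      by_cases hk : k ∈ Bᶜ
      · rw [Finset.mem_compl, hBm] at hk
        push Not at hk
        obtain ⟨r, hr⟩ := hk
        exact ⟨r, fun _ => (hpart k r).resolve_right hr⟩
      · exact ⟨0, fun h1 => absurd h1 hk⟩
    choose c hc using hex
    have h1 : (Bᶜ).card ≤ (Finset.univ : Finset (Fin 3)).card := by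
      refine Finset.card_le_card_of_injOn c (fun _ _ => Finset.mem_coe.2 (Finset.mem_univ _)) ?_
      have key : ∀ k ∈ Bᶜ, ∀ l ∈ Bᶜ, c k = c l → ¬ k < l := by
        intro k hk l hl hkl hlt'
        obtain ⟨x, hx, hxv⟩ := hvert k (c k) (hc k hk)
        obtain ⟨y, hy, hyv⟩ := hvert l (c l) (hc l hl)
        have h2 : x = y := hGi (hLI k x hx) (hLI l y hy) (by rw [hxv, hyv, hkl])
        have h3 : σ k.succ ≤ σ l.castSucc := by
          rw [σ.le_iff_le]
          rw [Fin.lt_def] at hlt'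
          rw [Fin.le_def]
          simp only [Fin.val_castSucc, Fin.val_succ]
          omega
        have h4 := hx.2
        have h5 := hy.1
        rw [h2] at h4
        exact absurd (h4.trans_le h3) (not_lt.2 h5.le)
      intro k hk l hl hkl
      rcases lt_trichotomy k l with h2 | h2 | h2
      · exact absurd h2 (key k hk l hl hkl)
      · exact h2
      · exact absurd h2 (key l hl k hk hkl.symm)
    rw [Finset.card_univ, Fintype.card_fin] at h1
    exact h1
  have hB3 : 3 ≤ B.card := by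
    have h1 := Finset.card_add_card_compl B
    rw [Fintype.card_fin] at h1
    omega
  -- the ends of the links outside the stars
  have hend : ∀ k ∈ B, ∀ p ∈ Icc (σ k.castSucc) (σ k.succ), ∀ i, G p = m i → i ≠ 2 ∧ i ≠ 4 := by
    intro k hk p hp i hi
    rw [← not_or]
    intro hi24
    obtain ⟨U, hU, hmU, hUK⟩ := hnear i hi24
    rw [← closure_Ioo (hlt k).ne, mem_closure_iff] at hp
    obtain ⟨x, hx1, hx2⟩ := hp (G ⁻¹' U) (hU.preimage hG) (by
      show G p ∈ U
      rw [hi]
      exact hmU)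
    have h1 := hUK ⟨hx1, hGK x (hLI k x hx2)⟩
    rw [mem_iUnion] at h1
    obtain ⟨r, hr⟩ := h1
    rw [← hH] at hr
    exact (hBm k).1 hk r (mem_image_of_mem _ hx2) hr
  -- no two consecutive links outside the stars
  have hcons : ∀ k ∈ B, ∀ l ∈ B, k.succ = l.castSucc → False := by
    intro k hk l hl hkl
    obtain ⟨h1, h2⟩ := hend k hk _ (right_mem_Icc.2 (hlt k).le) _ (hσm _)
    obtain ⟨hee, heK, -, U, hU, hmU, hUK⟩ := hgerm _ h1 h2
    have h3 : G ⁻¹' U ∈ 𝓝 (σ k.succ) := by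
      refine (hU.preimage hG).mem_nhds ?_
      show G (σ k.succ) ∈ U
      rw [hσm]
      exact hmU
    have hlt2 : σ k.succ < σ l.succ := by
      rw [hkl]
      exact hlt l
    obtain ⟨ε, hε, hball⟩ := Metric.mem_nhds_iff.1 h3
    obtain ⟨c, hc1, hc2⟩ := exists_between (max_lt (hlt k) (by linarith : σ k.succ - ε < σ k.succ))
    obtain ⟨d, hd1, hd2⟩ := exists_between (lt_min hlt2 (by linarith : σ k.succ < σ k.succ + ε))
    have hc3 := max_lt_iff.1 hc1
    have hd3 := lt_min_iff.1 hd2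
    have hcd : Icc c d ⊆ Icc (0 : ℝ) 1 := fun x hx =>
      ⟨(hσI k.castSucc).1.trans (hc3.1.le.trans hx.1), hx.2.trans (hd3.1.le.trans (hσI _).2)⟩
    refine no_pass hee hG hc2 hd1 (hGi.mono hcd) (hσm _) ?_
    · intro x hx
      have hxU : G x ∈ U := by
        apply hball
        rw [Metric.mem_ball, Real.dist_eq, abs_lt]
        constructor
        · have := hx.1
          linarith [hc3.2]
        · have := hx.2
          linarith [hd3.2]
      have hxK : G x ∈ K := hGK x ⟨(hσI k.castSucc).1.trans (hc3.1.le.trans hx.1),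
        hx.2.trans (hd3.1.le.trans (hσI _).2)⟩
      have key : (∀ r, G x ∉ H r) → G x ∈ e (π k.succ) := by
        intro h5
        rcases hUK ⟨hxU, hxK⟩ with h6 | h6
        · exact h6
        · rw [mem_iUnion] at h6
          obtain ⟨r, hr⟩ := h6
          rw [← hH] at hr
          exact absurd hr (h5 r)
      rcases lt_trichotomy x (σ k.succ) with h5 | h5 | h5
      · refine key fun r hr => ?_
        exact (hBm k).1 hk r (mem_image_of_mem _ ⟨hc3.1.trans_le hx.1, h5⟩) hr
      · rw [h5, hσm]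
        exact arc_left hee
      · refine key fun r hr => ?_
        refine (hBm l).1 hl r (mem_image_of_mem _ ⟨?_, hx.2.trans_lt hd3.1⟩) hr
        rw [← hkl]
        exact h5
  -- counting
  have hS1 : (B.image fun k => π k.castSucc).card = B.card :=
    Finset.card_image_of_injective _ fun k l hkl => Fin.castSucc_injective _ (hπi hkl)
  have hS2 : (B.image fun k => π k.succ).card = B.card :=
    Finset.card_image_of_injective _ fun k l hkl => Fin.succ_injective _ (hπi hkl)
  have hdisj : Disjoint (B.image fun k => π k.castSucc) (B.image fun k => π k.succ) := by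
    rw [Finset.disjoint_left]
    intro i hi1 hi2
    rw [Finset.mem_image] at hi1 hi2
    obtain ⟨k, hk, hk'⟩ := hi1
    obtain ⟨l, hl, hl'⟩ := hi2
    exact hcons l hl k hk (hπi (hl'.trans hk'.symm))
  have hsub : (B.image fun k => π k.castSucc) ∪ (B.image fun k => π k.succ) ⊆
      ({2, 4} : Finset (Fin 7))ᶜ := by
    intro i hi
    rw [Finset.mem_union, Finset.mem_image, Finset.mem_image] at hi
    have h1 : i ≠ 2 ∧ i ≠ 4 := by
      rcases hi with ⟨k, hk, rfl⟩ | ⟨k, hk, rfl⟩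
      · exact hend k hk _ (left_mem_Icc.2 (hlt k).le) _ (hσm _)
      · exact hend k hk _ (right_mem_Icc.2 (hlt k).le) _ (hσm _)
    rw [Finset.mem_compl, Finset.mem_insert, Finset.mem_singleton, not_or]
    exact h1
  have h1 := Finset.card_le_card hsub
  rw [Finset.card_union_of_disjoint hdisj, hS1, hS2] at h1
  have h2 : (({2, 4} : Finset (Fin 7))ᶜ).card = 5 := by decide
  omega

end Pool.Agent.H742.AC6
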