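import Pool.Agent.H742.AC6.Stm2

/-!
# A graph does not contain infinitely many disjoint triods
-/

namespace Pool.Agent.H742.AC6

open Set Topology TopologicalSpace

namespace NG1

/-- a pairwise disjoint sequence of sets has a member which misses a given finite set -/
theorem exists_disjoint {Y : Type} {D : Set Y} (hD : D.Finite) {C : ℕ → Set Y}
    (hC : ∀ n m, n ≠ m → Disjoint (C n) (C m)) : ∃ n, Disjoint (C n) D := by
  by_contra hcon
  push Not at hcon
  have h : ∀ n, ∃ d, d ∈ C n ∧ d ∈ D := by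
    intro n
    have := hcon n
    rw [Set.not_disjoint_iff] at this
    exact this
  choose d h1 h2 using h
  have hinj : Function.Injective d := by
    intro n m hnm
    by_contra hne
    exact Set.disjoint_left.mp (hC n m hne) (h1 n) (hnm ▸ h1 m)
  exact Set.infinite_of_injective_forall_mem hinj h2 hD

theorem middle {α : Type*} [LinearOrder α] (t : Fin 3 → α) :
    ∃ i j k : Fin 3, j ≠ i ∧ k ≠ i ∧ t i ∈ Icc (t j) (t k) := by
  rcases le_total (t 0) (t 1) with h1 | h1 <;> rcases le_total (t 1) (t 2) with h2 | h2 <;>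
    rcases le_total (t 0) (t 2) with h3 | h3
  · exact ⟨1, 0, 2, by decide, by decide, h1, h2⟩
  · exact ⟨1, 0, 2, by decide, by decide, h1, h2⟩
  · exact ⟨2, 0, 1, by decide, by decide, h3, h2⟩
  · exact ⟨0, 2, 1, by decide, by decide, h3, h1⟩
  · exact ⟨0, 1, 2, by decide, by decide, h1, h3⟩
  · exact ⟨2, 1, 0, by decide, by decide, h2, h3⟩
  · exact ⟨1, 2, 0, by decide, by decide, h2, h1⟩
  · exact ⟨1, 2, 0, by decide, by decide, h2, h1⟩

end NG1

open NG1 in
theorem t_NG1 : S_NG1 := by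
  rintro Y _ K ⟨-, m, f, hf, hinj, hK, hmeet⟩ ⟨C, hCK, hCd, hCt⟩
  -- the endpoints
  let E : Set Y := (range fun i => f i 0) ∪ range fun i => f i 1
  have hE : E.Finite := (Set.finite_range _).union (Set.finite_range _)
  obtain ⟨n, hn⟩ := exists_disjoint hE hCd
  obtain ⟨hconn, x, hx, hD⟩ := hCt n
  have hx0 : x 0 ∈ ⋃ i, range (f i) := hK ▸ hCK n (hx 0)
  obtain ⟨i, hi⟩ := mem_iUnion.mp hx0
  have hcl : ∀ j, IsClosed (range (f j)) := fun j => (isCompact_range (hf j)).isClosed
  let v : Set Y := ⋃ j : {j // j ≠ i}, range (f j)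
  have hv : IsClosed v := isClosed_iUnion_of_finite fun j => hcl j
  have hdis : C n ∩ (range (f i) ∩ v) = ∅ := by
    rw [Set.eq_empty_iff_forall_notMem]
    rintro y ⟨hy1, ⟨s, hs⟩, hy3⟩
    obtain ⟨⟨j, hj⟩, t, ht⟩ := mem_iUnion.mp hy3
    have h1 := (hmeet i j (Ne.symm hj) s t (hs.trans ht.symm)).1
    have h2 : y ∈ E := by
      rcases h1 with h1 | h1
      · exact Or.inl ⟨i, by rw [← hs, h1]⟩
      · exact Or.inr ⟨i, by rw [← hs, h1]⟩
    exact Set.disjoint_left.mp hn hy1 h2
  have hcov : C n ⊆ range (f i) ∪ v := by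
    intro y hy
    have h1 : y ∈ ⋃ i, range (f i) := hK ▸ hCK n hy
    obtain ⟨j, hj⟩ := mem_iUnion.mp h1
    by_cases hji : j = i
    · exact Or.inl (hji ▸ hj)
    · exact Or.inr (mem_iUnion.mpr ⟨⟨j, hji⟩, hj⟩)
  have hsub : C n ⊆ range (f i) := by
    rcases (isPreconnected_iff_subset_of_disjoint_closed.mp hconn.isPreconnected) _ _ (hcl i) hv
      hcov hdis with h | h
    · exact h
    · exfalso
      have : x 0 ∈ C n ∩ (range (f i) ∩ v) := ⟨hx 0, hi, h (hx 0)⟩
      rw [hdis] at this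
      exact this
  have hemb : IsInducing (f i) :=
    ((hf i).isClosedEmbedding (hinj i)).isInducing
  choose t ht using fun k => hsub (hx k)
  obtain ⟨a, b, c, hba, hca, hmid⟩ := middle t
  obtain ⟨D, hDC, hDconn, hxa, hxo⟩ := hD a
  have hpre : IsPreconnected (f i ⁻¹' D) := by
    rw [← hemb.isPreconnected_image, Set.image_preimage_eq_of_subset (hDC.trans hsub)]
    exact hDconn.isPreconnected
  have h1 : t b ∈ f i ⁻¹' D := by
    change f i (t b) ∈ D
    rw [ht]
    exact hxo b hba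
  have h2 : t c ∈ f i ⁻¹' D := by
    change f i (t c) ∈ D
    rw [ht]
    exact hxo c hca
  have h3 : f i (t a) ∈ D := hpre.Icc_subset h1 h2 hmid
  rw [ht] at h3
  exact hxa h3

end Pool.Agent.H742.AC6
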