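import Pool.Agent.H742.AC6.Stm2

/-!
Task NG2 of project AC6 (helper695): a graph does not contain infinitely many pairwise disjoint
connected sets with two points at distance at least `δ`.
-/

set_option autoImplicit false

namespace Pool.Agent.H742.AC6.NG2

open Set Topology TopologicalSpace

/-- the grid points of the unit interval -/
noncomputable def grid (N k : ℕ) : unitInterval := Set.projIcc (0 : ℝ) 1 zero_le_one ((k : ℝ) / N)

theorem grid_zero (N : ℕ) : grid N 0 = 0 := by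
  unfold grid
  rw [Nat.cast_zero, zero_div]
  exact Set.projIcc_left _

theorem grid_self {N : ℕ} (hN : 0 < N) : grid N N = 1 := by
  unfold grid
  rw [div_self (by exact_mod_cast hN.ne')]
  exact Set.projIcc_right _

/-- an interval of length at least `1 / N` contains a grid point -/
theorem grid_mem {N : ℕ} (hN : 0 < N) {s t : unitInterval} (h : 1 / (N : ℝ) ≤ (t : ℝ) - s) :
    ∃ k ≤ N, s ≤ grid N k ∧ grid N k ≤ t := by
  have hN0 : (0 : ℝ) < N := by exact_mod_cast hN
  obtain ⟨k, hk⟩ : ∃ k : ℕ, k = ⌈(s : ℝ) * N⌉₊ := ⟨_, rfl⟩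
  have h1 : (s : ℝ) * N ≤ k := by rw [hk]; exact Nat.le_ceil _
  have h2 : (k : ℝ) < (s : ℝ) * N + 1 := by
    rw [hk]
    exact Nat.ceil_lt_add_one (mul_nonneg s.2.1 hN0.le)
  have h3 : (s : ℝ) ≤ (k : ℝ) / N := by rw [le_div_iff₀ hN0]; exact h1
  have h4 : (k : ℝ) / N ≤ t := by
    rw [div_le_iff₀ hN0]
    rw [div_le_iff₀ hN0] at h
    nlinarith
  have h5 : (k : ℝ) / N ∈ Set.Icc (0 : ℝ) 1 := ⟨by positivity, h4.trans t.2.2⟩
  have h6 : grid N k = ⟨(k : ℝ) / N, h5⟩ := Set.projIcc_of_mem _ h5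
  refine ⟨k, ?_, ?_, ?_⟩
  · have h7 := h5.2
    rw [div_le_iff₀ hN0, one_mul] at h7
    exact_mod_cast h7
  · rw [h6]
    exact h3
  · rw [h6]
    exact h4

/-- there is a finite set that meets every large connected subset of a graph -/
theorem finite_net {Y : Type} [MetricSpace Y] {K : Set Y} {δ : ℝ} (hδ : 0 < δ) (hK : IsGraph K) :
    ∃ F : Set Y, F.Finite ∧ ∀ C ⊆ K, IsConnected C → (∃ x ∈ C, ∃ y ∈ C, δ ≤ dist x y) →
      (C ∩ F).Nonempty := by
  obtain ⟨-, m, f, hc, hi, hU, hmeet⟩ := hK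
  have hN : ∀ i, ∃ N : ℕ, 0 < N ∧ ∀ s t : unitInterval, (s : ℝ) ≤ t → δ ≤ dist (f i s) (f i t) →
      1 / (N : ℝ) ≤ (t : ℝ) - s := by
    intro i
    have huc := CompactSpace.uniformContinuous_of_continuous (hc i)
    obtain ⟨η, hη, h⟩ := Metric.uniformContinuous_iff.1 huc δ hδ
    obtain ⟨N, hN⟩ := exists_nat_gt (1 / η)
    have hN0 : (0 : ℝ) < N := lt_trans (by positivity) hN
    refine ⟨N, by exact_mod_cast hN0, fun s t hst hd => ?_⟩
    by_contra hcon
    push Not at hcon
    have h1 : 1 / (N : ℝ) < η := by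
      rw [div_lt_iff₀ hN0]
      rw [div_lt_iff₀ hη] at hN
      linarith
    have h2 : dist s t < η := by
      rw [Subtype.dist_eq, Real.dist_eq, abs_sub_comm, abs_of_nonneg (by linarith)]
      linarith
    exact absurd (h h2) (not_lt.2 hd)
  choose N hN0 hN using hN
  refine ⟨⋃ i, (fun k => f i (grid (N i) k)) '' (Set.Iic (N i)),
    Set.finite_iUnion fun i => (Set.finite_Iic _).image _, ?_⟩
  intro C hCK hC hxy
  by_contra hcon
  rw [Set.not_nonempty_iff_eq_empty] at hcon
  have hno : ∀ i, ∀ k ≤ N i, f i (grid (N i) k) ∉ C := by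
    intro i k hk hmem
    have : f i (grid (N i) k) ∈ C ∩ ⋃ i, (fun k => f i (grid (N i) k)) '' (Set.Iic (N i)) :=
      ⟨hmem, Set.mem_iUnion.2 ⟨i, k, hk, rfl⟩⟩
    rw [hcon] at this
    exact this
  have h0 : ∀ i, f i 0 ∉ C := fun i => by
    have := hno i 0 (Nat.zero_le _)
    rwa [grid_zero] at this
  have h1 : ∀ i, f i 1 ∉ C := fun i => by
    have := hno i (N i) le_rfl
    rwa [grid_self (hN0 i)] at this
  have hcl : ∀ i, IsClosed (range (f i)) := fun i => (isCompact_range (hc i)).isClosed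
  -- `C` lies in one arc
  obtain ⟨x0, hx0⟩ := hC.nonempty
  have hx0' := hCK hx0
  rw [hU] at hx0'
  obtain ⟨i, hx0i⟩ := Set.mem_iUnion.1 hx0'
  have hsub : C ⊆ range (f i) := by
    have hcl2 : IsClosed (⋃ j : {j : Fin m // j ≠ i}, range (f j)) :=
      isClosed_iUnion_of_finite fun j => hcl j
    have hcov : C ⊆ range (f i) ∪ ⋃ j : {j : Fin m // j ≠ i}, range (f j) := by
      intro y hy
      have hy' := hCK hy
      rw [hU] at hy'
      obtain ⟨j, hj⟩ := Set.mem_iUnion.1 hy'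
      by_cases hji : j = i
      · left
        rw [← hji]
        exact hj
      · right
        exact Set.mem_iUnion.2 ⟨⟨j, hji⟩, hj⟩
    have hemp : C ∩ (range (f i) ∩ ⋃ j : {j : Fin m // j ≠ i}, range (f j)) = ∅ := by
      rw [Set.eq_empty_iff_forall_notMem]
      rintro y ⟨hyC, ⟨s, hs⟩, hy⟩
      obtain ⟨⟨j, hji⟩, t, ht⟩ := Set.mem_iUnion.1 hy
      have h2 := (hmeet i j (Ne.symm hji) s t (hs.trans ht.symm)).1
      rcases h2 with h2 | h2
      · rw [h2] at hs
        rw [← hs] at hyC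
        exact h0 i hyC
      · rw [h2] at hs
        rw [← hs] at hyC
        exact h1 i hyC
    rcases isPreconnected_iff_subset_of_disjoint_closed.1 hC.isPreconnected _ _ (hcl i) hcl2 hcov
      hemp with h | h
    · exact h
    · exfalso
      have : x0 ∈ C ∩ (range (f i) ∩ ⋃ j : {j : Fin m // j ≠ i}, range (f j)) :=
        ⟨hx0, hx0i, h hx0⟩
      rw [hemp] at this
      exact this
  have hJ : IsPreconnected (f i ⁻¹' C) :=
    hC.isPreconnected.preimage_of_isClosedMap (hi i) (hc i).isClosedMap hsub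
  obtain ⟨x, hx, y, hy, hd⟩ := hxy
  obtain ⟨s, rfl⟩ := hsub hx
  obtain ⟨t, rfl⟩ := hsub hy
  have key : ∀ s t : unitInterval, f i s ∈ C → f i t ∈ C → (s : ℝ) ≤ t →
      δ ≤ dist (f i s) (f i t) → False := by
    intro s t hs ht hst hd
    obtain ⟨k, hk, h2, h3⟩ := grid_mem (hN0 i) (hN i s t hst hd)
    exact hno i k hk (hJ.ordConnected.out hs ht ⟨h2, h3⟩)
  rcases le_total (s : ℝ) t with h | h
  · exact key s t hx hy h hd
  · exact key t s hy hx h (by rwa [dist_comm])

end Pool.Agent.H742.AC6.NG2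

namespace Pool.Agent.H742.AC6

theorem t_NG2 : S_NG2 := by
  intro Y _ K δ hδ hK
  rintro ⟨C, hCK, hdis, hC⟩
  obtain ⟨F, hF, hmeet⟩ := NG2.finite_net hδ hK
  have h := fun n => hmeet (C n) (hCK n) (hC n).1 (hC n).2
  choose p hp using h
  have hinj : Function.Injective p := by
    intro a b hab
    by_contra hne
    exact Set.disjoint_left.1 (hdis a b hne) (hp a).1 (hab ▸ (hp b).1)
  exact Set.infinite_of_injective_forall_mem hinj (fun n => (hp n).2) hF

end Pool.Agent.H742.AC6
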