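import Pool.Agent.H742.AC6.Stm2

/-!
# `S_PI` : `Pi_3` sets by locally constant bits
-/

namespace Pool.Agent.H742.AC6

namespace P_PI

open Set Topology TopologicalSpace

universe u

variable {Z : Type u} [TopologicalSpace Z]

theorem clopen_seq [SecondCountableTopology Z] (hb : IsTopologicalBasis {s : Set Z | IsClopen s})
    {O : Set Z} (hO : IsOpen O) :
    ∃ U : ℕ → Set Z, (∀ i, IsClopen (U i)) ∧ O = ⋃ i, U i := by
  obtain ⟨S, hS, rfl⟩ := hb.open_eq_sUnion hO
  obtain ⟨T, hTc, hTS, hT⟩ := isOpen_sUnion_countable S (fun s hs => (hS hs).isOpen)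
  have hc : (insert ∅ T).Countable := hTc.insert ∅
  obtain ⟨U, hU⟩ := hc.exists_eq_range ⟨∅, mem_insert _ _⟩
  refine ⟨U, fun i => ?_, ?_⟩
  · have h : U i ∈ insert ∅ T := by
      rw [hU]
      exact mem_range_self i
    rcases h with h | h
    · rw [h]
      exact isClopen_empty
    · exact hS (hTS h)
  · rw [← hT, ← sUnion_range, ← hU, sUnion_insert, empty_union]

open Classical in
/-- the pointer -/
noncomputable def st (V : ℕ → ℕ → Set Z) : ℕ → Z → ℕ
  | 0, _ => 0
  | n + 1, z => st V n z + (decide (z ∈ V n (st V n z))).toNat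

open Classical in
/-- the bits -/
noncomputable def bit (V : ℕ → ℕ → Set Z) (n : ℕ) (z : Z) : Bool := decide (z ∈ V n (st V n z))

omit [TopologicalSpace Z] in
theorem st_succ (V : ℕ → ℕ → Set Z) (n : ℕ) (z : Z) :
    st V (n + 1) z = st V n z + (bit V n z).toNat := rfl

theorem diag {X : Type*} [TopologicalSpace X] {s : Z → ℕ} (hs : Continuous s) {f : ℕ → Z → X}
    (hf : ∀ k, Continuous (f k)) : Continuous (fun z => f (s z) z) := by
  rw [continuous_iff_continuousAt]
  intro z0
  have h : ∀ᶠ z in 𝓝 z0, s z = s z0 :=
    (hs.isOpen_preimage {s z0} (isOpen_discrete _)).mem_nhds rfl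
  refine (hf (s z0)).continuousAt.congr ?_
  filter_upwards [h] with z hz
  rw [hz]

theorem cont (V : ℕ → ℕ → Set Z) (hV : ∀ n k, IsClopen (V n k)) (n : ℕ) :
    Continuous (st V n) ∧ Continuous (bit V n) := by
  classical
  have key : ∀ n, Continuous (st V n) → Continuous (bit V n) := by
    intro n h
    have h1 : ∀ k, Continuous (fun z => decide (z ∈ V n k)) := by
      intro k
      rw [continuous_bool_rng true]
      have e : (fun z => decide (z ∈ V n k)) ⁻¹' {true} = V n k := by
        ext z
        simp
      rw [e]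
      exact hV n k
    exact diag h h1
  induction n with
  | zero => exact ⟨continuous_const, key 0 continuous_const⟩
  | succ n ih =>
    have h : Continuous (st V (n + 1)) := by
      have e : st V (n + 1) = (fun p : ℕ × Bool => p.1 + p.2.toNat) ∘
          (fun z => (st V n z, bit V n z)) := by
        funext z
        exact st_succ V n z
      rw [e]
      exact continuous_of_discreteTopology.comp (ih.1.prodMk ih.2)
    exact ⟨h, key _ h⟩

omit [TopologicalSpace Z] in
theorem bit_iff (V : ℕ → ℕ → Set Z) (n : ℕ) (z : Z) :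
    bit V n z = true ↔ z ∈ V n (st V n z) := by
  unfold bit
  simp

theorem st_mono (V : ℕ → ℕ → Set Z) (z : Z) : Monotone (fun n => st V n z) := by
  refine monotone_nat_of_le_succ fun n => ?_
  show st V n z ≤ st V (n + 1) z
  rw [st_succ]
  exact Nat.le_add_right _ _

theorem fin_iff (V : ℕ → ℕ → Set Z) (hV : ∀ k n m, n ≤ m → V n k ⊆ V m k) (z : Z) :
    {n | bit V n z = true}.Finite ↔ ∃ k, ∀ n, z ∉ V n k := by
  constructor
  · intro h
    obtain ⟨N, hN⟩ := h.bddAbove
    have h1 : ∀ n, N < n → bit V n z = false := by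
      intro n hn
      by_contra hcon
      rw [Bool.not_eq_false] at hcon
      exact absurd (hN hcon) (by omega)
    have h2 : ∀ m, st V (N + 1 + m) z = st V (N + 1) z := by
      intro m
      induction m with
      | zero => rfl
      | succ m ih =>
        rw [← add_assoc, st_succ, h1 _ (by omega), ih]
        rfl
    refine ⟨st V (N + 1) z, fun n hn => ?_⟩
    have h3 := hV _ n (N + 1 + n) (by omega) hn
    have h4 := h1 (N + 1 + n) (by omega)
    rw [← h2 n, ← bit_iff, h4] at h3
    exact absurd h3 (by simp)
  · rintro ⟨k, hk⟩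
    have h1 : ∀ n, st V n z ≤ k := by
      intro n
      induction n with
      | zero => exact Nat.zero_le _
      | succ n ih =>
        rw [st_succ]
        rcases ih.lt_or_eq with h | h
        · have : (bit V n z).toNat ≤ 1 := Bool.toNat_le _
          omega
        · have h2 : bit V n z = false := by
            by_contra hcon
            rw [Bool.not_eq_false, bit_iff, h] at hcon
            exact hk n hcon
          rw [h2, h]
          exact le_refl _
    refine Set.Finite.of_finite_image (f := fun n => st V n z)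
      ((Set.finite_Iic k).subset ?_) ?_
    · rintro _ ⟨n, -, rfl⟩
      exact h1 n
    · have h3 : ∀ m n, bit V m z = true → m < n → st V m z < st V n z := by
        intro m n hm hmn
        have h4 : st V (m + 1) z ≤ st V n z := st_mono V z (by omega)
        rw [st_succ, hm] at h4
        exact h4
      intro m hm n hn hmn
      rcases lt_trichotomy m n with h | h | h
      · exact absurd hmn (h3 m n hm h).ne
      · exact h
      · exact absurd hmn (h3 n m hn h).ne'

end P_PI

open Set Topology TopologicalSpace P_PI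

universe u

theorem t_PI : S_PI.{u} := by
  intro Z _ _ hb A hA
  obtain ⟨F, hF, rfl⟩ := hA
  have h1 : ∀ M, ∃ C : ℕ → Set Z, (∀ n, IsClosed (C n)) ∧ F M = ⋃ n, C n := fun M => hF M
  choose C hC hFC using h1
  have h2 : ∀ M k, ∃ U : ℕ → Set Z, (∀ i, IsClopen (U i)) ∧ (C M k)ᶜ = ⋃ i, U i := fun M k =>
    clopen_seq hb (hC M k).isOpen_compl
  choose U hU hCU using h2
  have hcl : ∀ M n k, IsClopen (⋃ i ∈ Finset.range (n + 1), U M k i) := fun M n k =>
    isClopen_biUnion_finset fun i _ => hU M k i
  refine ⟨fun M n z => bit (fun n k => ⋃ i ∈ Finset.range (n + 1), U M k i) n z, ?_, ?_⟩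
  · intro M n
    exact (cont _ (hcl M) n).2
  · intro z
    have h3 : ∀ M, z ∈ F M ↔
        {n | bit (fun n k => ⋃ i ∈ Finset.range (n + 1), U M k i) n z = true}.Finite := by
      intro M
      rw [fin_iff _ ?_ z]
      · rw [hFC M, mem_iUnion]
        refine exists_congr fun k => ?_
        constructor
        · intro hz n hn
          rw [mem_iUnion₂] at hn
          obtain ⟨i, -, hi⟩ := hn
          have h4 : z ∈ (C M k)ᶜ := by
            rw [hCU M k]
            exact mem_iUnion.2 ⟨i, hi⟩
          exact h4 hz
        · intro h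
          by_contra hz
          have h4 : z ∈ (C M k)ᶜ := hz
          rw [hCU M k, mem_iUnion] at h4
          obtain ⟨i, hi⟩ := h4
          exact h i (mem_iUnion₂.2 ⟨i, Finset.mem_range.2 (Nat.lt_succ_self i), hi⟩)
      · intro k n m hnm y hy
        rw [mem_iUnion₂] at hy ⊢
        obtain ⟨i, hi, hy⟩ := hy
        exact ⟨i, Finset.mem_range.2 (lt_of_lt_of_le (Finset.mem_range.1 hi) (by omega)), hy⟩
    rw [mem_iInter]
    exact forall_congr' h3

end Pool.Agent.H742.AC6
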