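import Pool.Agent.H742.AC6.Stm2

/-! The innermost part is a tripod (task STARGLUE). -/

set_option autoImplicit false

namespace Pool.Agent.H742.AC6

open Set Topology TopologicalSpace

namespace STARGLUE

theorem sg_pos (m : ℕ) : 0 < sg m := by
  unfold sg
  positivity

theorem sg_succ (m : ℕ) : sg (m + 1) = sg m / 2 := by
  unfold sg
  rw [pow_succ]
  ring

theorem sg_anti {m m' : ℕ} (h : m ≤ m') : sg m' ≤ sg m := by
  unfold sg
  exact pow_le_pow_of_le_one (by norm_num) (by norm_num) h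

theorem sg_lt {m m' : ℕ} (h : m < m') : sg m' ≤ sg m / 2 := by
  rw [← sg_succ]
  exact sg_anti h

theorem sg_lt' {m m' : ℕ} (h : m + 1 < m') : sg m' < sg m / 2 := by
  have h1 := sg_lt h
  rw [sg_succ] at h1
  have h2 := sg_pos m
  linarith

theorem size_P0 (k : Fin 3) (r : ℝ) : size (P k r 0) = r := by
  fin_cases k <;> simp [size, P]

theorem P_inj {k l : Fin 3} {r : ℝ} (hr : 0 < r) (h : P k r 0 = P l r 0) : k = l := by
  by_contra hne
  have h1 := congrFun h k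
  simp only [P, if_true, if_neg hne] at h1
  simp at h1
  exact hr.ne' h1

theorem form {i : Fin 3} {n : ℕ} {g : ℝ} (h0 : 0 ≤ g) (h1 : g ≤ 1) {y : Fin 3 → ℝ}
    (hy : y ∈ Layer i n g) : ∃ r t : ℝ, y = P i r t ∧ 0 ≤ r ∧ r ≤ sg n ∧ 0 ≤ t ∧ t ≤ 1 := by
  have hs := sg_pos n
  rcases hy with (⟨r, ⟨hr1, hr2⟩, rfl⟩ | ⟨t, ⟨ht1, ht2⟩, rfl⟩) | ⟨r, ⟨hr1, hr2⟩, rfl⟩
  · refine ⟨r, 0, rfl, by linarith, ?_, le_rfl, zero_le_one⟩
    nlinarith
  · have hat : |t| ≤ 1 := abs_le.2 ⟨ht1, ht2⟩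
    have hat0 : 0 ≤ |t| := abs_nonneg t
    refine ⟨_, _, rfl, ?_, ?_, ?_, ?_⟩
    · refine mul_nonneg hs.le ?_
      nlinarith
    · have : 5 / 8 + g * t / 16 ≤ 1 := by nlinarith
      nlinarith
    · exact mul_nonneg (by linarith) (by linarith)
    · nlinarith
  · refine ⟨r, 0, rfl, ?_, hr2, le_rfl, zero_le_one⟩
    have : 0 ≤ sg n * (5 / 8 + g / 16) := by positivity
    linarith

theorem bound {i : Fin 3} {n : ℕ} {g : ℝ} (h0 : 0 ≤ g) (h1 : g ≤ 1) {y : Fin 3 → ℝ}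
    (hy : y ∈ Layer i n g) (k : Fin 3) : |y k| ≤ 2 * sg n := by
  obtain ⟨r, t, rfl, hr0, hr1, ht0, ht1⟩ := form h0 h1 hy
  have hs := sg_pos n
  unfold P
  split_ifs
  · rw [abs_of_nonneg (mul_nonneg hr0 (by linarith))]
    nlinarith
  · rw [abs_of_nonneg (by positivity)]
    nlinarith
  · rw [abs_zero]
    linarith

/-- a leg -/
def Leg (g : ℕ → ℝ) (n : ℕ) (i : Fin 3) : Set (Fin 3 → ℝ) :=
  {0} ∪ ⋃ m : ℕ, Layer i (n + m) (g (n + m))

theorem zero_notMem (hSZ : S_SIZE) {i : Fin 3} {n : ℕ} {g : ℝ} (h0 : 0 ≤ g) (h1 : g ≤ 1) :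
    (0 : Fin 3 → ℝ) ∉ Layer i n g := by
  intro h
  have h2 := (hSZ i n g h0 h1 0 h).1
  have h3 := sg_pos n
  have h4 : size (0 : Fin 3 → ℝ) = 0 := by simp [size]
  rw [h4] at h2
  linarith

theorem leg_arc (hLA : S_LAYERARC) (hSZ : S_SIZE) (hINF : S_INF) {g : ℕ → ℝ} {n : ℕ}
    (hg : ∀ m, g m ∈ Icc (0 : ℝ) 1) (hpos : ∀ m ≥ n, 0 < g m) (i : Fin 3) :
    IsArc (Leg g n i) 0 (P i (sg n) 0) := by
  have harc : ∀ m : ℕ, IsArc (Layer i (n + m) (g (n + m))) (P i (sg (n + (m + 1))) 0)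
      (P i (sg (n + m)) 0) := by
    intro m
    have h := hLA i (n + m) (g (n + m)) (hpos _ (by omega)) (hg _).2
    rw [← sg_succ] at h
    exact h
  have hend : ∀ m : ℕ, P i (sg (n + (m + 1))) 0 ∈ Layer i (n + m) (g (n + m)) ∧
      P i (sg (n + m)) 0 ∈ Layer i (n + m) (g (n + m)) := by
    intro m
    obtain ⟨f, -, -, h0, h1, hr⟩ := harc m
    rw [← hr]
    exact ⟨⟨0, h0⟩, ⟨1, h1⟩⟩
  have h := hINF (Fin 3 → ℝ) (fun m => Layer i (n + m) (g (n + m)))
    (fun m => P i (sg (n + m)) 0) 0 harc ?_ ?_ ?_ ?_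
  · exact h
  · intro m
    apply Subset.antisymm
    · rintro y ⟨hy1, hy2⟩
      have e1 := hSZ i (n + m) (g (n + m)) (hg _).1 (hg _).2 y hy1
      have e2 := hSZ i (n + (m + 1)) (g (n + (m + 1))) (hg _).1 (hg _).2 y hy2
      have e3 : sg (n + (m + 1)) = sg (n + m) / 2 := sg_succ (n + m)
      rw [mem_singleton_iff]
      show y = P i (sg (n + (m + 1))) 0
      apply e2.2.2.2
      apply le_antisymm e2.2.1
      rw [e3]
      exact e1.1
    · rintro y hy
      rw [mem_singleton_iff] at hy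
      rw [hy]
      exact ⟨(hend m).1, (hend (m + 1)).2⟩
  · intro m m' hmm
    rw [Set.disjoint_left]
    intro y hy1 hy2
    have e1 := (hSZ i (n + m) (g (n + m)) (hg _).1 (hg _).2 y hy1).1
    have e2 := (hSZ i (n + m') (g (n + m')) (hg _).1 (hg _).2 y hy2).2.1
    have e3 : sg (n + m') < sg (n + m) / 2 := sg_lt' (by omega)
    linarith
  · intro m
    exact zero_notMem hSZ (hg _).1 (hg _).2
  · intro ε hε
    have hlim : Filter.Tendsto (fun m : ℕ => 2 * ((1 / 2 : ℝ)) ^ m) Filter.atTop (𝓝 (2 * 0)) :=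
      (tendsto_pow_atTop_nhds_zero_of_lt_one (by norm_num) (by norm_num)).const_mul 2
    rw [mul_zero] at hlim
    obtain ⟨N, hN⟩ := Filter.eventually_atTop.1 (hlim.eventually (gt_mem_nhds hε))
    refine ⟨N, fun m hm y hy => ?_⟩
    rw [Metric.mem_ball, dist_zero_right, pi_norm_lt_iff hε]
    intro k
    rw [Real.norm_eq_abs]
    refine (bound (hg _).1 (hg _).2 hy k).trans_lt ?_
    have h1 : sg (n + m) ≤ sg m := sg_anti (by omega)
    have h2 := hN m hm
    have h3 : 2 * sg m < ε := h2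
    linarith

theorem leg_meet (hSZ : S_SIZE) (hLD : S_LAYERDISJ) {g : ℕ → ℝ} {n : ℕ}
    (hg : ∀ m, g m ∈ Icc (0 : ℝ) 1) (hpos : ∀ m ≥ n, 0 < g m) {i j : Fin 3} (hij : i ≠ j)
    {y : Fin 3 → ℝ} (hi : y ∈ Leg g n i) (hj : y ∈ Leg g n j) : y = 0 := by
  rcases hi with hi | hi
  · exact hi
  rcases hj with hj | hj
  · exact hj
  obtain ⟨m, hm⟩ := mem_iUnion.1 hi
  obtain ⟨m', hm'⟩ := mem_iUnion.1 hj
  exfalso
  have key : ∀ (i j : Fin 3) (m m' : ℕ), i ≠ j → m < m' → y ∈ Layer i (n + m) (g (n + m)) →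
      y ∈ Layer j (n + m') (g (n + m')) → False := by
    intro i j m m' hij hlt h1 h2
    have e1 := hSZ i (n + m) (g (n + m)) (hg _).1 (hg _).2 y h1
    have e2 := hSZ j (n + m') (g (n + m')) (hg _).1 (hg _).2 y h2
    have e3 : sg (n + m') ≤ sg (n + m) / 2 := sg_lt (by omega)
    have e4 : size y = sg (n + m') := le_antisymm e2.2.1 (e3.trans e1.1)
    have e5 : size y = sg (n + m) / 2 := le_antisymm (e4.le.trans e3) e1.1
    have e6 := e1.2.2.1 e5
    have e7 := e2.2.2.2 e4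
    rw [← e5, e4] at e6
    rw [e6] at e7
    exact hij (P_inj (sg_pos _) e7)
  rcases lt_trichotomy m m' with h | h | h
  · exact key i j m m' hij h hm hm'
  · subst h
    exact Set.disjoint_left.1 (hLD i j (n + m) (g (n + m)) (hpos _ (by omega)) (hg _).2 hij) hm hm'
  · exact key j i m' m hij.symm h hm' hm

theorem TT_eq (g : ℕ → ℝ) (n : ℕ) : TT g n = ⋃ i : Fin 3, Leg g n i := by
  ext y
  unfold TT Leg
  constructor
  · rintro (hy | hy)
    · exact mem_iUnion.2 ⟨0, Or.inl hy⟩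
    · obtain ⟨i, hi⟩ := mem_iUnion.1 hy
      obtain ⟨⟨m, hm⟩, h⟩ := mem_iUnion.1 hi
      refine mem_iUnion.2 ⟨i, Or.inr (mem_iUnion.2 ⟨m - n, ?_⟩)⟩
      have e : n + (m - n) = m := by omega
      rw [e]
      exact h
  · intro hy
    obtain ⟨i, hi | hi⟩ := mem_iUnion.1 hy
    · exact Or.inl hi
    · obtain ⟨m, h⟩ := mem_iUnion.1 hi
      exact Or.inr (mem_iUnion.2 ⟨i, mem_iUnion.2 ⟨⟨n + m, by omega⟩, h⟩⟩)

/-- the positions of the vertices -/
noncomputable def ps (n : ℕ) : ℕ → (Fin 3 → ℝ)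
  | 0 => 0
  | k + 1 => if h : k < 3 then P ⟨k, h⟩ (sg n) 0 else 0

theorem ps_succ (n k : ℕ) (h : k < 3) : ps n (k + 1) = P ⟨k, h⟩ (sg n) 0 := by
  show (if h : k < 3 then P ⟨k, h⟩ (sg n) 0 else 0) = _
  rw [dif_pos h]

theorem size_zero : size (0 : Fin 3 → ℝ) = 0 := by simp [size]

theorem P_ne (n : ℕ) (k : Fin 3) : P k (sg n) 0 ≠ 0 := by
  intro h
  have h1 := congrArg size h
  rw [size_P0, size_zero] at h1
  exact (sg_pos n).ne' h1

end STARGLUE

open STARGLUE in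
theorem t_STARGLUE : S_LAYERARC → S_SIZE → S_LAYERDISJ → S_INF → S_STARGLUE := by
  intro hLA hSZ hLD hINF g n hg hpos
  have harc := fun i => leg_arc hLA hSZ hINF hg hpos i
  choose F hc hi h0 h1 hr using harc
  obtain ⟨f, hf⟩ : ∃ f : ℕ → unitInterval → (Fin 3 → ℝ),
      ∀ k (hk : k < 3), f k = F ⟨k, hk⟩ :=
    ⟨fun k => if h : k < 3 then F ⟨k, h⟩ else F 0, fun k hk => by simp only [dif_pos hk]⟩
  have hmem : ∀ k (hk : k < 3) s, f k s ∈ Leg g n ⟨k, hk⟩ := by
    intro k hk s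
    rw [hf k hk, ← hr ⟨k, hk⟩]
    exact mem_range_self s
  have hPleg : ∀ i : Fin 3, P i (sg n) 0 ∈ Leg g n i := by
    intro i
    rw [← hr i, ← h1 i]
    exact mem_range_self 1
  refine ⟨ps n, f, ⟨?_, ?_, ?_, ?_, ?_, ?_, ?_, ?_, ?_⟩, ?_, ?_⟩
  · intro v hv w hw h
    have hv' : v < 4 := hv
    have hw' : w < 4 := hw
    rcases v with _ | v
    · rcases w with _ | w
      · rfl
      · rw [ps_succ n w (by omega)] at h
        exact absurd h.symm (P_ne n _)
    · rcases w with _ | w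
      · rw [ps_succ n v (by omega)] at h
        exact absurd h (P_ne n _)
      · rw [ps_succ n v (by omega), ps_succ n w (by omega)] at h
        have := P_inj (sg_pos n) h
        have := congrArg Fin.val this
        simp only at this
        omega
  · intro k hk
    rw [hf k hk]
    exact hc _
  · intro k hk
    rw [hf k hk]
    exact hi _
  · intro k hk
    rw [hf k hk]
    exact h0 _
  · intro k hk
    have hk' : k < 3 := hk
    show f k 1 = ps n (k + 1)
    rw [hf k hk', ps_succ n k hk']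
    exact h1 _
  · intro k hk l hl hkl s t hst
    refine ⟨0, ?_, Or.inl rfl, Or.inl rfl⟩
    have hk' : k < 3 := hk
    have hl' : l < 3 := hl
    show f k s = 0
    refine leg_meet hSZ hLD hg hpos (i := ⟨k, hk'⟩) (j := ⟨l, hl'⟩) ?_ (hmem k hk' s) ?_
    · intro h
      exact hkl (congrArg Fin.val h)
    · rw [hst]
      exact hmem l hl' t
  · intro k hk s h
    exact absurd h (Set.notMem_empty _)
  · intro v hv k hk s h
    have hv' : v < 4 := hv
    have hk' : k < 3 := hk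
    rcases v with _ | v
    · exact Or.inl rfl
    · right
      show v + 1 = k + 1
      by_contra hne
      have hvk : v ≠ k := by omega
      rw [ps_succ n v (by omega)] at h
      have e1 := hmem k hk' s
      rw [h] at e1
      have e2 := leg_meet hSZ hLD hg hpos (i := ⟨v, by omega⟩) (j := ⟨k, hk'⟩)
        (fun h => hvk (congrArg Fin.val h)) (hPleg _) e1
      exact P_ne n _ e2
  · intro v hv h
    exact absurd h (Set.notMem_empty _)
  · intro i
    show ps n (1 + (i : ℕ)) = P i (sg n) 0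
    rw [add_comm, ps_succ n i i.2]
  · rw [TT_eq]
    ext y
    constructor
    · intro hy
      obtain ⟨i, hi⟩ := mem_iUnion.1 hy
      refine ⟨i, i.2, ?_⟩
      rw [hf i i.2, hr]
      exact hi
    · rintro ⟨k, hk, hy⟩
      have hk' : k < 3 := hk
      rw [hf k hk', hr] at hy
      exact mem_iUnion.2 ⟨_, hy⟩

end Pool.Agent.H742.AC6
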