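import Pool.Agent.H742.AC6.Stm2

/-!
# Project AC6 (helper742): `S_TRANSFER`, graphs and `n`-arc connectedness under embeddings
-/

namespace Pool.Agent.H742.AC6

open Set Topology TopologicalSpace

namespace TRANSFER

variable {Y Y' : Type} [TopologicalSpace Y] [TopologicalSpace Y'] [T2Space Y']

theorem emb {K : Set Y} {φ : Y → Y'} (hK : IsCompact K) (hφ : Continuous φ) (hi : InjOn φ K) :
    IsEmbedding (fun x : K => φ x) := by
  have : CompactSpace K := isCompact_iff_compactSpace.1 hK
  have h1 : Continuous (fun x : K => φ x) := hφ.comp continuous_subtype_val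
  have h2 : Function.Injective (fun x : K => φ x) := by
    intro x y h
    exact Subtype.ext (hi x.2 y.2 h)
  exact (h1.isClosedEmbedding h2).isEmbedding

theorem lift {K : Set Y} {φ : Y → Y'} (hK : IsCompact K) (hφ : Continuous φ) (hi : InjOn φ K)
    (g : unitInterval → Y') (hg : Continuous g) (hr : ∀ s, g s ∈ φ '' K) :
    ∃ g' : unitInterval → Y, Continuous g' ∧ (∀ s, g' s ∈ K) ∧ ∀ s, φ (g' s) = g s := by
  have hE := emb hK hφ hi
  have hr' : ∀ s, g s ∈ range (fun x : K => φ x) := by
    intro s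
    obtain ⟨x, hx, h⟩ := hr s
    exact ⟨⟨x, hx⟩, h⟩
  refine ⟨fun s => (hE.toHomeomorph.symm ⟨g s, hr' s⟩ : K), ?_, fun s => Subtype.coe_prop _, ?_⟩
  · exact continuous_subtype_val.comp (hE.toHomeomorph.symm.continuous.comp (hg.subtype_mk hr'))
  · intro s
    have h := hE.toHomeomorph.apply_symm_apply ⟨g s, hr' s⟩
    have h2 := congrArg Subtype.val h
    exact h2

theorem graph {K : Set Y} {φ : Y → Y'} (hK : IsCompact K) (hφ : Continuous φ) (hi : InjOn φ K) :
    IsGraph (φ '' K) ↔ IsGraph K := by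
  constructor
  · rintro ⟨⟨hne, hpre⟩, m, f, hc, hinj, hU, hd⟩
    have hE := emb hK hφ hi
    have hpre2 : IsPreconnected (univ : Set K) := by
      rw [← hE.isInducing.isPreconnected_image]
      have : (fun x : K => φ x) '' univ = φ '' K := by
        ext y
        constructor
        · rintro ⟨x, _, rfl⟩
          exact ⟨x, x.2, rfl⟩
        · rintro ⟨x, hx, rfl⟩
          exact ⟨⟨x, hx⟩, mem_univ _, rfl⟩
      rw [this]
      exact hpre
    have hpre3 : IsPreconnected K := by
      have h := hpre2.image (Subtype.val : K → Y) continuous_subtype_val.continuousOn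
      rw [image_univ, Subtype.range_coe] at h
      exact h
    refine ⟨⟨hne.of_image, hpre3⟩, m, ?_⟩
    have hr : ∀ i s, f i s ∈ φ '' K := by
      intro i s
      rw [hU]
      exact mem_iUnion.2 ⟨i, mem_range_self s⟩
    choose g hgc hgK hgφ using fun i => lift hK hφ hi (f i) (hc i) (hr i)
    refine ⟨g, hgc, ?_, ?_, ?_⟩
    · intro i s t h
      apply hinj i
      rw [← hgφ i s, ← hgφ i t, h]
    · ext y
      rw [mem_iUnion]
      constructor
      · intro hy
        have h1 : φ y ∈ φ '' K := mem_image_of_mem φ hy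
        rw [hU, mem_iUnion] at h1
        obtain ⟨i, s, hs⟩ := h1
        refine ⟨i, s, ?_⟩
        apply hi (hgK i s) hy
        rw [hgφ i s, hs]
      · rintro ⟨i, s, rfl⟩
        exact hgK i s
    · intro i j hij s t h
      apply hd i j hij s t
      rw [← hgφ i s, ← hgφ j t, h]
  · rintro ⟨hcon, m, f, hc, hinj, hU, hd⟩
    have hr : ∀ i s, f i s ∈ K := by
      intro i s
      rw [hU]
      exact mem_iUnion.2 ⟨i, mem_range_self s⟩
    refine ⟨hcon.image φ hφ.continuousOn, m, fun i => φ ∘ f i, fun i => hφ.comp (hc i), ?_, ?_, ?_⟩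
    · intro i s t h
      exact hinj i (hi (hr i s) (hr i t) h)
    · ext y
      rw [mem_iUnion]
      constructor
      · rintro ⟨x, hx, rfl⟩
        rw [hU, mem_iUnion] at hx
        obtain ⟨i, s, hs⟩ := hx
        exact ⟨i, s, congrArg φ hs⟩
      · rintro ⟨i, s, rfl⟩
        exact mem_image_of_mem φ (hr i s)
    · intro i j hij s t h
      exact hd i j hij s t (hi (hr i s) (hr j t) h)

theorem nac {K : Set Y} {φ : Y → Y'} (hK : IsCompact K) (hφ : Continuous φ) (hi : InjOn φ K)
    (n : ℕ) : NAC n (φ '' K) ↔ NAC n K := by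
  constructor
  · intro h x hx
    obtain ⟨A, a, b, ⟨f, hc, hinj, _, _, hA⟩, hAK, hxA⟩ :=
      h (fun i => φ (x i)) (fun i => mem_image_of_mem φ (hx i))
    have hr : ∀ s, f s ∈ φ '' K := by
      intro s
      apply hAK
      rw [← hA]
      exact mem_range_self s
    obtain ⟨g, hgc, hgK, hgφ⟩ := lift hK hφ hi f hc hr
    refine ⟨range g, g 0, g 1, ⟨g, hgc, ?_, rfl, rfl, rfl⟩, ?_, ?_⟩
    · intro s t hst
      apply hinj
      rw [← hgφ s, ← hgφ t, hst]
    · rintro y ⟨s, rfl⟩
      exact hgK s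
    · intro i
      have h1 : φ (x i) ∈ A := hxA i
      rw [← hA] at h1
      obtain ⟨s, hs⟩ := h1
      refine ⟨s, ?_⟩
      apply hi (hgK s) (hx i)
      rw [hgφ s, hs]
  · intro h x hx
    choose y hyK hyx using hx
    obtain ⟨A, a, b, ⟨f, hc, hinj, _, _, hA⟩, hAK, hxA⟩ := h y hyK
    have hr : ∀ s, f s ∈ K := by
      intro s
      apply hAK
      rw [← hA]
      exact mem_range_self s
    refine ⟨range (φ ∘ f), φ (f 0), φ (f 1), ⟨φ ∘ f, hφ.comp hc, ?_, rfl, rfl, rfl⟩, ?_, ?_⟩
    · intro s t hst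
      exact hinj (hi (hr s) (hr t) hst)
    · rintro z ⟨s, rfl⟩
      exact mem_image_of_mem φ (hr s)
    · intro i
      have h1 : y i ∈ A := hxA i
      rw [← hA] at h1
      obtain ⟨s, hs⟩ := h1
      refine ⟨s, ?_⟩
      rw [← hyx i, ← hs]
      rfl

end TRANSFER

theorem t_TRANSFER : S_TRANSFER := by
  intro Y Y' _ _ _ _ K φ hK hφ hi
  exact ⟨TRANSFER.graph hK hφ hi, fun n => TRANSFER.nac hK hφ hi n⟩

end Pool.Agent.H742.AC6
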