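import Pool.Agent.H742.AC6.Defs

namespace Pool.Agent.H742.AC6

open Set Topology TopologicalSpace

/-- there is a `Sigma_3` set which is not `Pi_3` in some zero-dimensional Polish space -/
def S_NOTPI : Prop := ∃ (Z : Type) (_ : TopologicalSpace Z) (_ : PolishSpace Z),
  IsTopologicalBasis {s : Set Z | IsClopen s} ∧ ∃ B : Set Z, IsSigma3 B ∧ ¬ IsPi3 B

end Pool.Agent.H742.AC6
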