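import Pool.Agent.H742.AC6.Main
import Pool.Agent.H742.AC6.Stm3
import Pool.Agent.H742.AC6.P_BADPI
import Pool.Agent.H742.AC6.P_BADSIGMA
import Pool.Agent.H742.AC6.P_CLOSEGLUE
import Pool.Agent.H742.AC6.P_CONCAT
import Pool.Agent.H742.AC6.P_CONN
import Pool.Agent.H742.AC6.P_CONT
import Pool.Agent.H742.AC6.P_EMBED
import Pool.Agent.H742.AC6.P_EXTGLUE
import Pool.Agent.H742.AC6.P_GARC
import Pool.Agent.H742.AC6.P_GPOS
import Pool.Agent.H742.AC6.P_GRSTEP
import Pool.Agent.H742.AC6.P_HEXGLUE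
import Pool.Agent.H742.AC6.P_INF
import Pool.Agent.H742.AC6.P_LAYERARC
import Pool.Agent.H742.AC6.P_N7
import Pool.Agent.H742.AC6.P_NG1
import Pool.Agent.H742.AC6.P_NG2
import Pool.Agent.H742.AC6.P_PI
import Pool.Agent.H742.AC6.P_SIGMA
import Pool.Agent.H742.AC6.P_STARGLUE
import Pool.Agent.H742.AC6.P_TRANSFER

/-!
# Assembly of the hardness theorem
-/

namespace Pool.Agent.H742.AC6

open Set Topology TopologicalSpace

universe u

theorem good_case' (g : ℕ → ℝ) (b : ℕ → ℕ → Bool) (hg : ∀ m, g m ∈ Icc (0 : ℝ) 1)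
    (hfin : {n | g n = 0}.Finite) (hb : ∀ M, {n | b M n = true}.Finite) :
    IsGraph (KK g b) ∧ NAC 6 (KK g b) :=
  good_case t_CONCAT t_SUB
    (t_STARGLUE (t_LAYERARC t_CONCAT) t_SIZE t_LAYERDISJ t_INF)
    (t_EXTGLUE (t_LAYERARC t_CONCAT) t_SIZE t_LAYERDISJ)
    (t_EXT0GLUE t_SIZE) (t_HEXGLUE t_SIZE) t_GRSTEP
    (t_CLOSEGLUE (t_GARC t_CONCAT t_INF) t_GPOS t_SIZE) t_CONN g b hg hfin hb

/-- the hardness theorem, given that the continua are not 7-ac -/
theorem hard (hnot7 : S_NOT7) (N : ℕ) (hN : 2 ≤ N) : D2Sigma3Hard.{u} (AC N 6) := by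
  intro Z _ _ hZ A B hA hB
  obtain ⟨g, hgc, hg01, hgB⟩ := t_SIGMA Z hZ B hB
  obtain ⟨b, hbc, hbA⟩ := t_PI Z hZ A hA
  -- layer 0 is always full
  let g' : ℕ → Z → ℝ := fun n => match n with
    | 0 => fun _ => 0
    | n + 1 => g n
  have hgc' : ∀ n, Continuous (g' n) := by
    intro n
    cases n with
    | zero => exact continuous_const
    | succ n => exact hgc n
  have hg01' : ∀ n z, g' n z ∈ Icc (0 : ℝ) 1 := by
    intro n z
    cases n with
    | zero => exact ⟨le_rfl, zero_le_one⟩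
    | succ n => exact hg01 n z
  have hfin' : ∀ z, {n | g' n z = 0}.Finite ↔ {n | g n z = 0}.Finite := by
    intro z
    have : {n | g' n z = 0} = insert 0 (Nat.succ '' {n | g n z = 0}) := by
      ext n
      cases n with
      | zero => simp [g']
      | succ n => simp [g']
    rw [this]
    constructor
    · intro h
      exact Set.Finite.of_finite_image (h.subset (Set.subset_insert _ _))
        (Nat.succ_injective.injOn)
    · intro h
      exact (h.image _).insert _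
  obtain ⟨K, hKc, hK⟩ := t_CONT Z g' b hgc' hg01' hbc
  obtain ⟨φ, hφc, hφi⟩ := t_EMBED N hN
  have hreg : ∀ z, InjOn φ (K z : Set (Fin 3 → ℝ)) := by
    intro z
    refine hφi.mono ?_
    intro y hy
    rw [hK z] at hy
    exact t_REGION _ _ (fun n => hg01' n z) y hy
  have hcon : ∀ z, IsConnected ((NonemptyCompacts.map φ hφc (K z) :
      NonemptyCompacts (Fin N → unitInterval)) : Set (Fin N → unitInterval)) := by
    intro z
    rw [NonemptyCompacts.coe_map]
    refine IsConnected.image ?_ φ hφc.continuousOn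
    rw [hK z]
    exact t_CONN _ _ (fun n => hg01' n z)
  refine ⟨fun z => ⟨NonemptyCompacts.map φ hφc (K z), hcon z⟩,
    Continuous.subtype_mk (hφc.nonemptyCompacts_map.comp hKc) _, ?_⟩
  ext z
  have htr := t_TRANSFER (Fin 3 → ℝ) (Fin N → unitInterval) (K z : Set (Fin 3 → ℝ)) φ
    (K z).isCompact hφc (hreg z)
  have hmem : (⟨NonemptyCompacts.map φ hφc (K z), hcon z⟩ : Cont N) ∈ AC N 6 ↔
      IsGraph (KK (fun n => g' n z) (fun M n => b M n z)) ∧
      NAC 6 (KK (fun n => g' n z) (fun M n => b M n z)) ∧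
      ¬ NAC 7 (KK (fun n => g' n z) (fun M n => b M n z)) := by
    simp only [AC, Set.mem_ofPred_eq, NonemptyCompacts.coe_map]
    rw [htr.1, htr.2 6, htr.2 7, hK z]
  rw [Set.mem_preimage, hmem, Set.mem_inter_iff, hbA z, hgB z, ← hfin' z]
  constructor
  · rintro ⟨h1, -, -⟩
    constructor
    · intro M
      by_contra h
      exact t_BADPI t_NG2 (fun n => g' n z) (fun M n => b M n z) (fun n => hg01' n z)
        ⟨M, h⟩ h1
    · by_contra h
      exact t_BADSIGMA t_NG1 (fun n => g' n z) (fun M n => b M n z) (fun n => hg01' n z) h h1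
  · rintro ⟨h1, h2⟩
    obtain ⟨h3, h4⟩ := good_case' (fun n => g' n z) (fun M n => b M n z)
      (fun n => hg01' n z) h2 h1
    exact ⟨h3, h4, hnot7 _ _ (fun n => hg01' n z) ⟨0, rfl⟩⟩

/-- preimages of `Pi_3` sets -/
theorem IsPi3.preimage {X Z : Type*} [TopologicalSpace X] [TopologicalSpace Z] {f : Z → X}
    (hf : Continuous f) {s : Set X} (hs : IsPi3 s) : IsPi3 (f ⁻¹' s) := by
  obtain ⟨F, hF, rfl⟩ := hs
  refine ⟨fun n => f ⁻¹' F n, ?_, by rw [Set.preimage_iInter]⟩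
  intro n
  obtain ⟨C, hC, hCe⟩ := hF n
  refine ⟨fun k => f ⁻¹' C k, fun k => (hC k).preimage hf, ?_⟩
  show f ⁻¹' F n = ⋃ k, f ⁻¹' C k
  rw [hCe, Set.preimage_iUnion]

theorem not_pi3 (hnot7 : S_NOT7) (hnp : S_NOTPI) (N : ℕ) (hN : 2 ≤ N) : ¬ IsPi3 (AC N 6) := by
  intro h
  obtain ⟨Z, _, _, hZ, B, hB, hB'⟩ := hnp
  obtain ⟨f, hf, hfB⟩ := hard hnot7 N hN Z hZ Set.univ B
    ⟨fun _ => Set.univ, fun _ => ⟨fun _ => Set.univ, fun _ => isClosed_univ,
      (Set.iUnion_const _).symm⟩, (Set.iInter_const _).symm⟩ hB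
  rw [Set.univ_inter] at hfB
  exact hB' (hfB ▸ h.preimage hf)

end Pool.Agent.H742.AC6
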