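import Pool.Agent.H742.AC6.Stm2

/-!
# Path systems in gadgets: combinatorics and realisation
-/

namespace Pool.Agent.H742.AC6

open Set

/-- End of a strand: a terminal, or free. -/
abbrev End := Option (Fin 3)

/-- The strands of a pattern. `0`: nothing; `1`: one arc inside; `2+i`: an arc entering at `i`;
`5+k`: an arc linking the terminals other than `k`; `8+k`: two arcs entering at the terminals other
than `k`; `11+k`: the link of `5+k` and an arc entering at `k`. -/
def strands : ℕ → List (End × End)
  | 0 => []
  | 1 => [(none, none)]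
  | 2 => [(some 0, none)]
  | 3 => [(some 1, none)]
  | 4 => [(some 2, none)]
  | 5 => [(some 1, some 2)]
  | 6 => [(some 0, some 2)]
  | 7 => [(some 0, some 1)]
  | 8 => [(some 1, none), (some 2, none)]
  | 9 => [(some 0, none), (some 2, none)]
  | 10 => [(some 0, none), (some 1, none)]
  | 11 => [(some 1, some 2), (some 0, none)]
  | 12 => [(some 0, some 2), (some 1, none)]
  | 13 => [(some 0, some 1), (some 2, none)]
  | _ => []

section real

variable {Y : Type*} [TopologicalSpace Y]

/-- `B` is an arc in `T` with the ends prescribed by `o`, which meets no other terminals. -/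
def Strand (T : Set Y) (z : Fin 3 → Y) (o : End × End) (B : Set Y) : Prop :=
  ∃ a b, IsArc B a b ∧ B ⊆ T ∧ (∀ i, o.1 = some i → a = z i) ∧ (∀ i, o.2 = some i → b = z i) ∧
    ∀ i, z i ∈ B → o.1 = some i ∨ o.2 = some i

/-- The list `L` of strands is realised by disjoint arcs which cover `S`. -/
def Rlz (T : Set Y) (z : Fin 3 → Y) (L : List (End × End)) (S : Set Y) : Prop :=
  ∃ B : ℕ → Set Y, (∀ r < L.length, Strand T z (L.getD r (none, none)) (B r)) ∧
    (∀ r < L.length, ∀ r' < L.length, r ≠ r' → Disjoint (B r) (B r')) ∧
    ∀ y ∈ S, ∃ r < L.length, y ∈ B r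

/-- For at most six points in `T`, not terminals, all patterns of some member of the family `F`
(a list of bit masks for each number of points) are realised. -/
def Q (F : ℕ → List ℕ) (T : Set Y) (z : Fin 3 → Y) : Prop :=
  ∀ S : Finset Y, (∀ y ∈ S, y ∈ T ∧ ∀ i, y ≠ z i) → S.card ≤ 6 →
    ∃ A ∈ F S.card, ∀ p < 14, A.testBit p = true → Rlz T z (strands p) ↑S

end real

/-- Items of a path: full edges, initial and final pieces of edges, strands. -/
inductive Item
  | full (k : ℕ)
  | lo (k : ℕ)
  | hi (k : ℕ)
  | str (r : ℕ)
  deriving DecidableEq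

/-- Vertices of a path system. -/
inductive Vx
  | g (v : ℕ)
  | l (k : ℕ)
  | u (k : ℕ)
  | a (r : ℕ)
  | b (r : ℕ)
  deriving DecidableEq

namespace Gad

variable (G : Gad)

def e1 (p : ℕ) : Item → Vx
  | .full k => .g (G.src k)
  | .lo k => .g (G.src k)
  | .hi k => .u k
  | .str r => match ((strands p).getD r (none, none)).1 with
    | some i => .g (G.inn i)
    | none => .a r

def e2 (p : ℕ) : Item → Vx
  | .full k => .g (G.tgt k)
  | .lo k => .l k
  | .hi k => .g (G.tgt k)
  | .str r => match ((strands p).getD r (none, none)).2 with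
    | some i => .g (G.inn i)
    | none => .b r

/-- start of a directed item -/
def ds (p : ℕ) (d : Item × Bool) : Vx := if d.2 then G.e1 p d.1 else G.e2 p d.1

/-- end of a directed item -/
def dt (p : ℕ) (d : Item × Bool) : Vx := if d.2 then G.e2 p d.1 else G.e1 p d.1

/-- the vertices of a path -/
def verts (p : ℕ) : List (Item × Bool) → List Vx
  | [] => []
  | [d] => [G.ds p d, G.dt p d]
  | d :: e :: l => G.ds p d :: verts p (e :: l)

/-- the items follow each other -/
def chain (p : ℕ) : List (Item × Bool) → Prop
  | [] => True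
  | [_] => True
  | d :: e :: l => G.dt p d = G.ds p e ∧ chain p (e :: l)

/-- final vertex of a path -/
def fin (p : ℕ) (d : Item × Bool) : List (Item × Bool) → Vx
  | [] => G.dt p d
  | e :: l => fin p e l

end Gad

/-- key of an item -/
def Item.key : Item → ℕ
  | .full k => 2 * k
  | .lo k => 2 * k
  | .hi k => 2 * k
  | .str r => 2 * r + 1

/-- validity of an item -/
def Gad.val (G : Gad) (p : ℕ) : Item → Prop
  | .full k => k < G.ne
  | .lo k => k < G.ne
  | .hi k => k < G.ne
  | .str r => r < (strands p).length

section topo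

variable {Y : Type} [TopologicalSpace Y] [T2Space Y]

/-- Realisation of the items: `A x` is an arc between the positions of the ends, and items with
different keys meet only in positions of common vertices. -/
structure Realises (G : Gad) (p : ℕ) (A : Item → Set Y) (ps : Vx → Y) : Prop where
  arc : ∀ x, G.val p x → IsArc (A x) (ps (G.e1 p x)) (ps (G.e2 p x))
  meet : ∀ x y, G.val p x → G.val p y → x.key ≠ y.key → ∀ c ∈ A x, c ∈ A y →
    ∃ w, c = ps w ∧ (w = G.e1 p x ∨ w = G.e2 p x) ∧ (w = G.e1 p y ∨ w = G.e2 p y)

variable {G : Gad} {p : ℕ} {A : Item → Set Y} {ps : Vx → Y}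

/-- union of the items of a path -/
def US (A : Item → Set Y) (l : List (Item × Bool)) : Set Y := {y | ∃ d ∈ l, y ∈ A d.1}

theorem isArc_symm {S : Set Y} {a b : Y} (h : IsArc S a b) : IsArc S b a := by
  obtain ⟨f, hf, hi, h0, h1, hr⟩ := h
  refine ⟨fun t => f (unitInterval.symm t), hf.comp unitInterval.continuous_symm,
    fun s t hst => unitInterval.symm_bijective.1 (hi hst), by simp [h1], by simp [h0], ?_⟩
  rw [← hr]
  ext y
  constructor
  · rintro ⟨t, rfl⟩
    exact ⟨_, rfl⟩
  · rintro ⟨t, rfl⟩
    exact ⟨unitInterval.symm t, by simp⟩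

theorem verts_mem (l : List (Item × Bool)) (hc : G.chain p l) :
    ∀ d ∈ l, G.e1 p d.1 ∈ G.verts p l ∧ G.e2 p d.1 ∈ G.verts p l := by
  induction l with
  | nil => intro d hd; simp at hd
  | cons d l ih =>
    cases l with
    | nil =>
      intro e he
      simp only [List.mem_singleton] at he
      subst he
      simp only [Gad.verts, Gad.ds, Gad.dt, List.mem_cons]
      rcases e.2 <;> simp
    | cons e l =>
      intro x hx
      obtain ⟨h1, h2⟩ := hc
      rcases List.mem_cons.1 hx with rfl | hx
      · have hh : G.ds p x ∈ G.verts p (x :: e :: l) := by simp [Gad.verts]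
        have hh2 : G.dt p x ∈ G.verts p (x :: e :: l) := by
          rw [h1]
          simp only [Gad.verts, List.mem_cons]
          right
          cases l with
          | nil => simp [Gad.verts]
          | cons e' l => simp [Gad.verts]
        unfold Gad.ds at hh
        unfold Gad.dt at hh2
        rcases hx2 : x.2 <;> rw [hx2] at hh hh2 <;> simp only [if_true, if_false, Bool.false_eq_true] at hh hh2
        · exact ⟨hh2, hh⟩
        · exact ⟨hh, hh2⟩
      · have := ih h2 x hx
        simp only [Gad.verts, List.mem_cons] at this ⊢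
        exact ⟨Or.inr this.1, Or.inr this.2⟩

theorem item_dir (hR : Realises G p A ps) (d : Item × Bool) (hv : G.val p d.1) :
    IsArc (A d.1) (ps (G.ds p d)) (ps (G.dt p d)) := by
  unfold Gad.ds Gad.dt
  rcases d.2
  · simpa using isArc_symm (hR.arc _ hv)
  · simpa using hR.arc _ hv

theorem path_arc (hcc : S_CONCAT) (hR : Realises G p A ps) (l : List (Item × Bool)) :
    ∀ d, (∀ e ∈ d :: l, G.val p e.1) → G.chain p (d :: l) → (G.verts p (d :: l)).Nodup →
    ((d :: l).map (fun e => e.1.key)).Nodup →
    IsArc (US A (d :: l)) (ps (G.ds p d)) (ps (G.fin p d l)) := by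
  induction l with
  | nil =>
    intro d hv _ _ _
    have : US A [d] = A d.1 := by ext y; simp [US]
    rw [this]
    exact item_dir hR d (hv d (by simp))
  | cons e l ih =>
    intro d hv hc hn hk
    have ih' := ih e (fun x hx => hv x (List.mem_cons_of_mem _ hx)) hc.2
      (by simp only [Gad.verts, List.nodup_cons] at hn; exact hn.2)
      (by simp only [List.map_cons, List.nodup_cons] at hk ⊢; exact hk.2)
    have h1 := item_dir hR d (hv d (by simp))
    rw [hc.1] at h1
    have hU : US A (d :: e :: l) = A d.1 ∪ US A (e :: l) := by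
      ext y; simp [US]
    rw [hU]
    refine hcc Y _ _ _ _ _ h1 ih' ?_
    apply Set.Subset.antisymm
    · rintro y ⟨hy1, x, hx, hy2⟩
      have hkey : d.1.key ≠ x.1.key := by
        simp only [List.map_cons, List.nodup_cons] at hk
        intro h
        apply hk.1
        rw [h]
        have : x.1.key ∈ (e :: l).map (fun e => e.1.key) := List.mem_map_of_mem hx
        simpa using this
      obtain ⟨w, hw, hw1, hw2⟩ := hR.meet d.1 x.1 (hv d (by simp))
        (hv x (List.mem_cons_of_mem _ hx)) hkey y hy1 hy2
      have hwv : w ∈ G.verts p (e :: l) := by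
        have := verts_mem (e :: l) hc.2 x hx
        rcases hw2 with h | h
        · rw [h]; exact this.1
        · rw [h]; exact this.2
      have hnd : G.ds p d ∉ G.verts p (e :: l) := by
        simp only [Gad.verts, List.nodup_cons] at hn
        exact hn.1
      have hw3 : w = G.dt p d := by
        unfold Gad.dt
        unfold Gad.ds at hnd
        rcases hd2 : d.2 <;> rw [hd2] at hnd <;>
          simp only [if_true, if_false, Bool.false_eq_true] at hnd ⊢
        · rcases hw1 with h | h
          · exact h
          · exact absurd (h ▸ hwv) hnd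
        · rcases hw1 with h | h
          · exact absurd (h ▸ hwv) hnd
          · exact h
      rw [Set.mem_singleton_iff, hw, hw3, hc.1]
    · rintro y rfl
      refine ⟨?_, ?_⟩
      · obtain ⟨f, _, _, _, h1', hr⟩ := h1
        rw [← hr, ← h1']
        exact ⟨1, rfl⟩
      · obtain ⟨f, _, _, h0', _, hr⟩ := ih'
        rw [← hr, ← h0']
        exact ⟨0, rfl⟩

/-- disjoint paths are realised by disjoint sets -/
theorem path_disj (hR : Realises G p A ps) (l l' : List (Item × Bool))
    (hv : ∀ e ∈ l, G.val p e.1) (hv' : ∀ e ∈ l', G.val p e.1)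
    (hc : G.chain p l) (hc' : G.chain p l')
    (hd : List.Disjoint (G.verts p l) (G.verts p l'))
    (hk : ∀ d ∈ l, ∀ e ∈ l', d.1.key ≠ e.1.key) : Disjoint (US A l) (US A l') := by
  rw [Set.disjoint_left]
  rintro y ⟨d, hdl, hy⟩ ⟨e, hel, hy'⟩
  obtain ⟨w, -, h1, h2⟩ := hR.meet d.1 e.1 (hv d hdl) (hv' e hel) (hk d hdl e hel) y hy hy'
  apply hd (a := w)
  · have := verts_mem l hc d hdl
    rcases h1 with h | h
    · rw [h]; exact this.1
    · rw [h]; exact this.2
  · have := verts_mem l' hc' e hel
    rcases h2 with h | h
    · rw [h]; exact this.1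
    · rw [h]; exact this.2

end topo

end Pool.Agent.H742.AC6
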