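import Pool.Agent.H742.AC6.Tab

/-!
# Assembly: the good case
-/

namespace Pool.Agent.H742.AC6

open Set Topology TopologicalSpace

theorem map_fst_getD (F : List (List (ℕ × ℕ))) (a : ℕ) :
    (F.getD a []).map Prod.fst = (F.map (fun l => l.map Prod.fst)).getD a [] := by
  simp only [List.getD_eq_getElem?_getD, List.getElem?_map]
  cases F[a]? <;> simp

/-- monotonicity of the family, as a decidable statement -/
def Mono (F : List (List ℕ)) : Prop :=
  ∀ b < 6, ∀ A ∈ F.getD b [], ∃ A2 ∈ F.getD (b + 1) [], ∀ q < 14, A2.testBit q = true →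
    A.testBit q = true

instance (F : List (List ℕ)) : Decidable (Mono F) := by
  unfold Mono
  infer_instance

theorem monoL : Mono famL := by decide +kernel

theorem monoI : Mono famI := by decide +kernel

theorem stepL (hcat : S_CONCAT) (hsub : S_SUB) {Y : Type} [TopologicalSpace Y] [T2Space Y]
    (G : Gad) (tab : List Entry) (F : List (List (ℕ × ℕ))) (F' : List (List ℕ)) (RQ C : List ℕ)
    (R : ℕ) (hc : Chk G tab F F' RQ C) (h0 : good F F' RQ 0 R = true)
    (hd : dfs (good F F' RQ) C (marks G) 0 R = true) (hm : Mono F')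
    (hinn : ∀ i, G.inn i < G.nv) (hout : ∀ i, G.out i < G.nv)
    (hw : ∀ k < G.ne, G.src k < G.nv ∧ G.tgt k < G.nv)
    (pos : ℕ → Y) (f : ℕ → unitInterval → Y) (T : Set Y) (hG : Glue G pos f T)
    (hQ : Q (fun a => (F.map (fun l => l.map Prod.fst)).getD a []) T (fun i => pos (G.inn i))) :
    Q (fun a => F'.getD a []) (T ∪ edges G f) (fun i => pos (G.out i)) := by
  refine gadget_step hcat hsub G pos f T hG hinn hout hw
    (fun a => (F.map (fun l => l.map Prod.fst)).getD a []) _ ?_ hm hQ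
  intro a A hA M hM hl
  refine search_sound G tab F F' RQ C hc R h0 hd a A ?_ M hM hl
  rw [map_fst_getD]
  exact hA

theorem FEXT_eq : FEXT.map (fun l => l.map Prod.fst) = famL := by decide +kernel
theorem FHEX_eq : FHEX.map (fun l => l.map Prod.fst) = famL := by decide +kernel
theorem FCLOSE_eq : FCLOSE.map (fun l => l.map Prod.fst) = famL := by decide +kernel
theorem FSTAR_eq : FSTAR.map (fun l => l.map Prod.fst) = [[1], [], [], [], [], [], []] := by
  decide +kernel

section

variable (hcat : S_CONCAT) (hsub : S_SUB) {Y : Type} [TopologicalSpace Y] [T2Space Y]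
  (pos : ℕ → Y) (f : ℕ → unitInterval → Y) (T : Set Y)

include hcat hsub

theorem stepEXT (hG : Glue EXT pos f T)
    (hQ : Q (fun a => famL.getD a []) T (fun i => pos (EXT.inn i))) :
    Q (fun a => famL.getD a []) (T ∪ edges EXT f) (fun i => pos (EXT.out i)) := by
  refine stepL hcat hsub EXT _ _ _ _ _ _ chkEXT goodEXT dfsEXT monoL ?_ ?_ ?_ pos f T hG ?_
  · decide
  · decide
  · decide
  · rw [FEXT_eq]; exact hQ

theorem stepHEX (hG : Glue HEX pos f T)
    (hQ : Q (fun a => famL.getD a []) T (fun i => pos (HEX.inn i))) :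
    Q (fun a => famL.getD a []) (T ∪ edges HEX f) (fun i => pos (HEX.out i)) := by
  refine stepL hcat hsub HEX _ _ _ _ _ _ chkHEX goodHEX dfsHEX monoL ?_ ?_ ?_ pos f T hG ?_
  · decide
  · decide
  · decide
  · rw [FHEX_eq]; exact hQ

theorem stepCLOSE (hG : Glue CLOSE pos f T)
    (hQ : Q (fun a => famL.getD a []) T (fun i => pos (CLOSE.inn i))) :
    Q (fun a => famI.getD a []) (T ∪ edges CLOSE f) (fun i => pos (CLOSE.out i)) := by
  refine stepL hcat hsub CLOSE _ _ _ _ _ _ chkCLOSE goodCLOSE dfsCLOSE monoI ?_ ?_ ?_ pos f T hG ?_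
  · decide
  · decide
  · decide
  · rw [FCLOSE_eq]; exact hQ

theorem stepSTAR (hG : Glue STAR pos f ∅) :
    Q (fun a => famL.getD a []) (∅ ∪ edges STAR f) (fun i => pos (STAR.out i)) := by
  refine stepL hcat hsub STAR _ _ _ _ _ _ chkSTAR goodSTAR dfsSTAR monoL ?_ ?_ ?_ pos f ∅ hG ?_
  · decide
  · decide
  · decide
  · rw [FSTAR_eq]
    intro S hS _
    have hS0 : S = ∅ := Finset.eq_empty_of_forall_notMem (fun y hy => (hS y hy).1)
    subst hS0
    refine ⟨1, by simp, ?_⟩
    intro p hp h1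
    have hp0 : p = 0 := by
      by_contra h
      have : Nat.testBit 1 p = false := by
        rw [Nat.testBit_eq_false_of_lt]
        exact Nat.one_lt_two_pow h
      rw [this] at h1
      exact absurd h1 (by simp)
    subst hp0
    exact ⟨fun _ => ∅, by simp [strands], by simp [strands], by simp⟩

end

/-- the good case, by downward induction -/
theorem good_ind (hcat : S_CONCAT) (hsub : S_SUB) (hstar : S_STARGLUE) (hext : S_EXTGLUE)
    (hext0 : S_EXT0GLUE) (hhex : S_HEXGLUE) (hgr : S_GRSTEP)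
    (g : ℕ → ℝ) (hg : ∀ m, g m ∈ Icc (0 : ℝ) 1) (hfin : {n | g n = 0}.Finite) (n : ℕ) :
    Q (fun a => famL.getD a []) (TT g n) (fun i => P i (sg n) 0) ∧
      GR (TT g n) (fun i => P i (sg n) 0) := by
  obtain ⟨n0, hn0⟩ : ∃ n0, ∀ m ≥ n0, 0 < g m := by
    obtain ⟨B, hB⟩ := hfin.bddAbove
    refine ⟨B + 1, fun m hm => ?_⟩
    rcases lt_or_eq_of_le (hg m).1 with h | h
    · exact h
    · have : m ≤ B := hB (show m ∈ {n | g n = 0} from h.symm)
      omega
  have hbase : ∀ m, n0 ≤ m → Q (fun a => famL.getD a []) (TT g m) (fun i => P i (sg m) 0) ∧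
      GR (TT g m) (fun i => P i (sg m) 0) := by
    intro m hm
    obtain ⟨pos, f, hG, hout, hT⟩ := hstar g m hg (fun k hk => hn0 k (le_trans hm hk))
    have h1 := stepSTAR hcat hsub pos f hG
    have h2 := hgr (Fin 3 → ℝ) STAR pos f ∅ hG (by decide) (by decide)
      ⟨0, fun i => i.elim0, fun i => i.elim0, fun i => i.elim0, by simp, fun i => i.elim0,
        fun _ i => i.elim0⟩
    have ho : (fun i => pos (STAR.out i)) = fun i => P i (sg m) 0 := funext hout
    rw [Set.empty_union, ← hT, ho] at h1 h2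
    exact ⟨h1, h2⟩
  have hstep : ∀ m, (Q (fun a => famL.getD a []) (TT g (m + 1)) (fun i => P i (sg (m + 1)) 0) ∧
      GR (TT g (m + 1)) (fun i => P i (sg (m + 1)) 0)) →
      Q (fun a => famL.getD a []) (TT g m) (fun i => P i (sg m) 0) ∧
      GR (TT g m) (fun i => P i (sg m) 0) := by
    intro m ⟨hq, hr⟩
    rcases lt_or_eq_of_le (hg m).1 with h | h
    · obtain ⟨pos, f, hG, hinn, hout, hT⟩ := hext g m hg h
      have hi : (fun i => pos (EXT.inn i)) = fun i => P i (sg (m + 1)) 0 := funext hinn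
      have ho : (fun i => pos (EXT.out i)) = fun i => P i (sg m) 0 := funext hout
      have h1 := stepEXT hcat hsub pos f _ hG (by rw [hi]; exact hq)
      have h2 := hgr (Fin 3 → ℝ) EXT pos f _ hG (by decide) (by decide) (by rw [hi]; exact hr)
      rw [← hT, ho] at h1 h2
      exact ⟨h1, h2⟩
    · obtain ⟨pos, f, hG, hinn, hout, hT⟩ := hext0 g m hg
      have hi : (fun i => pos (EXT.inn i)) = fun i => P i (sg (m + 1)) 0 := funext hinn
      have ho : (fun i => pos (EXT.out i)) = fun i => P i (sg m * (5 / 8)) 0 := funext hout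
      have h1 := stepEXT hcat hsub pos f _ hG (by rw [hi]; exact hq)
      have h2 := hgr (Fin 3 → ℝ) EXT pos f _ hG (by decide) (by decide) (by rw [hi]; exact hr)
      rw [hT, ho] at h1 h2
      obtain ⟨pos', f', hG', hinn', hout', hT'⟩ := hhex g m hg h.symm
      have hi' : (fun i => pos' (HEX.inn i)) = fun i => P i (sg m * (5 / 8)) 0 := funext hinn'
      have ho' : (fun i => pos' (HEX.out i)) = fun i => P i (sg m) 0 := funext hout'
      have h3 := stepHEX hcat hsub pos' f' _ hG' (by rw [hi']; exact h1)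
      have h4 := hgr (Fin 3 → ℝ) HEX pos' f' _ hG' (by decide) (by decide) (by rw [hi']; exact h2)
      rw [← hT', ho'] at h3 h4
      exact ⟨h3, h4⟩
  rcases le_total n0 n with h | h
  · exact hbase n h
  · exact Nat.decreasingInduction (motive := fun m _ =>
      Q (fun a => famL.getD a []) (TT g m) (fun i => P i (sg m) 0) ∧
      GR (TT g m) (fun i => P i (sg m) 0)) (fun k _ hk => hstep k hk) (hbase n0 le_rfl) h

/-- the good case -/
theorem good_case (hcat : S_CONCAT) (hsub : S_SUB) (hstar : S_STARGLUE) (hext : S_EXTGLUE)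
    (hext0 : S_EXT0GLUE) (hhex : S_HEXGLUE) (hgr : S_GRSTEP) (hclose : S_CLOSEGLUE)
    (hconn : S_CONN)
    (g : ℕ → ℝ) (b : ℕ → ℕ → Bool) (hg : ∀ m, g m ∈ Icc (0 : ℝ) 1) (hfin : {n | g n = 0}.Finite)
    (hb : ∀ M, {n | b M n = true}.Finite) : IsGraph (KK g b) ∧ NAC 6 (KK g b) := by
  classical
  obtain ⟨hq, hr⟩ := good_ind hcat hsub hstar hext hext0 hhex hgr g hg hfin 0
  obtain ⟨pos, f, hG, hinn, hout, hT⟩ := hclose g b hg hb
  have hs0 : sg 0 = 1 := by simp [sg]
  have hi : (fun i => pos (CLOSE.inn i)) = fun i => P i (sg 0) 0 := by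
    rw [hs0]; exact funext hinn
  have h1 := stepCLOSE hcat hsub pos f _ hG (by rw [hi]; exact hq)
  have h2 := hgr (Fin 3 → ℝ) CLOSE pos f _ hG (by decide) (by decide) (by rw [hi]; exact hr)
  rw [← hT] at h1 h2
  refine ⟨⟨hconn g b hg, ?_⟩, ?_⟩
  · obtain ⟨m, f, h3, h4, h5, h6, -⟩ := h2
    exact ⟨m, f, h3, h4, h5, h6⟩
  · intro x hx
    have hc : (Finset.univ.image x).card ≤ 6 := by
      refine le_trans Finset.card_image_le ?_
      simp
    obtain ⟨A, hA, hAr⟩ := h1 (Finset.univ.image x) (by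
      intro y hy
      obtain ⟨i, -, rfl⟩ := Finset.mem_image.1 hy
      refine ⟨hx i, fun j hj => hout j ?_⟩
      have hj' : x i = pos (CLOSE.out j) := hj
      rw [← hj']
      exact hx i) hc
    have hA2 : A = 2 := by
      have : ∀ n, n ≤ 6 → ∀ A ∈ famI.getD n [], A = 2 := by decide
      exact this _ hc A hA
    subst hA2
    obtain ⟨B, hB, -, hBS⟩ := hAr 1 (by norm_num) (by decide)
    obtain ⟨a, b', harc, hsub', -⟩ := hB 0 (by decide)
    refine ⟨B 0, a, b', harc, hsub', fun i => ?_⟩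
    obtain ⟨r, hr', hy⟩ := hBS (x i) (by simp)
    have : r = 0 := by
      have : (strands 1).length = 1 := rfl
      omega
    rw [this] at hy
    exact hy

end Pool.Agent.H742.AC6
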