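import Pool.Agent.H742.AC6.Stm2

/-! `t_EXT0GLUE` and `t_HEXGLUE` (project AC6 of helper742), by helper196. -/

namespace Pool.Agent.H742.AC6

open Set Topology TopologicalSpace

namespace HexGlue

lemma P_self (i : Fin 3) (r t : ℝ) : P i r t i = r * (1 - t) := by
  unfold P; rw [if_pos rfl]

lemma P_succ (i : Fin 3) (r t : ℝ) : P i r t (i + 1) = r * (3 / 2) * t := by
  have h : i + 1 ≠ i := by fin_cases i <;> decide
  unfold P; rw [if_neg h, if_pos rfl]

lemma P_succ2 (i : Fin 3) (r t : ℝ) : P i r t (i + 2) = 0 := by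
  have h : i + 2 ≠ i := by fin_cases i <;> decide
  have h' : i + 2 ≠ i + 1 := by fin_cases i <;> decide
  unfold P; rw [if_neg h, if_neg h']

lemma fin3 (i j : Fin 3) : j = i ∨ j = i + 1 ∨ j = i + 2 := by
  fin_cases i <;> fin_cases j <;> decide

lemma P_rung (i j : Fin 3) (a b t : ℝ) (ha : 0 < a) (hb : 0 < b) (h : P i a t = P j b 0) :
    (i = j ∧ t = 0 ∧ a = b) ∨ (j = i + 1 ∧ t = 1 ∧ b = a * (3 / 2)) := by
  rcases fin3 i j with rfl | rfl | rfl
  · left
    have h1 := congrFun h (j + 1)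
    rw [P_succ, P_succ] at h1
    have h2 : t = 0 := by
      have : a * (3 / 2) * t = 0 := by rw [h1]; ring
      rcases mul_eq_zero.1 this with h3 | h3
      · exfalso; linarith
      · exact h3
    have h3 := congrFun h j
    rw [P_self, P_self, h2] at h3
    exact ⟨rfl, h2, by linarith⟩
  · right
    have h1 := congrFun h i
    have e : i = (i + 1) + 2 := by fin_cases i <;> decide
    rw [P_self] at h1
    have h0 : P (i + 1) b 0 i = 0 := by
      conv_lhs => arg 4; rw [e]
      exact P_succ2 _ _ _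
    rw [h0] at h1
    have h2 : t = 1 := by
      rcases mul_eq_zero.1 h1 with h3 | h3
      · exfalso; linarith
      · linarith
    have h3 := congrFun h (i + 1)
    rw [P_succ, P_self, h2] at h3
    exact ⟨rfl, h2, by linarith⟩
  · exfalso
    have h1 := congrFun h (i + 2)
    rw [P_succ2, P_self] at h1
    linarith

lemma P_axis (i j : Fin 3) (a b : ℝ) (ha : 0 < a) (hb : 0 < b) (h : P i a 0 = P j b 0) :
    i = j ∧ a = b := by
  rcases P_rung i j a b 0 ha hb h with h | h
  · exact ⟨h.1, h.2.2⟩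
  · exfalso; linarith [h.2.1]

lemma P_rr (i j : Fin 3) (a s t : ℝ) (ha : 0 < a) (hs0 : 0 ≤ s) (hs : s ≤ 1) (ht0 : 0 ≤ t)
    (ht : t ≤ 1) (h : P i a s = P j a t) : i = j ∧ s = t := by
  rcases fin3 i j with rfl | rfl | rfl
  · refine ⟨rfl, ?_⟩
    have h1 := congrFun h j
    rw [P_self, P_self] at h1
    have h2 := mul_left_cancel₀ ha.ne' h1
    linarith
  · exfalso
    have h1 := congrFun h i
    have e : i = (i + 1) + 2 := by fin_cases i <;> decide
    rw [P_self] at h1
    have h0 : P (i + 1) a t i = 0 := by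
      conv_lhs => arg 4; rw [e]
      exact P_succ2 _ _ _
    rw [h0] at h1
    have h2 : s = 1 := by
      rcases mul_eq_zero.1 h1 with h3 | h3
      · exfalso; linarith
      · linarith
    have h3 := congrFun h (i + 1)
    rw [P_succ, P_self, h2] at h3
    nlinarith
  · exfalso
    have h1 := congrFun h (i + 2)
    rw [P_succ2, P_self] at h1
    have h2 : t = 1 := by
      rcases mul_eq_zero.1 h1.symm with h3 | h3
      · exfalso; linarith
      · linarith
    have h3 := congrFun h i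
    have e : i = (i + 2) + 1 := by fin_cases i <;> decide
    rw [P_self] at h3
    have h0 : P (i + 2) a t i = a * (3 / 2) * t := by
      conv_lhs => arg 4; rw [e]
      exact P_succ _ _ _
    rw [h0, h2] at h3
    nlinarith

lemma size_P (i : Fin 3) (r t : ℝ) : size (P i r t) = r * (1 + t / 2) := by
  have h : size (P i r t) = P i r t i + P i r t (i + 1) + P i r t (i + 2) := by
    unfold size
    fin_cases i
    · rfl
    · show P 1 r t 0 + P 1 r t 1 + P 1 r t 2 = P 1 r t 1 + P 1 r t 2 + P 1 r t 0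
      ring
    · show P 2 r t 0 + P 2 r t 1 + P 2 r t 2 = P 2 r t 2 + P 2 r t 0 + P 2 r t 1
      ring
  rw [h, P_self, P_succ, P_succ2]
  ring

lemma sg_pos (n : ℕ) : 0 < sg n := by unfold sg; positivity

lemma sg_succ (n : ℕ) : sg (n + 1) = sg n / 2 := by unfold sg; rw [pow_succ]; ring

lemma sg_anti (n m : ℕ) (h : n ≤ m) : sg m ≤ sg n :=
  pow_le_pow_of_le_one (by norm_num) (by norm_num) h

lemma TT_size (hS : S_SIZE) (g : ℕ → ℝ) (n : ℕ) (hg : ∀ m, g m ∈ Icc (0 : ℝ) 1)
    (y : Fin 3 → ℝ) (hy : y ∈ TT g n) : size y ≤ sg n := by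
  unfold TT at hy
  rcases hy with hy | hy
  · rw [mem_singleton_iff] at hy
    rw [hy]
    have : size (0 : Fin 3 → ℝ) = 0 := by unfold size; simp
    rw [this]; exact (sg_pos n).le
  · simp only [mem_iUnion] at hy
    obtain ⟨i, m, hy⟩ := hy
    exact le_trans (hS i m (g m) (hg m).1 (hg m).2 y hy).2.1 (sg_anti n m m.2)

lemma P_cont (i : Fin 3) (r t : unitInterval → ℝ) (hr : Continuous r) (ht : Continuous t) :
    Continuous fun s => P i (r s) (t s) := by
  apply continuous_pi
  intro k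
  unfold P
  split_ifs
  · exact hr.mul (continuous_const.sub ht)
  · exact (hr.mul continuous_const).mul ht
  · exact continuous_const

lemma TT_succ (g : ℕ → ℝ) (n : ℕ) : TT g n = TT g (n + 1) ∪ ⋃ i : Fin 3, Layer i n (g n) := by
  ext y
  unfold TT
  simp only [mem_union, mem_singleton_iff, mem_iUnion, Subtype.exists]
  constructor
  · rintro (h | ⟨i, m, hm, h⟩)
    · exact Or.inl (Or.inl h)
    · rcases Nat.eq_or_lt_of_le hm with hm' | hm'
      · right
        refine ⟨i, ?_⟩
        rw [← hm'] at h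
        exact h
      · left; right
        exact ⟨i, m, hm', h⟩
  · rintro ((h | ⟨i, m, hm, h⟩) | ⟨i, h⟩)
    · exact Or.inl h
    · exact Or.inr ⟨i, m, by omega, h⟩
    · exact Or.inr ⟨i, n, le_rfl, h⟩

/-- the index mod 3 -/
def ix (k : ℕ) : Fin 3 := ⟨k % 3, Nat.mod_lt _ (by norm_num)⟩

lemma ix0 (i : Fin 3) : ix (i : ℕ) = i := by fin_cases i <;> rfl
lemma ix3 (i : Fin 3) : ix (3 + (i : ℕ)) = i := by fin_cases i <;> rfl
lemma ix6 (i : Fin 3) : ix (6 + (i : ℕ)) = i := by fin_cases i <;> rfl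

lemma lt3 (k : ℕ) (hk : k < 3) : ∃ i : Fin 3, k = i := ⟨⟨k, hk⟩, rfl⟩

lemma lt6 (k : ℕ) (hk : k < 6) : ∃ i : Fin 3, k = i ∨ k = 3 + i := by
  by_cases h : k < 3
  · exact ⟨⟨k, h⟩, Or.inl rfl⟩
  · exact ⟨⟨k - 3, by omega⟩, Or.inr (by show k = 3 + (k - 3); omega)⟩

lemma lt9 (k : ℕ) (hk : k < 9) : ∃ i : Fin 3, k = i ∨ k = 3 + i ∨ k = 6 + i := by
  by_cases h : k < 3
  · exact ⟨⟨k, h⟩, Or.inl rfl⟩
  by_cases h' : k < 6
  · exact ⟨⟨k - 3, by omega⟩, Or.inr (Or.inl (by show k = 3 + (k - 3); omega))⟩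
  · exact ⟨⟨k - 6, by omega⟩, Or.inr (Or.inr (by show k = 6 + (k - 6); omega))⟩

/-! ### EXT0 -/

/-- vertices -/
noncomputable def ePos (σ : ℝ) (v : ℕ) : Fin 3 → ℝ :=
  if v < 3 then P (ix v) (σ / 2) 0 else P (ix v) (σ * (5 / 8)) 0

/-- edges -/
noncomputable def eF (σ : ℝ) (k : ℕ) (s : unitInterval) : Fin 3 → ℝ :=
  P (ix k) (σ / 2 + s * (σ / 8)) 0

lemma ePos0 (σ : ℝ) (i : Fin 3) : ePos σ i = P i (σ / 2) 0 := by
  unfold ePos; rw [if_pos i.2, ix0]

lemma ePos3 (σ : ℝ) (i : Fin 3) : ePos σ (3 + i) = P i (σ * (5 / 8)) 0 := by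
  unfold ePos; rw [if_neg (by omega), ix3]

lemma eF0 (σ : ℝ) (i : Fin 3) (s : unitInterval) : eF σ i s = P i (σ / 2 + s * (σ / 8)) 0 := by
  unfold eF; rw [ix0]

/-! ### HEX -/

/-- vertices -/
noncomputable def hPos (σ : ℝ) (v : ℕ) : Fin 3 → ℝ :=
  if v < 3 then P (ix v) (σ * (5 / 8)) 0 else
    if v < 6 then P (ix v) (σ * (15 / 16)) 0 else P (ix v) σ 0

/-- edges -/
noncomputable def hF (σ : ℝ) (k : ℕ) (s : unitInterval) : Fin 3 → ℝ :=
  if k < 3 then P (ix k) (σ * (5 / 8) + s * (σ * (5 / 16))) 0 else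
    if k < 6 then P (ix k) (σ * (5 / 8)) s else P (ix k) (σ * (15 / 16) + s * (σ / 16)) 0

lemma hPos0 (σ : ℝ) (i : Fin 3) : hPos σ i = P i (σ * (5 / 8)) 0 := by
  unfold hPos; rw [if_pos i.2, ix0]

lemma hPos3 (σ : ℝ) (i : Fin 3) : hPos σ (3 + i) = P i (σ * (15 / 16)) 0 := by
  unfold hPos; rw [if_neg (by omega), if_pos (by omega), ix3]

lemma hPos6 (σ : ℝ) (i : Fin 3) : hPos σ (6 + i) = P i σ 0 := by
  unfold hPos; rw [if_neg (by omega), if_neg (by omega), ix6]

lemma hF0 (σ : ℝ) (i : Fin 3) (s : unitInterval) :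
    hF σ i s = P i (σ * (5 / 8) + s * (σ * (5 / 16))) 0 := by
  unfold hF; rw [if_pos i.2, ix0]

lemma hF3 (σ : ℝ) (i : Fin 3) (s : unitInterval) : hF σ (3 + i) s = P i (σ * (5 / 8)) s := by
  unfold hF; rw [if_neg (by omega), if_pos (by omega), ix3]

lemma hF6 (σ : ℝ) (i : Fin 3) (s : unitInterval) :
    hF σ (6 + i) s = P i (σ * (15 / 16) + s * (σ / 16)) 0 := by
  unfold hF; rw [if_neg (by omega), if_neg (by omega), ix6]

lemma src0 (i : Fin 3) : HEX.src i = i := by fin_cases i <;> rfl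
lemma src3 (i : Fin 3) : HEX.src (3 + i) = i := by fin_cases i <;> rfl
lemma src6 (i : Fin 3) : HEX.src (6 + i) = 3 + i := by fin_cases i <;> rfl
lemma tgt0 (i : Fin 3) : HEX.tgt i = 3 + i := by fin_cases i <;> rfl
lemma tgt3 (i : Fin 3) : HEX.tgt (3 + i) = 3 + ((i + 1 : Fin 3) : ℕ) := by
  fin_cases i <;> rfl
lemma tgt6 (i : Fin 3) : HEX.tgt (6 + i) = 6 + i := by fin_cases i <;> rfl

lemma P_one (i : Fin 3) (r : ℝ) : P i r 1 = P (i + 1) (r * (3 / 2)) 0 := by
  funext k
  rcases fin3 i k with rfl | rfl | rfl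
  · rw [P_self]
    have e : k = (k + 1) + 2 := by fin_cases k <;> decide
    have h0 : P (k + 1) (r * (3 / 2)) 0 k = 0 := by
      conv_lhs => arg 4; rw [e]
      exact P_succ2 _ _ _
    rw [h0]; ring
  · rw [P_succ, P_self]; ring
  · rw [P_succ2]
    have e : i + 2 = (i + 1) + 1 := by fin_cases i <;> decide
    rw [e, P_succ]; ring

/-- the interior edge `A` meets the rung `B` in a common vertex -/
lemma AB (σ : ℝ) (hσ : 0 < σ) (i j : Fin 3) (s t : unitInterval)
    (h : hF σ i s = hF σ (3 + j) t) :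
    ∃ v, hF σ i s = hPos σ v ∧ (v = HEX.src i ∨ v = HEX.tgt i) ∧
      (v = HEX.src (3 + j) ∨ v = HEX.tgt (3 + j)) := by
  have h0 : 0 ≤ (s : ℝ) * (σ * (5 / 16)) := mul_nonneg s.2.1 (by positivity)
  rw [hF0, hF3] at h
  rcases P_rung j i _ _ _ (by positivity) (by positivity) h.symm with ⟨h1, h2, h3⟩ | ⟨h1, h2, h3⟩
  · refine ⟨i, ?_, Or.inl (src0 i).symm, Or.inl ?_⟩
    · rw [hF0, hPos0, ← h3]
    · rw [src3, h1]
  · refine ⟨3 + i, ?_, Or.inr (tgt0 i).symm, Or.inr ?_⟩
    · rw [hF0, hPos3, h3]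
      congr 1
      ring
    · rw [tgt3, h1]

/-- the interior edge `A` meets the outer edge `C` in a common vertex -/
lemma AC' (σ : ℝ) (hσ : 0 < σ) (i j : Fin 3) (s t : unitInterval)
    (h : hF σ i s = hF σ (6 + j) t) :
    ∃ v, hF σ i s = hPos σ v ∧ (v = HEX.src i ∨ v = HEX.tgt i) ∧
      (v = HEX.src (6 + j) ∨ v = HEX.tgt (6 + j)) := by
  have h0 : 0 ≤ (s : ℝ) * (σ * (5 / 16)) := mul_nonneg s.2.1 (by positivity)
  have h0' : (s : ℝ) * (σ * (5 / 16)) ≤ σ * (5 / 16) :=
    mul_le_of_le_one_left (by positivity) s.2.2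
  have h1 : 0 ≤ (t : ℝ) * (σ / 16) := mul_nonneg t.2.1 (by positivity)
  rw [hF0, hF6] at h
  obtain ⟨h2, h3⟩ := P_axis i j _ _ (by positivity) (by positivity) h
  refine ⟨3 + i, ?_, Or.inr (tgt0 i).symm, Or.inl ?_⟩
  · rw [hF0, hPos3]
    congr 1
    linarith
  · rw [src6, h2]

/-- the rung `B` meets the outer edge `C` in a common vertex -/
lemma BC' (σ : ℝ) (hσ : 0 < σ) (i j : Fin 3) (s t : unitInterval)
    (h : hF σ (3 + i) s = hF σ (6 + j) t) :
    ∃ v, hF σ (3 + i) s = hPos σ v ∧ (v = HEX.src (3 + i) ∨ v = HEX.tgt (3 + i)) ∧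
      (v = HEX.src (6 + j) ∨ v = HEX.tgt (6 + j)) := by
  have h1 : 0 ≤ (t : ℝ) * (σ / 16) := mul_nonneg t.2.1 (by positivity)
  rw [hF3, hF6] at h
  rcases P_rung i j _ _ _ (by positivity) (by positivity) h with ⟨h1, h2, h3⟩ | ⟨h1, h2, h3⟩
  · exfalso; linarith
  · refine ⟨3 + j, ?_, Or.inr ?_, Or.inl ?_⟩
    · rw [hF3, hPos3, h, h3]
      congr 1
      ring
    · rw [tgt3, h1]
    · rw [src6]

lemma hF_A_C_union (σ : ℝ) (hσ : 0 < σ) (i : Fin 3) :
    Ax i (σ * (5 / 8)) σ = range (hF σ i) ∪ range (hF σ (6 + i)) := by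
  ext y
  constructor
  · rintro ⟨r, ⟨h1, h2⟩, rfl⟩
    rcases le_total r (σ * (15 / 16)) with h | h
    · left
      refine ⟨⟨(r - σ * (5 / 8)) / (σ * (5 / 16)), ?_, ?_⟩, ?_⟩
      · apply div_nonneg
        · linarith
        · positivity
      · rw [div_le_one (by positivity)]; linarith
      · rw [hF0]
        show P i (σ * (5 / 8) + (r - σ * (5 / 8)) / (σ * (5 / 16)) * (σ * (5 / 16))) 0 = P i r 0
        rw [div_mul_cancel₀ _ (by positivity)]
        congr 1
        ring
    · right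
      refine ⟨⟨(r - σ * (15 / 16)) / (σ / 16), ?_, ?_⟩, ?_⟩
      · apply div_nonneg
        · linarith
        · positivity
      · rw [div_le_one (by positivity)]; linarith
      · rw [hF6]
        show P i (σ * (15 / 16) + (r - σ * (15 / 16)) / (σ / 16) * (σ / 16)) 0 = P i r 0
        rw [div_mul_cancel₀ _ (by positivity)]
        congr 1
        ring
  · rintro (⟨s, rfl⟩ | ⟨s, rfl⟩)
    · have h0 : 0 ≤ (s : ℝ) * (σ * (5 / 16)) := mul_nonneg s.2.1 (by positivity)
      have h0' : (s : ℝ) * (σ * (5 / 16)) ≤ σ * (5 / 16) :=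
        mul_le_of_le_one_left (by positivity) s.2.2
      exact ⟨_, ⟨by linarith, by linarith⟩, (hF0 σ i s).symm⟩
    · have h0 : 0 ≤ (s : ℝ) * (σ / 16) := mul_nonneg s.2.1 (by positivity)
      have h0' : (s : ℝ) * (σ / 16) ≤ σ / 16 := mul_le_of_le_one_left (by positivity) s.2.2
      exact ⟨_, ⟨by linarith, by linarith⟩, (hF6 σ i s).symm⟩

lemma Tent_eq (n : ℕ) (i : Fin 3) : Tent i n 0 = range (hF (sg n) (3 + i)) := by
  ext y
  constructor
  · rintro ⟨t, ⟨h1, h2⟩, rfl⟩
    have h3 : |t| ≤ 1 := abs_le.2 ⟨h1, h2⟩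
    refine ⟨⟨1 - |t|, by linarith, by linarith [abs_nonneg t]⟩, ?_⟩
    rw [hF3]
    show P i (sg n * (5 / 8)) (1 - |t|) = P i (sg n * (5 / 8 + 0 * t / 16)) ((1 - 0) * (1 - |t|))
    congr 1
    · ring
    · ring
  · rintro ⟨s, rfl⟩
    have h1 := s.2.1
    have h2 := s.2.2
    refine ⟨1 - s, ⟨by linarith, by linarith⟩, ?_⟩
    rw [hF3]
    show P i (sg n * (5 / 8 + 0 * (1 - (s : ℝ)) / 16)) ((1 - 0) * (1 - |1 - (s : ℝ)|)) = _
    rw [abs_of_nonneg (by linarith)]
    congr 1
    · ring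
    · ring

lemma Layer_eq (n : ℕ) (i : Fin 3) : Layer i n 0 = Ax i (sg n / 2) (sg n * (5 / 8)) ∪
    (range (hF (sg n) i) ∪ range (hF (sg n) (3 + i)) ∪ range (hF (sg n) (6 + i))) := by
  have h := hF_A_C_union (sg n) (sg_pos n) i
  unfold Layer
  rw [Tent_eq]
  have e1 : sg n * (5 / 8 - 0 / 16) = sg n * (5 / 8) := by ring
  have e2 : sg n * (5 / 8 + 0 / 16) = sg n * (5 / 8) := by ring
  rw [e1, e2, h]
  ext y
  simp only [mem_union]
  tauto

end HexGlue

open HexGlue

theorem t_EXT0GLUE : S_SIZE → S_EXT0GLUE := by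
  intro hS g n hg
  have hσ := sg_pos n
  have hss := sg_succ n
  set σ : ℝ := sg n with hσdef
  have hpar : ∀ s : unitInterval, 0 ≤ (s : ℝ) * (σ / 8) ∧ (s : ℝ) * (σ / 8) ≤ σ / 8 := by
    intro s
    have h0 := s.2.1
    have h1 := s.2.2
    exact ⟨by positivity, by nlinarith⟩
  have hTs : ∀ y ∈ TT g (n + 1), size y ≤ σ / 2 := by
    intro y hy
    rw [← hss]; exact TT_size hS g (n + 1) hg y hy
  refine ⟨ePos σ, eF σ, ?_, ?_, ?_, ?_⟩
  · constructor
    · intro v hv w hw h
      change v < 6 at hv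
      change w < 6 at hw
      obtain ⟨i, rfl | rfl⟩ := lt6 v hv <;> obtain ⟨j, rfl | rfl⟩ := lt6 w hw
      · rw [ePos0, ePos0] at h
        rw [(P_axis i j _ _ (by positivity) (by positivity) h).1]
      · rw [ePos0, ePos3] at h
        have := (P_axis i j _ _ (by positivity) (by positivity) h).2
        exfalso; linarith
      · rw [ePos0, ePos3] at h
        have := (P_axis i j _ _ (by positivity) (by positivity) h).2
        exfalso; linarith
      · rw [ePos3, ePos3] at h
        rw [(P_axis i j _ _ (by positivity) (by positivity) h).1]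
    · intro k _
      exact P_cont _ _ _ (by fun_prop) continuous_const
    · intro k _ s t h
      have h1 := (P_axis _ _ _ _ (by linarith [(hpar s).1]) (by linarith [(hpar t).1]) h).2
      have h2 : (s : ℝ) * (σ / 8) = t * (σ / 8) := by linarith
      have h3 := mul_right_cancel₀ (by positivity : (σ / 8) ≠ 0) h2
      exact Subtype.ext h3
    · intro k hk
      change k < 3 at hk
      obtain ⟨i, rfl⟩ := lt3 k hk
      show eF σ i 0 = ePos σ i
      rw [eF0, ePos0]
      congr 1
      simp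
    · intro k hk
      change k < 3 at hk
      obtain ⟨i, rfl⟩ := lt3 k hk
      show eF σ i 1 = ePos σ (3 + i)
      rw [eF0, ePos3]
      congr 1
      show σ / 2 + (1 : ℝ) * (σ / 8) = σ * (5 / 8)
      ring
    · intro k hk l hl hkl s t h
      change k < 3 at hk
      change l < 3 at hl
      exfalso
      obtain ⟨i, rfl⟩ := lt3 k hk
      obtain ⟨j, rfl⟩ := lt3 l hl
      rw [eF0, eF0] at h
      have h1 := (P_axis _ _ _ _ (by linarith [(hpar s).1]) (by linarith [(hpar t).1]) h).1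
      exact hkl (by rw [h1])
    · intro k hk s h
      change k < 3 at hk
      obtain ⟨i, rfl⟩ := lt3 k hk
      have h1 := hTs _ h
      rw [eF0, size_P] at h1
      have h2 : (s : ℝ) * (σ / 8) = 0 := by linarith [(hpar s).1]
      refine ⟨i, ?_, Or.inl rfl⟩
      show eF σ i s = ePos σ i
      rw [eF0, ePos0, h2]
      congr 1
      ring
    · intro v hv k hk s h
      change v < 6 at hv
      change k < 3 at hk
      obtain ⟨i, rfl⟩ := lt3 k hk
      obtain ⟨j, rfl | rfl⟩ := lt6 v hv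
      · rw [eF0, ePos0] at h
        have h1 := (P_axis _ _ _ _ (by linarith [(hpar s).1]) (by positivity) h).1
        left
        show (j : ℕ) = i
        rw [h1]
      · rw [eF0, ePos3] at h
        have h1 := (P_axis _ _ _ _ (by linarith [(hpar s).1]) (by positivity) h).1
        right
        show 3 + (j : ℕ) = 3 + i
        rw [h1]
    · intro v hv h
      change v < 6 at hv
      obtain ⟨j, rfl | rfl⟩ := lt6 v hv
      · exact ⟨j, rfl⟩
      · exfalso
        have h1 := hTs _ h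
        rw [ePos3, size_P] at h1
        linarith
  · intro i
    show ePos σ i = _
    rw [ePos0, hss]
  · intro i
    show ePos σ (3 + i) = _
    rw [ePos3]
  · ext y
    unfold edges
    simp only [mem_iUnion]
    constructor
    · rintro ⟨k, hk, s, rfl⟩
      change k < 3 at hk
      obtain ⟨i, rfl⟩ := lt3 k hk
      refine ⟨i, σ / 2 + s * (σ / 8), ⟨by linarith [(hpar s).1], by linarith [(hpar s).2]⟩, ?_⟩
      rw [eF0]
    · rintro ⟨i, r, ⟨hr1, hr2⟩, rfl⟩
      refine ⟨i, i.2, ⟨(r - σ / 2) / (σ / 8), ?_, ?_⟩, ?_⟩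
      · apply div_nonneg <;> linarith
      · rw [div_le_one (by positivity)]; linarith
      · rw [eF0]
        show P i (σ / 2 + (r - σ / 2) / (σ / 8) * (σ / 8)) 0 = P i r 0
        rw [div_mul_cancel₀ _ (by positivity)]
        congr 1
        ring

theorem t_HEXGLUE : S_SIZE → S_HEXGLUE := by
  intro hS g n hg hg0
  have hσ := sg_pos n
  have hss := sg_succ n
  have hTs : ∀ y ∈ TT g (n + 1), size y ≤ sg n / 2 := by
    intro y hy
    rw [← hss]; exact TT_size hS g (n + 1) hg y hy
  have hTT : TT g n = (TT g (n + 1) ∪ ⋃ i, Ax i (sg n / 2) (sg n * (5 / 8))) ∪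
      edges HEX (hF (sg n)) := by
    rw [TT_succ, hg0]
    have e1 : (⋃ i : Fin 3, Layer i n 0) = (⋃ i, Ax i (sg n / 2) (sg n * (5 / 8))) ∪
        edges HEX (hF (sg n)) := by
      ext y
      simp only [mem_iUnion, mem_union, Layer_eq]
      constructor
      · rintro ⟨i, h | ((h | h) | h)⟩
        · exact Or.inl ⟨i, h⟩
        · right
          refine ⟨i, ?_, h⟩
          show (i : ℕ) < 9
          omega
        · right
          refine ⟨3 + i, ?_, h⟩
          show 3 + (i : ℕ) < 9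
          omega
        · right
          refine ⟨6 + i, ?_, h⟩
          show 6 + (i : ℕ) < 9
          omega
      · rintro (⟨i, h⟩ | ⟨k, hk, h⟩)
        · exact ⟨i, Or.inl h⟩
        · obtain ⟨i, rfl | rfl | rfl⟩ := lt9 k hk
          · exact ⟨i, Or.inr (Or.inl (Or.inl h))⟩
          · exact ⟨i, Or.inr (Or.inl (Or.inr h))⟩
          · exact ⟨i, Or.inr (Or.inr h)⟩
    rw [e1, union_assoc]
  -- points of the inner part
  have hT : ∀ (i : Fin 3) (r t : ℝ), sg n * (5 / 8) ≤ r → 0 ≤ t →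
      P i r t ∈ (TT g (n + 1) ∪ ⋃ i, Ax i (sg n / 2) (sg n * (5 / 8))) →
      ∃ j : Fin 3, ∃ r', 0 < r' ∧ r' ≤ sg n * (5 / 8) ∧ P i r t = P j r' 0 := by
    intro i r t hr ht h
    rcases h with h | h
    · exfalso
      have h1 := hTs _ h
      rw [size_P] at h1
      nlinarith
    · simp only [mem_iUnion] at h
      obtain ⟨j, r', ⟨h1, h2⟩, h3⟩ := h
      exact ⟨j, r', by linarith, h2, h3.symm⟩
  set σ : ℝ := sg n with hσdef
  have hpA : ∀ s : unitInterval, 0 ≤ (s : ℝ) * (σ * (5 / 16)) ∧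
      (s : ℝ) * (σ * (5 / 16)) ≤ σ * (5 / 16) := fun s =>
    ⟨mul_nonneg s.2.1 (by positivity), mul_le_of_le_one_left (by positivity) s.2.2⟩
  have hpC : ∀ s : unitInterval, 0 ≤ (s : ℝ) * (σ / 16) ∧ (s : ℝ) * (σ / 16) ≤ σ / 16 := fun s =>
    ⟨mul_nonneg s.2.1 (by positivity), mul_le_of_le_one_left (by positivity) s.2.2⟩
  refine ⟨hPos σ, hF σ, ?_, ?_, ?_, hTT⟩
  · constructor
    · intro v hv w hw h
      obtain ⟨i, rfl | rfl | rfl⟩ := lt9 v hv <;> obtain ⟨j, rfl | rfl | rfl⟩ := lt9 w hw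
      · rw [hPos0, hPos0] at h
        rw [(P_axis i j _ _ (by positivity) (by positivity) h).1]
      · rw [hPos0, hPos3] at h
        have := (P_axis i j _ _ (by positivity) (by positivity) h).2
        exfalso; linarith
      · rw [hPos0, hPos6] at h
        have := (P_axis i j _ _ (by positivity) (by positivity) h).2
        exfalso; linarith
      · rw [hPos0, hPos3] at h
        have := (P_axis i j _ _ (by positivity) (by positivity) h).2
        exfalso; linarith
      · rw [hPos3, hPos3] at h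
        rw [(P_axis i j _ _ (by positivity) (by positivity) h).1]
      · rw [hPos3, hPos6] at h
        have := (P_axis i j _ _ (by positivity) (by positivity) h).2
        exfalso; linarith
      · rw [hPos0, hPos6] at h
        have := (P_axis i j _ _ (by positivity) (by positivity) h).2
        exfalso; linarith
      · rw [hPos3, hPos6] at h
        have := (P_axis i j _ _ (by positivity) (by positivity) h).2
        exfalso; linarith
      · rw [hPos6, hPos6] at h
        rw [(P_axis i j _ _ (by positivity) (by positivity) h).1]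
    · intro k hk
      obtain ⟨i, rfl | rfl | rfl⟩ := lt9 k hk
      · have e : hF σ i = fun s : unitInterval => P i (σ * (5 / 8) + s * (σ * (5 / 16))) 0 :=
          funext fun s => hF0 σ i s
        rw [e]
        exact P_cont _ _ _ (by fun_prop) continuous_const
      · have e : hF σ (3 + i) = fun s : unitInterval => P i (σ * (5 / 8)) s :=
          funext fun s => hF3 σ i s
        rw [e]
        exact P_cont _ _ _ continuous_const (by fun_prop)
      · have e : hF σ (6 + i) = fun s : unitInterval => P i (σ * (15 / 16) + s * (σ / 16)) 0 :=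
          funext fun s => hF6 σ i s
        rw [e]
        exact P_cont _ _ _ (by fun_prop) continuous_const
    · intro k hk s t h
      obtain ⟨i, rfl | rfl | rfl⟩ := lt9 k hk
      · rw [hF0, hF0] at h
        have h1 := (P_axis _ _ _ _ (by linarith [(hpA s).1]) (by linarith [(hpA t).1]) h).2
        have h2 : (s : ℝ) * (σ * (5 / 16)) = t * (σ * (5 / 16)) := by linarith
        exact Subtype.ext (mul_right_cancel₀ (by positivity : (σ * (5 / 16)) ≠ 0) h2)
      · rw [hF3, hF3] at h
        exact Subtype.ext (P_rr _ _ _ _ _ (by positivity) s.2.1 s.2.2 t.2.1 t.2.2 h).2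
      · rw [hF6, hF6] at h
        have h1 := (P_axis _ _ _ _ (by linarith [(hpC s).1]) (by linarith [(hpC t).1]) h).2
        have h2 : (s : ℝ) * (σ / 16) = t * (σ / 16) := by linarith
        exact Subtype.ext (mul_right_cancel₀ (by positivity : (σ / 16) ≠ 0) h2)
    · intro k hk
      obtain ⟨i, rfl | rfl | rfl⟩ := lt9 k hk
      · rw [src0, hF0, hPos0]
        congr 1
        show σ * (5 / 8) + (0 : ℝ) * (σ * (5 / 16)) = σ * (5 / 8)
        ring
      · rw [src3, hF3, hPos0]
        rfl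
      · rw [src6, hF6, hPos3]
        congr 1
        show σ * (15 / 16) + (0 : ℝ) * (σ / 16) = σ * (15 / 16)
        ring
    · intro k hk
      obtain ⟨i, rfl | rfl | rfl⟩ := lt9 k hk
      · rw [tgt0, hF0, hPos3]
        congr 1
        show σ * (5 / 8) + (1 : ℝ) * (σ * (5 / 16)) = σ * (15 / 16)
        ring
      · rw [tgt3, hF3, hPos3]
        show P i (σ * (5 / 8)) (1 : ℝ) = _
        rw [P_one]
        congr 1
        ring
      · rw [tgt6, hF6, hPos6]
        congr 1
        show σ * (15 / 16) + (1 : ℝ) * (σ / 16) = σ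
        ring
    · intro k hk l hl hkl s t h
      obtain ⟨i, rfl | rfl | rfl⟩ := lt9 k hk <;> obtain ⟨j, rfl | rfl | rfl⟩ := lt9 l hl
      · exfalso
        rw [hF0, hF0] at h
        have h1 := (P_axis _ _ _ _ (by linarith [(hpA s).1]) (by linarith [(hpA t).1]) h).1
        exact hkl (by rw [h1])
      · exact AB σ hσ i j s t h
      · exact AC' σ hσ i j s t h
      · obtain ⟨v, h1, h2, h3⟩ := AB σ hσ j i t s h.symm
        exact ⟨v, by rw [h, h1], h3, h2⟩
      · exfalso
        rw [hF3, hF3] at h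
        have h1 := (P_rr _ _ _ _ _ (by positivity) s.2.1 s.2.2 t.2.1 t.2.2 h).1
        exact hkl (by rw [h1])
      · exact BC' σ hσ i j s t h
      · obtain ⟨v, h1, h2, h3⟩ := AC' σ hσ j i t s h.symm
        exact ⟨v, by rw [h, h1], h3, h2⟩
      · obtain ⟨v, h1, h2, h3⟩ := BC' σ hσ j i t s h.symm
        exact ⟨v, by rw [h, h1], h3, h2⟩
      · exfalso
        rw [hF6, hF6] at h
        have h1 := (P_axis _ _ _ _ (by linarith [(hpC s).1]) (by linarith [(hpC t).1]) h).1
        exact hkl (by rw [h1])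
    · intro k hk s h
      obtain ⟨i, rfl | rfl | rfl⟩ := lt9 k hk
      · rw [hF0] at h
        obtain ⟨j, r', h1, h2, h3⟩ := hT i _ _ (by linarith [(hpA s).1]) le_rfl h
        obtain ⟨h4, h5⟩ := P_axis i j _ _ (by linarith [(hpA s).1]) h1 h3
        refine ⟨i, ?_, Or.inl ?_⟩
        · show hF σ i s = hPos σ i
          rw [hF0, hPos0]
          congr 1
          linarith [(hpA s).1]
        · rw [src0]; rfl
      · rw [hF3] at h
        obtain ⟨j, r', h1, h2, h3⟩ := hT i _ _ le_rfl s.2.1 h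
        rcases P_rung i j _ _ _ (by positivity) h1 h3 with ⟨h4, h5, h6⟩ | ⟨h4, h5, h6⟩
        · refine ⟨i, ?_, Or.inl ?_⟩
          · show hF σ (3 + i) s = hPos σ i
            rw [hF3, hPos0, h5]
          · rw [src3]; rfl
        · exfalso; linarith
      · exfalso
        rw [hF6] at h
        obtain ⟨j, r', h1, h2, h3⟩ := hT i _ _ (by linarith [(hpC s).1]) le_rfl h
        obtain ⟨h4, h5⟩ := P_axis i j _ _ (by linarith [(hpC s).1]) h1 h3
        linarith [(hpC s).1]
    · intro v hv k hk s h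
      obtain ⟨i, rfl | rfl | rfl⟩ := lt9 k hk <;> obtain ⟨j, rfl | rfl | rfl⟩ := lt9 v hv
      · rw [hF0, hPos0] at h
        have h1 := (P_axis _ _ _ _ (by linarith [(hpA s).1]) (by positivity) h).1
        left; rw [src0, h1]
      · rw [hF0, hPos3] at h
        have h1 := (P_axis _ _ _ _ (by linarith [(hpA s).1]) (by positivity) h).1
        right; rw [tgt0, h1]
      · rw [hF0, hPos6] at h
        have h1 := (P_axis _ _ _ _ (by linarith [(hpA s).1]) (by positivity) h).2
        exfalso; linarith [(hpA s).2]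
      · rw [hF3, hPos0] at h
        rcases P_rung i j _ _ _ (by positivity) (by positivity) h with ⟨h4, h5, h6⟩ | ⟨h4, h5, h6⟩
        · left; rw [src3, h4]
        · exfalso; linarith
      · rw [hF3, hPos3] at h
        rcases P_rung i j _ _ _ (by positivity) (by positivity) h with ⟨h4, h5, h6⟩ | ⟨h4, h5, h6⟩
        · exfalso; linarith
        · right; rw [tgt3, h4]
      · rw [hF3, hPos6] at h
        rcases P_rung i j _ _ _ (by positivity) (by positivity) h with ⟨h4, h5, h6⟩ | ⟨h4, h5, h6⟩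
        · exfalso; linarith
        · exfalso; linarith
      · rw [hF6, hPos0] at h
        have h1 := (P_axis _ _ _ _ (by linarith [(hpC s).1]) (by positivity) h).2
        exfalso; linarith [(hpC s).1]
      · rw [hF6, hPos3] at h
        have h1 := (P_axis _ _ _ _ (by linarith [(hpC s).1]) (by positivity) h).1
        left; rw [src6, h1]
      · rw [hF6, hPos6] at h
        have h1 := (P_axis _ _ _ _ (by linarith [(hpC s).1]) (by positivity) h).1
        right; rw [tgt6, h1]
    · intro v hv h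
      obtain ⟨i, rfl | rfl | rfl⟩ := lt9 v hv
      · exact ⟨i, rfl⟩
      · exfalso
        rw [hPos3] at h
        obtain ⟨j, r', h1, h2, h3⟩ := hT i _ _ (by linarith) le_rfl h
        have := (P_axis i j _ _ (by positivity) h1 h3).2
        linarith
      · exfalso
        rw [hPos6] at h
        obtain ⟨j, r', h1, h2, h3⟩ := hT i _ _ (by linarith) le_rfl h
        have := (P_axis i j _ _ (by positivity) h1 h3).2
        linarith
  · intro i
    exact hPos0 σ i
  · intro i
    exact hPos6 σ i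

end Pool.Agent.H742.AC6
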