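import Pool.Agent.H742.AC6.Stm2

/-!
# NOT7: a full layer prevents 7-arc-connectedness
-/

namespace Pool.Agent.H742.AC6
namespace NOT7

noncomputable section

open Set Topology TopologicalSpace

/-! ## Straight pieces -/

/-- affine pieces, parametrized by the coordinate `k` -/
def L (k : Fin 3) (α β : Fin 3 → ℝ) (a b : ℝ) : Set (Fin 3 → ℝ) :=
  {y | (∀ j, y j = α j + β j * y k) ∧ a ≤ y k ∧ y k ≤ b}

theorem arc_L (k : Fin 3) (α β : Fin 3 → ℝ) (a b : ℝ) (hα : α k = 0) (hβ : β k = 1)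
    (hab : a < b) :
    IsArc (L k α β a b) (fun j => α j + β j * a) (fun j => α j + β j * b) := by
  have hba : 0 < b - a := sub_pos.2 hab
  refine ⟨fun t j => α j + β j * (a + (t : ℝ) * (b - a)), ?_, ?_, ?_, ?_, ?_⟩
  · fun_prop
  · intro t t' h
    have h1 := congrFun h k
    simp only [hα, hβ, zero_add, one_mul, add_right_inj] at h1
    exact Subtype.ext (mul_right_cancel₀ hba.ne' h1)
  · simp
  · simp
  · ext y
    constructor
    · rintro ⟨t, rfl⟩
      have h0 := t.2.1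
      have h1 := t.2.2
      refine ⟨fun j => ?_, ?_, ?_⟩
      · simp only [hα, hβ, zero_add, one_mul]
      · simp only [hα, hβ, zero_add, one_mul]
        nlinarith [mul_nonneg h0 hba.le]
      · simp only [hα, hβ, zero_add, one_mul]
        nlinarith [mul_nonneg (sub_nonneg.2 h1) hba.le]
    · rintro ⟨h1, h2, h3⟩
      refine ⟨⟨(y k - a) / (b - a), div_nonneg (sub_nonneg.2 h2) hba.le,
        (div_le_one hba).2 (by linarith)⟩, ?_⟩
      funext j
      simp only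
      rw [div_mul_cancel₀ _ hba.ne', h1 j]
      ring

theorem arc_symm {Y : Type*} [TopologicalSpace Y] {S : Set Y} {a b : Y} (h : IsArc S a b) :
    IsArc S b a := by
  obtain ⟨f, hc, hi, h0, h1, hr⟩ := h
  refine ⟨f ∘ unitInterval.symm, hc.comp unitInterval.continuous_symm,
    hi.comp unitInterval.symm_bijective.injective, ?_, ?_, ?_⟩
  · simp [h1]
  · simp [h0]
  · rw [← hr]
    exact unitInterval.symm_bijective.surjective.range_comp f

/-- segments of the axis 0 -/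
def ax0 (a b : ℝ) : Set (Fin 3 → ℝ) := {y | y 1 = 0 ∧ y 2 = 0 ∧ a ≤ y 0 ∧ y 0 ≤ b}
/-- segments of the axis 1 -/
def ax1 (a b : ℝ) : Set (Fin 3 → ℝ) := {y | y 0 = 0 ∧ y 2 = 0 ∧ a ≤ y 1 ∧ y 1 ≤ b}
/-- segments of the rung 0 -/
def rg0 (s a b : ℝ) : Set (Fin 3 → ℝ) :=
  {y | y 2 = 0 ∧ y 0 = 5 / 8 * s - 2 / 3 * y 1 ∧ a ≤ y 1 ∧ y 1 ≤ b}
/-- segments of the rung 2 -/
def rg2 (s a b : ℝ) : Set (Fin 3 → ℝ) :=
  {y | y 1 = 0 ∧ y 2 = 5 / 8 * s - 2 / 3 * y 0 ∧ a ≤ y 0 ∧ y 0 ≤ b}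

theorem arc_ax0 {a b : ℝ} (h : a < b) : IsArc (ax0 a b) ![a, 0, 0] ![b, 0, 0] := by
  have := arc_L 0 0 ![1, 0, 0] a b rfl rfl h
  convert this using 1
  · ext y
    simp [ax0, L, Fin.forall_fin_succ]
    tauto
  · ext j; fin_cases j <;> simp
  · ext j; fin_cases j <;> simp

theorem arc_ax1 {a b : ℝ} (h : a < b) : IsArc (ax1 a b) ![0, a, 0] ![0, b, 0] := by
  have := arc_L 1 0 ![0, 1, 0] a b rfl rfl h
  convert this using 1
  · ext y
    simp [ax1, L, Fin.forall_fin_succ]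
    tauto
  · ext j; fin_cases j <;> simp
  · ext j; fin_cases j <;> simp

theorem arc_rg0 (s : ℝ) {a b : ℝ} (h : a < b) :
    IsArc (rg0 s a b) ![5 / 8 * s - 2 / 3 * a, a, 0] ![5 / 8 * s - 2 / 3 * b, b, 0] := by
  have := arc_L 1 ![5 / 8 * s, 0, 0] ![-(2 / 3), 1, 0] a b rfl rfl h
  convert this using 1
  · ext y
    simp [rg0, L, Fin.forall_fin_succ, sub_eq_add_neg]
    tauto
  · ext j; fin_cases j <;> simp [sub_eq_add_neg]
  · ext j; fin_cases j <;> simp [sub_eq_add_neg]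

theorem arc_rg2 (s : ℝ) {a b : ℝ} (h : a < b) :
    IsArc (rg2 s a b) ![a, 0, 5 / 8 * s - 2 / 3 * a] ![b, 0, 5 / 8 * s - 2 / 3 * b] := by
  have := arc_L 0 ![0, 0, 5 / 8 * s] ![1, 0, -(2 / 3)] a b rfl rfl h
  convert this using 1
  · ext y
    simp [rg2, L, Fin.forall_fin_succ, sub_eq_add_neg]
    tauto
  · ext j; fin_cases j <;> simp [sub_eq_add_neg]
  · ext j; fin_cases j <;> simp [sub_eq_add_neg]

/-! ## The continuum in the annulus of a full layer -/

theorem sg_pos (n : ℕ) : 0 < sg n := by unfold sg; positivity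

theorem sg_le_one (n : ℕ) : sg n ≤ 1 := by
  unfold sg
  exact pow_le_one₀ (by norm_num) (by norm_num)

theorem sg_lt {m n : ℕ} (h : m < n) : 2 * sg n ≤ sg m := by
  have h1 : sg n ≤ sg (m + 1) := by
    unfold sg
    exact pow_le_pow_of_le_one (by norm_num) (by norm_num) h
  have h2 : sg (m + 1) = sg m / 2 := by unfold sg; rw [pow_succ]; ring
  linarith

theorem size_W (u v : ℝ) : size (W u v) = 1 + u + v := by
  simp [size, W]; ring

theorem half_pow_pos (M : ℕ) : (0 : ℝ) < (1 / 2) ^ M := by positivity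
theorem half_pow_le (M : ℕ) : (1 / 2 : ℝ) ^ M ≤ 1 := pow_le_one₀ (by norm_num) (by norm_num)

theorem size_GG (b : ℕ → ℕ → Bool) : ∀ y ∈ GG b, 1 ≤ size y := by
  intro y hy
  rcases hy with hy | hy
  · rw [mem_singleton_iff] at hy
    rw [hy, size_W]; norm_num
  · obtain ⟨M, hM⟩ := mem_iUnion.1 hy
    have p0 := half_pow_pos M
    have p1 := half_pow_le M
    rcases hM with (⟨t, ht, rfl⟩ | ⟨t, ht, rfl⟩) | hM
    · simp only [size_W, uu]
      have := mul_nonneg ht.1 p0.le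
      nlinarith
    · simp only [size_W, cc, uu]
      have := mul_nonneg ht.1 p0.le
      nlinarith
    · obtain ⟨n, t, ht, rfl⟩ := mem_iUnion.1 hM
      have q0 := half_pow_pos n
      have q1 : (1 / 2 : ℝ) ^ (n + 1) ≤ (1 / 2) ^ n := by rw [pow_succ]; linarith
      have q2 := half_pow_pos (n + 1)
      simp only [size_W]
      have hb : 0 ≤ bv (b M n) := by unfold bv; split <;> norm_num
      have hx : 0 ≤ xx M (n + 1) := by
        unfold xx cc uu
        have := mul_nonneg p0.le q2.le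
        linarith
      have hd : 0 ≤ xx M n - xx M (n + 1) := by
        unfold xx
        have := mul_nonneg p0.le (sub_nonneg.2 q1)
        linarith
      have ha : 0 ≤ 1 - |2 * t - 1| := by
        have : |2 * t - 1| ≤ 1 := abs_le.2 ⟨by linarith [ht.1], by linarith [ht.2]⟩
        linarith
      have h1 := mul_nonneg ht.1 hd
      have h2 : 0 ≤ bv (b M n) * ((1 / 2) ^ M / 8) * (1 - |2 * t - 1|) :=
        mul_nonneg (mul_nonneg hb (by positivity)) ha
      linarith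

/-- the six pieces of the annulus -/
def Pc (s : ℝ) (y : Fin 3 → ℝ) : Prop :=
  (y 1 = 0 ∧ y 2 = 0 ∧ s / 2 ≤ y 0 ∧ y 0 ≤ s) ∨
  (y 0 = 0 ∧ y 2 = 0 ∧ s / 2 ≤ y 1 ∧ y 1 ≤ s) ∨
  (y 0 = 0 ∧ y 1 = 0 ∧ s / 2 ≤ y 2 ∧ y 2 ≤ s) ∨
  (y 2 = 0 ∧ y 0 = 5 / 8 * s - 2 / 3 * y 1 ∧ 0 ≤ y 1 ∧ y 1 ≤ 15 / 16 * s) ∨
  (y 0 = 0 ∧ y 1 = 5 / 8 * s - 2 / 3 * y 2 ∧ 0 ≤ y 2 ∧ y 2 ≤ 15 / 16 * s) ∨
  (y 1 = 0 ∧ y 2 = 5 / 8 * s - 2 / 3 * y 0 ∧ 0 ≤ y 0 ∧ y 0 ≤ 15 / 16 * s)

theorem layer_pc {i : Fin 3} {n : ℕ} {y : Fin 3 → ℝ} (hy : y ∈ Layer i n 0) : Pc (sg n) y := by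
  have hs := sg_pos n
  rcases hy with (⟨r, hr, rfl⟩ | ⟨t, ht, rfl⟩) | ⟨r, hr, rfl⟩
  · obtain ⟨h1, h2⟩ := hr
    unfold Pc
    fin_cases i <;> simp [P]
    · left; constructor <;> linarith
    · right; left; constructor <;> linarith
    · right; left; exact ⟨h1, by linarith⟩
  · have ht1 : |t| ≤ 1 := abs_le.2 ht
    have ht0 := abs_nonneg t
    have h3 : 0 ≤ sg n * |t| := mul_nonneg hs.le ht0
    have h4 : sg n * |t| ≤ sg n := by nlinarith
    unfold Pc
    fin_cases i <;> simp [P]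
    · right; right; right; left
      refine ⟨by ring, by nlinarith, by nlinarith⟩
    · right; right; right; right; left
      refine ⟨by ring, by nlinarith, by nlinarith⟩
    · right; right; right; right; right
      refine ⟨by ring, by nlinarith, by nlinarith⟩
  · obtain ⟨h1, h2⟩ := hr
    unfold Pc
    fin_cases i <;> simp [P]
    · left; constructor <;> linarith
    · right; left; constructor <;> linarith
    · right; left; exact ⟨by linarith, h2⟩

theorem annulus (HS : S_SIZE) {g : ℕ → ℝ} {b : ℕ → ℕ → Bool} (hg : ∀ n, g n ∈ Icc (0 : ℝ) 1)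
    {n : ℕ} (hn : g n = 0) {y : Fin 3 → ℝ} (hy : y ∈ KK g b) (h1 : sg n / 2 < size y)
    (h2 : size y < sg n) : Pc (sg n) y := by
  have hs := sg_pos n
  have hs1 := sg_le_one n
  rcases hy with ((hy | hy) | hy) | hy
  · rcases hy with hy | hy
    · rw [mem_singleton_iff] at hy
      subst hy
      simp [size] at h1
      linarith
    · obtain ⟨i, hi⟩ := mem_iUnion.1 hy
      obtain ⟨⟨m, _⟩, hm⟩ := mem_iUnion.1 hi
      simp only at hm
      obtain ⟨k1, k2, -, -⟩ := HS i m (g m) (hg m).1 (hg m).2 y hm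
      rcases lt_trichotomy m n with h | h | h
      · have := sg_lt h; linarith
      · subst h
        rw [hn] at hm
        exact layer_pc hm
      · have := sg_lt h; linarith
  · obtain ⟨u, hu, rfl⟩ := hy
    simp [size] at h1 h2
    linarith [hu.1]
  · obtain ⟨u, hu, rfl⟩ := hy
    simp [size] at h1 h2
    linarith [hu.1]
  · have := size_GG b y hy; linarith

theorem layer_sub {g : ℕ → ℝ} {b : ℕ → ℕ → Bool} {n : ℕ} (hn : g n = 0) (i : Fin 3) :
    Layer i n 0 ⊆ KK g b := by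
  intro y hy
  refine Or.inl (Or.inl (Or.inl (Or.inr ?_)))
  refine mem_iUnion.2 ⟨i, mem_iUnion.2 ⟨⟨n, Nat.zero_le n⟩, ?_⟩⟩
  simp only [hn]
  exact hy

theorem ax_layer (i : Fin 3) (n : ℕ) (r : ℝ) (h1 : sg n / 2 ≤ r) (h2 : r ≤ sg n) :
    P i r 0 ∈ Layer i n 0 := by
  rcases le_total r (sg n * (5 / 8)) with h | h
  · exact Or.inl (Or.inl ⟨r, ⟨h1, by linarith⟩, rfl⟩)
  · exact Or.inr ⟨r, ⟨by linarith, h2⟩, rfl⟩

theorem rg_layer (i : Fin 3) (n : ℕ) (t : ℝ) (h1 : 0 ≤ t) (h2 : t ≤ 1) :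
    P i (sg n * (5 / 8)) t ∈ Layer i n 0 := by
  refine Or.inl (Or.inr ⟨1 - t, ⟨by linarith, by linarith⟩, ?_⟩)
  have : |1 - t| = 1 - t := abs_of_nonneg (by linarith)
  simp only [this]
  congr 1 <;> ring

theorem ax0_sub {g : ℕ → ℝ} {b : ℕ → ℕ → Bool} {n : ℕ} (hn : g n = 0) {a c : ℝ}
    (ha : sg n / 2 ≤ a) (hc : c ≤ sg n) : ax0 a c ⊆ KK g b := by
  rintro y ⟨h1, h2, h3, h4⟩
  have : y = P 0 (y 0) 0 := by
    ext k; fin_cases k <;> simp [P, h1, h2]
  rw [this]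
  exact layer_sub hn 0 (ax_layer 0 n _ (by linarith) (by linarith))

theorem ax1_sub {g : ℕ → ℝ} {b : ℕ → ℕ → Bool} {n : ℕ} (hn : g n = 0) {a c : ℝ}
    (ha : sg n / 2 ≤ a) (hc : c ≤ sg n) : ax1 a c ⊆ KK g b := by
  rintro y ⟨h1, h2, h3, h4⟩
  have : y = P 1 (y 1) 0 := by
    ext k; fin_cases k <;> simp [P, h1, h2]
  rw [this]
  exact layer_sub hn 1 (ax_layer 1 n _ (by linarith) (by linarith))

theorem rg0_sub {g : ℕ → ℝ} {b : ℕ → ℕ → Bool} {n : ℕ} (hn : g n = 0) {a c : ℝ}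
    (ha : 0 ≤ a) (hc : c ≤ 15 / 16 * sg n) : rg0 (sg n) a c ⊆ KK g b := by
  rintro y ⟨h1, h2, h3, h4⟩
  have hs := sg_pos n
  have : y = P 0 (sg n * (5 / 8)) (16 / 15 * (y 1) / sg n) := by
    ext k; fin_cases k
    · simp [P, h2]; field_simp; ring
    · simp [P]; field_simp; ring
    · simp [P, h1]
  rw [this]
  refine layer_sub hn 0 (rg_layer 0 n _ ?_ ?_)
  · have : 0 ≤ y 1 := ha.trans h3
    positivity
  · rw [div_le_one hs]; linarith

theorem rg2_sub {g : ℕ → ℝ} {b : ℕ → ℕ → Bool} {n : ℕ} (hn : g n = 0) {a c : ℝ}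
    (ha : 0 ≤ a) (hc : c ≤ 15 / 16 * sg n) : rg2 (sg n) a c ⊆ KK g b := by
  rintro y ⟨h1, h2, h3, h4⟩
  have hs := sg_pos n
  have : y = P 2 (sg n * (5 / 8)) (16 / 15 * (y 0) / sg n) := by
    ext k; fin_cases k
    · simp [P]; field_simp; ring
    · simp [P, h1]
    · simp [P, h2]; field_simp; ring
  rw [this]
  refine layer_sub hn 2 (rg_layer 2 n _ ?_ ?_)
  · have : 0 ≤ y 0 := ha.trans h3
    positivity
  · rw [div_le_one hs]; linarith

/-! ## The configuration -/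

/-- the three vertices -/
def vv (s : ℝ) : Fin 3 → (Fin 3 → ℝ) :=
  ![![15 / 16 * s, 0, 0], ![5 / 8 * s, 0, 0], ![0, 15 / 16 * s, 0]]

/-- the seven marks -/
def mm (s : ℝ) : Fin 7 → (Fin 3 → ℝ) :=
  ![![31 / 32 * s, 0, 0], ![105 / 128 * s, 0, 5 / 64 * s], ![3 / 4 * s, 0, 0],
    ![9 / 16 * s, 0, 0], ![5 / 16 * s, 15 / 32 * s, 0], ![0, 3 / 4 * s, 0], ![0, 31 / 32 * s, 0]]

/-- the nine arcs -/
def hh (s : ℝ) : Fin 3 → Fin 3 → Set (Fin 3 → ℝ) :=
  ![![ax0 (15 / 16 * s) (31 / 32 * s), rg2 s (105 / 128 * s) (15 / 16 * s),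
      ax0 (3 / 4 * s) (15 / 16 * s)],
    ![ax0 (5 / 8 * s) (3 / 4 * s), ax0 (9 / 16 * s) (5 / 8 * s), rg0 s 0 (15 / 32 * s)],
    ![rg0 s (15 / 32 * s) (15 / 16 * s), ax1 (3 / 4 * s) (15 / 16 * s),
      ax1 (15 / 16 * s) (31 / 32 * s)]]

/-- the outer germs -/
def ee (s : ℝ) : Fin 7 → Set (Fin 3 → ℝ) :=
  ![ax0 (31 / 32 * s) (63 / 64 * s), rg2 s (15 / 32 * s) (105 / 128 * s), ∅,
    ax0 (17 / 32 * s) (9 / 16 * s), ∅, ax1 (11 / 16 * s) (3 / 4 * s),
    ax1 (31 / 32 * s) (63 / 64 * s)]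

/-- the ends of the outer germs -/
def ww (s : ℝ) : Fin 7 → (Fin 3 → ℝ) :=
  ![![63 / 64 * s, 0, 0], ![15 / 32 * s, 0, 5 / 16 * s], 0,
    ![17 / 32 * s, 0, 0], 0, ![0, 11 / 16 * s, 0], ![0, 63 / 64 * s, 0]]

theorem mm_inj {s : ℝ} (hs : 0 < s) : Function.Injective (mm s) := by
  intro i j hij
  have h0 := congrFun hij 0
  have h1 := congrFun hij 1
  have h2 := congrFun hij 2
  fin_cases i <;> fin_cases j <;>
    simp [mm, -mul_eq_mul_right_iff, -mul_eq_mul_left_iff] at h0 h1 h2 ⊢ <;> linarith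

theorem vec3 {a b c a' b' c' : ℝ} (h0 : a = a') (h1 : b = b') (h2 : c = c') :
    ![a, b, c] = ![a', b', c'] := by rw [h0, h1, h2]

theorem arc_congr {S : Set (Fin 3 → ℝ)} {a b a' b' : Fin 3 → ℝ} (h : IsArc S a b) (ha : a = a')
    (hb : b = b') : IsArc S a' b' := by rw [← ha, ← hb]; exact h

theorem hh_arc {s : ℝ} (hs : 0 < s) (r q : Fin 3) :
    IsArc (hh s r q) (vv s r) (mm s (mk r q)) := by
  fin_cases r <;> fin_cases q
  · exact arc_ax0 (by linarith)
  · exact arc_congr (arc_symm (arc_rg2 s (show 105 / 128 * s < 15 / 16 * s by linarith)))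
      (vec3 rfl rfl (by ring)) (vec3 rfl rfl (by ring))
  · exact arc_symm (arc_ax0 (by linarith))
  · exact arc_ax0 (by linarith)
  · exact arc_symm (arc_ax0 (by linarith))
  · exact arc_congr (arc_rg0 s (show 0 < 15 / 32 * s by linarith))
      (vec3 (by ring) rfl rfl) (vec3 (by ring) rfl rfl)
  · exact arc_congr (arc_symm (arc_rg0 s (show 15 / 32 * s < 15 / 16 * s by linarith)))
      (vec3 (by ring) rfl rfl) (vec3 (by ring) rfl rfl)
  · exact arc_symm (arc_ax1 (by linarith))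
  · exact arc_ax1 (by linarith)

theorem hh_sub {g : ℕ → ℝ} {b : ℕ → ℕ → Bool} {n : ℕ} (hn : g n = 0) (r q : Fin 3) :
    hh (sg n) r q ⊆ KK g b := by
  have hs := sg_pos n
  fin_cases r <;> fin_cases q
  · exact ax0_sub hn (by linarith) (by linarith)
  · exact rg2_sub hn (by linarith) (by linarith)
  · exact ax0_sub hn (by linarith) (by linarith)
  · exact ax0_sub hn (by linarith) (by linarith)
  · exact ax0_sub hn (by linarith) (by linarith)
  · exact rg0_sub hn (by linarith) (by linarith)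
  · exact rg0_sub hn (by linarith) (by linarith)
  · exact ax1_sub hn (by linarith) (by linarith)
  · exact ax1_sub hn (by linarith) (by linarith)

theorem vec_eq {y : Fin 3 → ℝ} {a b c : ℝ} (h0 : y 0 = a) (h1 : y 1 = b) (h2 : y 2 = c) :
    y = ![a, b, c] := by
  ext k; fin_cases k <;> simp [h0, h1, h2]

theorem hh_star {s : ℝ} (hs : 0 < s) (r q q' : Fin 3) (hq : q ≠ q') :
    hh s r q ∩ hh s r q' = {vv s r} := by
  ext y
  rw [mem_singleton_iff]
  constructor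
  · rintro ⟨h, h'⟩
    fin_cases r <;> fin_cases q <;> fin_cases q' <;> first | (exact absurd rfl hq) | skip
    all_goals
      simp only [hh, ax0, ax1, rg0, rg2, vv] at h h' ⊢
      obtain ⟨a1, a2, a3, a4⟩ := h
      obtain ⟨b1, b2, b3, b4⟩ := h'
      exact vec_eq (by linarith) (by linarith) (by linarith)
  · rintro rfl
    fin_cases r <;> fin_cases q <;> fin_cases q' <;> first | (exact absurd rfl hq) | skip
    all_goals
      simp [hh, ax0, ax1, rg0, rg2, vv, -mul_eq_mul_right_iff, -mul_eq_mul_left_iff]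
      (try constructor) <;> (try constructor) <;> linarith


theorem hh_far {s : ℝ} (hs : 0 < s) (r r' q q' : Fin 3) (hr : r ≠ r') (y : Fin 3 → ℝ)
    (h : y ∈ hh s r q) (h' : y ∈ hh s r' q') : y = mm s 2 ∨ y = mm s 4 := by
  fin_cases r <;> fin_cases r' <;> first | (exact absurd rfl hr) | skip
  all_goals
    fin_cases q <;> fin_cases q'
    all_goals
      simp only [hh, ax0, ax1, rg0, rg2] at h h'
      obtain ⟨a1, a2, a3, a4⟩ := h
      obtain ⟨b1, b2, b3, b4⟩ := h'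
      first
      | (exfalso; linarith)
      | (left; exact vec_eq (by linarith) (by linarith) (by linarith))
      | (right; exact vec_eq (by linarith) (by linarith) (by linarith))

theorem hh_mark {s : ℝ} (hs : 0 < s) (r q : Fin 3) (i : Fin 7) (h : mm s i ∈ hh s r q) :
    i = mk r q := by
  fin_cases r <;> fin_cases q <;> fin_cases i <;> first | rfl | exfalso
  all_goals
    simp only [hh, ax0, ax1, rg0, rg2] at h
    obtain ⟨a1, a2, a3, a4⟩ := h
    simp [mm, -mul_eq_mul_right_iff, -mul_eq_mul_left_iff, -mul_eq_zero] at a1 a2 a3 a4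
    try linarith


/-- the open stars -/
def UU (s : ℝ) : Fin 3 → Set (Fin 3 → ℝ) :=
  ![{y | (s / 2 < size y ∧ size y < 31 / 32 * s) ∧ 3 / 4 * s < y 0 ∧ y 2 < 5 / 64 * s},
    {y | ((9 / 16 * s < size y ∧ size y < s) ∧ 5 / 16 * s < y 0 ∧ y 0 < 3 / 4 * s) ∧
      y 1 < 15 / 32 * s ∧ y 2 < 1 / 8 * s},
    {y | (s / 2 < size y ∧ size y < 31 / 32 * s) ∧ 1 / 4 * s < y 1 ∧
      3 / 4 * s < y 1 + 9 / 10 * y 0}]

theorem cont_size : Continuous size := by unfold size; fun_prop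

theorem UU_open (s : ℝ) (r : Fin 3) : IsOpen (UU s r) := by
  have c := cont_size
  have c0 : Continuous fun y : Fin 3 → ℝ => y 0 := continuous_apply 0
  have c1 : Continuous fun y : Fin 3 → ℝ => y 1 := continuous_apply 1
  have c2 : Continuous fun y : Fin 3 → ℝ => y 2 := continuous_apply 2
  have c3 : Continuous fun y : Fin 3 → ℝ => y 1 + 9 / 10 * y 0 := by fun_prop
  fin_cases r
  · exact ((isOpen_lt continuous_const c).inter (isOpen_lt c continuous_const)).inter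
      ((isOpen_lt continuous_const c0).inter (isOpen_lt c2 continuous_const))
  · exact (((isOpen_lt continuous_const c).inter (isOpen_lt c continuous_const)).inter
      ((isOpen_lt continuous_const c0).inter (isOpen_lt c0 continuous_const))).inter
      ((isOpen_lt c1 continuous_const).inter (isOpen_lt c2 continuous_const))
  · exact ((isOpen_lt continuous_const c).inter (isOpen_lt c continuous_const)).inter
      ((isOpen_lt continuous_const c1).inter (isOpen_lt continuous_const c3))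

theorem UU_mark {s : ℝ} (hs : 0 < s) (r : Fin 3) (i : Fin 7) : mm s i ∉ UU s r := by
  intro h
  fin_cases r
  · obtain ⟨⟨h1, h2⟩, h3, h4⟩ := h
    fin_cases i <;> simp only [mm, size] at h1 h2 h3 h4 <;>
    simp [-mul_eq_mul_right_iff, -mul_eq_mul_left_iff, -mul_eq_zero] at h1 h2 h3 h4 <;>
    linarith
  · obtain ⟨⟨⟨h1, h2⟩, h3, h4⟩, h5, h6⟩ := h
    fin_cases i <;> simp only [mm, size] at h1 h2 h3 h4 h5 h6 <;>
    simp [-mul_eq_mul_right_iff, -mul_eq_mul_left_iff, -mul_eq_zero] at h1 h2 h3 h4 h5 h6 <;>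
    linarith
  · obtain ⟨⟨h1, h2⟩, h3, h4⟩ := h
    fin_cases i <;> simp only [mm, size] at h1 h2 h3 h4 <;>
    simp [-mul_eq_mul_right_iff, -mul_eq_mul_left_iff, -mul_eq_zero] at h1 h2 h3 h4 <;>
    linarith

theorem UU_sub {s : ℝ} (hs : 0 < s) (r : Fin 3) (y : Fin 3 → ℝ) (hy : y ∈ UU s r)
    (hp : s / 2 < size y → size y < s → Pc s y) : y ∈ ⋃ q, hh s r q := by
  fin_cases r
  · obtain ⟨⟨h1, h2⟩, h3, h4⟩ := hy
    rcases hp h1 (by linarith) with h | h | h | h | h | h <;> obtain ⟨a1, a2, a3, a4⟩ := h <;>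
    simp only [size] at h1 h2
    · rcases le_total (y 0) (15 / 16 * s) with h | h
      · exact mem_iUnion.2 ⟨2, a1, a2, by linarith, h⟩
      · exact mem_iUnion.2 ⟨0, a1, a2, h, by linarith⟩
    · exfalso; linarith
    · exfalso; linarith
    · exfalso; linarith
    · exfalso; linarith
    · exact mem_iUnion.2 ⟨1, a1, a2, by linarith, by linarith⟩
  · obtain ⟨⟨⟨h1, h2⟩, h3, h4⟩, h5, h6⟩ := hy
    rcases hp (by linarith) h2 with h | h | h | h | h | h <;> obtain ⟨a1, a2, a3, a4⟩ := h <;>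
    simp only [size] at h1 h2
    · rcases le_total (y 0) (5 / 8 * s) with h | h
      · exact mem_iUnion.2 ⟨1, a1, a2, by linarith, h⟩
      · exact mem_iUnion.2 ⟨0, a1, a2, h, by linarith⟩
    · exfalso; linarith
    · exfalso; linarith
    · exact mem_iUnion.2 ⟨2, a1, a2, by linarith, by linarith⟩
    · exfalso; linarith
    · exfalso; linarith
  · obtain ⟨⟨h1, h2⟩, h3, h4⟩ := hy
    rcases hp h1 (by linarith) with h | h | h | h | h | h <;> obtain ⟨a1, a2, a3, a4⟩ := h <;>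
    simp only [size] at h1 h2
    · exfalso; linarith
    · rcases le_total (y 1) (15 / 16 * s) with h | h
      · exact mem_iUnion.2 ⟨1, a1, a2, by linarith, h⟩
      · exact mem_iUnion.2 ⟨2, a1, a2, h, by linarith⟩
    · exfalso; linarith
    · exact mem_iUnion.2 ⟨0, a1, a2, by linarith, by linarith⟩
    · exfalso; linarith
    · exfalso; linarith

theorem hh_UU {s : ℝ} (hs : 0 < s) (r q : Fin 3) (y : Fin 3 → ℝ) (hy : y ∈ hh s r q)
    (hm : y ≠ mm s (mk r q)) : y ∈ UU s r := by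
  fin_cases r <;> fin_cases q <;> obtain ⟨a1, a2, a3, a4⟩ := hy
  · have h : y 0 < 31 / 32 * s := lt_of_le_of_ne a4 fun h => hm (vec_eq h a1 a2)
    refine ⟨⟨?_, ?_⟩, ?_, ?_⟩ <;> (try simp only [size]) <;> linarith
  · have h : 105 / 128 * s < y 0 := lt_of_le_of_ne a3 fun h => hm (vec_eq h.symm a1 (by linarith))
    refine ⟨⟨?_, ?_⟩, ?_, ?_⟩ <;> (try simp only [size]) <;> linarith
  · have h : 3 / 4 * s < y 0 := lt_of_le_of_ne a3 fun h => hm (vec_eq h.symm a1 a2)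
    refine ⟨⟨?_, ?_⟩, ?_, ?_⟩ <;> (try simp only [size]) <;> linarith
  · have h : y 0 < 3 / 4 * s := lt_of_le_of_ne a4 fun h => hm (vec_eq h a1 a2)
    refine ⟨⟨⟨?_, ?_⟩, ?_, ?_⟩, ?_, ?_⟩ <;> (try simp only [size]) <;> linarith
  · have h : 9 / 16 * s < y 0 := lt_of_le_of_ne a3 fun h => hm (vec_eq h.symm a1 a2)
    refine ⟨⟨⟨?_, ?_⟩, ?_, ?_⟩, ?_, ?_⟩ <;> (try simp only [size]) <;> linarith
  · have h : y 1 < 15 / 32 * s := lt_of_le_of_ne a4 fun h => hm (vec_eq (by linarith) h a1)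
    refine ⟨⟨⟨?_, ?_⟩, ?_, ?_⟩, ?_, ?_⟩ <;> (try simp only [size]) <;> linarith
  · have h : 15 / 32 * s < y 1 := lt_of_le_of_ne a3 fun h => hm (vec_eq (by linarith) h.symm a1)
    refine ⟨⟨?_, ?_⟩, ?_, ?_⟩ <;> (try simp only [size]) <;> linarith
  · have h : 3 / 4 * s < y 1 := lt_of_le_of_ne a3 fun h => hm (vec_eq a1 h.symm a2)
    refine ⟨⟨?_, ?_⟩, ?_, ?_⟩ <;> (try simp only [size]) <;> linarith
  · have h : y 1 < 31 / 32 * s := lt_of_le_of_ne a4 fun h => hm (vec_eq a1 h a2)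
    refine ⟨⟨?_, ?_⟩, ?_, ?_⟩ <;> (try simp only [size]) <;> linarith

/-- the neighbourhoods of the marks -/
def VV (s : ℝ) : Fin 7 → Set (Fin 3 → ℝ) :=
  ![{y | (s / 2 < size y ∧ size y < 63 / 64 * s) ∧ 15 / 16 * s < y 0},
    {y | (s / 2 < size y ∧ size y < s) ∧ 0 < y 2 ∧ 15 / 32 * s < y 0},
    {y | (s / 2 < size y ∧ size y < 26 / 32 * s) ∧ 5 / 8 * s < y 0},
    {y | (17 / 32 * s < size y ∧ size y < 5 / 8 * s) ∧ 1 / 2 * s < y 0},
    {y | (s / 2 < size y ∧ size y < s) ∧ 0 < y 0 ∧ 0 < y 1},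
    {y | (s / 2 < size y ∧ size y < 25 / 32 * s) ∧ 11 / 16 * s < y 1},
    {y | (s / 2 < size y ∧ size y < 63 / 64 * s) ∧ 15 / 16 * s < y 1}]

theorem VV_open (s : ℝ) (i : Fin 7) : IsOpen (VV s i) := by
  have c := cont_size
  have c0 : Continuous fun y : Fin 3 → ℝ => y 0 := continuous_apply 0
  have c1 : Continuous fun y : Fin 3 → ℝ => y 1 := continuous_apply 1
  have c2 : Continuous fun y : Fin 3 → ℝ => y 2 := continuous_apply 2
  fin_cases i
  · exact ((isOpen_lt continuous_const c).inter (isOpen_lt c continuous_const)).inter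
      (isOpen_lt continuous_const c0)
  · exact ((isOpen_lt continuous_const c).inter (isOpen_lt c continuous_const)).inter
      ((isOpen_lt continuous_const c2).inter (isOpen_lt continuous_const c0))
  · exact ((isOpen_lt continuous_const c).inter (isOpen_lt c continuous_const)).inter
      (isOpen_lt continuous_const c0)
  · exact ((isOpen_lt continuous_const c).inter (isOpen_lt c continuous_const)).inter
      (isOpen_lt continuous_const c0)
  · exact ((isOpen_lt continuous_const c).inter (isOpen_lt c continuous_const)).inter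
      ((isOpen_lt continuous_const c0).inter (isOpen_lt continuous_const c1))
  · exact ((isOpen_lt continuous_const c).inter (isOpen_lt c continuous_const)).inter
      (isOpen_lt continuous_const c1)
  · exact ((isOpen_lt continuous_const c).inter (isOpen_lt c continuous_const)).inter
      (isOpen_lt continuous_const c1)

theorem VV_mem {s : ℝ} (hs : 0 < s) (i : Fin 7) : mm s i ∈ VV s i := by
  fin_cases i
  · refine ⟨⟨?_, ?_⟩, ?_⟩ <;> (try simp only [size]) <;> simp [mm] <;> linarith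
  · refine ⟨⟨?_, ?_⟩, ?_, ?_⟩ <;> (try simp only [size]) <;> simp [mm] <;> linarith
  · refine ⟨⟨?_, ?_⟩, ?_⟩ <;> (try simp only [size]) <;> simp [mm] <;> linarith
  · refine ⟨⟨?_, ?_⟩, ?_⟩ <;> (try simp only [size]) <;> simp [mm] <;> linarith
  · refine ⟨⟨?_, ?_⟩, ?_, ?_⟩ <;> (try simp only [size]) <;> simp [mm] <;> linarith
  · refine ⟨⟨?_, ?_⟩, ?_⟩ <;> (try simp only [size]) <;> simp [mm] <;> linarith
  · refine ⟨⟨?_, ?_⟩, ?_⟩ <;> (try simp only [size]) <;> simp [mm] <;> linarith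

theorem in_hh {s : ℝ} {y : Fin 3 → ℝ} (r q : Fin 3) (h : y ∈ hh s r q) :
    y ∈ ⋃ r, ⋃ q, hh s r q := mem_iUnion.2 ⟨r, mem_iUnion.2 ⟨q, h⟩⟩

theorem VV_sub {s : ℝ} (hs : 0 < s) (i : Fin 7) (y : Fin 3 → ℝ) (hy : y ∈ VV s i)
    (hp : s / 2 < size y → size y < s → Pc s y) : y ∈ ee s i ∪ ⋃ r, ⋃ q, hh s r q := by
  fin_cases i
  · obtain ⟨⟨h1, h2⟩, h3⟩ := hy
    rcases hp h1 (by linarith) with h | h | h | h | h | h <;> obtain ⟨a1, a2, a3, a4⟩ := h <;>
    simp only [size] at h1 h2 <;> first | (exfalso; linarith) | skip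
    rcases le_total (y 0) (31 / 32 * s) with h | h
    · exact Or.inr (in_hh 0 0 ⟨a1, a2, by linarith, h⟩)
    · exact Or.inl ⟨a1, a2, h, by linarith⟩
  · obtain ⟨⟨h1, h2⟩, h3, h4⟩ := hy
    rcases hp h1 (by linarith) with h | h | h | h | h | h <;> obtain ⟨a1, a2, a3, a4⟩ := h <;>
    simp only [size] at h1 h2 <;> first | (exfalso; linarith) | skip
    rcases le_total (y 0) (105 / 128 * s) with h | h
    · exact Or.inl ⟨a1, a2, by linarith, h⟩
    · exact Or.inr (in_hh 0 1 ⟨a1, a2, h, by linarith⟩)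
  · obtain ⟨⟨h1, h2⟩, h3⟩ := hy
    rcases hp h1 (by linarith) with h | h | h | h | h | h <;> obtain ⟨a1, a2, a3, a4⟩ := h <;>
    simp only [size] at h1 h2 <;> first | (exfalso; linarith) | skip
    rcases le_total (y 0) (3 / 4 * s) with h | h
    · exact Or.inr (in_hh 1 0 ⟨a1, a2, by linarith, h⟩)
    · exact Or.inr (in_hh 0 2 ⟨a1, a2, h, by linarith⟩)
  · obtain ⟨⟨h1, h2⟩, h3⟩ := hy
    rcases hp (by linarith) (by linarith) with h | h | h | h | h | h <;>
    obtain ⟨a1, a2, a3, a4⟩ := h <;>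
    simp only [size] at h1 h2 <;> first | (exfalso; linarith) | skip
    rcases le_total (y 0) (9 / 16 * s) with h | h
    · exact Or.inl ⟨a1, a2, by linarith, h⟩
    · exact Or.inr (in_hh 1 1 ⟨a1, a2, h, by linarith⟩)
  · obtain ⟨⟨h1, h2⟩, h3, h4⟩ := hy
    rcases hp h1 (by linarith) with h | h | h | h | h | h <;> obtain ⟨a1, a2, a3, a4⟩ := h <;>
    simp only [size] at h1 h2 <;> first | (exfalso; linarith) | skip
    rcases le_total (y 1) (15 / 32 * s) with h | h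
    · exact Or.inr (in_hh 1 2 ⟨a1, a2, by linarith, h⟩)
    · exact Or.inr (in_hh 2 0 ⟨a1, a2, h, by linarith⟩)
  · obtain ⟨⟨h1, h2⟩, h3⟩ := hy
    rcases hp h1 (by linarith) with h | h | h | h | h | h <;> obtain ⟨a1, a2, a3, a4⟩ := h <;>
    simp only [size] at h1 h2 <;> first | (exfalso; linarith) | skip
    rcases le_total (y 1) (3 / 4 * s) with h | h
    · exact Or.inl ⟨a1, a2, by linarith, h⟩
    · exact Or.inr (in_hh 2 1 ⟨a1, a2, h, by linarith⟩)
  · obtain ⟨⟨h1, h2⟩, h3⟩ := hy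
    rcases hp h1 (by linarith) with h | h | h | h | h | h <;> obtain ⟨a1, a2, a3, a4⟩ := h <;>
    simp only [size] at h1 h2 <;> first | (exfalso; linarith) | skip
    rcases le_total (y 1) (31 / 32 * s) with h | h
    · exact Or.inr (in_hh 2 2 ⟨a1, a2, by linarith, h⟩)
    · exact Or.inl ⟨a1, a2, h, by linarith⟩

theorem ee_arc {s : ℝ} (hs : 0 < s) (i : Fin 7) (h2 : i ≠ 2) (h4 : i ≠ 4) :
    IsArc (ee s i) (mm s i) (ww s i) := by
  fin_cases i <;> first | (exact absurd rfl h2) | (exact absurd rfl h4) | skip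
  · exact arc_ax0 (by linarith)
  · exact arc_congr (arc_symm (arc_rg2 s (show 15 / 32 * s < 105 / 128 * s by linarith)))
      (vec3 rfl rfl (by ring)) (vec3 rfl rfl (by ring))
  · exact arc_symm (arc_ax0 (by linarith))
  · exact arc_symm (arc_ax1 (by linarith))
  · exact arc_ax1 (by linarith)

theorem ee_sub {g : ℕ → ℝ} {b : ℕ → ℕ → Bool} {n : ℕ} (hn : g n = 0) (i : Fin 7) :
    ee (sg n) i ⊆ KK g b := by
  have hs := sg_pos n
  fin_cases i
  · exact ax0_sub hn (by linarith) (by linarith)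
  · exact rg2_sub hn (by linarith) (by linarith)
  · exact empty_subset _
  · exact ax0_sub hn (by linarith) (by linarith)
  · exact empty_subset _
  · exact ax1_sub hn (by linarith) (by linarith)
  · exact ax1_sub hn (by linarith) (by linarith)

theorem ee_hh {s : ℝ} (hs : 0 < s) (i : Fin 7) (r q : Fin 3) (h2 : i ≠ 2) (h4 : i ≠ 4) :
    ee s i ∩ hh s r q ⊆ {mm s i} := by
  rintro y ⟨h, h'⟩
  rw [mem_singleton_iff]
  fin_cases i <;> first | (exact absurd rfl h2) | (exact absurd rfl h4) | skip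
  all_goals
    fin_cases r <;> fin_cases q
    all_goals
      simp only [hh, ee, ax0, ax1, rg0, rg2] at h h'
      obtain ⟨a1, a2, a3, a4⟩ := h
      obtain ⟨b1, b2, b3, b4⟩ := h'
      first
      | (exfalso; linarith)
      | exact vec_eq (by linarith) (by linarith) (by linarith)


end

end NOT7

open NOT7 Set in
theorem t_NOT7 : S_N7 → S_SIZE → S_NOT7 := by
  intro H7 HS g b hg ⟨n, hn⟩ hnac
  have hs := sg_pos n
  have hP : ∀ y ∈ KK g b, sg n / 2 < size y → size y < sg n → Pc (sg n) y :=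
    fun y hy h1 h2 => annulus HS hg hn hy h1 h2
  refine H7 (Fin 3 → ℝ) (KK g b) (vv (sg n)) (mm (sg n)) (hh (sg n)) (ee (sg n)) (ww (sg n))
    (mm_inj hs) (hh_arc hs) (hh_sub hn) (hh_star hs) (fun r r' s s' h y => hh_far hs r r' s s' h y)
    (fun r s i => hh_mark hs r s i) ?_ ?_ ?_ ?_
  · intro r
    refine ⟨UU (sg n) r, UU_open _ _, ?_⟩
    ext y
    constructor
    · rintro ⟨h1, h2⟩
      refine ⟨UU_sub hs r y h1 (hP y h2), ?_⟩
      rintro ⟨i, rfl⟩
      exact UU_mark hs r i h1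
    · rintro ⟨h1, h2⟩
      obtain ⟨q, hq⟩ := mem_iUnion.1 h1
      exact ⟨hh_UU hs r q y hq fun h => h2 ⟨_, h.symm⟩, hh_sub hn r q hq⟩
  · intro i h2 h4
    refine ⟨ee_arc hs i h2 h4, ee_sub hn i, fun r q => ee_hh hs i r q h2 h4,
      VV (sg n) i, VV_open _ _, VV_mem hs i, ?_⟩
    rintro y ⟨h1, h3⟩
    exact VV_sub hs i y h1 (hP y h3)
  · rintro i (rfl | rfl)
    · refine ⟨VV (sg n) 2, VV_open _ _, VV_mem hs 2, ?_⟩
      rintro y ⟨h1, h3⟩
      rcases VV_sub hs 2 y h1 (hP y h3) with h | h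
      · exact absurd h (notMem_empty _)
      · exact h
    · refine ⟨VV (sg n) 4, VV_open _ _, VV_mem hs 4, ?_⟩
      rintro y ⟨h1, h3⟩
      rcases VV_sub hs 4 y h1 (hP y h3) with h | h
      · exact absurd h (notMem_empty _)
      · exact h
  · refine hnac (mm (sg n)) fun i => ?_
    fin_cases i
    · exact hh_sub hn 0 0 ((hh_arc hs 0 0).elim fun f h => by rw [← h.2.2.2.2]; exact ⟨1, h.2.2.2.1⟩)
    · exact hh_sub hn 0 1 ((hh_arc hs 0 1).elim fun f h => by rw [← h.2.2.2.2]; exact ⟨1, h.2.2.2.1⟩)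
    · exact hh_sub hn 0 2 ((hh_arc hs 0 2).elim fun f h => by rw [← h.2.2.2.2]; exact ⟨1, h.2.2.2.1⟩)
    · exact hh_sub hn 1 1 ((hh_arc hs 1 1).elim fun f h => by rw [← h.2.2.2.2]; exact ⟨1, h.2.2.2.1⟩)
    · exact hh_sub hn 1 2 ((hh_arc hs 1 2).elim fun f h => by rw [← h.2.2.2.2]; exact ⟨1, h.2.2.2.1⟩)
    · exact hh_sub hn 2 1 ((hh_arc hs 2 1).elim fun f h => by rw [← h.2.2.2.2]; exact ⟨1, h.2.2.2.1⟩)
    · exact hh_sub hn 2 2 ((hh_arc hs 2 2).elim fun f h => by rw [← h.2.2.2.2]; exact ⟨1, h.2.2.2.1⟩)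

end Pool.Agent.H742.AC6
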