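import Pool.Agent.H742.AC6.Stm3

/-!
# A `Sigma_3` set which is not `Pi_3`
-/

namespace Pool.Agent.H742.AC6

open Set Topology TopologicalSpace

namespace NOTPI

/-- enumeration of a basis, with the empty set -/
theorem exists_enum (Z : Type) [TopologicalSpace Z] [SecondCountableTopology Z] :
    ∃ V : ℕ → Set Z, (∀ n, IsOpen (V n)) ∧ ∀ U : Set Z, IsOpen U → ∃ e : ℕ → ℕ, U = ⋃ k, V (e k) := by
  obtain ⟨b, hb, -, hbas⟩ := exists_countable_basis Z
  have hc : (insert ∅ b : Set (Set Z)).Countable := hb.insert ∅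
  obtain ⟨V, hV⟩ := hc.exists_eq_range ⟨∅, mem_insert _ _⟩
  have hopen : ∀ n, IsOpen (V n) := by
    intro n
    have h : V n ∈ (insert ∅ b : Set (Set Z)) := hV ▸ mem_range_self n
    rcases h with h | h
    · rw [h]; exact isOpen_empty
    · exact hbas.isOpen h
  obtain ⟨n0, hn0⟩ : ∃ n, V n = ∅ := by
    have h : (∅ : Set Z) ∈ (insert ∅ b : Set (Set Z)) := mem_insert _ _
    rw [hV] at h
    exact h
  refine ⟨V, hopen, fun U hU => ?_⟩
  classical
  refine ⟨fun k => if V k ⊆ U then k else n0, ?_⟩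
  apply Subset.antisymm
  · intro x hx
    obtain ⟨v, hv, hxv, hvU⟩ := hbas.exists_subset_of_mem_open hx hU
    have h : v ∈ (insert ∅ b : Set (Set Z)) := mem_insert_of_mem _ hv
    rw [hV] at h
    obtain ⟨k, hk⟩ := h
    refine mem_iUnion.2 ⟨k, ?_⟩
    show x ∈ V (if V k ⊆ U then k else n0)
    rw [if_pos (by rw [hk]; exact hvU), hk]
    exact hxv
  · apply iUnion_subset
    intro k
    show V (if V k ⊆ U then k else n0) ⊆ U
    by_cases h : V k ⊆ U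
    · rw [if_pos h]; exact h
    · rw [if_neg h, hn0]; exact empty_subset _

/-- the set with the code `e` -/
def U (V : ℕ → Set (ℕ → ℕ)) (e : ℕ → ℕ) : Set (ℕ → ℕ) :=
  {x | ∀ i, ∃ j, ∀ k, x ∉ V (e (Nat.pair i (Nat.pair j k)))}

theorem exists_code (V : ℕ → Set (ℕ → ℕ))
    (hV : ∀ W : Set (ℕ → ℕ), IsOpen W → ∃ e : ℕ → ℕ, W = ⋃ k, V (e k)) (s : Set (ℕ → ℕ))
    (hs : IsPi3 s) : ∃ e, s = U V e := by
  obtain ⟨F, hF, rfl⟩ := hs
  choose G hG hFG using hF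
  have h1 : ∀ i j, ∃ e : ℕ → ℕ, (G i j)ᶜ = ⋃ k, V (e k) := fun i j => hV _ (hG i j).isOpen_compl
  choose c hc using h1
  refine ⟨fun n => c n.unpair.1 n.unpair.2.unpair.1 n.unpair.2.unpair.2, ?_⟩
  ext x
  simp only [U, mem_iInter, Nat.unpair_pair]
  constructor
  · intro h i
    have h2 := h i
    rw [hFG i, mem_iUnion] at h2
    obtain ⟨j, hj⟩ := h2
    refine ⟨j, fun k hk => ?_⟩
    have h3 : x ∈ (G i j)ᶜ := by
      rw [hc i j]
      exact mem_iUnion.2 ⟨k, hk⟩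
    exact h3 hj
  · intro h i
    obtain ⟨j, hj⟩ := h i
    rw [hFG i, mem_iUnion]
    refine ⟨j, ?_⟩
    by_contra h3
    have h4 : x ∈ (G i j)ᶜ := h3
    rw [hc i j, mem_iUnion] at h4
    obtain ⟨k, hk⟩ := h4
    exact hj k hk

/-- the diagonal set -/
def B (V : ℕ → Set (ℕ → ℕ)) : Set (ℕ → ℕ) :=
  {x | ∃ i, ∀ j, ∃ k, x ∈ V (x (Nat.pair i (Nat.pair j k)))}

theorem isOpen_one (V : ℕ → Set (ℕ → ℕ)) (hV : ∀ n, IsOpen (V n)) (n : ℕ) :
    IsOpen {x : ℕ → ℕ | x ∈ V (x n)} := by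
  have h : {x : ℕ → ℕ | x ∈ V (x n)} = ⋃ v : ℕ, ((fun x : ℕ → ℕ => x n) ⁻¹' {v} ∩ V v) := by
    ext x
    constructor
    · intro hx
      exact mem_iUnion.2 ⟨x n, rfl, hx⟩
    · intro hx
      obtain ⟨v, h1, h2⟩ := mem_iUnion.1 hx
      have h3 : x n = v := h1
      show x ∈ V (x n)
      rw [h3]
      exact h2
  rw [h]
  refine isOpen_iUnion fun v => IsOpen.inter ?_ (hV v)
  exact (isOpen_discrete {v}).preimage (continuous_apply n)

theorem sigma3_B (V : ℕ → Set (ℕ → ℕ)) (hV : ∀ n, IsOpen (V n)) : IsSigma3 (B V) := by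
  refine ⟨fun i => ⋂ j, ⋃ k, {x | x ∈ V (x (Nat.pair i (Nat.pair j k)))}, fun i => ?_, ?_⟩
  · exact ⟨fun j => ⋃ k, {x | x ∈ V (x (Nat.pair i (Nat.pair j k)))},
      fun j => isOpen_iUnion fun k => isOpen_one V hV _, rfl⟩
  · ext x
    constructor
    · rintro ⟨i, hi⟩
      refine mem_iUnion.2 ⟨i, mem_iInter.2 fun j => ?_⟩
      obtain ⟨k, hk⟩ := hi j
      exact mem_iUnion.2 ⟨k, hk⟩
    · intro hx
      obtain ⟨i, hi⟩ := mem_iUnion.1 hx
      refine ⟨i, fun j => ?_⟩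
      obtain ⟨k, hk⟩ := mem_iUnion.1 (mem_iInter.1 hi j)
      exact ⟨k, hk⟩

theorem clopen_basis : IsTopologicalBasis {s : Set (ℕ → ℕ) | IsClopen s} := by
  refine isTopologicalBasis_of_isOpen_of_nhds (fun s hs => IsClopen.isOpen hs) ?_
  intro a u ha hu
  obtain ⟨v, ⟨x, n, rfl⟩, hav, hvu⟩ :=
    (PiNat.isTopologicalBasis_cylinders (fun _ : ℕ => ℕ)).exists_subset_of_mem_open ha hu
  refine ⟨PiNat.cylinder x n, ?_, hav, hvu⟩
  show IsClopen (PiNat.cylinder x n)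
  have h : PiNat.cylinder x n = ⋂ i ∈ Finset.range n, (fun y : ℕ → ℕ => y i) ⁻¹' {x i} := by
    ext y
    simp only [PiNat.mem_cylinder_iff, Finset.mem_range, mem_iInter, mem_preimage,
      mem_singleton_iff]
  rw [h]
  exact isClopen_biInter_finset fun i _ => (isClopen_discrete {x i}).preimage (continuous_apply i)

end NOTPI

theorem t_NOTPI : S_NOTPI := by
  obtain ⟨V, hV, hcode⟩ := NOTPI.exists_enum (ℕ → ℕ)
  refine ⟨ℕ → ℕ, inferInstance, inferInstance, NOTPI.clopen_basis, NOTPI.B V,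
    NOTPI.sigma3_B V hV, fun h => ?_⟩
  obtain ⟨e, he⟩ := NOTPI.exists_code V hcode _ h
  have h1 : e ∈ NOTPI.B V ↔ e ∈ NOTPI.U V e := by rw [he]
  have h2 : e ∈ NOTPI.B V ↔ ¬ e ∈ NOTPI.U V e := by
    constructor
    · rintro ⟨i, hi⟩ h3
      obtain ⟨j, hj⟩ := h3 i
      obtain ⟨k, hk⟩ := hi j
      exact hj k hk
    · intro h3
      by_contra h4
      apply h3
      intro i
      by_contra h5
      apply h4
      refine ⟨i, fun j => ?_⟩
      by_contra h6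
      apply h5
      exact ⟨j, fun k hk => h6 ⟨k, hk⟩⟩
  rw [h1] at h2
  exact (iff_not_self h2)

end Pool.Agent.H742.AC6
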