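import Pool.Agent.H742.AC6.Ent

/-!
# The gadget step, and the search
-/

namespace Pool.Agent.H742.AC6

open Set

/-- the entry `e` covers the mark `m`: an edge if `m < ne`, the vertex `m - ne` otherwise -/
def covers (G : Gad) (e : Entry) (m : ℕ) : Prop :=
  if m < G.ne then ∃ l ∈ e.paths, ∃ d ∈ l, d.1.ix = some m
  else ∃ l ∈ e.paths, Vx.g (m - G.ne) ∈ G.verts e.p l

instance (G : Gad) (e : Entry) (m : ℕ) : Decidable (covers G e m) := by
  unfold covers
  infer_instance

/-- the marks: edges, and vertices which are not outer terminals -/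
def marks (G : Gad) : List ℕ :=
  (List.range (G.ne + G.nv)).filter (fun m => decide (m < G.ne ∨ ∀ i, m - G.ne ≠ G.out i))

theorem exists_cut (X : Set unitInterval) (hX : X.Finite) (h01 : ∀ s ∈ X, 0 < s ∧ s < 1) :
    ∃ c' c : unitInterval, 0 < c' ∧ c' ≤ c ∧ c < 1 ∧ ∀ s ∈ X, c' ≤ s ∧ s ≤ c := by
  rcases X.eq_empty_or_nonempty with rfl | hne
  · refine ⟨⟨1 / 2, by norm_num, by norm_num⟩, ⟨1 / 2, by norm_num, by norm_num⟩, ?_, le_rfl, ?_,
      by simp⟩
    · rw [← Subtype.coe_lt_coe]; norm_num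
    · rw [← Subtype.coe_lt_coe]; norm_num
  · obtain ⟨a, ha, ha'⟩ := Set.exists_min_image X id hX hne
    obtain ⟨b, hb, hb'⟩ := Set.exists_max_image X id hX hne
    exact ⟨a, b, (h01 a ha).1, ha' b hb, (h01 b hb).2, fun s hs => ⟨ha' s hs, hb' s hs⟩⟩

theorem mono_iter (F : ℕ → List ℕ)
    (Hmono : ∀ b < 6, ∀ A ∈ F b, ∃ A2 ∈ F (b + 1), ∀ q < 14, A2.testBit q = true →
      A.testBit q = true) :
    ∀ j b, b + j ≤ 6 → ∀ A ∈ F b, ∃ A2 ∈ F (b + j), ∀ q < 14, A2.testBit q = true →
      A.testBit q = true := by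
  intro j
  induction j with
  | zero => intro b _ A hA; exact ⟨A, hA, fun q _ h => h⟩
  | succ j ih =>
    intro b hb A hA
    obtain ⟨A1, h1, h2⟩ := ih b (by omega) A hA
    obtain ⟨A2, h3, h4⟩ := Hmono (b + j) (by omega) A1 h1
    exact ⟨A2, h3, fun q hq h => h2 q hq (h4 q hq h)⟩

section topo

variable {Y : Type} [TopologicalSpace Y] [T2Space Y]

theorem gadget_step (hcat : S_CONCAT) (hsub : S_SUB) (G : Gad) (pos : ℕ → Y)
    (f : ℕ → unitInterval → Y) (T : Set Y) (hG : Glue G pos f T)
    (hinn : ∀ i, G.inn i < G.nv) (hout : ∀ i, G.out i < G.nv)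
    (hw : ∀ k < G.ne, G.src k < G.nv ∧ G.tgt k < G.nv) (F F' : ℕ → List ℕ)
    (H : ∀ a, ∀ A ∈ F a, ∀ M : List ℕ, M.Sublist (marks G) → a + M.length ≤ 6 →
      ∃ A' ∈ F' (a + M.length), ∀ q < 14, A'.testBit q = true →
        ∃ e : Entry, e.OK G ∧ e.p < 14 ∧ A.testBit e.p = true ∧ e.q = q ∧ ∀ m ∈ M, covers G e m)
    (Hmono : ∀ b < 6, ∀ A ∈ F' b, ∃ A2 ∈ F' (b + 1), ∀ q < 14, A2.testBit q = true →
      A.testBit q = true)
    (hQ : Q F T (fun i => pos (G.inn i))) :
    Q F' (T ∪ edges G f) (fun i => pos (G.out i)) := by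
  classical
  intro S hS hcard
  set P0 : Y → Prop := fun y => y ∈ T ∧ ∀ i, y ≠ pos (G.inn i) with hP0
  obtain ⟨A, hA, hAr⟩ := hQ (S.filter P0) (fun y hy => (Finset.mem_filter.1 hy).2)
    (le_trans (Finset.card_filter_le _ _) hcard)
  set SL := S.filter (fun y => ¬ P0 y) with hSL
  have hsum : (S.filter P0).card + SL.card = S.card := Finset.card_filter_add_card_filter_not P0
  -- marks which are hit
  set hit : ℕ → Prop := fun m => (m < G.ne ∧ ∃ s, 0 < s ∧ s < 1 ∧ f m s ∈ SL) ∨
    (G.ne ≤ m ∧ m < G.ne + G.nv ∧ pos (m - G.ne) ∈ SL) with hhit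
  set M := (marks G).filter (fun m => decide (hit m)) with hM
  have hMs : M.Sublist (marks G) := List.filter_sublist
  have hMnd : M.Nodup := hMs.nodup (List.filter_sublist.nodup List.nodup_range)
  have hMl : M.length ≤ SL.card := by
    have h1 : ∀ m ∈ M.toFinset, ∃ y ∈ SL, (m < G.ne ∧ ∃ s, 0 < s ∧ s < 1 ∧ f m s = y) ∨
        (G.ne ≤ m ∧ m < G.ne + G.nv ∧ pos (m - G.ne) = y) := by
      intro m hm
      have hm' : hit m := by
        have := List.mem_filter.1 (List.mem_toFinset.1 hm)
        simpa using this.2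
      rcases hm' with ⟨h, s, h0, h1, h2⟩ | ⟨h, h', h2⟩
      · exact ⟨_, h2, Or.inl ⟨h, s, h0, h1, rfl⟩⟩
      · exact ⟨_, h2, Or.inr ⟨h, h', rfl⟩⟩
    have hne : Nonempty Y := ⟨pos 0⟩
    choose! y hy1 hy2 using h1
    rw [← List.toFinset_card_of_nodup hMnd]
    refine Finset.card_le_card_of_injOn y hy1 ?_
    intro m hm m' hm' hmm
    have aux : ∀ v, v < G.nv → ∀ k, k < G.ne → ∀ s, 0 < s → s < 1 → f k s ≠ pos v := by
      intro v hv k hk s h0 h1 heq
      rcases hG.pf v hv k hk s heq with h | h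
      · rw [h, ← hG.f0 k hk] at heq
        exact absurd (hG.fi k hk heq) h0.ne'
      · rw [h, ← hG.f1 k hk] at heq
        exact absurd (hG.fi k hk heq) h1.ne
    rcases hy2 m hm with ⟨h, s, h0, h1, h2⟩ | ⟨h, h', h2⟩ <;>
      rcases hy2 m' hm' with ⟨k, t, k0, k1, k2⟩ | ⟨k, k', k2⟩
    · by_contra hne'
      obtain ⟨v, hv, hv2, -⟩ := hG.fmeet m h m' k hne' s t (by rw [h2, k2, hmm])
      have hvn : v < G.nv := by
        rcases hv2 with h | h
        · rw [h]; exact (hw m (by assumption)).1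
        · rw [h]; exact (hw m (by assumption)).2
      exact aux v hvn m h s h0 h1 hv
    · exact absurd (by rw [h2, k2, hmm]) (aux (m' - G.ne) (by omega) m h s h0 h1)
    · exact absurd (by rw [h2, k2, hmm]) (aux (m - G.ne) (by omega) m' k t k0 k1)
    · have := hG.pinj (m - G.ne) (by omega) (m' - G.ne) (by omega) (by rw [h2, k2, hmm])
      omega
  -- cuts
  have hcut : ∀ k, ∃ c' c : unitInterval, 0 < c' ∧ c' ≤ c ∧ c < 1 ∧
      (k < G.ne → ∀ s, 0 < s → s < 1 → f k s ∈ S → c' ≤ s ∧ s ≤ c) := by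
    intro k
    by_cases hk : k < G.ne
    · obtain ⟨c', c, h1, h2, h3, h4⟩ := exists_cut {s | (0 < s ∧ s < 1) ∧ f k s ∈ S}
        (Set.Finite.subset (Set.Finite.preimage (hG.fi k hk).injOn S.finite_toSet)
          (fun s hs => hs.2)) (fun s hs => hs.1)
      exact ⟨c', c, h1, h2, h3, fun _ s h5 h6 h7 => h4 s ⟨⟨h5, h6⟩, h7⟩⟩
    · obtain ⟨c', c, h1, h2, h3, -⟩ := exists_cut ∅ Set.finite_empty (by simp)
      exact ⟨c', c, h1, h2, h3, fun h => absurd h hk⟩
  choose c' c hc0 hcc hc1 hcS using hcut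
  obtain ⟨A', hA', hA'e⟩ := H _ A hA M hMs (by omega)
  obtain ⟨A2, hA2, hA2m⟩ := mono_iter F' Hmono (S.card - ((S.filter P0).card + M.length))
    _ (by omega) A' hA'
  refine ⟨A2, by convert hA2 using 2; omega, ?_⟩
  intro q hq hqA
  obtain ⟨e, heOK, hep, hepA, rfl, hcov⟩ := hA'e q hq (hA2m q hq hqA)
  obtain ⟨B, hB, hBd, hBS⟩ := hAr e.p hep hepA
  refine entry_sound (c := c) (c' := c') hcat hsub hG hout e heOK hc1 hc0 hcc hB hBd _ ?_
  intro y hy
  have hyS : y ∈ S := hy
  by_cases hyP : P0 y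
  · left
    exact hBS y (by simpa using Finset.mem_filter.2 ⟨hyS, hyP⟩)
  · have hySL : y ∈ SL := Finset.mem_filter.2 ⟨hyS, hyP⟩
    have hvert : ∀ v < G.nv, y = pos v →
        ∃ l ∈ e.paths, Vx.g v ∈ G.verts e.p l := by
      intro v hv hyv
      have hm : G.ne + v ∈ M := by
        rw [hM, List.mem_filter]
        refine ⟨?_, ?_⟩
        · rw [marks, List.mem_filter, List.mem_range]
          refine ⟨by omega, ?_⟩
          rw [decide_eq_true_eq]
          right
          intro i hi
          have : v = G.out i := by omega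
          exact (hS y hyS).2 i (by rw [hyv, this])
        · rw [decide_eq_true_eq]
          right
          refine ⟨by omega, by omega, ?_⟩
          have : G.ne + v - G.ne = v := by omega
          rw [this, ← hyv]
          exact hySL
      have := hcov _ hm
      rw [covers, if_neg (by omega)] at this
      have h3 : G.ne + v - G.ne = v := by omega
      rw [h3] at this
      exact this
    rcases (hS y hyS).1 with hyT | ⟨k, hk, s, rfl⟩
    · have : ∃ i, y = pos (G.inn i) := by
        by_contra h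
        push Not at h
        exact hyP ⟨hyT, h⟩
      obtain ⟨i, hi⟩ := this
      right; right
      exact ⟨G.inn i, hi, hvert _ (hinn i) hi⟩
    · rcases eq_or_ne s 0 with rfl | hs0
      · right; right
        exact ⟨_, hG.f0 k hk, hvert _ (hw k hk).1 (hG.f0 k hk)⟩
      rcases eq_or_ne s 1 with rfl | hs1
      · right; right
        exact ⟨_, hG.f1 k hk, hvert _ (hw k hk).2 (hG.f1 k hk)⟩
      have h0 : 0 < s := unitInterval.pos_iff_ne_zero.2 hs0
      have h1 : s < 1 := unitInterval.lt_one_iff_ne_one.2 hs1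
      have hm : k ∈ M := by
        rw [hM, List.mem_filter]
        refine ⟨?_, ?_⟩
        · rw [marks, List.mem_filter, List.mem_range]
          refine ⟨by omega, ?_⟩
          rw [decide_eq_true_eq]
          left
          exact hk
        · rw [decide_eq_true_eq]
          left
          exact ⟨hk, s, h0, h1, hySL⟩
      have := hcov _ hm
      rw [covers, if_pos hk] at this
      obtain ⟨l, hl, d, hd, hdx⟩ := this
      right; left
      refine ⟨l, hl, d, hd, ?_⟩
      obtain ⟨h2, h3⟩ := hcS k hk s h0 h1 hyS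
      cases hx : d.1 with
      | full j =>
        rw [hx] at hdx
        simp only [Item.ix, Option.some.injEq] at hdx
        subst hdx
        exact ⟨s, rfl⟩
      | lo j =>
        rw [hx] at hdx
        simp only [Item.ix, Option.some.injEq] at hdx
        subst hdx
        exact ⟨s, ⟨h0.le, h3⟩, rfl⟩
      | hi j =>
        rw [hx] at hdx
        simp only [Item.ix, Option.some.injEq] at hdx
        subst hdx
        exact ⟨s, ⟨h2, h1.le⟩, rfl⟩
      | str r =>
        rw [hx] at hdx
        simp [Item.ix] at hdx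

end topo

/-! ## The search -/

/-- search through the sets of at most 6 marks; `R` is a bit mask of rows -/
def dfs (good : ℕ → ℕ → Bool) (C : List ℕ) : List ℕ → ℕ → ℕ → Bool
  | [], _, _ => true
  | m :: ms, used, R => dfs good C ms used R && (used == 6 ||
      (good (used + 1) (R &&& C.getD m 0) && dfs good C ms (used + 1) (R &&& C.getD m 0)))

/-- rows covering all marks of a list -/
def inter (C : List ℕ) (R : ℕ) (s : List ℕ) : ℕ := s.foldl (fun R m => R &&& C.getD m 0) R

theorem dfs_sound (good : ℕ → ℕ → Bool) (C : List ℕ) (ms : List ℕ) :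
    ∀ used R, used ≤ 6 → dfs good C ms used R = true → ∀ s : List ℕ, s.Sublist ms → s ≠ [] →
    used + s.length ≤ 6 → good (used + s.length) (inter C R s) = true := by
  induction ms with
  | nil =>
    intro used R _ _ s hs hne
    exact absurd (List.sublist_nil.1 hs) hne
  | cons m ms ih =>
    intro used R hu h s hs hne hl
    rw [dfs, Bool.and_eq_true, Bool.or_eq_true, Bool.and_eq_true] at h
    obtain ⟨h1, h2⟩ := h
    cases hs with
    | cons _ hs => exact ih used R hu h1 s hs hne hl
    | cons_cons _ hs =>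
      rename_i s
      simp only [List.length_cons] at hl
      have hu' : used ≠ 6 := by omega
      rcases h2 with h2 | ⟨h2, h3⟩
      · exact absurd (by simpa using h2) hu'
      · simp only [inter, List.foldl_cons, List.length_cons]
        rcases eq_or_ne s [] with rfl | hs0
        · simpa using h2
        · have := ih (used + 1) _ (by omega) h3 s hs hs0 (by omega)
          rw [show used + (s.length + 1) = used + 1 + s.length by omega]
          exact this

/-- the test of one set of rows. `F a` is a list of pairs: a member of the family, and the mask of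
the rows whose inner pattern belongs to it; `RQ` is the list of the masks of the rows with given
outer pattern. -/
def good (F : List (List (ℕ × ℕ))) (F' : List (List ℕ)) (RQ : List ℕ) (used R : ℕ) : Bool :=
  (List.range (7 - used)).all fun a => (F.getD a []).all fun A =>
    (F'.getD (a + used) []).any fun A' => (List.range 14).all fun q =>
      !A'.testBit q || (R &&& A.2 &&& RQ.getD q 0 != 0)

/-- the checks which connect the masks with the table -/
structure Chk (G : Gad) (tab : List Entry) (F : List (List (ℕ × ℕ))) (F' : List (List ℕ))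
    (RQ C : List ℕ) : Prop where
  ok : ∀ e ∈ tab, e.OK G ∧ e.p < 14
  cov : ∀ m < G.ne + G.nv, ∀ j < tab.length, (C.getD m 0).testBit j = true →
    covers G (tab.getD j ⟨0, 0, []⟩) m
  rq : ∀ q < 14, RQ.getD q 0 < 2 ^ tab.length ∧ ∀ j < tab.length, (RQ.getD q 0).testBit j = true →
    (tab.getD j ⟨0, 0, []⟩).q = q
  ra : ∀ a < 7, ∀ A ∈ F.getD a [], ∀ j < tab.length, A.2.testBit j = true →
    A.1.testBit (tab.getD j ⟨0, 0, []⟩).p = true

instance (G : Gad) (tab : List Entry) (F : List (List (ℕ × ℕ))) (F' : List (List ℕ))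
    (RQ C : List ℕ) : Decidable (Chk G tab F F' RQ C) :=
  decidable_of_iff ((∀ e ∈ tab, e.OK G ∧ e.p < 14) ∧
    (∀ m < G.ne + G.nv, ∀ j < tab.length, (C.getD m 0).testBit j = true →
      covers G (tab.getD j ⟨0, 0, []⟩) m) ∧
    (∀ q < 14, RQ.getD q 0 < 2 ^ tab.length ∧
      ∀ j < tab.length, (RQ.getD q 0).testBit j = true →
      (tab.getD j ⟨0, 0, []⟩).q = q) ∧
    (∀ a < 7, ∀ A ∈ F.getD a [], ∀ j < tab.length, A.2.testBit j = true →
      A.1.testBit (tab.getD j ⟨0, 0, []⟩).p = true))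
    ⟨fun ⟨a, b, c, d⟩ => ⟨a, b, c, d⟩, fun h => ⟨h.1, h.2, h.3, h.4⟩⟩

theorem inter_testBit (C : List ℕ) (s : List ℕ) : ∀ R j, (inter C R s).testBit j = true →
    R.testBit j = true ∧ ∀ m ∈ s, (C.getD m 0).testBit j = true := by
  induction s with
  | nil => intro R j h; exact ⟨h, by simp⟩
  | cons m s ih =>
    intro R j h
    obtain ⟨h1, h2⟩ := ih _ j h
    rw [Nat.testBit_and, Bool.and_eq_true] at h1
    refine ⟨h1.1, ?_⟩
    intro m' hm'
    rcases List.mem_cons.1 hm' with rfl | hm'
    · exact h1.2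
    · exact h2 m' hm'

theorem search_sound (G : Gad) (tab : List Entry) (F : List (List (ℕ × ℕ))) (F' : List (List ℕ))
    (RQ C : List ℕ) (hc : Chk G tab F F' RQ C) (R : ℕ)
    (h0 : good F F' RQ 0 R = true) (hd : dfs (good F F' RQ) C (marks G) 0 R = true) :
    ∀ a, ∀ A ∈ (F.getD a []).map Prod.fst, ∀ M : List ℕ, M.Sublist (marks G) →
      a + M.length ≤ 6 →
      ∃ A' ∈ F'.getD (a + M.length) [], ∀ q < 14, A'.testBit q = true →
        ∃ e : Entry, e.OK G ∧ e.p < 14 ∧ A.testBit e.p = true ∧ e.q = q ∧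
          ∀ m ∈ M, covers G e m := by
  intro a A hA M hM hl
  obtain ⟨A1, hA1, rfl⟩ := List.mem_map.1 hA
  have hg : good F F' RQ M.length (inter C R M) = true := by
    rcases eq_or_ne M [] with rfl | hne
    · exact h0
    · have := dfs_sound (good F F' RQ) C (marks G) 0 R (by omega) hd M hM hne (by omega)
      simpa using this
  rw [good, List.all_eq_true] at hg
  have h1 := hg a (List.mem_range.2 (by omega))
  rw [List.all_eq_true] at h1
  have h2 := h1 A1 hA1
  rw [List.any_eq_true] at h2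
  obtain ⟨A', hA', h3⟩ := h2
  refine ⟨A', hA', ?_⟩
  intro q hq hqA
  rw [List.all_eq_true] at h3
  have h4 := h3 q (List.mem_range.2 hq)
  rw [hqA] at h4
  simp only [Bool.not_true, Bool.false_or, bne_iff_ne, ne_eq] at h4
  obtain ⟨j, hj⟩ := Nat.exists_testBit_of_ne_zero h4
  rw [Nat.testBit_and, Nat.testBit_and, Bool.and_eq_true, Bool.and_eq_true] at hj
  obtain ⟨⟨hj1, hj2⟩, hj3⟩ := hj
  have hjt : j < tab.length := by
    by_contra h
    have h5 := (hc.rq q hq).1
    have : (RQ.getD q 0).testBit j = false :=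
      Nat.testBit_lt_two_pow (lt_of_lt_of_le h5 (Nat.pow_le_pow_right (by norm_num) (by omega)))
    rw [this] at hj3
    exact absurd hj3 (by simp)
  have hmem : tab.getD j ⟨0, 0, []⟩ ∈ tab := by
    rw [List.getD_eq_getElem _ _ hjt]
    exact List.getElem_mem hjt
  obtain ⟨hok, hp⟩ := hc.ok _ hmem
  refine ⟨tab.getD j ⟨0, 0, []⟩, hok, hp, hc.ra a (by omega) A1 hA1 j hjt hj2,
    (hc.rq q hq).2 j hjt hj3, ?_⟩
  intro m hm
  have hmm := hM.subset hm
  rw [marks, List.mem_filter, List.mem_range] at hmm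
  exact hc.cov m hmm.1 j hjt ((inter_testBit C M R j hj1).2 m hm)

end Pool.Agent.H742.AC6
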