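import Pool.Agent.H742.AC6.Defs

/-!
# The construction and the lemma statements for MP_917a41_gt

Ambient space `Fin 3 → ℝ`; all sets lie in the boundary of the positive octant.
-/

namespace Pool.Agent.H742.AC6

open Set Topology TopologicalSpace

noncomputable section

/-! ## The construction -/

/-- Points in sector `i` (between the axes `i` and `i+1`). -/
def P (i : Fin 3) (r t : ℝ) : Fin 3 → ℝ :=
  fun k => if k = i then r * (1 - t) else if k = i + 1 then r * (3 / 2) * t else 0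

/-- the scale of layer `n` -/
def sg (n : ℕ) : ℝ := (1 / 2) ^ n

/-- A segment of the axis `i`. -/
def Ax (i : Fin 3) (a b : ℝ) : Set (Fin 3 → ℝ) := (fun r => P i r 0) '' Icc a b

/-- The finger of leg `i` in layer `n`, of width (and gap) `g`; it is the rung if `g = 0`. -/
def Tent (i : Fin 3) (n : ℕ) (g : ℝ) : Set (Fin 3 → ℝ) :=
  (fun t => P i (sg n * (5 / 8 + g * t / 16)) ((1 - g) * (1 - |t|))) '' Icc (-1) 1

/-- Leg `i` in layer `n`. -/
def Layer (i : Fin 3) (n : ℕ) (g : ℝ) : Set (Fin 3 → ℝ) :=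
  Ax i (sg n / 2) (sg n * (5 / 8 - g / 16)) ∪ Tent i n g ∪ Ax i (sg n * (5 / 8 + g / 16)) (sg n)

/-- Everything inside of radius `sg n`. -/
def TT (g : ℕ → ℝ) (n : ℕ) : Set (Fin 3 → ℝ) :=
  {0} ∪ ⋃ i : Fin 3, ⋃ m : {m : ℕ // n ≤ m}, Layer i m (g m)

/-- The closing arc from the end of leg `0` to the outer vertex `(0,2,0)`. -/
def C0 : Set (Fin 3 → ℝ) :=
  (fun u : ℝ => (fun k : Fin 3 => if k = 0 then 1 - u else if k = 1 then 2 * u else 0)) '' Icc 0 1

/-- The closing arc from the end of leg `2` to the outer vertex `(0,2,0)`. -/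
def C2 : Set (Fin 3 → ℝ) :=
  (fun u : ℝ => (fun k : Fin 3 => if k = 2 then 1 - u else if k = 1 then 2 * u else 0)) '' Icc 0 1

/-- Coordinates near axis `1`, outside of the unit ball, towards axis `0`. -/
def W (u v : ℝ) : Fin 3 → ℝ := fun k => if k = 1 then 1 + u else if k = 0 then v else 0

/-- left end of block `M` : `1 - 2^(-M)` -/
def uu (M : ℕ) : ℝ := 1 - (1 / 2) ^ M

/-- position of the wall of block `M` -/
def cc (M : ℕ) : ℝ := uu M + (1 / 2) ^ M / 4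

/-- right end of bump `n` of block `M` -/
def xx (M n : ℕ) : ℝ := cc M + (1 / 2) ^ M / 4 * (1 / 2) ^ n

def Rise (M : ℕ) : Set (Fin 3 → ℝ) :=
  (fun t : ℝ => W (uu M + t * (1 / 2) ^ M / 4) (t * (1 / 2) ^ M / 8)) '' Icc 0 1

def Wall (M : ℕ) : Set (Fin 3 → ℝ) :=
  (fun t : ℝ => W (cc M) (t * (1 / 2) ^ M / 8)) '' Icc 0 1

def bv (β : Bool) : ℝ := if β then 1 else 0

def Bump (M n : ℕ) (β : Bool) : Set (Fin 3 → ℝ) :=
  (fun t : ℝ => W (xx M (n + 1) + t * (xx M n - xx M (n + 1)))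
    (bv β * ((1 / 2) ^ M / 8) * (1 - |2 * t - 1|))) '' Icc 0 1

def Block (b : ℕ → ℕ → Bool) (M : ℕ) : Set (Fin 3 → ℝ) :=
  Rise M ∪ Wall M ∪ ⋃ n, Bump M n (b M n)

/-- The closing piece from the end `(0,1,0)` of leg `1` to the outer vertex `(0,2,0)`. -/
def GG (b : ℕ → ℕ → Bool) : Set (Fin 3 → ℝ) := {W 1 0} ∪ ⋃ M, Block b M

/-- The continuum. -/
def KK (g : ℕ → ℝ) (b : ℕ → ℕ → Bool) : Set (Fin 3 → ℝ) := TT g 0 ∪ C0 ∪ C2 ∪ GG b

/-- The sum of the coordinates. -/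
def size (y : Fin 3 → ℝ) : ℝ := y 0 + y 1 + y 2

end

/-! ## Gadgets: finite graphs glued to an inner part -/

/-- A gadget: `nv` vertices, `ne` edges `k` from `src k` to `tgt k`, three inner terminals and three
outer terminals. -/
structure Gad where
  nv : ℕ
  ne : ℕ
  src : ℕ → ℕ
  tgt : ℕ → ℕ
  inn : Fin 3 → ℕ
  out : Fin 3 → ℕ

/-- Tripod: centre `0`, ends `1,2,3`. -/
def STAR : Gad := ⟨4, 3, fun _ => 0, fun k => k + 1, fun _ => 0, fun i => 1 + i⟩

/-- Three legs: edges from `k` to `3 + k`. -/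
def EXT : Gad := ⟨6, 3, fun k => k, fun k => 3 + k, fun i => i, fun i => 3 + i⟩

/-- Hexagon layer: `s_i = i`, `t_i = 3 + i`, `p_i = 6 + i`; edges `s_i t_i` (`0,1,2`),
`s_i t_(i+1)` (`3,4,5`), `t_i p_i` (`6,7,8`). -/
def HEX : Gad := ⟨9, 9, fun k => if k < 6 then k % 3 else k - 3,
  fun k => if k < 3 then k + 3 else if k < 6 then 3 + (k - 3 + 1) % 3 else k,
  fun i => i, fun i => 6 + i⟩

/-- Closing: edges from `0,1,2` to `3`; the outer terminals `4,5,6` are dummies. -/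
def CLOSE : Gad := ⟨7, 3, fun k => k, fun _ => 3, fun i => i, fun i => 4 + i⟩

section glue

variable {Y : Type*} [TopologicalSpace Y]

/-- The gadget `G`, with vertices `pos v` and edges the arcs `f k`, is glued to `T` at the inner
terminals. -/
structure Glue (G : Gad) (pos : ℕ → Y) (f : ℕ → unitInterval → Y) (T : Set Y) : Prop where
  pinj : ∀ v < G.nv, ∀ w < G.nv, pos v = pos w → v = w
  fc : ∀ k < G.ne, Continuous (f k)
  fi : ∀ k < G.ne, Function.Injective (f k)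
  f0 : ∀ k < G.ne, f k 0 = pos (G.src k)
  f1 : ∀ k < G.ne, f k 1 = pos (G.tgt k)
  fmeet : ∀ k < G.ne, ∀ l < G.ne, k ≠ l → ∀ s t, f k s = f l t →
    ∃ v, f k s = pos v ∧ (v = G.src k ∨ v = G.tgt k) ∧ (v = G.src l ∨ v = G.tgt l)
  fT : ∀ k < G.ne, ∀ s, f k s ∈ T → ∃ i, f k s = pos (G.inn i) ∧
    (G.inn i = G.src k ∨ G.inn i = G.tgt k)
  pf : ∀ v < G.nv, ∀ k < G.ne, ∀ s, f k s = pos v → v = G.src k ∨ v = G.tgt k
  pT : ∀ v < G.nv, pos v ∈ T → ∃ i, v = G.inn i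

/-- The union of the edges. -/
def edges (G : Gad) (f : ℕ → unitInterval → Y) : Set Y := {y | ∃ k < G.ne, y ∈ range (f k)}

/-- `T` is a finite union of arcs meeting only in endpoints, and the terminals `z i` are not
interior points of these arcs. -/
def GR (T : Set Y) (z : Fin 3 → Y) : Prop :=
  ∃ (m : ℕ) (f : Fin m → unitInterval → Y),
    (∀ i, Continuous (f i)) ∧ (∀ i, Function.Injective (f i)) ∧ T = (⋃ i, range (f i)) ∧
    (∀ i j, i ≠ j → ∀ s t, f i s = f j t → (s = 0 ∨ s = 1) ∧ (t = 0 ∨ t = 1)) ∧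
    ∀ i j s, f j s = z i → (s = 0 ∨ s = 1)

end glue

end Pool.Agent.H742.AC6
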