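import Pool.Agent.H742.AC6.Stm

/-!
# Lemma statements for MP_917a41_gt
-/

namespace Pool.Agent.H742.AC6

open Set Topology TopologicalSpace

universe u

/-! ## General topology of arcs -/

/-- concatenation of two arcs -/
def S_CONCAT : Prop := ∀ (Y : Type) [TopologicalSpace Y] [T2Space Y] (A B : Set Y) (a b c : Y),
  IsArc A a b → IsArc B b c → A ∩ B = {b} → IsArc (A ∪ B) a c

/-- an infinite sequence of arcs, converging to a point -/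
def S_INF : Prop := ∀ (Y : Type) [MetricSpace Y] (A : ℕ → Set Y) (a : ℕ → Y) (p : Y),
  (∀ n, IsArc (A n) (a (n + 1)) (a n)) →
  (∀ n, A n ∩ A (n + 1) = {a (n + 1)}) →
  (∀ n m, n + 1 < m → Disjoint (A n) (A m)) →
  (∀ n, p ∉ A n) →
  (∀ ε > 0, ∃ N, ∀ n ≥ N, A n ⊆ Metric.ball p ε) →
  IsArc ({p} ∪ ⋃ n, A n) p (a 0)

/-- a triple of points `x 0, x 1, x 2` of `C`, any two of which lie in a connected subset of `C`
which misses the third one -/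
def HasTriod {Y : Type} [TopologicalSpace Y] (C : Set Y) : Prop :=
  IsConnected C ∧ ∃ x : Fin 3 → Y, (∀ i, x i ∈ C) ∧ ∀ i, ∃ D ⊆ C, IsConnected D ∧ x i ∉ D ∧
    ∀ j, j ≠ i → x j ∈ D

/-- a graph does not contain infinitely many pairwise disjoint triods -/
def S_NG1 : Prop := ∀ (Y : Type) [MetricSpace Y] (K : Set Y), IsGraph K →
  ¬ ∃ C : ℕ → Set Y, (∀ n, C n ⊆ K) ∧ (∀ n m, n ≠ m → Disjoint (C n) (C m)) ∧ ∀ n, HasTriod (C n)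

/-- a graph does not contain infinitely many pairwise disjoint connected sets with two points at
distance at least `δ` -/
def S_NG2 : Prop := ∀ (Y : Type) [MetricSpace Y] (K : Set Y) (δ : ℝ), 0 < δ → IsGraph K →
  ¬ ∃ C : ℕ → Set Y, (∀ n, C n ⊆ K) ∧ (∀ n m, n ≠ m → Disjoint (C n) (C m)) ∧
    ∀ n, IsConnected (C n) ∧ ∃ x ∈ C n, ∃ y ∈ C n, δ ≤ dist x y

/-- the seven marked points at a path of three cubic vertices `v 0, v 1, v 2` do not lie on an arc.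
The arcs `h j` (`j < 9`) go from the vertices to marks: `h (3 r + s)` from `v r` to the mark
`mk r s`. Marks: `m 0, …, m 6`; vertex `v 0` has the marks `0,1,2`, vertex `v 1` has `2,3,4`,
vertex `v 2` has `4,5,6`. Near the marks `0,1,3,5,6` the rest of `K` is an arc `e r` starting at the
mark. -/
def mk : Fin 3 → Fin 3 → Fin 7 := ![![0, 1, 2], ![2, 3, 4], ![4, 5, 6]]

def S_N7 : Prop := ∀ (Y : Type) [MetricSpace Y] (K : Set Y) (v : Fin 3 → Y) (m : Fin 7 → Y)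
    (h : Fin 3 → Fin 3 → Set Y) (e : Fin 7 → Set Y) (w : Fin 7 → Y),
  Function.Injective m →
  -- the nine arcs
  (∀ r s, IsArc (h r s) (v r) (m (mk r s))) →
  (∀ r s, h r s ⊆ K) →
  (∀ r s s', s ≠ s' → h r s ∩ h r s' = {v r}) →
  (∀ r r' s s', r ≠ r' → ∀ y ∈ h r s, y ∈ h r' s' → y = m 2 ∨ y = m 4) →
  -- marks on these arcs are the endpoints only
  (∀ r s i, m i ∈ h r s → i = mk r s) →
  -- the open stars are open in `K`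
  (∀ r, ∃ U : Set Y, IsOpen U ∧ U ∩ K = (⋃ s, h r s) \ (range m)) →
  -- outer germs at the marks 0,1,3,5,6
  (∀ i, i ≠ 2 → i ≠ 4 → IsArc (e i) (m i) (w i) ∧ e i ⊆ K ∧ (∀ r s, e i ∩ h r s ⊆ {m i}) ∧
    ∃ U : Set Y, IsOpen U ∧ m i ∈ U ∧ U ∩ K ⊆ e i ∪ ⋃ r, ⋃ s, h r s) →
  -- near the marks 2, 4 there is nothing else
  (∀ i, i = 2 ∨ i = 4 → ∃ U : Set Y, IsOpen U ∧ m i ∈ U ∧ U ∩ K ⊆ ⋃ r, ⋃ s, h r s) →
  ¬ ∃ (A : Set Y) (a b : Y), IsArc A a b ∧ A ⊆ K ∧ ∀ i, m i ∈ A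

/-! ## Descriptive set theory -/

/-- `Sigma_3` sets: finitely many zeros of continuous functions -/
def S_SIGMA : Prop := ∀ (Z : Type u) [TopologicalSpace Z] [PolishSpace Z],
  IsTopologicalBasis {s : Set Z | IsClopen s} → ∀ B : Set Z, IsSigma3 B →
  ∃ g : ℕ → Z → ℝ, (∀ n, Continuous (g n)) ∧ (∀ n z, g n z ∈ Icc (0 : ℝ) 1) ∧
    ∀ z, z ∈ B ↔ {n | g n z = 0}.Finite

/-- `Pi_3` sets: in each row of locally constant bits finitely many ones -/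
def S_PI : Prop := ∀ (Z : Type u) [TopologicalSpace Z] [PolishSpace Z],
  IsTopologicalBasis {s : Set Z | IsClopen s} → ∀ A : Set Z, IsPi3 A →
  ∃ b : ℕ → ℕ → Z → Bool, (∀ M n, Continuous (b M n)) ∧
    ∀ z, z ∈ A ↔ ∀ M, {n | b M n z = true}.Finite

/-! ## Continuity, connectedness, embedding -/

def S_CONT : Prop := ∀ (Z : Type u) [TopologicalSpace Z] (g : ℕ → Z → ℝ) (b : ℕ → ℕ → Z → Bool),
  (∀ n, Continuous (g n)) → (∀ n z, g n z ∈ Icc (0 : ℝ) 1) → (∀ M n, Continuous (b M n)) →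
  ∃ F : Z → NonemptyCompacts (Fin 3 → ℝ), Continuous F ∧
    ∀ z, (F z : Set (Fin 3 → ℝ)) = KK (fun n => g n z) (fun M n => b M n z)

def S_CONN : Prop := ∀ (g : ℕ → ℝ) (b : ℕ → ℕ → Bool), (∀ n, g n ∈ Icc (0 : ℝ) 1) →
  IsConnected (KK g b)

/-- all points of the continua have coordinates in `[0,2]`, one of them zero -/
def S_REGION : Prop := ∀ (g : ℕ → ℝ) (b : ℕ → ℕ → Bool), (∀ n, g n ∈ Icc (0 : ℝ) 1) →
  ∀ y ∈ KK g b, (∀ k, y k ∈ Icc (0 : ℝ) 2) ∧ ∃ k, y k = 0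

def S_EMBED : Prop := ∀ N : ℕ, 2 ≤ N → ∃ φ : (Fin 3 → ℝ) → (Fin N → unitInterval),
  Continuous φ ∧ InjOn φ {y | (∀ k, y k ∈ Icc (0 : ℝ) 2) ∧ ∃ k, y k = 0}

def S_TRANSFER : Prop := ∀ (Y Y' : Type) [TopologicalSpace Y] [TopologicalSpace Y'] [T2Space Y]
  [T2Space Y'] (K : Set Y) (φ : Y → Y'), IsCompact K → Continuous φ → InjOn φ K →
  (IsGraph (φ '' K) ↔ IsGraph K) ∧ ∀ n, NAC n (φ '' K) ↔ NAC n K

/-! ## Geometry of the pieces -/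

/-- a leg in a layer with positive gap is an arc -/
def S_LAYERARC : Prop := ∀ (i : Fin 3) (n : ℕ) (g : ℝ), 0 < g → g ≤ 1 →
  IsArc (Layer i n g) (P i (sg n / 2) 0) (P i (sg n) 0)

/-- the layers are in disjoint annuli -/
def S_SIZE : Prop := ∀ (i : Fin 3) (n : ℕ) (g : ℝ), 0 ≤ g → g ≤ 1 → ∀ y ∈ Layer i n g,
  sg n / 2 ≤ size y ∧ size y ≤ sg n ∧ (size y = sg n / 2 → y = P i (sg n / 2) 0) ∧
  (size y = sg n → y = P i (sg n) 0)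

/-- different legs are disjoint in a layer if the gap is positive -/
def S_LAYERDISJ : Prop := ∀ (i j : Fin 3) (n : ℕ) (g : ℝ), 0 < g → g ≤ 1 → i ≠ j →
  Disjoint (Layer i n g) (Layer j n g)

/-- the closing piece is an arc if every block has finitely many bumps -/
def S_GARC : Prop := ∀ b : ℕ → ℕ → Bool, (∀ M, {n | b M n = true}.Finite) →
  IsArc (GG b) (W 0 0) (W 1 0)

/-- position of the closing pieces -/
def S_GPOS : Prop := ∀ b : ℕ → ℕ → Bool,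
  (∀ y ∈ GG b, 1 ≤ size y ∧ (size y = 1 → y = W 0 0)) ∧
  (∀ y ∈ C0, 1 ≤ size y ∧ (size y = 1 → y = P 0 1 0)) ∧
  (∀ y ∈ C2, 1 ≤ size y ∧ (size y = 1 → y = P 2 1 0)) ∧
  GG b ∩ C0 ⊆ {W 1 0} ∧ GG b ∩ C2 ⊆ {W 1 0} ∧ C0 ∩ C2 ⊆ {W 1 0} ∧
  IsArc C0 (P 0 1 0) (W 1 0) ∧ IsArc C2 (P 2 1 0) (W 1 0)

/-! ## Glueing -/

/-- the innermost part: a tripod -/
def S_STARGLUE : Prop := ∀ (g : ℕ → ℝ) (n : ℕ), (∀ m, g m ∈ Icc (0 : ℝ) 1) →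
  (∀ m ≥ n, 0 < g m) → ∃ (pos : ℕ → (Fin 3 → ℝ)) (f : ℕ → unitInterval → (Fin 3 → ℝ)),
    Glue STAR pos f ∅ ∧ (∀ i, pos (STAR.out i) = P i (sg n) 0) ∧ TT g n = edges STAR f

/-- a layer with positive gap: the legs are prolonged -/
def S_EXTGLUE : Prop := ∀ (g : ℕ → ℝ) (n : ℕ), (∀ m, g m ∈ Icc (0 : ℝ) 1) → 0 < g n →
  ∃ (pos : ℕ → (Fin 3 → ℝ)) (f : ℕ → unitInterval → (Fin 3 → ℝ)),
    Glue EXT pos f (TT g (n + 1)) ∧ (∀ i, pos (EXT.inn i) = P i (sg (n + 1)) 0) ∧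
    (∀ i, pos (EXT.out i) = P i (sg n) 0) ∧ TT g n = TT g (n + 1) ∪ edges EXT f

/-- a full layer, inner legs -/
def S_EXT0GLUE : Prop := ∀ (g : ℕ → ℝ) (n : ℕ), (∀ m, g m ∈ Icc (0 : ℝ) 1) →
  ∃ (pos : ℕ → (Fin 3 → ℝ)) (f : ℕ → unitInterval → (Fin 3 → ℝ)),
    Glue EXT pos f (TT g (n + 1)) ∧ (∀ i, pos (EXT.inn i) = P i (sg (n + 1)) 0) ∧
    (∀ i, pos (EXT.out i) = P i (sg n * (5 / 8)) 0) ∧
    edges EXT f = ⋃ i, Ax i (sg n / 2) (sg n * (5 / 8))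

/-- a full layer, hexagon and outer legs -/
def S_HEXGLUE : Prop := ∀ (g : ℕ → ℝ) (n : ℕ), (∀ m, g m ∈ Icc (0 : ℝ) 1) → g n = 0 →
  ∃ (pos : ℕ → (Fin 3 → ℝ)) (f : ℕ → unitInterval → (Fin 3 → ℝ)),
    Glue HEX pos f (TT g (n + 1) ∪ ⋃ i, Ax i (sg n / 2) (sg n * (5 / 8))) ∧
    (∀ i, pos (HEX.inn i) = P i (sg n * (5 / 8)) 0) ∧ (∀ i, pos (HEX.out i) = P i (sg n) 0) ∧
    TT g n = (TT g (n + 1) ∪ ⋃ i, Ax i (sg n / 2) (sg n * (5 / 8))) ∪ edges HEX f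

/-- the closing arcs -/
def S_CLOSEGLUE : Prop := ∀ (g : ℕ → ℝ) (b : ℕ → ℕ → Bool), (∀ m, g m ∈ Icc (0 : ℝ) 1) →
  (∀ M, {n | b M n = true}.Finite) →
  ∃ (pos : ℕ → (Fin 3 → ℝ)) (f : ℕ → unitInterval → (Fin 3 → ℝ)),
    Glue CLOSE pos f (TT g 0) ∧ (∀ i, pos (CLOSE.inn i) = P i 1 0) ∧
    (∀ i, pos (CLOSE.out i) ∉ KK g b) ∧ KK g b = TT g 0 ∪ edges CLOSE f

/-- glueing a gadget to a graph gives a graph -/
def S_GRSTEP : Prop := ∀ (Y : Type) [TopologicalSpace Y] (G : Gad) (pos : ℕ → Y)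
  (f : ℕ → unitInterval → Y) (T : Set Y), Glue G pos f T → (∀ i, G.inn i < G.nv) →
  (∀ i, G.out i < G.nv) → GR T (fun i => pos (G.inn i)) →
  GR (T ∪ edges G f) (fun i => pos (G.out i))

/-! ## The bad cases, and not 7-ac -/

def S_BADSIGMA : Prop := ∀ (g : ℕ → ℝ) (b : ℕ → ℕ → Bool), (∀ n, g n ∈ Icc (0 : ℝ) 1) →
  {n | g n = 0}.Infinite → ¬ IsGraph (KK g b)

def S_BADPI : Prop := ∀ (g : ℕ → ℝ) (b : ℕ → ℕ → Bool), (∀ n, g n ∈ Icc (0 : ℝ) 1) →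
  (∃ M, {n | b M n = true}.Infinite) → ¬ IsGraph (KK g b)

def S_NOT7 : Prop := ∀ (g : ℕ → ℝ) (b : ℕ → ℕ → Bool), (∀ n, g n ∈ Icc (0 : ℝ) 1) →
  (∃ n, g n = 0) → ¬ NAC 7 (KK g b)

end Pool.Agent.H742.AC6
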