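import Pool.Agent.H742.AC6.Step

/-!
# The tables, checked by the kernel
-/

namespace Pool.Agent.H742.AC6

/-- the family of sets of patterns (bit masks), by the number of marked points -/
def famL : List (List ℕ) := [[16381], [16232, 16292, 16336], [16160, 16192, 16256], [16128], [1792], [768, 1280, 1536], [256, 512, 1024]]

/-- the pattern of one arc inside -/
def famI : List (List ℕ) := [[2], [2], [2], [2], [2], [2], [2]]

/-- table for the gadget STAR -/
def tabSTAR : List Entry := [
  ⟨0, 0, []⟩,
  ⟨0, 4, [[(.full 2, false), (.lo 0, true)]]⟩,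
  ⟨0, 3, [[(.full 1, false), (.lo 2, true)]]⟩,
  ⟨0, 5, [[(.full 1, false), (.full 2, true)]]⟩,
  ⟨0, 8, [[(.full 1, false), (.lo 0, true)], [(.hi 2, false)]]⟩,
  ⟨0, 2, [[(.full 0, false), (.lo 1, true)]]⟩,
  ⟨0, 6, [[(.full 0, false), (.full 2, true)]]⟩,
  ⟨0, 9, [[(.full 0, false), (.lo 1, true)], [(.hi 2, false)]]⟩,
  ⟨0, 7, [[(.full 0, false), (.full 1, true)]]⟩,
  ⟨0, 13, [[(.full 0, false), (.full 1, true)], [(.hi 2, false)]]⟩,
  ⟨0, 10, [[(.full 0, false), (.lo 2, true)], [(.hi 1, false)]]⟩,
  ⟨0, 12, [[(.full 0, false), (.full 2, true)], [(.hi 1, false)]]⟩,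
  ⟨0, 11, [[(.full 1, false), (.full 2, true)], [(.hi 0, false)]]⟩]

def CSTAR : List ℕ := [8178, 8124, 7902, 8190, 0, 0, 0]

def RQSTAR : List ℕ := [1, 0, 32, 4, 2, 8, 64, 256, 16, 128, 1024, 4096, 2048, 512]

def FSTAR : List (List (ℕ × ℕ)) := [[(1, 8191)], [], [], [], [], [], []]

theorem chkSTAR : Chk STAR tabSTAR FSTAR famL RQSTAR CSTAR := by decide +kernel

theorem goodSTAR : good FSTAR famL RQSTAR 0 8191 = true := by decide +kernel

theorem dfsSTAR : dfs (good FSTAR famL RQSTAR) CSTAR (marks STAR) 0 8191 = true := by decide +kernel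

/-- table for the gadget EXT -/
def tabEXT : List Entry := [
  ⟨0, 0, []⟩,
  ⟨5, 3, [[(.full 1, false), (.str 0, true), (.lo 2, true)]]⟩,
  ⟨5, 5, [[(.full 1, false), (.str 0, true), (.full 2, true)]]⟩,
  ⟨6, 4, [[(.full 2, false), (.str 0, false), (.lo 0, true)]]⟩,
  ⟨6, 6, [[(.full 0, false), (.str 0, true), (.full 2, true)]]⟩,
  ⟨7, 2, [[(.full 0, false), (.str 0, true), (.lo 1, true)]]⟩,
  ⟨7, 7, [[(.full 0, false), (.str 0, true), (.full 1, true)]]⟩,
  ⟨8, 8, [[(.full 1, false), (.str 0, true)], [(.full 2, false), (.str 1, true)]]⟩,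
  ⟨9, 9, [[(.full 0, false), (.str 0, true)], [(.full 2, false), (.str 1, true)]]⟩,
  ⟨10, 10, [[(.full 0, false), (.str 0, true)], [(.full 1, false), (.str 1, true)]]⟩,
  ⟨11, 9, [[(.full 0, false), (.str 1, true)], [(.full 2, false), (.str 0, false), (.lo 1, true)]]⟩,
  ⟨11, 11, [[(.full 1, false), (.str 0, true), (.full 2, true)], [(.full 0, false), (.str 1, true)]]⟩,
  ⟨12, 10, [[(.full 0, false), (.str 0, true), (.lo 2, true)], [(.full 1, false), (.str 1, true)]]⟩,
  ⟨12, 12, [[(.full 0, false), (.str 0, true), (.full 2, true)], [(.full 1, false), (.str 1, true)]]⟩,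
  ⟨13, 8, [[(.full 1, false), (.str 0, false), (.lo 0, true)], [(.full 2, false), (.str 1, true)]]⟩,
  ⟨13, 13, [[(.full 0, false), (.str 0, true), (.full 1, true)], [(.full 2, false), (.str 1, true)]]⟩]

def CEXT : List ℕ := [65400, 65254, 64926, 65400, 65254, 64926, 0, 0, 0]

def RQEXT : List ℕ := [1, 0, 32, 2, 8, 4, 16, 64, 16512, 1280, 4608, 2048, 8192, 32768]

def FEXT : List (List (ℕ × ℕ)) := [[(16381, 65535)], [(16232, 65438), (16292, 65510), (16336, 65528)], [(16160, 65414), (16192, 65432), (16256, 65504)], [(16128, 65408)], [(1792, 896)], [(768, 384), (1280, 640), (1536, 768)], [(256, 128), (512, 256), (1024, 512)]]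

theorem chkEXT : Chk EXT tabEXT FEXT famL RQEXT CEXT := by decide +kernel

theorem goodEXT : good FEXT famL RQEXT 0 65535 = true := by decide +kernel

theorem dfsEXT : dfs (good FEXT famL RQEXT) CEXT (marks EXT) 0 65535 = true := by decide +kernel

/-- table for the gadget HEX -/
def tabHEX : List Entry := [
  ⟨0, 0, []⟩,
  ⟨0, 8, [[(.hi 7, false)], [(.full 8, false), (.full 2, false), (.full 5, true), (.full 0, false), (.full 3, true), (.full 1, false), (.lo 4, true)]]⟩,
  ⟨0, 9, [[(.full 6, false), (.full 0, false), (.full 3, true), (.full 1, false), (.full 4, true), (.full 2, false), (.lo 5, true)], [(.hi 8, false)]]⟩,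
  ⟨0, 10, [[(.full 6, false), (.full 0, false), (.full 3, true), (.full 1, false), (.full 4, true), (.full 2, false), (.lo 5, true)], [(.hi 7, false)]]⟩,
  ⟨2, 11, [[(.full 7, false), (.full 1, false), (.full 4, true), (.full 8, true)], [(.full 6, false), (.full 0, false), (.str 0, true)]]⟩,
  ⟨3, 12, [[(.full 6, false), (.full 5, false), (.full 2, true), (.full 8, true)], [(.full 7, false), (.full 1, false), (.str 0, true)]]⟩,
  ⟨4, 13, [[(.full 6, false), (.full 0, false), (.full 3, true), (.full 7, true)], [(.full 8, false), (.full 2, false), (.str 0, true)]]⟩,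
  ⟨5, 9, [[(.full 6, false), (.hi 5, false)], [(.full 8, false), (.full 2, false), (.str 0, false), (.full 1, true), (.lo 7, true)]]⟩,
  ⟨5, 9, [[(.hi 6, false)], [(.full 8, false), (.full 4, false), (.str 0, true), (.full 5, true), (.full 0, false), (.full 3, true), (.lo 7, true)]]⟩,
  ⟨5, 9, [[(.hi 6, false)], [(.full 8, false), (.full 2, false), (.str 0, false), (.full 1, true), (.full 3, false), (.full 0, true), (.hi 5, false)]]⟩,
  ⟨5, 9, [[(.full 6, false), (.full 0, false), (.full 3, true), (.full 1, false), (.str 0, true), (.full 2, true), (.hi 4, false)], [(.hi 8, false)]]⟩,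
  ⟨5, 9, [[(.full 6, false), (.full 0, false), (.lo 3, true)], [(.full 8, false), (.full 2, false), (.str 0, false), (.full 1, true), (.lo 7, true)]]⟩,
  ⟨5, 10, [[(.full 6, false), (.hi 5, false)], [(.full 7, false), (.full 1, false), (.str 0, true), (.full 2, true), (.lo 8, true)]]⟩,
  ⟨5, 10, [[(.full 6, false), (.hi 5, false)], [(.full 7, false), (.full 1, false), (.str 0, true), (.full 2, true), (.hi 4, false)]]⟩,
  ⟨5, 10, [[(.hi 6, false)], [(.full 7, false), (.full 3, false), (.full 0, true), (.full 5, false), (.str 0, false), (.full 4, true), (.lo 8, true)]]⟩,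
  ⟨5, 10, [[(.full 6, false), (.full 0, false), (.full 3, true), (.full 1, false), (.str 0, true), (.full 2, true), (.lo 8, true)], [(.hi 7, false)]]⟩,
  ⟨5, 4, [[(.full 8, false), (.full 2, false), (.str 0, false), (.full 1, true), (.full 3, false), (.full 0, true), (.lo 6, true)]]⟩,
  ⟨5, 8, [[(.full 7, false), (.full 1, false), (.str 0, true), (.full 5, true), (.lo 6, true)], [(.full 8, false), (.hi 2, false)]]⟩,
  ⟨5, 8, [[(.full 7, false), (.full 3, false), (.full 0, true), (.lo 6, true)], [(.full 8, false), (.full 4, false), (.str 0, true), (.lo 5, true)]]⟩,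
  ⟨5, 8, [[(.full 7, false), (.full 3, false), (.full 0, true), (.hi 5, false)], [(.full 8, false), (.full 2, false), (.str 0, false), (.lo 4, true)]]⟩,
  ⟨5, 8, [[(.full 7, false), (.full 1, false), (.str 0, true), (.full 5, true), (.full 0, false), (.lo 3, true)], [(.full 8, false), (.hi 4, false)]]⟩,
  ⟨5, 8, [[(.hi 7, false)], [(.full 8, false), (.full 2, false), (.str 0, false), (.full 1, true), (.full 3, false), (.full 0, true), (.lo 6, true)]]⟩,
  ⟨5, 8, [[(.hi 7, false)], [(.full 8, false), (.full 2, false), (.str 0, false), (.full 1, true), (.full 3, false), (.full 0, true), (.hi 5, false)]]⟩,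
  ⟨5, 6, [[(.full 6, false), (.full 0, false), (.full 3, true), (.full 1, false), (.str 0, true), (.full 2, true), (.full 8, true)]]⟩,
  ⟨5, 12, [[(.full 6, false), (.full 5, false), (.str 0, false), (.full 4, true), (.full 8, true)], [(.full 7, false), (.hi 1, false)]]⟩,
  ⟨5, 12, [[(.full 6, false), (.full 0, false), (.full 3, true), (.full 1, false), (.str 0, true), (.full 2, true), (.full 8, true)], [(.hi 7, false)]]⟩,
  ⟨5, 12, [[(.full 6, false), (.full 5, false), (.str 0, false), (.full 4, true), (.full 8, true)], [(.full 7, false), (.full 3, false), (.lo 0, true)]]⟩,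
  ⟨5, 13, [[(.full 6, false), (.full 5, false), (.str 0, false), (.full 1, true), (.full 7, true)], [(.full 8, false), (.hi 2, false)]]⟩,
  ⟨5, 13, [[(.full 6, false), (.full 0, false), (.full 3, true), (.full 7, true)], [(.full 8, false), (.full 4, false), (.str 0, true), (.lo 5, true)]]⟩,
  ⟨5, 13, [[(.full 6, false), (.full 0, false), (.full 3, true), (.full 7, true)], [(.full 8, false), (.full 2, false), (.str 0, false), (.lo 1, true)]]⟩,
  ⟨5, 5, [[(.full 7, false), (.full 3, false), (.full 0, true), (.full 5, false), (.str 0, false), (.full 4, true), (.full 8, true)]]⟩,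
  ⟨5, 11, [[(.full 7, false), (.full 3, false), (.full 0, true), (.full 5, false), (.str 0, false), (.full 4, true), (.full 8, true)], [(.hi 6, false)]]⟩,
  ⟨5, 11, [[(.full 7, false), (.full 1, false), (.str 0, true), (.full 2, true), (.full 8, true)], [(.full 6, false), (.full 0, false), (.lo 3, true)]]⟩,
  ⟨6, 9, [[(.full 6, false), (.full 5, false), (.str 0, false), (.lo 3, true)], [(.full 8, false), (.full 4, false), (.full 1, true), (.lo 7, true)]]⟩,
  ⟨6, 9, [[(.full 6, false), (.hi 5, false)], [(.full 8, false), (.full 2, false), (.str 0, false), (.full 3, true), (.full 1, false), (.lo 4, true)]]⟩,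
  ⟨6, 9, [[(.full 6, false), (.full 0, false), (.str 0, true), (.lo 5, true)], [(.full 8, false), (.full 4, false), (.full 1, true), (.hi 3, false)]]⟩,
  ⟨6, 9, [[(.full 6, false), (.full 0, false), (.str 0, true), (.full 2, true), (.full 4, false), (.full 1, true), (.lo 7, true)], [(.hi 8, false)]]⟩,
  ⟨6, 9, [[(.full 6, false), (.full 0, false), (.str 0, true), (.full 2, true), (.full 4, false), (.full 1, true), (.hi 3, false)], [(.hi 8, false)]]⟩,
  ⟨6, 9, [[(.full 6, false), (.hi 0, false)], [(.full 8, false), (.full 2, false), (.str 0, false), (.full 3, true), (.lo 7, true)]]⟩,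
  ⟨6, 10, [[(.full 6, false), (.full 5, false), (.str 0, false), (.full 3, true), (.full 1, false), (.full 4, true), (.lo 8, true)], [(.hi 7, false)]]⟩,
  ⟨6, 10, [[(.full 6, false), (.full 0, false), (.str 0, true), (.full 2, true), (.lo 8, true)], [(.full 7, false), (.hi 3, false)]]⟩,
  ⟨6, 10, [[(.hi 6, false)], [(.full 7, false), (.full 1, false), (.full 4, true), (.full 2, false), (.str 0, false), (.full 0, true), (.hi 5, false)]]⟩,
  ⟨6, 10, [[(.full 6, false), (.full 0, false), (.str 0, true), (.full 2, true), (.lo 8, true)], [(.full 7, false), (.full 1, false), (.lo 4, true)]]⟩,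
  ⟨6, 10, [[(.full 6, false), (.full 0, false), (.str 0, true), (.full 2, true), (.full 4, false), (.full 1, true), (.hi 3, false)], [(.hi 7, false)]]⟩,
  ⟨6, 8, [[(.hi 7, false)], [(.full 8, false), (.full 4, false), (.full 1, true), (.full 3, false), (.str 0, true), (.full 5, true), (.lo 6, true)]]⟩,
  ⟨6, 8, [[(.full 7, false), (.hi 3, false)], [(.full 8, false), (.full 2, false), (.str 0, false), (.full 0, true), (.lo 6, true)]]⟩,
  ⟨6, 8, [[(.full 7, false), (.hi 3, false)], [(.full 8, false), (.full 2, false), (.str 0, false), (.full 0, true), (.hi 5, false)]]⟩,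
  ⟨6, 8, [[(.full 7, false), (.full 1, false), (.full 4, true), (.full 2, false), (.str 0, false), (.full 0, true), (.lo 6, true)], [(.hi 8, false)]]⟩,
  ⟨6, 7, [[(.full 6, false), (.full 0, false), (.str 0, true), (.full 2, true), (.full 4, false), (.full 1, true), (.full 7, true)]]⟩,
  ⟨6, 13, [[(.full 6, false), (.full 5, false), (.str 0, false), (.full 3, true), (.full 7, true)], [(.full 8, false), (.full 4, false), (.lo 1, true)]]⟩,
  ⟨6, 13, [[(.full 6, false), (.full 0, false), (.str 0, true), (.full 2, true), (.full 4, false), (.full 1, true), (.full 7, true)], [(.hi 8, false)]]⟩,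
  ⟨6, 11, [[(.full 7, false), (.full 3, false), (.str 0, true), (.full 2, true), (.full 8, true)], [(.full 6, false), (.hi 5, false)]]⟩,
  ⟨6, 11, [[(.full 7, false), (.full 1, false), (.full 4, true), (.full 8, true)], [(.full 6, false), (.full 5, false), (.str 0, false), (.lo 3, true)]]⟩,
  ⟨6, 11, [[(.full 7, false), (.full 1, false), (.full 4, true), (.full 8, true)], [(.full 6, false), (.full 0, false), (.str 0, true), (.lo 2, true)]]⟩,
  ⟨6, 11, [[(.full 7, false), (.full 3, false), (.str 0, true), (.full 2, true), (.full 8, true)], [(.full 6, false), (.hi 0, false)]]⟩,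
  ⟨6, 12, [[(.full 6, false), (.full 5, false), (.str 0, false), (.full 3, true), (.full 1, false), (.full 4, true), (.full 8, true)], [(.hi 7, false)]]⟩,
  ⟨6, 12, [[(.full 6, false), (.full 0, false), (.str 0, true), (.full 2, true), (.full 8, true)], [(.full 7, false), (.hi 3, false)]]⟩,
  ⟨6, 12, [[(.full 6, false), (.full 0, false), (.str 0, true), (.full 2, true), (.full 8, true)], [(.full 7, false), (.full 1, false), (.lo 4, true)]]⟩,
  ⟨7, 8, [[(.full 7, false), (.full 3, false), (.str 0, true), (.full 4, true), (.full 2, false), (.full 5, true), (.lo 6, true)], [(.hi 8, false)]]⟩,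
  ⟨7, 8, [[(.full 7, false), (.full 1, false), (.str 0, false), (.full 0, true), (.lo 6, true)], [(.full 8, false), (.hi 4, false)]]⟩,
  ⟨7, 8, [[(.full 7, false), (.full 1, false), (.str 0, false), (.full 0, true), (.lo 6, true)], [(.full 8, false), (.full 2, false), (.lo 5, true)]]⟩,
  ⟨7, 8, [[(.full 7, false), (.full 1, false), (.str 0, false), (.full 0, true), (.full 5, false), (.full 2, true), (.hi 4, false)], [(.hi 8, false)]]⟩,
  ⟨7, 8, [[(.hi 7, false)], [(.full 8, false), (.full 2, false), (.full 5, true), (.full 0, false), (.str 0, true), (.full 1, true), (.hi 3, false)]]⟩,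
  ⟨7, 9, [[(.full 6, false), (.full 5, false), (.full 2, true), (.full 4, false), (.str 0, false), (.full 3, true), (.lo 7, true)], [(.hi 8, false)]]⟩,
  ⟨7, 9, [[(.full 6, false), (.full 0, false), (.str 0, true), (.full 1, true), (.lo 7, true)], [(.full 8, false), (.hi 4, false)]]⟩,
  ⟨7, 9, [[(.full 6, false), (.full 0, false), (.str 0, true), (.full 1, true), (.hi 3, false)], [(.full 8, false), (.hi 4, false)]]⟩,
  ⟨7, 9, [[(.hi 6, false)], [(.full 8, false), (.full 2, false), (.full 5, true), (.full 0, false), (.str 0, true), (.full 1, true), (.lo 7, true)]]⟩,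
  ⟨7, 3, [[(.full 7, false), (.full 1, false), (.str 0, false), (.full 0, true), (.full 5, false), (.full 2, true), (.lo 8, true)]]⟩,
  ⟨7, 10, [[(.full 6, false), (.full 5, false), (.full 2, true), (.lo 8, true)], [(.full 7, false), (.full 3, false), (.str 0, true), (.lo 4, true)]]⟩,
  ⟨7, 10, [[(.full 6, false), (.full 5, false), (.full 2, true), (.hi 4, false)], [(.full 7, false), (.full 1, false), (.str 0, false), (.lo 3, true)]]⟩,
  ⟨7, 10, [[(.full 6, false), (.full 0, false), (.str 0, true), (.full 4, true), (.full 2, false), (.lo 5, true)], [(.full 7, false), (.hi 3, false)]]⟩,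
  ⟨7, 10, [[(.hi 6, false)], [(.full 7, false), (.full 1, false), (.str 0, false), (.full 0, true), (.full 5, false), (.full 2, true), (.lo 8, true)]]⟩,
  ⟨7, 10, [[(.hi 6, false)], [(.full 7, false), (.full 1, false), (.str 0, false), (.full 0, true), (.full 5, false), (.full 2, true), (.hi 4, false)]]⟩,
  ⟨7, 10, [[(.full 6, false), (.full 0, false), (.str 0, true), (.full 4, true), (.lo 8, true)], [(.full 7, false), (.hi 1, false)]]⟩,
  ⟨7, 5, [[(.full 7, false), (.full 1, false), (.str 0, false), (.full 0, true), (.full 5, false), (.full 2, true), (.full 8, true)]]⟩,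
  ⟨7, 11, [[(.full 7, false), (.full 3, false), (.str 0, true), (.full 4, true), (.full 8, true)], [(.full 6, false), (.full 5, false), (.lo 2, true)]]⟩,
  ⟨7, 11, [[(.full 7, false), (.full 1, false), (.str 0, false), (.full 0, true), (.full 5, false), (.full 2, true), (.full 8, true)], [(.hi 6, false)]]⟩,
  ⟨7, 2, [[(.full 6, false), (.full 5, false), (.full 2, true), (.full 4, false), (.str 0, false), (.full 3, true), (.lo 7, true)]]⟩,
  ⟨7, 12, [[(.full 6, false), (.full 5, false), (.full 2, true), (.full 8, true)], [(.full 7, false), (.full 3, false), (.str 0, true), (.lo 4, true)]]⟩,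
  ⟨7, 12, [[(.full 6, false), (.full 5, false), (.full 2, true), (.full 8, true)], [(.full 7, false), (.full 1, false), (.str 0, false), (.lo 0, true)]]⟩,
  ⟨7, 7, [[(.full 6, false), (.full 5, false), (.full 2, true), (.full 4, false), (.str 0, false), (.full 3, true), (.full 7, true)]]⟩,
  ⟨7, 13, [[(.full 6, false), (.full 5, false), (.full 2, true), (.full 4, false), (.str 0, false), (.full 3, true), (.full 7, true)], [(.hi 8, false)]]⟩,
  ⟨7, 13, [[(.full 6, false), (.full 0, false), (.str 0, true), (.full 1, true), (.full 7, true)], [(.full 8, false), (.hi 4, false)]]⟩,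
  ⟨7, 13, [[(.full 6, false), (.full 0, false), (.str 0, true), (.full 1, true), (.full 7, true)], [(.full 8, false), (.full 2, false), (.lo 5, true)]]⟩,
  ⟨8, 9, [[(.full 6, false), (.full 0, false), (.full 3, true), (.full 1, false), (.str 0, true)], [(.full 8, false), (.full 2, false), (.str 1, true)]]⟩,
  ⟨8, 8, [[(.full 7, false), (.full 3, false), (.full 0, true), (.full 5, false), (.str 1, true)], [(.full 8, false), (.full 4, false), (.str 0, true)]]⟩,
  ⟨9, 10, [[(.full 6, false), (.full 0, false), (.str 0, true)], [(.full 7, false), (.full 1, false), (.full 4, true), (.full 2, false), (.str 1, true)]]⟩,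
  ⟨9, 9, [[(.full 6, false), (.full 5, false), (.str 1, true)], [(.full 8, false), (.full 4, false), (.full 1, true), (.full 3, false), (.str 0, true)]]⟩,
  ⟨10, 8, [[(.full 7, false), (.full 1, false), (.str 1, true)], [(.full 8, false), (.full 2, false), (.full 5, true), (.full 0, false), (.str 0, true)]]⟩,
  ⟨10, 10, [[(.full 6, false), (.full 5, false), (.full 2, true), (.full 4, false), (.str 1, true)], [(.full 7, false), (.full 3, false), (.str 0, true)]]⟩,
  ⟨11, 10, [[(.full 6, false), (.full 5, false), (.str 0, false), (.full 4, true), (.lo 8, true)], [(.full 7, false), (.full 3, false), (.str 1, true)]]⟩,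
  ⟨11, 12, [[(.full 6, false), (.full 5, false), (.str 0, false), (.full 4, true), (.full 8, true)], [(.full 7, false), (.full 3, false), (.str 1, true)]]⟩,
  ⟨11, 9, [[(.hi 6, false)], [(.full 8, false), (.full 4, false), (.str 0, true), (.full 5, true), (.full 0, false), (.str 1, true)]]⟩,
  ⟨11, 11, [[(.full 7, false), (.full 1, false), (.str 0, true), (.full 2, true), (.full 8, true)], [(.full 6, false), (.full 0, false), (.str 1, true)]]⟩,
  ⟨12, 9, [[(.full 6, false), (.full 5, false), (.str 0, false), (.full 3, true), (.lo 7, true)], [(.full 8, false), (.full 4, false), (.str 1, true)]]⟩,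
  ⟨12, 8, [[(.full 7, false), (.full 3, false), (.str 0, true), (.full 5, true), (.lo 6, true)], [(.full 8, false), (.full 4, false), (.str 1, true)]]⟩,
  ⟨12, 8, [[(.full 7, false), (.full 3, false), (.str 0, true), (.full 2, true), (.full 4, false), (.str 1, true)], [(.hi 8, false)]]⟩,
  ⟨12, 13, [[(.full 6, false), (.full 5, false), (.str 0, false), (.full 3, true), (.full 7, true)], [(.full 8, false), (.full 4, false), (.str 1, true)]]⟩,
  ⟨13, 10, [[(.full 6, false), (.full 5, false), (.str 1, true)], [(.full 7, false), (.full 1, false), (.str 0, false), (.lo 3, true)]]⟩]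

def CHEX : List ℕ := [15315389187584835305909112670, 327392335375838793213406330558, 90171349532725188635195588334, 618567940588058350422318763854, 306669929014641538731320567070, 544592058015825240936031351726, 554248947919843866486770237436, 628699454602055184711191296506, 316214942250158051095868334070, 633825300114114700748200464222, 633825300114022270028484706238, 633820454910186583518930272238, 554597137599850363154807652350, 628873539956973179648755105790, 316912650057057350374175801342, 0, 0, 0]

def RQHEX : List ℕ := [1, 0, 151115727451828646838272, 147573952589676412928, 65536, 18889465931479654596608, 8388608, 1208925819896104151416832, 119190414416380925136133292034, 24932886242082693193127694212, 318846949962758800395364003848, 9903633651112408074325852176, 2476786773187673100929466400, 158473249990004968846333575232]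

def FHEX : List (List (ℕ × ℕ)) := [[(16381, 633825300114114700748351602687)], [(16232, 633805957301289097057708015520), (16292, 633825300113826470380789825424), (16336, 633825300114114700739761668160)], [(16160, 633805957301000866690146238336), (16192, 633805957301289097049118081024), (16256, 633825300113826470372199890944)], [(16128, 633805957301000866681556303872)], [(1792, 1218597226171546208103825408)], [(768, 290142196707511001929482240), (1280, 986483468805537406560239616), (1536, 1160568786830044007717928960)], [(256, 58028439341502200385896448), (512, 232113757366008801543585792), (1024, 928455029464035206174343168)]]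

theorem chkHEX : Chk HEX tabHEX FHEX famL RQHEX CHEX := by decide +kernel

theorem goodHEX : good FHEX famL RQHEX 0 633825300114114700748351602687 = true := by decide +kernel

theorem dfsHEX : dfs (good FHEX famL RQHEX) CHEX (marks HEX) 0 633825300114114700748351602687 = true := by decide +kernel

/-- table for the gadget CLOSE -/
def tabCLOSE : List Entry := [
  ⟨8, 1, [[(.str 0, false), (.full 1, true), (.full 2, false), (.str 1, true)]]⟩,
  ⟨9, 1, [[(.str 0, false), (.full 0, true), (.full 2, false), (.str 1, true)]]⟩,
  ⟨10, 1, [[(.str 0, false), (.full 0, true), (.full 1, false), (.str 1, true)]]⟩,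
  ⟨13, 1, [[(.str 1, false), (.full 2, true), (.full 0, false), (.str 0, true), (.lo 1, true)]]⟩]

def CCLOSE : List ℕ := [14, 13, 11, 14, 13, 11, 15, 0, 0, 0]

def RQCLOSE : List ℕ := [0, 15, 0, 0, 0, 0, 0, 0, 0, 0, 0, 0, 0, 0]

def FCLOSE : List (List (ℕ × ℕ)) := [[(16381, 15)], [(16232, 15), (16292, 15), (16336, 15)], [(16160, 15), (16192, 15), (16256, 15)], [(16128, 15)], [(1792, 7)], [(768, 3), (1280, 5), (1536, 6)], [(256, 1), (512, 2), (1024, 4)]]

theorem chkCLOSE : Chk CLOSE tabCLOSE FCLOSE famI RQCLOSE CCLOSE := by decide +kernel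

theorem goodCLOSE : good FCLOSE famI RQCLOSE 0 15 = true := by decide +kernel

theorem dfsCLOSE : dfs (good FCLOSE famI RQCLOSE) CCLOSE (marks CLOSE) 0 15 = true := by decide +kernel

end Pool.Agent.H742.AC6
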